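import Pool.Agent.P.MP_b53add_lc.RealDefs

set_option autoImplicit false

namespace Pool.Agent.P.MP_b53add_lc.Sp

open RealC

/-- the admissible clauses: a vertex of the expander and two of its neighbours -/
def InPool (c t n : ℕ) (C : Finset (Fin n × Bool)) : Prop :=
  ∃ (u v w : Fin n × Bool) (g g' : Fin t → Bool × Bool × Bool), C = {u, v, w} ∧
    blk (Nat.sqrt (n / c)) v.1 = walk g (blk (Nat.sqrt (n / c)) u.1) ∧
    blk (Nat.sqrt (n / c)) w.1 = walk g' (blk (Nat.sqrt (n / c)) u.1)

end Pool.Agent.P.MP_b53add_lc.Sp
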