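import Mathlib

set_option autoImplicit false

namespace Pool.Agent.P.MP_b53add_lc

/-- Some unbounded fan-in AND/OR/NOT circuit of depth at most `d` with at most `s` vertices decides
satisfiability of every 3-CNF formula on `n` variables whose clause-indicator vector satisfies
`P`. -/
def Solves (n d : ℕ) (s : ℝ)
    (P : ({c : Finset (Fin n × Bool) // c.card ≤ 3} → Bool) → Prop) : Prop :=
  ∃ (m : ℕ) (kind : Fin m → Fin 3)
      (predIn : Fin m → Finset {c : Finset (Fin n × Bool) // c.card ≤ 3})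
      (predG : Fin m → Finset (Fin m)) (o : Fin m),
    (∀ j : Fin m, ∀ k ∈ predG j, k < j) ∧
    (∀ j : Fin m, kind j = 2 → (predIn j).card + (predG j).card = 1) ∧
    (∀ j : Fin m, 1 ≤ (predIn j).card + (predG j).card) ∧
    (∃ lvl : Fin m → ℕ, (∀ j : Fin m, 1 ≤ lvl j) ∧
      (∀ j : Fin m, ∀ k ∈ predG j, lvl k + 1 ≤ lvl j) ∧ lvl o ≤ d) ∧
    ((Fintype.card {c : Finset (Fin n × Bool) // c.card ≤ 3} : ℝ) + (m : ℝ) ≤ s) ∧
    ∀ x : {c : Finset (Fin n × Bool) // c.card ≤ 3} → Bool, P x →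
      ((∃ v : Fin m → Bool,
        (∀ j : Fin m,
          (kind j = 0 → (v j = true ↔
            ((∃ i ∈ predIn j, x i = true) ∨ ∃ k ∈ predG j, v k = true))) ∧
          (kind j = 1 → (v j = true ↔
            ((∀ i ∈ predIn j, x i = true) ∧ ∀ k ∈ predG j, v k = true))) ∧
          (kind j = 2 → (v j = true ↔
            ¬ ((∀ i ∈ predIn j, x i = true) ∧ ∀ k ∈ predG j, v k = true)))) ∧
        v o = true) ↔
      ∃ a : Fin n → Bool, ∀ c : {c : Finset (Fin n × Bool) // c.card ≤ 3},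
        x c = true → ∃ l ∈ c.1, a l.1 = l.2)

end Pool.Agent.P.MP_b53add_lc
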