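import Pool.Agent.P.MP_b53add_lc.Main

set_option autoImplicit false

namespace Pool.Agent.P.MP_b53add_lc.AndTopOld

theorem and_top :
  ∃ δ : ℝ, 0 < δ ∧ ∀ n : ℕ,
    ¬ ∃ (m : ℕ) (kind : Fin m → Fin 3)
        (predIn : Fin m → Finset {c : Finset (Fin n × Bool) // c.card ≤ 3})
        (predG : Fin m → Finset (Fin m)) (o : Fin m),
      (∀ j : Fin m, ∀ k ∈ predG j, k < j) ∧
      (∀ j : Fin m, kind j = 2 → (predIn j).card + (predG j).card = 1) ∧
      (∃ lvl : Fin m → ℕ, (∀ j : Fin m, 1 ≤ lvl j) ∧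
        (∀ j : Fin m, ∀ k ∈ predG j, lvl k + 1 ≤ lvl j) ∧
        (lvl o ≤ 3 ∨ (lvl o ≤ 4 ∧ kind o = 1))) ∧
      ((Fintype.card {c : Finset (Fin n × Bool) // c.card ≤ 3} : ℝ) + (m : ℝ)
          ≤ (2 : ℝ) ^ (δ * (n : ℝ))) ∧
      ∀ x : {c : Finset (Fin n × Bool) // c.card ≤ 3} → Bool,
        ((∃ v : Fin m → Bool,
          (∀ j : Fin m,
            (kind j = 0 → (v j = true ↔
              ((∃ i ∈ predIn j, x i = true) ∨ ∃ k ∈ predG j, v k = true))) ∧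
            (kind j = 1 → (v j = true ↔
              ((∀ i ∈ predIn j, x i = true) ∧ ∀ k ∈ predG j, v k = true))) ∧
            (kind j = 2 → (v j = true ↔
              ¬ ((∀ i ∈ predIn j, x i = true) ∧ ∀ k ∈ predG j, v k = true)))) ∧
          v o = true) ↔
        ∃ a : Fin n → Bool, ∀ c : {c : Finset (Fin n × Bool) // c.card ≤ 3},
          x c = true → ∃ l ∈ c.1, a l.1 = l.2) := by
  refine ⟨1 / 16, by norm_num, fun n => ?_⟩
  rintro ⟨m, kind, predIn, predG, o, h1, h2, ⟨lvl, h3, h4, h5⟩, h6, h7⟩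
  exact absurd h6 (not_le.2 (Pool.Agent.P.MP_b53add_lc.lin_real (C := ⟨m, kind, predIn, predG, h1, h2⟩)
    (o := o) h7 (lvl := lvl) ⟨h3, h4⟩ h5))

end Pool.Agent.P.MP_b53add_lc.AndTopOld
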