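import Pool.Agent.P.MP_b53add_lc.Circuit

set_option autoImplicit false

namespace Pool.Agent.P.MP_b53add_lc

open Finset Classical

/-- circuits whose gates form an arbitrary finite type -/
structure GC (I : Type) where
  Γ : Type
  fin : Fintype Γ
  kind : Γ → Fin 3
  inp : Γ → Finset I
  prd : Γ → Finset Γ
  lvl : Γ → ℕ
  fan : ∀ j, kind j = 2 → (inp j).card + (prd j).card = 1
  pos : ∀ j, 1 ≤ (inp j).card + (prd j).card
  lvl1 : ∀ j, 1 ≤ lvl j
  lvlp : ∀ j, ∀ k ∈ prd j, lvl k + 1 ≤ lvl j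

variable {I : Type}

def GC.Sem (C : GC I) (ξ : I → Prop) (g : C.Γ → Prop) : Prop := ∀ j,
  (C.kind j = 0 → (g j ↔ (∃ i ∈ C.inp j, ξ i) ∨ ∃ k ∈ C.prd j, g k)) ∧
  (C.kind j = 1 → (g j ↔ (∀ i ∈ C.inp j, ξ i) ∧ ∀ k ∈ C.prd j, g k)) ∧
  (C.kind j = 2 → (g j ↔ ¬ ((∀ i ∈ C.inp j, ξ i) ∧ ∀ k ∈ C.prd j, g k)))

def Comp (d s : ℕ) (f : (I → Prop) → Prop) : Prop :=
  ∃ (C : GC I) (o : C.Γ), C.lvl o ≤ d ∧ @Fintype.card _ C.fin ≤ s ∧
    ∀ ξ g, C.Sem ξ g → (g o ↔ f ξ)

theorem Comp.mono {d s d' s' : ℕ} {f : (I → Prop) → Prop} (h : Comp d s f) (hd : d ≤ d')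
    (hs : s ≤ s') : Comp d' s' f := by
  obtain ⟨C, o, h1, h2, h3⟩ := h
  exact ⟨C, o, h1.trans hd, h2.trans hs, h3⟩

theorem Comp.congr {d s : ℕ} {f g : (I → Prop) → Prop} (h : Comp d s f) (e : ∀ ξ, g ξ ↔ f ξ) :
    Comp d s g := by
  have : g = f := funext fun y => propext (e y)
  rwa [this]

def oneGate (k : Fin 3) (S : Finset I) (h1 : 1 ≤ S.card) (h2 : k = 2 → S.card = 1) : GC I where
  Γ := Unit
  fin := inferInstance
  kind := fun _ => k
  inp := fun _ => S
  prd := fun _ => ∅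
  lvl := fun _ => 1
  fan := fun _ h => by simpa using h2 h
  pos := fun _ => by simpa using h1
  lvl1 := fun _ => le_rfl
  lvlp := fun _ _ h => by simp at h

theorem comp_gate_ex (S : Finset I) (h : S.Nonempty) : Comp 1 1 (fun ξ : I → Prop => ∃ i ∈ S, ξ i) :=
  ⟨oneGate 0 S (card_pos.2 h) (by simp), (), le_rfl, by simp [oneGate],
    fun ξ (g : Unit → Prop) hg => by
      have : g () ↔ (∃ i ∈ S, ξ i) ∨ ∃ k ∈ (∅ : Finset Unit), g k := (hg ()).1 rfl
      simpa using this⟩

theorem comp_gate_all (S : Finset I) (h : S.Nonempty) : Comp 1 1 (fun ξ : I → Prop => ∀ i ∈ S, ξ i) :=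
  ⟨oneGate 1 S (card_pos.2 h) (by simp), (), le_rfl, by simp [oneGate],
    fun ξ (g : Unit → Prop) hg => by
      have : g () ↔ (∀ i ∈ S, ξ i) ∧ ∀ k ∈ (∅ : Finset Unit), g k := (hg ()).2.1 rfl
      simpa using this⟩

theorem comp_gate_not (i : I) : Comp 1 1 (fun ξ : I → Prop => ¬ ξ i) :=
  ⟨oneGate 2 {i} (by simp) (by simp), (), le_rfl, by simp [oneGate],
    fun ξ (g : Unit → Prop) hg => by
      have : g () ↔ ¬ ((∀ i' ∈ ({i} : Finset I), ξ i') ∧ ∀ k ∈ (∅ : Finset Unit), g k) :=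
        (hg ()).2.2 rfl
      simpa using this⟩

theorem comp_subst {J : Type} [Fintype J] {d s d' s' : ℕ} {f : (J → Prop) → Prop}
    {g : J → (I → Prop) → Prop} (hf : Comp d s f) (hg : ∀ j, Comp d' s' (g j)) :
    Comp (d + d') (s + Fintype.card J * s') (fun ξ => f (fun j => g j ξ)) := by
  obtain ⟨C, o, h1, h2, h3⟩ := hf
  choose D od e1 e2 e3 using hg
  let := C.fin
  let : ∀ j, Fintype (D j).Γ := fun j => (D j).fin
  let Γ := (Σ j, (D j).Γ) ⊕ C.Γ
  let a : J ↪ Γ := ⟨fun j => Sum.inl ⟨j, od j⟩, fun j j' h => by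
    simp only [Γ, Sum.inl.injEq, Sigma.mk.injEq] at h; exact h.1⟩
  let b : C.Γ ↪ Γ := ⟨Sum.inr, Sum.inr_injective⟩
  let c : ∀ j, (D j).Γ ↪ Γ := fun j => ⟨fun γ => Sum.inl ⟨j, γ⟩, fun γ γ' h => by
    simpa [Γ] using h⟩
  have hdis : ∀ γ : C.Γ, Disjoint ((C.inp γ).map a) ((C.prd γ).map b) := by
    intro γ
    rw [Finset.disjoint_left]
    intro x hx hx'
    obtain ⟨j, -, rfl⟩ := mem_map.1 hx
    obtain ⟨k, -, hk⟩ := mem_map.1 hx'
    simp [a, b, Γ] at hk
  let E : GC I :=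
    { Γ := Γ
      fin := inferInstance
      kind := Sum.elim (fun p => (D p.1).kind p.2) C.kind
      inp := Sum.elim (fun p => (D p.1).inp p.2) (fun _ => ∅)
      prd := Sum.elim (fun p => ((D p.1).prd p.2).map (c p.1))
        (fun γ => ((C.inp γ).map a).disjUnion ((C.prd γ).map b) (hdis γ))
      lvl := Sum.elim (fun p => (D p.1).lvl p.2) (fun γ => C.lvl γ + d')
      fan := by
        rintro (⟨j, γ⟩ | γ) h
        · simpa using (D j).fan γ h
        · simpa [-disjUnion_eq_union] using C.fan γ h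
      pos := by
        rintro (⟨j, γ⟩ | γ)
        · simpa using (D j).pos γ
        · simpa [-disjUnion_eq_union] using C.pos γ
      lvl1 := by
        rintro (⟨j, γ⟩ | γ)
        · exact (D j).lvl1 γ
        · have := C.lvl1 γ
          simp only [Sum.elim_inr]; omega
      lvlp := by
        rintro (⟨j, γ⟩ | γ) k hk
        · obtain ⟨k', hk', rfl⟩ := mem_map.1 hk
          exact (D j).lvlp γ k' hk'
        · rcases (mem_disjUnion (h := hdis γ)).1 hk with hk | hk
          · obtain ⟨j, -, rfl⟩ := mem_map.1 hk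
            have := e1 j
            have := C.lvl1 γ
            change (D j).lvl (od j) + 1 ≤ C.lvl γ + d'
            omega
          · obtain ⟨k', hk', rfl⟩ := mem_map.1 hk
            have := C.lvlp γ k' hk'
            change C.lvl k' + d' + 1 ≤ C.lvl γ + d'
            omega }
  refine ⟨E, Sum.inr o, ?_, ?_, fun ξ v hv => ?_⟩
  · change C.lvl o + d' ≤ d + d'; omega
  · change Fintype.card ((Σ j, (D j).Γ) ⊕ C.Γ) ≤ _
    rw [Fintype.card_sum, Fintype.card_sigma]
    have := Finset.sum_le_card_nsmul univ (fun j => Fintype.card (D j).Γ) s' (fun j _ => e2 j)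
    simp only [card_univ, smul_eq_mul] at this
    omega
  · have hD : ∀ j, v (a j) ↔ g j ξ := by
      intro j
      apply e3 j ξ (fun γ => v (c j γ))
      intro γ
      have := hv (Sum.inl ⟨j, γ⟩)
      simp only [E, Sum.elim_inl, mem_map, exists_exists_and_eq_and, forall_exists_index,
        and_imp, forall_apply_eq_imp_iff₂] at this
      exact this
    have hfun : (fun j => g j ξ) = fun j => v (a j) := funext fun j => propext (hD j).symm
    beta_reduce
    rw [hfun]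
    apply h3 _ (fun γ => v (b γ))
    intro γ
    have := hv (Sum.inr γ)
    simp only [E, Sum.elim_inr, notMem_empty, false_and, exists_false, false_or, false_imp_iff,
      implies_true, true_and, mem_disjUnion, or_and_right, exists_or, or_imp, forall_and,
      mem_map, exists_exists_and_eq_and, forall_exists_index,
      and_imp, forall_apply_eq_imp_iff₂] at this
    exact this

theorem comp_inp (i : I) : Comp 1 1 (fun ξ : I → Prop => ξ i) :=
  (comp_gate_ex {i} (by simp)).congr fun ξ => by simp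

theorem Comp.not {d s : ℕ} {f : (I → Prop) → Prop} (h : Comp d s f) :
    Comp (d + 1) (s + 1) (fun ξ => ¬ f ξ) :=
  (comp_subst (J := Unit) (comp_gate_not ()) (g := fun _ => f) (fun _ => h)).mono (by omega)
    (by simp; omega)

theorem comp_ex {J : Type} [Fintype J] [Nonempty J] {d s : ℕ} {g : J → (I → Prop) → Prop}
    (hg : ∀ j, Comp d s (g j)) : Comp (d + 1) (1 + Fintype.card J * s) (fun ξ => ∃ j, g j ξ) :=
  ((comp_subst (comp_gate_ex univ univ_nonempty) hg).mono (by omega) le_rfl).congr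
    fun ξ => by simp

theorem comp_all {J : Type} [Fintype J] [Nonempty J] {d s : ℕ} {g : J → (I → Prop) → Prop}
    (hg : ∀ j, Comp d s (g j)) : Comp (d + 1) (1 + Fintype.card J * s) (fun ξ => ∀ j, g j ξ) :=
  ((comp_subst (comp_gate_all univ univ_nonempty) hg).mono (by omega) le_rfl).congr
    fun ξ => by simp

theorem comp_const [Nonempty I] (P : Prop) : Comp 3 5 (fun _ : I → Prop => P) := by
  obtain ⟨i⟩ := ‹Nonempty I›
  have h : ∀ b : Bool, Comp 2 2 (fun ξ : I → Prop => if b = true then ξ i else ¬ ξ i) := by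
    intro b; cases b
    · simpa using (comp_inp i).not
    · simpa using (comp_inp i).mono (by norm_num : 1 ≤ 2) (by norm_num : 1 ≤ 2)
  by_cases hP : P
  · refine (comp_ex h).congr fun ξ => ?_
    simp only [Bool.exists_bool, hP, true_iff]
    by_cases h : ξ i <;> simp [h]
  · refine (comp_all h).congr fun ξ => ?_
    simp only [Bool.forall_bool, hP, false_iff]
    by_cases h : ξ i <;> simp [h]

/-- small circuits: depth `d + 3`, size `B ^ (d + 3)` -/
def Sm (B d : ℕ) (f : (I → Prop) → Prop) : Prop := Comp (d + 3) (B ^ (d + 3)) f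

section Small

variable {B : ℕ}

theorem Sm.mono (hB : 4 ≤ B) {d d' : ℕ} {f : (I → Prop) → Prop} (h : Sm B d f) (hd : d ≤ d') :
    Sm B d' f := Comp.mono h (by omega) (Nat.pow_le_pow_right (by omega) (by omega))

theorem Sm.congr {d : ℕ} {f g : (I → Prop) → Prop} (h : Sm B d f) (e : ∀ ξ, g ξ ↔ f ξ) :
    Sm B d g := Comp.congr h e

theorem sm_const [Nonempty I] (hB : 4 ≤ B) (d : ℕ) (P : Prop) : Sm B d (fun _ : I → Prop => P) := by
  refine Sm.mono hB (d := 0) ((comp_const P).mono le_rfl ?_) (Nat.zero_le _)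
  calc 5 ≤ 4 ^ (0 + 3) := by norm_num
    _ ≤ _ := Nat.pow_le_pow_left hB _

theorem sm_inp (hB : 4 ≤ B) (d : ℕ) (i : I) : Sm B d (fun ξ : I → Prop => ξ i) :=
  (comp_inp i).mono (by omega) (Nat.one_le_pow _ _ (by omega))

theorem Sm.not (hB : 4 ≤ B) {d : ℕ} {f : (I → Prop) → Prop} (h : Sm B d f) :
    Sm B (d + 1) (fun ξ => ¬ f ξ) := by
  refine (Comp.not h).mono (by omega) ?_
  have : 1 ≤ B ^ (d + 3) := Nat.one_le_pow _ _ (by omega)
  rw [show d + 1 + 3 = d + 3 + 1 by omega, pow_succ B (d + 3)]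
  nlinarith

theorem sm_ex [Nonempty I] (hB : 4 ≤ B) {J : Type} [Fintype J] (hJ : Fintype.card J + 2 ≤ B) {d : ℕ}
    {g : J → (I → Prop) → Prop} (hg : ∀ j, Sm B d (g j)) : Sm B (d + 1) (fun ξ => ∃ j, g j ξ) := by
  have h := comp_ex (J := Option J) (d := d + 3) (s := B ^ (d + 3))
    (g := fun o => o.elim (fun _ => False) g) (by
      rintro (_ | j)
      · exact sm_const hB d False
      · exact hg j)
  refine (h.mono (by omega) ?_).congr fun ξ => by simp [Option.exists]
  have : 1 ≤ B ^ (d + 3) := Nat.one_le_pow _ _ (by omega)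
  rw [show d + 1 + 3 = d + 3 + 1 by omega, pow_succ B (d + 3), Fintype.card_option]
  nlinarith

theorem sm_all [Nonempty I] (hB : 4 ≤ B) {J : Type} [Fintype J] (hJ : Fintype.card J + 2 ≤ B) {d : ℕ}
    {g : J → (I → Prop) → Prop} (hg : ∀ j, Sm B d (g j)) : Sm B (d + 1) (fun ξ => ∀ j, g j ξ) := by
  have h := comp_all (J := Option J) (d := d + 3) (s := B ^ (d + 3))
    (g := fun o => o.elim (fun _ => True) g) (by
      rintro (_ | j)
      · exact sm_const hB d True
      · exact hg j)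
  refine (h.mono (by omega) ?_).congr fun ξ => by simp [Option.forall]
  have : 1 ≤ B ^ (d + 3) := Nat.one_le_pow _ _ (by omega)
  rw [show d + 1 + 3 = d + 3 + 1 by omega, pow_succ B (d + 3), Fintype.card_option]
  nlinarith

theorem Sm.and [Nonempty I] (hB : 4 ≤ B) {d : ℕ} {f g : (I → Prop) → Prop} (hf : Sm B d f)
    (hg : Sm B d g) : Sm B (d + 1) (fun ξ => f ξ ∧ g ξ) :=
  (sm_all hB (J := Bool) (by simpa using hB) (g := fun b => if b = true then f else g)
    (by intro b; cases b <;> simpa)).congr fun ξ => by simp [and_comm]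

theorem Sm.or [Nonempty I] (hB : 4 ≤ B) {d : ℕ} {f g : (I → Prop) → Prop} (hf : Sm B d f)
    (hg : Sm B d g) : Sm B (d + 1) (fun ξ => f ξ ∨ g ξ) :=
  (sm_ex hB (J := Bool) (by simpa using hB) (g := fun b => if b = true then f else g)
    (by intro b; cases b <;> simpa)).congr fun ξ => by simp [or_comm]

theorem Sm.guard [Nonempty I] (hB : 4 ≤ B) {d : ℕ} (P : Prop) {f : (I → Prop) → Prop}
    (hf : Sm B d f) : Sm B d (fun ξ => P ∧ f ξ) := by
  by_cases h : P
  · exact hf.congr fun ξ => by simp [h]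
  · exact (sm_const hB d False).congr fun ξ => by simp [h]

theorem Sm.guard_imp [Nonempty I] (hB : 4 ≤ B) {d : ℕ} (P : Prop) {f : (I → Prop) → Prop}
    (hf : Sm B d f) : Sm B d (fun ξ => P → f ξ) := by
  by_cases h : P
  · exact hf.congr fun ξ => by simp [h]
  · exact (sm_const hB d True).congr fun ξ => by simp [h]

/-- at least `θ` elements satisfy `P` -/
def AtLeast {A : Type} (θ : ℕ) (P : A → Prop) : Prop :=
  ∃ f : Fin θ → A, Function.Injective f ∧ ∀ i, P (f i)

theorem atLeast_iff {A : Type} {θ : ℕ} {P : A → Prop} :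
    AtLeast θ P ↔ ∃ S : Finset A, S.card = θ ∧ ∀ a ∈ S, P a := by
  constructor
  · rintro ⟨f, hf, h⟩
    refine ⟨univ.map ⟨f, hf⟩, by simp, fun a ha => ?_⟩
    obtain ⟨i, -, rfl⟩ := mem_map.1 ha
    exact h i
  · rintro ⟨S, rfl, h⟩
    exact ⟨fun i => (S.equivFin.symm i).1, fun i j e => S.equivFin.symm.injective (Subtype.ext e),
      fun i => h _ (S.equivFin.symm i).2⟩

theorem card_lt_of_not_atLeast {A : Type} {θ : ℕ} {P : A → Prop} (h : ¬ AtLeast θ P)
    (S : Finset A) (hS : ∀ a ∈ S, P a) : S.card < θ := by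
  by_contra hc
  obtain ⟨S', h1, h2⟩ := exists_subset_card_eq (not_lt.1 hc)
  exact h (atLeast_iff.2 ⟨S', h2, fun a ha => hS a (h1 ha)⟩)

theorem sm_atLeast [Nonempty I] (hB : 4 ≤ B) {A : Type} [Fintype A] {θ : ℕ}
    (h1 : Fintype.card A ^ θ + 2 ≤ B) (h2 : θ + 2 ≤ B) {d : ℕ}
    {g : A → (I → Prop) → Prop} (hg : ∀ a, Sm B d (g a)) :
    Sm B (d + 2) (fun ξ => AtLeast θ (fun a => g a ξ)) :=
  sm_ex hB (J := Fin θ → A) (by simpa using h1) fun f =>
    Sm.guard hB _ (sm_all hB (J := Fin θ) (by simpa using h2) fun i => hg (f i))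

end Small

/-- passing to a circuit with gates `Fin m` in topological order -/
theorem Comp.toCirc {d s : ℕ} {f : (I → Prop) → Prop} (h : Comp d s f) :
    ∃ (C : Circ I) (o : Fin C.m) (lvl : Fin C.m → ℕ),
      (∀ j, 1 ≤ (C.inp j).card + (C.prd j).card) ∧ (∀ j, 1 ≤ lvl j) ∧
      (∀ j, ∀ k ∈ C.prd j, lvl k + 1 ≤ lvl j) ∧ lvl o ≤ d ∧ C.m ≤ s ∧
      ∀ ξ g, C.Sem ξ g → (g o ↔ f ξ) := by
  obtain ⟨C, o, h1, h2, h3⟩ := h
  let := C.fin
  let key : C.Γ → ℕ ×ₗ ℕ := fun γ => toLex (C.lvl γ, (Fintype.equivFin C.Γ γ : ℕ))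
  have hkey : Function.Injective key := by
    intro a b h
    have := congrArg (fun p => (ofLex p).2) h
    exact (Fintype.equivFin C.Γ).injective (Fin.ext this)
  let : LinearOrder C.Γ := LinearOrder.lift' key hkey
  let e : Fin (Fintype.card C.Γ) ≃o C.Γ := Fintype.orderIsoFinOfCardEq C.Γ rfl
  let D : Circ I :=
    { m := Fintype.card C.Γ
      kind := fun j => C.kind (e j)
      inp := fun j => C.inp (e j)
      prd := fun j => (C.prd (e j)).map e.symm.toEquiv.toEmbedding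
      acyc := by
        intro j k hk
        obtain ⟨k', hk', rfl⟩ := mem_map.1 hk
        have h4 := C.lvlp _ _ hk'
        have h5 : k' < e j := by
          change key k' < key (e j)
          exact Prod.Lex.toLex_lt_toLex.2 (Or.inl (by simpa using h4))
        have := e.symm.strictMono h5
        simpa using this
      fan := fun j hj => by simpa using C.fan (e j) hj }
  refine ⟨D, e.symm o, fun j => C.lvl (e j), fun j => ?_, fun j => C.lvl1 _, ?_, ?_, h2,
    fun ξ g hg => ?_⟩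
  · simpa [D] using C.pos (e j)
  · intro j k hk
    obtain ⟨k', hk', rfl⟩ := mem_map.1 hk
    simpa using C.lvlp _ _ hk'
  · simpa using h1
  · apply h3 ξ (fun γ => g (e.symm γ))
    intro γ
    have := hg (e.symm γ)
    simp only [Circ.Eqn, D, OrderIso.apply_symm_apply, mem_map, exists_exists_and_eq_and,
      forall_exists_index, and_imp, forall_apply_eq_imp_iff₂] at this
    exact this

theorem Circ.comp (C : Circ I) (o : Fin C.m) (lvl : Fin C.m → ℕ)
    (hpos : ∀ j, 1 ≤ (C.inp j).card + (C.prd j).card) (h1 : ∀ j, 1 ≤ lvl j)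
    (h2 : ∀ j, ∀ k ∈ C.prd j, lvl k + 1 ≤ lvl j) :
    Comp (lvl o) C.m (fun ξ => ∃ g, C.Sem ξ g ∧ g o) := by
  refine ⟨⟨Fin C.m, inferInstance, C.kind, C.inp, C.prd, lvl, C.fan, hpos, h1, h2⟩, o, le_rfl,
    by simp, fun ξ g hg => ⟨fun h => ⟨g, hg, h⟩, ?_⟩⟩
  rintro ⟨g', hg', h⟩
  exact (Circ.sem_unique (C := C) hg' hg o).2 h

end Pool.Agent.P.MP_b53add_lc
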