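import Pool.Agent.P.MP_b53add_lc.Round

set_option autoImplicit false

namespace Pool.Agent.P.MP_b53add_lc

open Finset Classical

structure Circ (I : Type) where
  m : ℕ
  kind : Fin m → Fin 3
  inp : Fin m → Finset I
  prd : Fin m → Finset (Fin m)
  acyc : ∀ j, ∀ k ∈ prd j, k < j
  fan : ∀ j, kind j = 2 → (inp j).card + (prd j).card = 1

variable {I : Type}

def Circ.Eqn (C : Circ I) (ξ : I → Prop) (g : Fin C.m → Prop) (j : Fin C.m) : Prop :=
  (C.kind j = 0 → (g j ↔ (∃ i ∈ C.inp j, ξ i) ∨ ∃ k ∈ C.prd j, g k)) ∧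
  (C.kind j = 1 → (g j ↔ (∀ i ∈ C.inp j, ξ i) ∧ ∀ k ∈ C.prd j, g k)) ∧
  (C.kind j = 2 → (g j ↔ ¬ ((∀ i ∈ C.inp j, ξ i) ∧ ∀ k ∈ C.prd j, g k)))

def Circ.Sem (C : Circ I) (ξ : I → Prop) (g : Fin C.m → Prop) : Prop := ∀ j, C.Eqn ξ g j

theorem fin3_cases (a : Fin 3) : a = 0 ∨ a = 1 ∨ a = 2 := by
  revert a; decide

theorem Circ.Eqn.congr {C : Circ I} {ξ : I → Prop} {g g' : Fin C.m → Prop} {j : Fin C.m}
    (h : C.Eqn ξ g j) (hj : g' j ↔ g j) (hk : ∀ k ∈ C.prd j, (g' k ↔ g k)) : C.Eqn ξ g' j := by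
  have e1 : (∃ k ∈ C.prd j, g' k) ↔ ∃ k ∈ C.prd j, g k :=
    ⟨fun ⟨k, a, b⟩ => ⟨k, a, (hk k a).1 b⟩, fun ⟨k, a, b⟩ => ⟨k, a, (hk k a).2 b⟩⟩
  have e2 : (∀ k ∈ C.prd j, g' k) ↔ ∀ k ∈ C.prd j, g k :=
    ⟨fun a k b => (hk k b).1 (a k b), fun a k b => (hk k b).2 (a k b)⟩
  unfold Circ.Eqn at h ⊢
  rw [e1, e2, hj]
  exact h

theorem Circ.exists_sem (C : Circ I) (ξ : I → Prop) : ∃ g, C.Sem ξ g := by
  have : ∀ r : ℕ, ∃ g : Fin C.m → Prop, ∀ j : Fin C.m, j.val < r → C.Eqn ξ g j := by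
    intro r
    induction r with
    | zero => exact ⟨fun _ => True, fun j hj => absurd hj (by omega)⟩
    | succ r ih =>
      obtain ⟨g, hg⟩ := ih
      let g' : Fin C.m → Prop := fun j => if j.val = r then
        (if C.kind j = 0 then (∃ i ∈ C.inp j, ξ i) ∨ ∃ k ∈ C.prd j, g k
        else if C.kind j = 1 then (∀ i ∈ C.inp j, ξ i) ∧ ∀ k ∈ C.prd j, g k
        else ¬ ((∀ i ∈ C.inp j, ξ i) ∧ ∀ k ∈ C.prd j, g k)) else g j
      have hlow : ∀ j : Fin C.m, j.val ≤ r → ∀ k ∈ C.prd j, (g' k ↔ g k) := by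
        intro j hj k hk
        have := C.acyc j k hk
        have h2 : k.val ≠ r := by have : k.val < j.val := this; omega
        simp [g', h2]
      refine ⟨g', fun j hj => ?_⟩
      by_cases hr : j.val = r
      · have e1 : (∃ k ∈ C.prd j, g' k) ↔ ∃ k ∈ C.prd j, g k :=
          ⟨fun ⟨k, a, b⟩ => ⟨k, a, (hlow j hr.le k a).1 b⟩,
            fun ⟨k, a, b⟩ => ⟨k, a, (hlow j hr.le k a).2 b⟩⟩
        have e2 : (∀ k ∈ C.prd j, g' k) ↔ ∀ k ∈ C.prd j, g k :=
          ⟨fun a k b => (hlow j hr.le k b).1 (a k b), fun a k b => (hlow j hr.le k b).2 (a k b)⟩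
        unfold Circ.Eqn
        rw [e1, e2]
        refine ⟨fun h => ?_, fun h => ?_, fun h => ?_⟩
        · simp only [g', hr, if_true, h]
        · simp only [g', hr, if_true, h]; simp
        · simp only [g', hr, if_true, h]; simp
      · exact (hg j (by omega)).congr (by simp [g', hr]) (hlow j (by omega))
  obtain ⟨g, hg⟩ := this C.m
  exact ⟨g, fun j => hg j j.2⟩

theorem Circ.sem_unique {C : Circ I} {ξ : I → Prop} {g g' : Fin C.m → Prop} (h : C.Sem ξ g)
    (h' : C.Sem ξ g') (j : Fin C.m) : g' j ↔ g j := by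
  induction j using (wellFounded_lt (α := Fin C.m)).induction with
  | _ j ih =>
  have hk : ∀ k ∈ C.prd j, (g' k ↔ g k) := fun k hk => ih k (C.acyc j k hk)
  have e1 : (∃ k ∈ C.prd j, g' k) ↔ ∃ k ∈ C.prd j, g k :=
    ⟨fun ⟨k, a, b⟩ => ⟨k, a, (hk k a).1 b⟩, fun ⟨k, a, b⟩ => ⟨k, a, (hk k a).2 b⟩⟩
  have e2 : (∀ k ∈ C.prd j, g' k) ↔ ∀ k ∈ C.prd j, g k :=
    ⟨fun a k b => (hk k b).1 (a k b), fun a k b => (hk k b).2 (a k b)⟩
  obtain ⟨a0, a1, a2⟩ := h j
  obtain ⟨b0, b1, b2⟩ := h' j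
  rcases fin3_cases (C.kind j) with hc | hc | hc
  · rw [a0 hc, b0 hc, e1]
  · rw [a1 hc, b1 hc, e2]
  · rw [a2 hc, b2 hc, e2]

/-- nodes: inputs and gates -/
def Circ.Child (C : Circ I) (j : Fin C.m) : I ⊕ Fin C.m → Prop
  | Sum.inl i => i ∈ C.inp j
  | Sum.inr k => k ∈ C.prd j

theorem Circ.Sem.ex {C : Circ I} {ξ : I → Prop} {g : Fin C.m → Prop} (h : C.Sem ξ g)
    {j : Fin C.m} (hj : C.kind j = 0) : g j ↔ ∃ u, C.Child j u ∧ Sum.elim ξ g u := by
  rw [(h j).1 hj]; simp [Circ.Child]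

theorem Circ.Sem.all {C : Circ I} {ξ : I → Prop} {g : Fin C.m → Prop} (h : C.Sem ξ g)
    {j : Fin C.m} (hj : C.kind j = 1) : g j ↔ ∀ u, C.Child j u → Sum.elim ξ g u := by
  rw [(h j).2.1 hj]; simp [Circ.Child]

theorem Circ.neg_child (C : Circ I) {j : Fin C.m} (hj : C.kind j = 2) :
    ∃ u, C.Child j u ∧ ∀ (ξ : I → Prop) (g : Fin C.m → Prop), C.Sem ξ g →
      (g j ↔ ¬ Sum.elim ξ g u) := by
  have hf := C.fan j hj
  rcases Nat.eq_zero_or_pos (C.inp j).card with h0 | h0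
  · obtain ⟨k, hk⟩ := card_eq_one.1 (by omega : (C.prd j).card = 1)
    have hi : C.inp j = ∅ := card_eq_zero.1 h0
    refine ⟨Sum.inr k, by simp [Circ.Child, hk], fun ξ g h => ?_⟩
    rw [(h j).2.2 hj, hi, hk]; simp
  · obtain ⟨i, hi⟩ := card_eq_one.1 (by omega : (C.inp j).card = 1)
    have hk : C.prd j = ∅ := card_eq_zero.1 (by omega)
    refine ⟨Sum.inl i, by simp [Circ.Child, hi], fun ξ g h => ?_⟩
    rw [(h j).2.2 hj, hi, hk]; simp

/-- the circuit with AND and OR exchanged -/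
def Circ.dual (C : Circ I) : Circ I where
  m := C.m
  kind := fun j => if C.kind j = 0 then 1 else if C.kind j = 1 then 0 else 2
  inp := C.inp
  prd := C.prd
  acyc := C.acyc
  fan := fun j hj => C.fan j (by
    rcases fin3_cases (C.kind j) with h | h | h
    · simp [h] at hj
    · simp [h] at hj
    · exact h)

theorem Circ.Sem.dual {C : Circ I} {ξ : I → Prop} {g : Fin C.m → Prop} (h : C.Sem ξ g) :
    C.dual.Sem (fun i => ¬ ξ i) (fun j => ¬ g j) := by
  intro j
  obtain ⟨a0, a1, a2⟩ := h j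
  rcases fin3_cases (C.kind j) with hc | hc | hc
  · refine ⟨fun h => ?_, fun _ => ?_, fun h => ?_⟩
    · simp [Circ.dual, hc] at h
    · change ¬ g j ↔ (∀ i ∈ C.inp j, ¬ ξ i) ∧ ∀ k ∈ C.prd j, ¬ g k
      rw [a0 hc]; push Not; rfl
    · simp [Circ.dual, hc] at h
  · refine ⟨fun _ => ?_, fun h => ?_, fun h => ?_⟩
    · change ¬ g j ↔ (∃ i ∈ C.inp j, ¬ ξ i) ∨ ∃ k ∈ C.prd j, ¬ g k
      rw [a1 hc, not_and_or]; push Not; rfl
    · simp [Circ.dual, hc] at h
    · simp [Circ.dual, hc] at h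
  · refine ⟨fun h => ?_, fun h => ?_, fun _ => ?_⟩
    · simp [Circ.dual, hc] at h
    · simp [Circ.dual, hc] at h
    · change ¬ g j ↔ ¬ ((∀ i ∈ C.inp j, ¬ ξ i) ∧ ∀ k ∈ C.prd j, ¬ g k)
      have hf := C.fan j hc
      rw [a2 hc]
      rcases Nat.eq_zero_or_pos (C.inp j).card with h0 | h0
      · obtain ⟨k, hk⟩ := card_eq_one.1 (by omega : (C.prd j).card = 1)
        have hi : C.inp j = ∅ := card_eq_zero.1 h0
        rw [hi, hk]; simp
      · obtain ⟨i, hi⟩ := card_eq_one.1 (by omega : (C.inp j).card = 1)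
        have hk : C.prd j = ∅ := card_eq_zero.1 (by omega)
        rw [hi, hk]; simp

/-- signed nodes -/
def sv {X : Type} {m : ℕ} (ξ : (X → Bool) → I → Prop) (G : (X → Bool) → Fin m → Prop)
    (q : (I ⊕ Fin m) × Bool) (y : X → Bool) : Prop :=
  if q.2 = true then Sum.elim (ξ y) (G y) q.1 else ¬ Sum.elim (ξ y) (G y) q.1

theorem sv_true {X : Type} {m : ℕ} (ξ : (X → Bool) → I → Prop) (G : (X → Bool) → Fin m → Prop)
    (u : I ⊕ Fin m) (y : X → Bool) : sv ξ G (u, true) y ↔ Sum.elim (ξ y) (G y) u := by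
  simp [sv]

theorem sv_false {X : Type} {m : ℕ} (ξ : (X → Bool) → I → Prop) (G : (X → Bool) → Fin m → Prop)
    (u : I ⊕ Fin m) (y : X → Bool) : sv ξ G (u, false) y ↔ ¬ Sum.elim (ξ y) (G y) u := by
  simp [sv]

theorem Sig.self {X Pl : Type} {Z : Pl → Prop} {pool : Pl → (X → Bool) → Prop} {q : Pl}
    (hq : Z q) {h : (X → Bool) → Prop} (hh : ∀ y, h y ↔ pool q y) : Sig Z pool h :=
  fun y hy => ⟨q, hq, (hh y).1 hy, fun y' h' => (hh y').2 h'⟩

theorem Sig.cover {X Pl : Type} {Z : Pl → Prop} {pool : Pl → (X → Bool) → Prop}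
    {h : (X → Bool) → Prop}
    (hh : ∀ y, h y → ∃ g : (X → Bool) → Prop, Sig Z pool g ∧ g y ∧ ∀ y', g y' → h y') :
    Sig Z pool h := fun y hy => by
  obtain ⟨g, hg, hgy, hgh⟩ := hh y hy
  obtain ⟨q, h1, h2, h3⟩ := hg y hgy
  exact ⟨q, h1, h2, fun y' h' => hgh y' (h3 y' h')⟩

theorem Sig.congr {X Pl : Type} {Z : Pl → Prop} {pool : Pl → (X → Bool) → Prop}
    {h h' : (X → Bool) → Prop} (hh : Sig Z pool h) (e : ∀ y, h' y ↔ h y) : Sig Z pool h' := by
  have : h' = h := funext fun y => propext (e y)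
  rwa [this]

/-! ### depth counted without the NOT gates -/

/-- level function that ignores NOT gates -/
def Circ.FreeLvl (C : Circ I) (lvl : Fin C.m → ℕ) : Prop :=
  (∀ j, C.kind j ≠ 2 → 1 ≤ lvl j) ∧
    ∀ j, ∀ k ∈ C.prd j, lvl k + (if C.kind j = 2 then 0 else 1) ≤ lvl j

def Circ.Inv (C : Circ I) (lvl : Fin C.m → ℕ) {X : Type} (ξ : (X → Bool) → I → Prop)
    (G : (X → Bool) → Fin C.m → Prop) (a w : ℕ) : Prop :=
  (∀ y, C.Sem (ξ y) (G y)) ∧ (∀ i, Cert w (fun y => ξ y i)) ∧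
    ∀ j, lvl j ≤ a → Cert w (fun y => G y j)

section Free

variable {C : Circ I} {lvl : Fin C.m → ℕ} {X : Type} {ξ : (X → Bool) → I → Prop}
  {G : (X → Bool) → Fin C.m → Prop}

theorem inv_zero (hl : C.FreeLvl lvl) {w : ℕ} (hs : ∀ y, C.Sem (ξ y) (G y))
    (hi : ∀ i, Cert w (fun y => ξ y i)) : C.Inv lvl ξ G 0 w := by
  refine ⟨hs, hi, fun j => ?_⟩
  induction j using (wellFounded_lt (α := Fin C.m)).induction with
  | _ j ih =>
  intro hj
  have h2 : C.kind j = 2 := by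
    by_contra h; have := hl.1 j h; omega
  obtain ⟨u, hu, hu'⟩ := C.neg_child h2
  rcases u with i | k
  · exact (hi i).not.congr fun y => hu' _ _ (hs y)
  · have := hl.2 j k hu
    exact (ih k (C.acyc j k hu) (by omega)).not.congr fun y => hu' _ _ (hs y)

theorem child_cert (hl : C.FreeLvl lvl) {a w : ℕ} (h : C.Inv lvl ξ G a w) {j : Fin C.m}
    (hj : lvl j ≤ a + 1) (h2 : C.kind j ≠ 2) {u : I ⊕ Fin C.m} (hu : C.Child j u) :
    Cert w (fun y => Sum.elim (ξ y) (G y) u) := by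
  rcases u with i | k
  · exact h.2.1 i
  · have := hl.2 j k hu
    rw [if_neg h2] at this
    exact h.2.2 k (by omega)

theorem next_level (hl : C.FreeLvl lvl) {a w : ℕ} (h : C.Inv lvl ξ G a w) (j : Fin C.m) :
    lvl j ≤ a + 1 → Cert1 w (fun y => G y j) ∨ Cert1 w (fun y => ¬ G y j) := by
  induction j using (wellFounded_lt (α := Fin C.m)).induction with
  | _ j ih =>
  intro hj
  rcases fin3_cases (C.kind j) with hc | hc | hc
  · left
    apply cert1_of_cover
    intro y hy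
    obtain ⟨u, hu, hu'⟩ := ((h.1 y).ex hc).1 hy
    exact ⟨_, (child_cert hl h hj (by simp [hc]) hu).cert1, hu',
      fun y' h' => ((h.1 y').ex hc).2 ⟨u, hu, h'⟩⟩
  · right
    apply cert1_of_cover
    intro y hy
    rw [(h.1 y).all hc] at hy
    push Not at hy
    obtain ⟨u, hu, hu'⟩ := hy
    exact ⟨_, (child_cert hl h hj (by simp [hc]) hu).not.cert1, hu',
      fun y' h' h'' => h' (((h.1 y').all hc).1 h'' u hu)⟩
  · obtain ⟨u, hu, hu'⟩ := C.neg_child hc
    rcases u with i | k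
    · left
      exact ((h.2.1 i).not.congr fun y => hu' _ _ (h.1 y)).cert1
    · have := hl.2 j k hu
      rcases ih k (C.acyc j k hu) (by omega) with h1 | h1
      · right
        exact h1.congr fun y => by rw [hu' _ _ (h.1 y)]; simp
      · left
        exact h1.congr fun y => hu' _ _ (h.1 y)

theorem sig_next (hl : C.FreeLvl lvl) {a w : ℕ} (h : C.Inv lvl ξ G a w) (j : Fin C.m) :
    lvl j ≤ a + 1 → ∀ b, Sig (fun q => Cert1 w (fun y => ¬ sv ξ G q y)) (sv ξ G)
      (sv ξ G (Sum.inr j, b)) := by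
  induction j using (wellFounded_lt (α := Fin C.m)).induction with
  | _ j ih =>
  intro hj b
  rcases fin3_cases (C.kind j) with hc | hc | hc
  · cases b
    · refine Sig.self (q := (Sum.inr j, false)) ?_ (fun y => Iff.rfl)
      apply cert1_of_cover
      intro y hy
      simp only [sv_false, not_not, Sum.elim_inr] at hy ⊢
      obtain ⟨u, hu, hu'⟩ := ((h.1 y).ex hc).1 hy
      exact ⟨_, (child_cert hl h hj (by simp [hc]) hu).cert1, hu',
        fun y' h' => ((h.1 y').ex hc).2 ⟨u, hu, h'⟩⟩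
    · intro y hy
      simp only [sv_true, Sum.elim_inr] at hy ⊢
      obtain ⟨u, hu, hu'⟩ := ((h.1 y).ex hc).1 hy
      refine ⟨(u, true), ?_, by simpa [sv_true] using hu', fun y' h' => ?_⟩
      · simp only [sv_true]
        exact (child_cert hl h hj (by simp [hc]) hu).not.cert1
      · exact ((h.1 y').ex hc).2 ⟨u, hu, by simpa [sv_true] using h'⟩
  · cases b
    · intro y hy
      simp only [sv_false, Sum.elim_inr] at hy ⊢
      rw [(h.1 y).all hc] at hy
      push Not at hy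
      obtain ⟨u, hu, hu'⟩ := hy
      refine ⟨(u, false), ?_, by simpa [sv_false] using hu', fun y' h' h'' => ?_⟩
      · simp only [sv_false]
        exact (child_cert hl h hj (by simp [hc]) hu).not.not.cert1
      · rw [sv_false] at h'
        exact h' (((h.1 y').all hc).1 h'' u hu)
    · refine Sig.self (q := (Sum.inr j, true)) ?_ (fun y => Iff.rfl)
      apply cert1_of_cover
      intro y hy
      simp only [sv_true, Sum.elim_inr] at hy ⊢
      rw [(h.1 y).all hc] at hy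
      push Not at hy
      obtain ⟨u, hu, hu'⟩ := hy
      exact ⟨_, (child_cert hl h hj (by simp [hc]) hu).not.cert1, hu',
        fun y' h' h'' => h' (((h.1 y').all hc).1 h'' u hu)⟩
  · obtain ⟨u, hu, hu'⟩ := C.neg_child hc
    rcases u with i | k
    · refine Sig.self (q := (Sum.inr j, b)) ?_ (fun y => Iff.rfl)
      have h1 : Cert w (fun y => G y j) := (h.2.1 i).not.congr fun y => hu' _ _ (h.1 y)
      cases b
      · simp only [sv_false]; exact h1.not.not.cert1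
      · simp only [sv_true]; exact h1.not.cert1
    · have := hl.2 j k hu
      refine (ih k (C.acyc j k hu) (by omega) (!b)).congr fun y => ?_
      have := hu' _ _ (h.1 y)
      cases b
      · simp only [sv_false, Bool.not_false, sv_true, Sum.elim_inr] at this ⊢
        rw [this]; simp
      · simp only [sv_false, Bool.not_true, sv_true, Sum.elim_inr] at this ⊢
        exact this

theorem sig_top (hl : C.FreeLvl lvl) {a w : ℕ} (h : C.Inv lvl ξ G a w) (j : Fin C.m) :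
    lvl j ≤ a + 2 → ∃ b, Sig (fun q => Cert1 w (fun y => ¬ sv ξ G q y)) (sv ξ G)
      (sv ξ G (Sum.inr j, b)) := by
  have hinp : ∀ i b, Sig (fun q => Cert1 w (fun y => ¬ sv ξ G q y)) (sv ξ G)
      (sv ξ G (Sum.inl i, b)) := by
    intro i b
    refine Sig.self (q := (Sum.inl i, b)) ?_ (fun y => Iff.rfl)
    cases b
    · simp only [sv_false]; exact (h.2.1 i).not.not.cert1
    · simp only [sv_true]; exact (h.2.1 i).not.cert1
  induction j using (wellFounded_lt (α := Fin C.m)).induction with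
  | _ j ih =>
  intro hj
  have hch : C.kind j ≠ 2 → ∀ u, C.Child j u → ∀ b,
      Sig (fun q => Cert1 w (fun y => ¬ sv ξ G q y)) (sv ξ G) (sv ξ G (u, b)) := by
    intro h2 u hu b
    rcases u with i | k
    · exact hinp i b
    · have := hl.2 j k hu
      rw [if_neg h2] at this
      exact sig_next hl h k (by omega) b
  rcases fin3_cases (C.kind j) with hc | hc | hc
  · refine ⟨true, Sig.cover fun y hy => ?_⟩
    simp only [sv_true, Sum.elim_inr] at hy ⊢
    obtain ⟨u, hu, hu'⟩ := ((h.1 y).ex hc).1 hy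
    refine ⟨_, hch (by simp [hc]) u hu true, by simpa [sv_true] using hu', fun y' h' => ?_⟩
    exact ((h.1 y').ex hc).2 ⟨u, hu, by simpa [sv_true] using h'⟩
  · refine ⟨false, Sig.cover fun y hy => ?_⟩
    simp only [sv_false, Sum.elim_inr] at hy ⊢
    rw [(h.1 y).all hc] at hy
    push Not at hy
    obtain ⟨u, hu, hu'⟩ := hy
    refine ⟨_, hch (by simp [hc]) u hu false, by simpa [sv_false] using hu', fun y' h' h'' => ?_⟩
    rw [sv_false] at h'
    exact h' (((h.1 y').all hc).1 h'' u hu)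
  · obtain ⟨u, hu, hu'⟩ := C.neg_child hc
    rcases u with i | k
    · refine ⟨false, (hinp i true).congr fun y => ?_⟩
      simp only [sv_false, sv_true, Sum.elim_inr]
      rw [hu' _ _ (h.1 y)]; simp
    · have := hl.2 j k hu
      obtain ⟨b, hb⟩ := ih k (C.acyc j k hu) (by omega)
      refine ⟨!b, hb.congr fun y => ?_⟩
      have := hu' _ _ (h.1 y)
      cases b
      · simp only [sv_false, Bool.not_false, sv_true, Sum.elim_inr] at this ⊢
        exact this
      · simp only [sv_false, Bool.not_true, sv_true, Sum.elim_inr] at this ⊢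
        rw [this]; simp

end Free

/-- after a suitable projection that keeps block parities, more levels have small certificates -/
def Circ.Red (C : Circ I) (lvl : Fin C.m → ℕ) (P : Type) [Fintype P] (a w a' w' : ℕ) : Prop :=
  ∀ (L : Type) [Fintype L] (ξ : (L × P → Bool) → I → Prop)
    (G : (L × P → Bool) → Fin C.m → Prop), C.Inv lvl ξ G a w →
    ∃ ρ : (L → Bool) → (L × P → Bool), (∀ y l, ∑ p, b2z (ρ y (l, p)) = b2z (y l)) ∧
      C.Inv lvl (fun y => ξ (ρ y)) (fun y => G (ρ y)) a' w'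

theorem red_one {C : Circ I} {lvl : Fin C.m → ℕ} (hl : C.FreeLvl lvl) {a w t K : ℕ}
    (hK : 16 * w ≤ K) (hK0 : 0 < K) (hw : w ≤ t) (hm : C.m < 2 ^ (t + 1)) :
    C.Red lvl (Fin K) a w (a + 1) t := by
  intro L _ ξ G h
  obtain ⟨ρ, hρ, hpar, hc⟩ := round (J := {j : Fin C.m // lvl j ≤ a + 1}) (t := t)
    (fun j y => G y j.1) (fun j => next_level hl h j.1 j.2) hK hK0
    (lt_of_le_of_lt (by simpa using Fintype.card_subtype_le (fun j : Fin C.m => lvl j ≤ a + 1)) hm)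
  exact ⟨ρ, hpar, fun y => h.1 _, fun i => ((h.2.1 i).comp hρ).mono hw, fun j hj => hc ⟨j, hj⟩⟩

theorem red_comp {C : Circ I} {lvl : Fin C.m → ℕ} {P P' : Type} [Fintype P] [Fintype P']
    {a w a' w' a'' w'' : ℕ} (h1 : C.Red lvl P a w a' w') (h2 : C.Red lvl P' a' w' a'' w'') :
    C.Red lvl (P' × P) a w a'' w'' := by
  intro L _ ξ G h
  let τ : ((L × P') × P → Bool) → (L × (P' × P) → Bool) := fun z q => z ((q.1, q.2.1), q.2.2)
  have hτ : Proj τ := fun q => ⟨{((q.1, q.2.1), q.2.2)}, by simp, fun y y' h => h _ (by simp)⟩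
  obtain ⟨ρ1, hp1, hi1⟩ := h1 (L × P') (fun z => ξ (τ z)) (fun z => G (τ z))
    ⟨fun y => h.1 _, fun i => (h.2.1 i).comp hτ, fun j hj => (h.2.2 j hj).comp hτ⟩
  obtain ⟨ρ2, hp2, hi2⟩ := h2 L _ _ hi1
  refine ⟨fun y => τ (ρ1 (ρ2 y)), fun y l => ?_, hi2⟩
  rw [Fintype.sum_prod_type, ← hp2 y l]
  exact Finset.sum_congr rfl fun p' _ => hp1 (ρ2 y) (l, p')

theorem red_many {C : Circ I} {lvl : Fin C.m → ℕ} (hl : C.FreeLvl lvl) {t : ℕ} (ht : 1 ≤ t)
    (hm : C.m < 2 ^ (t + 1)) (r : ℕ) :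
    ∃ (P : Type) (_ : Fintype P), Fintype.card P = 16 * (16 * t) ^ r ∧
      C.Red lvl P 0 1 (r + 1) t := by
  induction r with
  | zero => exact ⟨Fin 16, inferInstance, by simp, red_one hl (by norm_num) (by norm_num) ht hm⟩
  | succ r ih =>
    obtain ⟨P, _, hP, h⟩ := ih
    refine ⟨Fin (16 * t) × P, inferInstance, by simp [hP]; ring, ?_⟩
    exact red_comp h (red_one hl le_rfl (by omega) le_rfl hm)

/-- core of the bound for depth `r + 3` -/
theorem free_core [Fintype I] {C : Circ I} {lvl : Fin C.m → ℕ} (hl : C.FreeLvl lvl) {t r : ℕ}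
    {P : Type} [Fintype P] (hP : C.Red lvl P 0 1 (r + 1) t) (T : Type) [Fintype T] [Nonempty T]
    (ξ : ((T × T × T) × P → Bool) → I → Prop) (G : ((T × T × T) × P → Bool) → Fin C.m → Prop)
    (hs : ∀ y, C.Sem (ξ y) (G y)) (hi : ∀ i, Cert 1 (fun y => ξ y i)) (o : Fin C.m)
    (ho : lvl o ≤ r + 3)
    (hG : ∀ z, G z o ↔ ∃ i, ∀ j, ∃ k, ∑ p, b2z (z ((i, j, k), p)) = 1) :
    Fintype.card T ^ Fintype.card T ≤ (Fintype.card I + C.m) * 2 * t ^ Fintype.card T := by
  obtain ⟨ρ, hpar, hinv⟩ := hP _ ξ G (inv_zero hl hs hi)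
  obtain ⟨b, hb⟩ := sig_top hl hinv o (by omega)
  obtain ⟨t0⟩ := ‹Nonempty T›
  have hval : ∀ y, G (ρ y) o ↔ ∃ i, ∀ j, ∃ k, y (i, j, k) = true := by
    intro y; rw [hG]; simp only [hpar, b2z_eq_one]
  have fin : ∀ σ : (T × T → Bool) → (T × T × T → Bool), Proj σ →
      (∀ y, sv (fun y => ξ (ρ y)) (fun y => G (ρ y)) (Sum.inr o, b) (σ y) ↔
        ∀ i, ∃ j, y (i, j) = true) →
      Fintype.card T ^ Fintype.card T ≤ (Fintype.card I + C.m) * 2 * t ^ Fintype.card T := by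
    intro σ hσ hv
    have := limit (R := T) (T := T) (w := t)
      (pool := fun q y => sv (fun y => ξ (ρ y)) (fun y => G (ρ y)) q (σ y)) (by
        intro y hy
        obtain ⟨q, h1, h2, h3⟩ := hb (σ y) ((hv y).2 hy)
        exact ⟨q, ucert_of_cert1 (h1.comp hσ), h2, fun y' h' => (hv y').1 (h3 _ h')⟩)
    simpa [Fintype.card_prod, Fintype.card_sum] using this
  cases b
  · apply fin (fun y q => if q.2.2 = t0 then !y (q.1, q.2.1) else false)
    · intro q
      refine ⟨{(q.1, q.2.1)}, by simp, fun y y' h => ?_⟩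
      have := h (q.1, q.2.1) (by simp)
      simp [this]
    · intro y
      simp only [sv_false, Sum.elim_inr, hval]
      push Not
      refine forall_congr' fun i => exists_congr fun j => ⟨fun h => ?_, fun h k => ?_⟩
      · simpa using h t0
      · by_cases hk : k = t0 <;> simp [hk, h]
  · apply fin (fun y q => if q.1 = t0 then y (q.2.1, q.2.2) else false)
    · intro q
      refine ⟨{(q.2.1, q.2.2)}, by simp, fun y y' h => ?_⟩
      have := h (q.2.1, q.2.2) (by simp)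
      simp [this]
    · intro y
      simp only [sv_true, Sum.elim_inr, hval]
      constructor
      · rintro ⟨i, h⟩ j
        obtain ⟨k, hk⟩ := h j
        by_cases hi : i = t0
        · exact ⟨k, by simpa [hi] using hk⟩
        · simp [hi] at hk
      · intro h
        exact ⟨t0, fun j => by simpa using h j⟩

end Pool.Agent.P.MP_b53add_lc
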