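import Pool.Agent.P.MP_b53add_lc.Circuit

set_option autoImplicit false

namespace Pool.Agent.P.MP_b53add_lc

open Finset Classical

def Anti {X : Type} (f : (X → Bool) → Prop) : Prop :=
  ∀ y y', (∀ i, y i = true → y' i = true) → f y' → f y

/-- a positive clause joined with a decreasing function -/
def CL {X : Type} (f : (X → Bool) → Prop) : Prop :=
  ∃ (A : (X → Bool) → Prop) (S : Finset X), Anti A ∧ ∀ y, f y ↔ A y ∨ ∃ p ∈ S, y p = true

theorem Anti.cl {X : Type} {f : (X → Bool) → Prop} (h : Anti f) : CL f :=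
  ⟨f, ∅, h, fun y => by simp⟩

theorem CL.congr {X : Type} {f g : (X → Bool) → Prop} (hf : CL f) (h : ∀ y, g y ↔ f y) : CL g := by
  have : g = f := funext fun y => propext (h y)
  rwa [this]

theorem cl_union {X U : Type} [Fintype X] {P : U → Prop} {F : U → (X → Bool) → Prop}
    (hF : ∀ u, P u → CL (F u)) {f : (X → Bool) → Prop} (hf : ∀ y, f y ↔ ∃ u, P u ∧ F u y) :
    CL f := by
  choose A S hA hS using hF
  refine ⟨fun y => ∃ u, ∃ h : P u, A u h y, univ.filter fun p => ∃ u, ∃ h : P u, p ∈ S u h,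
    ?_, fun y => ?_⟩
  · rintro y y' h ⟨u, hu, h'⟩
    exact ⟨u, hu, hA u hu y y' h h'⟩
  · rw [hf]
    simp only [mem_filter, mem_univ, true_and]
    constructor
    · rintro ⟨u, hu, h⟩
      rcases (hS u hu y).1 h with h | ⟨p, hp, h⟩
      · exact Or.inl ⟨u, hu, h⟩
      · exact Or.inr ⟨p, ⟨u, hu, hp⟩, h⟩
    · rintro (⟨u, hu, h⟩ | ⟨p, ⟨u, hu, hp⟩, h⟩)
      · exact ⟨u, hu, (hS u hu y).2 (Or.inl h)⟩
      · exact ⟨u, hu, (hS u hu y).2 (Or.inr ⟨p, hp, h⟩)⟩

theorem ucert_all {X U : Type} {w : ℕ} {P : U → Prop} {F : U → (X → Bool) → Prop}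
    (hF : ∀ u, P u → UCert w (F u)) {f : (X → Bool) → Prop}
    (hf : ∀ y, f y ↔ ∀ u, P u → F u y) : UCert w f := by
  intro y hy
  rw [hf] at hy
  push Not at hy
  obtain ⟨u, hu, h⟩ := hy
  obtain ⟨S, hS, h'⟩ := hF u hu y h
  exact ⟨S, hS, fun y' a b c => h' y' a b ((hf y').1 c u hu)⟩

theorem UCert.congr {X : Type} {w : ℕ} {f g : (X → Bool) → Prop} (hf : UCert w f)
    (h : ∀ y, g y ↔ f y) : UCert w g := by
  have : g = f := funext fun y => propext (h y)
  rwa [this]

def starB {Gp : Type} (k : Gp → Bool) (y : Gp → Bool) : Gp × Bool → Bool :=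
  fun p => if p.2 = k p.1 then y p.1 else true

theorem restrict_family {Gp J : Type} [Fintype Gp] [Fintype J] {t : ℕ}
    (S : J → Finset (Gp × Bool)) (hJ : Fintype.card J < 2 ^ (t + 1)) :
    ∃ k : Gp → Bool, ∀ j, (∃ p ∈ S j, p.2 ≠ k p.1) ∨ ((S j).image Prod.fst).card ≤ t := by
  by_contra hcon
  push Not at hcon
  let B : J → Finset (Gp → Bool) := fun j => univ.filter fun k =>
    (∀ p ∈ S j, p.2 = k p.1) ∧ t < ((S j).image Prod.fst).card
  have hsub : (univ : Finset (Gp → Bool)) ⊆ univ.biUnion B := by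
    intro k _
    obtain ⟨j, hj⟩ := hcon k
    exact mem_biUnion.2 ⟨j, mem_univ _, by simp only [B, mem_filter, mem_univ, true_and]; exact hj⟩
  have hB : ∀ j, (B j).card * 2 ^ (t + 1) ≤ 2 ^ Fintype.card Gp := by
    intro j
    rcases (B j).eq_empty_or_nonempty with h | ⟨k0, hk0⟩
    · rw [h]; simp
    obtain ⟨h1, h2⟩ := (mem_filter.1 hk0).2
    have h3 := agree_card ((S j).image Prod.fst)ᶜ k0 (B j) (by
      intro k hk g hg
      simp only [mem_compl, not_not, mem_image] at hg
      obtain ⟨p, hp, rfl⟩ := hg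
      rw [← (mem_filter.1 hk).2.1 p hp, h1 p hp])
    rw [Fintype.card_bool, card_compl] at h3
    have h4 : ((S j).image Prod.fst).card ≤ Fintype.card Gp := card_le_univ _
    calc _ ≤ 2 ^ (Fintype.card Gp - ((S j).image Prod.fst).card) * 2 ^ (t + 1) :=
          Nat.mul_le_mul_right _ h3
      _ = 2 ^ (Fintype.card Gp - ((S j).image Prod.fst).card + (t + 1)) := by rw [← pow_add]
      _ ≤ _ := Nat.pow_le_pow_right (by norm_num) (by omega)
  have h1 := (card_le_card hsub).trans card_biUnion_le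
  rw [card_univ, Fintype.card_fun, Fintype.card_bool] at h1
  have h2 : 2 ^ Fintype.card Gp * 2 ^ (t + 1) ≤ Fintype.card J * 2 ^ Fintype.card Gp := by
    calc _ ≤ (∑ j, (B j).card) * 2 ^ (t + 1) := Nat.mul_le_mul_right _ h1
      _ = ∑ j, (B j).card * 2 ^ (t + 1) := Finset.sum_mul _ _ _
      _ ≤ ∑ _j : J, 2 ^ Fintype.card Gp := Finset.sum_le_sum fun j _ => hB j
      _ = _ := by simp
  have h3 : 0 < 2 ^ Fintype.card Gp := by positivity
  nlinarith

theorem restrict_cl {Gp J : Type} [Fintype Gp] [Fintype J] {t : ℕ}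
    (H : J → (Gp × Bool → Bool) → Prop) (hJ : Fintype.card J < 2 ^ (t + 1)) :
    ∃ k : Gp → Bool, ∀ j, CL (H j) → UCert t (fun y => H j (starB k y)) := by
  have : ∀ j, ∃ S : Finset (Gp × Bool), CL (H j) →
      ∃ A, Anti A ∧ ∀ y, H j y ↔ A y ∨ ∃ p ∈ S, y p = true := by
    intro j
    by_cases h : CL (H j)
    · obtain ⟨A, S, h1, h2⟩ := h
      exact ⟨S, fun _ => ⟨A, h1, h2⟩⟩
    · exact ⟨∅, fun h' => absurd h' h⟩
  choose S hS using this
  obtain ⟨k, hk⟩ := restrict_family S hJ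
  refine ⟨k, fun j hj y hy => ?_⟩
  obtain ⟨A, hA, hH⟩ := hS j hj
  rcases hk j with ⟨p, hp, hne⟩ | hc
  · exact absurd ((hH _).2 (Or.inr ⟨p, hp, by simp [starB, hne]⟩)) hy
  · refine ⟨_, hc, fun y' hup hag h => hy ?_⟩
    rcases (hH _).1 h with h | ⟨p, hp, h⟩
    · refine (hH _).2 (Or.inl (hA _ _ ?_ h))
      intro q hq
      by_cases hqk : q.2 = k q.1
      · simp only [starB, hqk, if_true] at hq ⊢; exact hup _ hq
      · simp [starB, hqk]
    · refine (hH _).2 (Or.inr ⟨p, hp, ?_⟩)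
      have := hag p.1 (mem_image_of_mem _ hp)
      simpa [starB, this] using h

variable {I : Type}

/-- level function counting every gate -/
def Circ.FullLvl (C : Circ I) (lvl : Fin C.m → ℕ) : Prop :=
  (∀ j, 1 ≤ lvl j) ∧ ∀ j, ∀ k ∈ C.prd j, lvl k + 1 ≤ lvl j

def Circ.GoodTop (C : Circ I) (lvl : Fin C.m → ℕ) (o : Fin C.m) : Prop :=
  lvl o ≤ 3 ∨ (lvl o ≤ 4 ∧ (C.kind o = 0 ∨ (C.kind o = 2 ∧ ∀ k ∈ C.prd o, C.kind k ≠ 0)))

theorem full_sig {C : Circ I} {lvl : Fin C.m → ℕ} (hl : C.FullLvl lvl) {X Y : Type} [Fintype X]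
    {ξ : (X → Bool) → I → Prop} {G : (X → Bool) → Fin C.m → Prop}
    (hs : ∀ y, C.Sem (ξ y) (G y))
    (hi : ∀ i, (∃ v : Prop, ∀ z, ξ z i ↔ v) ∨ ∃ p, ∀ z, ξ z i ↔ z p = false)
    {t : ℕ} (ρ : (Y → Bool) → (X → Bool))
    (hU : ∀ q, CL (sv ξ G q) → UCert t (fun y => sv ξ G q (ρ y))) {o : Fin C.m}
    (ho : C.GoodTop lvl o) :
    Sig (fun q => UCert t (fun y => sv ξ G q (ρ y))) (fun q y => sv ξ G q (ρ y))
      (fun y => G (ρ y) o) := by
  let nl : I ⊕ Fin C.m → ℕ := Sum.elim (fun _ => 0) lvl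
  have hch : ∀ j u, C.Child j u → nl u + 1 ≤ lvl j := by
    intro j u hu
    rcases u with i | k
    · exact hl.1 j
    · exact hl.2 j k hu
  have exP : ∀ j, C.kind j = 0 → ∀ y, sv ξ G (Sum.inr j, true) y ↔
      ∃ u, C.Child j u ∧ sv ξ G (u, true) y := by
    intro j hj y; simp only [sv_true]; exact (hs y).ex hj
  have exN : ∀ j, C.kind j = 0 → ∀ y, sv ξ G (Sum.inr j, false) y ↔
      ∀ u, C.Child j u → sv ξ G (u, false) y := by
    intro j hj y; simp only [sv_false, Sum.elim_inr]; rw [(hs y).ex hj]; push Not; rfl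
  have allP : ∀ j, C.kind j = 1 → ∀ y, sv ξ G (Sum.inr j, true) y ↔
      ∀ u, C.Child j u → sv ξ G (u, true) y := by
    intro j hj y; simp only [sv_true]; exact (hs y).all hj
  have allN : ∀ j, C.kind j = 1 → ∀ y, sv ξ G (Sum.inr j, false) y ↔
      ∃ u, C.Child j u ∧ sv ξ G (u, false) y := by
    intro j hj y; simp only [sv_false, Sum.elim_inr]; rw [(hs y).all hj]; push Not; rfl
  have negB : ∀ j, C.kind j = 2 → ∃ u, C.Child j u ∧
      (∀ y, sv ξ G (Sum.inr j, true) y ↔ sv ξ G (u, false) y) ∧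
      (∀ y, sv ξ G (Sum.inr j, false) y ↔ sv ξ G (u, true) y) := by
    intro j hj
    obtain ⟨u, hu, hu'⟩ := C.neg_child hj
    refine ⟨u, hu, fun y => ?_, fun y => ?_⟩
    · simp only [sv_true, sv_false]; exact hu' _ _ (hs y)
    · simp only [sv_true, sv_false, Sum.elim_inr]; rw [hu' _ _ (hs y)]; simp
  have A0 : ∀ u, nl u ≤ 0 → Anti (sv ξ G (u, true)) := by
    intro u hu
    rcases u with i | k
    · intro y y' h
      simp only [sv_true, Sum.elim_inl]
      rcases hi i with ⟨v, hv⟩ | ⟨p, hp⟩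
      · rw [hv, hv]; exact id
      · rw [hp, hp]
        intro h'
        cases hy : y p
        · rfl
        · rw [h p hy] at h'; exact absurd h' (by simp)
    · have := hl.1 k; simp only [nl, Sum.elim_inr] at hu; omega
  have N0 : ∀ u, nl u ≤ 0 → CL (sv ξ G (u, false)) := by
    intro u hu
    rcases u with i | k
    · rcases hi i with ⟨v, hv⟩ | ⟨p, hp⟩
      · apply Anti.cl
        intro y y' _
        simp only [sv_false, Sum.elim_inl, hv]; exact id
      · refine ⟨fun _ => False, {p}, fun _ _ _ h => h, fun y => ?_⟩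
        simp [sv_false, hp]
    · have := hl.1 k; simp only [nl, Sum.elim_inr] at hu; omega
  have P1 : ∀ u, nl u ≤ 1 → CL (sv ξ G (u, true)) := by
    intro u hu
    rcases u with i | j
    · exact (A0 (Sum.inl i) le_rfl).cl
    · have hu' : lvl j ≤ 1 := hu
      rcases fin3_cases (C.kind j) with hc | hc | hc
      · exact cl_union (fun u hu => (A0 u (by have := hch j u hu; omega)).cl) (exP j hc)
      · apply Anti.cl
        intro y y' h h'
        rw [allP j hc] at h' ⊢
        exact fun u hu => A0 u (by have := hch j u hu; omega) y y' h (h' u hu)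
      · obtain ⟨u, hu, h1, -⟩ := negB j hc
        exact (N0 u (by have := hch j u hu; omega)).congr h1
  have N1 : ∀ u, nl u ≤ 1 → UCert t (fun y => sv ξ G (u, false) (ρ y)) := by
    intro u hu
    rcases u with i | j
    · exact hU _ (N0 (Sum.inl i) le_rfl)
    · have hu' : lvl j ≤ 1 := hu
      rcases fin3_cases (C.kind j) with hc | hc | hc
      · exact ucert_all (fun u hu => hU _ (N0 u (by have := hch j u hu; omega)))
          (fun y => exN j hc _)
      · exact hU _ (cl_union (fun u hu => N0 u (by have := hch j u hu; omega)) (allN j hc))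
      · obtain ⟨u, hu, -, h1⟩ := negB j hc
        exact hU _ ((A0 u (by have := hch j u hu; omega)).cl.congr h1)
  have P2 : ∀ u, nl u ≤ 2 → UCert t (fun y => sv ξ G (u, true) (ρ y)) := by
    intro u hu
    rcases u with i | j
    · exact hU _ (P1 (Sum.inl i) (by simp [nl]))
    · have hu' : lvl j ≤ 2 := hu
      rcases fin3_cases (C.kind j) with hc | hc | hc
      · exact hU _ (cl_union (fun u hu => P1 u (by have := hch j u hu; omega)) (exP j hc))
      · exact ucert_all (fun u hu => hU _ (P1 u (by have := hch j u hu; omega)))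
          (fun y => allP j hc _)
      · obtain ⟨u, hu, h1, -⟩ := negB j hc
        exact (N1 u (by have := hch j u hu; omega)).congr fun y => h1 _
  have N2 : ∀ u, nl u ≤ 2 → Sig (fun q => UCert t (fun y => sv ξ G q (ρ y)))
      (fun q y => sv ξ G q (ρ y)) (fun y => sv ξ G (u, false) (ρ y)) := by
    intro u hu
    rcases u with i | j
    · exact Sig.self (q := (Sum.inl i, false)) (N1 _ (by simp [nl])) (fun y => Iff.rfl)
    · have hu' : lvl j ≤ 2 := hu
      rcases fin3_cases (C.kind j) with hc | hc | hc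
      · exact Sig.self (q := (Sum.inr j, false))
          (ucert_all (fun u hu => N1 u (by have := hch j u hu; omega)) (fun y => exN j hc _))
          (fun y => Iff.rfl)
      · intro y hy
        obtain ⟨u, hu, h⟩ := (allN j hc _).1 hy
        exact ⟨(u, false), N1 u (by have := hch j u hu; omega), h,
          fun y' h' => (allN j hc _).2 ⟨u, hu, h'⟩⟩
      · obtain ⟨u, hu, -, h1⟩ := negB j hc
        exact Sig.self (q := (u, true)) (P2 u (by have := hch j u hu; omega)) (fun y => h1 _)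
  have P3 : ∀ u, nl u ≤ 3 → Sig (fun q => UCert t (fun y => sv ξ G q (ρ y)))
      (fun q y => sv ξ G q (ρ y)) (fun y => sv ξ G (u, true) (ρ y)) := by
    intro u hu
    rcases u with i | j
    · exact Sig.self (q := (Sum.inl i, true)) (P2 _ (by simp [nl])) (fun y => Iff.rfl)
    · have hu' : lvl j ≤ 3 := hu
      rcases fin3_cases (C.kind j) with hc | hc | hc
      · intro y hy
        obtain ⟨u, hu, h⟩ := (exP j hc _).1 hy
        exact ⟨(u, true), P2 u (by have := hch j u hu; omega), h,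
          fun y' h' => (exP j hc _).2 ⟨u, hu, h'⟩⟩
      · exact Sig.self (q := (Sum.inr j, true))
          (ucert_all (fun u hu => P2 u (by have := hch j u hu; omega)) (fun y => allP j hc _))
          (fun y => Iff.rfl)
      · obtain ⟨u, hu, h1, -⟩ := negB j hc
        exact (N2 u (by have := hch j u hu; omega)).congr fun y => h1 _
  have fin : Sig (fun q => UCert t (fun y => sv ξ G q (ρ y)))
      (fun q y => sv ξ G q (ρ y)) (fun y => sv ξ G (Sum.inr o, true) (ρ y)) := by
    rcases ho with ho | ⟨ho, hc | ⟨hc, hk⟩⟩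
    · exact P3 (Sum.inr o) ho
    · refine Sig.cover fun y hy => ?_
      obtain ⟨u, hu, h⟩ := (exP o hc _).1 hy
      exact ⟨_, P3 u (by have := hch o u hu; omega), h, fun y' h' => (exP o hc _).2 ⟨u, hu, h'⟩⟩
    · obtain ⟨u, hu, h1, -⟩ := negB o hc
      refine Sig.congr ?_ fun y => h1 _
      rcases u with i | j
      · exact N2 _ (by simp [nl])
      · have hj : lvl j ≤ 3 := by have := hl.2 o j hu; omega
        rcases fin3_cases (C.kind j) with hc' | hc' | hc'
        · exact absurd hc' (hk j hu)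
        · refine Sig.cover fun y hy => ?_
          obtain ⟨u, hu, h⟩ := (allN j hc' _).1 hy
          exact ⟨_, N2 u (by have := hch j u hu; omega), h,
            fun y' h' => (allN j hc' _).2 ⟨u, hu, h'⟩⟩
        · obtain ⟨u, hu, -, h2⟩ := negB j hc'
          exact (P3 u (by have := hch j u hu; omega)).congr fun y => h2 _
  exact fin.congr fun y => by simp [sv_true]

theorem full_core [Fintype I] {C : Circ I} {lvl : Fin C.m → ℕ} (hl : C.FullLvl lvl)
    {R T : Type} [Fintype R] [Fintype T]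
    {ξ : ((R × T) × Bool → Bool) → I → Prop} {G : ((R × T) × Bool → Bool) → Fin C.m → Prop}
    (hs : ∀ y, C.Sem (ξ y) (G y))
    (hi : ∀ i, (∃ v : Prop, ∀ z, ξ z i ↔ v) ∨ ∃ p, ∀ z, ξ z i ↔ z p = false)
    {t : ℕ} (hm : (Fintype.card I + C.m) * 2 < 2 ^ (t + 1)) {o : Fin C.m}
    (ho : C.GoodTop lvl o) (hG : ∀ z, G z o ↔ ∀ i, ∃ j, ∀ β, z ((i, j), β) = true) :
    Fintype.card T ^ Fintype.card R ≤ (Fintype.card I + C.m) * 2 * t ^ Fintype.card R := by
  obtain ⟨k, hk⟩ := restrict_cl (t := t) (sv ξ G)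
    (by simpa [Fintype.card_prod, Fintype.card_sum] using hm)
  have h1 := full_sig hl hs hi (starB k) hk ho
  have h2 := limit (R := R) (T := T) (w := t) (pool := fun q y => sv ξ G q (starB k y))
    (h1.congr fun y => by
      rw [hG]
      refine forall_congr' fun i => exists_congr fun j => ⟨fun h β => ?_, fun h => ?_⟩
      · by_cases hb : β = k (i, j) <;> simp [starB, hb, h]
      · simpa [starB] using h (k (i, j)))
  simpa [Fintype.card_prod, Fintype.card_sum] using h2

theorem goodTop_or_dual {C : Circ I} {lvl : Fin C.m → ℕ} {o : Fin C.m} (ho : lvl o ≤ 4) :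
    C.GoodTop lvl o ∨ C.dual.GoodTop lvl o := by
  rcases fin3_cases (C.kind o) with hc | hc | hc
  · exact Or.inl (Or.inr ⟨ho, Or.inl hc⟩)
  · exact Or.inr (Or.inr ⟨ho, Or.inl (by simp [Circ.dual, hc])⟩)
  · by_cases h : ∀ k ∈ C.prd o, C.kind k ≠ 0
    · exact Or.inl (Or.inr ⟨ho, Or.inr ⟨hc, h⟩⟩)
    · push Not at h
      obtain ⟨k, hk, hk0⟩ := h
      refine Or.inr (Or.inr ⟨ho, Or.inr ⟨by simp [Circ.dual, hc], fun k' hk' => ?_⟩⟩)
      have h1 : (C.prd o).card ≤ 1 := by have := C.fan o hc; omega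
      have : k' = k := card_le_one.1 h1 k' hk' k hk
      simp [Circ.dual, this, hk0]

end Pool.Agent.P.MP_b53add_lc
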