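import Pool.Agent.P.MP_b53add_lc.Depth4

set_option autoImplicit false

namespace Pool.Agent.P.MP_b53add_lc

open Finset Classical

abbrev Clause (n : ℕ) := {c : Finset (Fin n × Bool) // c.card ≤ 3}

def SAT {n : ℕ} (x : Clause n → Bool) : Prop :=
  ∃ a : Fin n → Bool, ∀ c : Clause n, x c = true → ∃ l ∈ c.1, a l.1 = l.2

theorem embed {W X : Type} [Fintype W] {n : ℕ} (hn : Fintype.card W ≤ n)
    (Good : (W → Bool) → Prop) (hG : Cert1 3 (fun a => ¬ Good a))
    (use : X → Bool → Prop) (ψ : X → Bool → Finset (W × Bool))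
    (hψ : ∀ p b, (ψ p b).card ≤ 3)
    (hsep : ∀ p b p' b', use p b → use p' b' → ψ p b = ψ p' b' → p = p' ∧ b = b') :
    ∃ e : (X → Bool) → Clause n → Bool,
      (∀ c, (∃ v : Prop, ∀ z, e z c = true ↔ v) ∨
        ∃ p b, use p b ∧ ∀ z, e z c = true ↔ z p = b) ∧
      ∀ z, SAT (e z) ↔ ∃ a : W → Bool, Good a ∧
        ∀ p, use p (z p) → ∃ l ∈ ψ p (z p), a l.1 = l.2 := by
  obtain ⟨ι⟩ : Nonempty (W ↪ Fin n) := Function.Embedding.nonempty_of_card_le (by simpa using hn)
  let κ : W × Bool ↪ Fin n × Bool := ι.prodMap (Function.Embedding.refl Bool)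
  have hκ : ∀ l, κ l = (ι l.1, l.2) := fun l => rfl
  let Fx : Clause n → Prop := fun c => ∃ c0 : Finset (W × Bool), c.1 = c0.map κ ∧
    ∀ a, Good a → ∃ l ∈ c0, a l.1 = l.2
  let e : (X → Bool) → Clause n → Bool := fun z c =>
    decide (Fx c ∨ ∃ p, use p (z p) ∧ c.1 = (ψ p (z p)).map κ)
  refine ⟨e, fun c => ?_, fun z => ⟨?_, ?_⟩⟩
  · by_cases hF : Fx c
    · exact Or.inl ⟨True, fun z => by simp [e, hF]⟩
    by_cases hp : ∃ p b, use p b ∧ c.1 = (ψ p b).map κ
    · obtain ⟨p, b, hu, hc⟩ := hp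
      refine Or.inr ⟨p, b, hu, fun z => ?_⟩
      simp only [e, hF, false_or, decide_eq_true_eq]
      constructor
      · rintro ⟨p', hu', hc'⟩
        obtain ⟨rfl, h⟩ := hsep p b p' (z p') hu hu' (map_injective κ (hc.symm.trans hc'))
        exact h.symm
      · rintro rfl
        exact ⟨p, hu, hc⟩
    · refine Or.inl ⟨False, fun z => ?_⟩
      simp only [e, hF, false_or, decide_eq_true_eq, iff_false]
      rintro ⟨p, h1, h2⟩
      exact hp ⟨p, _, h1, h2⟩
  · rintro ⟨a, ha⟩
    refine ⟨fun w => a (ι w), ?_, fun p hu => ?_⟩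
    · by_contra hbad
      obtain ⟨S, hS, hS'⟩ := hG _ hbad
      let c0 : Finset (W × Bool) := S.image fun w => (w, !a (ι w))
      have hc0 : (c0.map κ).card ≤ 3 := by rw [card_map]; exact card_image_le.trans hS
      have hF : Fx ⟨c0.map κ, hc0⟩ := by
        refine ⟨c0, rfl, fun a' ha' => ?_⟩
        by_contra hno
        push Not at hno
        apply hS' a' _ ha'
        intro w hw
        have := hno (w, !a (ι w)) (mem_image_of_mem _ hw)
        simpa using this
      obtain ⟨l, hl, h⟩ := ha ⟨c0.map κ, hc0⟩ (by simp [e, hF])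
      obtain ⟨l0, hl0, rfl⟩ := mem_map.1 hl
      obtain ⟨w, -, rfl⟩ := mem_image.1 hl0
      simp [hκ] at h
    · have hc : ((ψ p (z p)).map κ).card ≤ 3 := by rw [card_map]; exact hψ _ _
      obtain ⟨l, hl, h⟩ := ha ⟨_, hc⟩ (by
        simp only [e, decide_eq_true_eq]; exact Or.inr ⟨p, hu, rfl⟩)
      obtain ⟨l0, hl0, rfl⟩ := mem_map.1 hl
      exact ⟨l0, hl0, h⟩
  · rintro ⟨a, hg, ha⟩
    let a' : Fin n → Bool := Function.extend ι a (fun _ => false)
    have ha' : ∀ w, a' (ι w) = a w := fun w => ι.injective.extend_apply _ _ w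
    refine ⟨a', fun c hc => ?_⟩
    simp only [e, decide_eq_true_eq] at hc
    rcases hc with ⟨c0, h1, h2⟩ | ⟨p, h1, h2⟩
    · obtain ⟨l, hl, h⟩ := h2 a hg
      exact ⟨κ l, h1 ▸ mem_map_of_mem κ hl, by rw [hκ]; simpa [ha'] using h⟩
    · obtain ⟨l, hl, h⟩ := ha p h1
      exact ⟨κ l, h2 ▸ mem_map_of_mem κ hl, by rw [hκ]; simpa [ha'] using h⟩

/-- a chain of auxiliary values folding `op` over `v` -/
def Chain (op : Bool → Bool → Bool) {L : ℕ} (c : Fin (L + 1) → Bool) (v : Fin L → Bool) : Prop :=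
  c 0 = false ∧ c (Fin.last L) = true ∧ ∀ i : Fin L, c i.succ = op (c i.castSucc) (v i)

theorem chain_cert {W : Type} (op : Bool → Bool → Bool) {L : ℕ} (cv : Fin (L + 1) → W)
    (vv : Fin L → W) : Cert1 3 (fun a : W → Bool => ¬ Chain op (fun i => a (cv i)) (fun i => a (vv i))) := by
  intro a ha
  unfold Chain at ha
  by_cases h0 : a (cv 0) = false
  · by_cases h1 : a (cv (Fin.last L)) = true
    · have : ∃ i : Fin L, a (cv i.succ) ≠ op (a (cv i.castSucc)) (a (vv i)) := by
        by_contra h; push Not at h; exact ha ⟨h0, h1, h⟩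
      obtain ⟨i, hi⟩ := this
      refine ⟨{cv i.succ, cv i.castSucc, vv i}, card_le_three, fun a' h' hc => hi ?_⟩
      rw [← h' (cv i.succ) (by simp), ← h' (cv i.castSucc) (by simp), ← h' (vv i) (by simp)]
      exact hc.2.2 i
    · refine ⟨{cv (Fin.last L)}, by simp, fun a' h' hc => h1 ?_⟩
      rw [← h' _ (by simp)]; exact hc.2.1
  · refine ⟨{cv 0}, by simp, fun a' h' hc => h0 ?_⟩
    rw [← h' _ (by simp)]; exact hc.1

theorem cert1_not_and {W : Type} {w : ℕ} {f g : (W → Bool) → Prop}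
    (hf : Cert1 w (fun a => ¬ f a)) (hg : Cert1 w (fun a => ¬ g a)) :
    Cert1 w (fun a => ¬ (f a ∧ g a)) := by
  apply cert1_of_cover
  intro a ha
  by_cases h : f a
  · exact ⟨_, hg, fun h' => ha ⟨h, h'⟩, fun a' h1 h2 => h1 h2.2⟩
  · exact ⟨_, hf, h, fun a' h1 h2 => h1 h2.1⟩

theorem cert1_not_all {W U : Type} {w : ℕ} {f : U → (W → Bool) → Prop}
    (hf : ∀ u, Cert1 w (fun a => ¬ f u a)) : Cert1 w (fun a => ¬ ∀ u, f u a) := by
  apply cert1_of_cover
  intro a ha
  push Not at ha
  obtain ⟨u, hu⟩ := ha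
  exact ⟨_, hf u, hu, fun a' h1 h2 => h1 (h2 u)⟩

theorem filter_lt_succ {L : ℕ} (i : Fin L) :
    (univ.filter fun j : Fin L => j.val < i.succ.val) =
      (univ.filter fun j : Fin L => j.val < i.castSucc.val).cons i (by simp) := by
  ext j
  simp only [mem_filter, mem_univ, true_and, mem_cons, Fin.val_succ, Fin.val_castSucc, Fin.ext_iff]
  omega

theorem chain_xor_iff {L : ℕ} (v : Fin L → Bool) :
    (∃ c, Chain xor c v) ↔ ∑ i, b2z (v i) = 1 := by
  have hall : (univ.filter fun j : Fin L => j.val < (Fin.last L).val) = univ := by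
    ext j; simp
  constructor
  · rintro ⟨c, h0, h1, h⟩
    have : ∀ i : Fin (L + 1),
        b2z (c i) = ∑ j ∈ univ.filter (fun j : Fin L => j.val < i.val), b2z (v j) := by
      intro i
      induction i using Fin.induction with
      | zero => simp [h0, b2z]
      | succ i ih => rw [filter_lt_succ, sum_cons, h i, b2z_xor, ih, add_comm]
    have h2 := this (Fin.last L)
    rw [hall, h1] at h2
    exact h2.symm
  · intro h
    choose c hc using fun i : Fin (L + 1) =>
      b2z_surj (∑ j ∈ univ.filter (fun j : Fin L => j.val < i.val), b2z (v j))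
    have binj : ∀ a b : Bool, b2z a = b2z b → a = b := by decide
    refine ⟨c, binj _ _ ?_, binj _ _ ?_, fun i => binj _ _ ?_⟩
    · rw [hc]; simp [b2z]
    · rw [hc, hall, h]; rfl
    · rw [b2z_xor, hc, hc, filter_lt_succ, sum_cons, add_comm]

theorem chain_or_iff {L : ℕ} (v : Fin L → Bool) :
    (∃ c, Chain or c v) ↔ ∃ i, v i = true := by
  constructor
  · rintro ⟨c, h0, h1, h⟩
    have : ∀ i : Fin (L + 1), c i = true → ∃ j, v j = true := by
      intro i
      induction i using Fin.induction with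
      | zero => simp [h0]
      | succ i ih =>
        rw [h i, Bool.or_eq_true]
        rintro (h' | h')
        · exact ih h'
        · exact ⟨i, h'⟩
    exact this _ h1
  · rintro ⟨j, hj⟩
    refine ⟨fun i => decide (∃ j : Fin L, j.val < i.val ∧ v j = true), by simp, ?_, fun i => ?_⟩
    · simp only [Fin.val_last, decide_eq_true_eq]; exact ⟨j, j.2, hj⟩
    · rw [Bool.eq_iff_iff]
      simp only [Fin.val_succ, Fin.val_castSucc, decide_eq_true_eq, Bool.or_eq_true]
      constructor
      · rintro ⟨j', h1, h2⟩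
        by_cases h : j' = i
        · exact Or.inr (h ▸ h2)
        · exact Or.inl ⟨j', by have : j'.val ≠ i.val := fun e => h (Fin.ext e); omega, h2⟩
      · rintro (⟨j', h1, h2⟩ | h)
        · exact ⟨j', by omega, h2⟩
        · exact ⟨i, by omega, h⟩

/-- tree of fan-in `T` over parities -/
theorem embed_tree {n T : ℕ} (P : Type) [Fintype P]
    (hn : T + (T + 1) + T * T + T * (T + 1) + T * Fintype.card P + T * (Fintype.card P + 1) ≤ n) :
    ∃ e : ((Fin T × Fin T × Fin T) × P → Bool) → Clause n → Bool,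
      (∀ c, Cert 1 (fun z => e z c = true)) ∧
      ∀ z, SAT (e z) ↔ ∃ i, ∀ j, ∃ k, ∑ p, b2z (z ((i, j, k), p)) = 1 := by
  let en := (Fintype.equivFin P).symm
  let W := (Fin T ⊕ Fin (T + 1)) ⊕ ((Fin T × Fin T) ⊕ (Fin T × Fin (T + 1))) ⊕
    ((Fin T × P) ⊕ (Fin T × Fin (Fintype.card P + 1)))
  let s0 : Fin T → W := fun i => Sum.inl (Sum.inl i)
  let c0 : Fin (T + 1) → W := fun i => Sum.inl (Sum.inr i)
  let s2 : Fin T × Fin T → W := fun i => Sum.inr (Sum.inl (Sum.inl i))
  let c2 : Fin T × Fin (T + 1) → W := fun i => Sum.inr (Sum.inl (Sum.inr i))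
  let g : Fin T × P → W := fun i => Sum.inr (Sum.inr (Sum.inl i))
  let cp : Fin T × Fin (Fintype.card P + 1) → W := fun i => Sum.inr (Sum.inr (Sum.inr i))
  obtain ⟨e, h1, h2⟩ := embed (W := W) (X := (Fin T × Fin T × Fin T) × P) (n := n)
    (by simp only [W, Fintype.card_sum, Fintype.card_prod, Fintype.card_fin]; omega)
    (fun a => Chain or (fun i => a (c0 i)) (fun i => a (s0 i)) ∧
      (∀ j, Chain or (fun i => a (c2 (j, i))) (fun i => a (s2 (j, i)))) ∧
      ∀ j, Chain xor (fun i => a (cp (j, i))) (fun i => a (g (j, en i))))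
    (cert1_not_and (chain_cert _ _ _) (cert1_not_and
      (cert1_not_all fun j => chain_cert _ (fun i => c2 (j, i)) (fun i => s2 (j, i)))
      (cert1_not_all fun j => chain_cert _ (fun i => cp (j, i)) (fun i => g (j, en i)))))
    (fun _ _ => True)
    (fun q b => {(s0 q.1.1, false), (s2 q.1.2, false), (g (q.1.2.1, q.2), b)})
    (fun _ _ => card_le_three)
    (by
      rintro ⟨⟨i, j, k⟩, p⟩ b ⟨⟨i', j', k'⟩, p'⟩ b' - - h
      have e1 : (s0 i, false) ∈ ({(s0 i', false), (s2 (j', k'), false), (g (j', p'), b')} :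
        Finset (W × Bool)) := by rw [← h]; simp
      have e2 : (s2 (j, k), false) ∈ ({(s0 i', false), (s2 (j', k'), false), (g (j', p'), b')} :
        Finset (W × Bool)) := by rw [← h]; simp
      have e3 : (g (j, p), b) ∈ ({(s0 i', false), (s2 (j', k'), false), (g (j', p'), b')} :
        Finset (W × Bool)) := by rw [← h]; simp
      simp [s0, s2, g, W] at e1 e2 e3
      obtain ⟨⟨-, rfl⟩, rfl⟩ := e3
      obtain ⟨rfl, rfl⟩ := e2
      subst e1
      exact ⟨rfl, rfl⟩)
  refine ⟨e, fun c => ?_, fun z => ?_⟩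
  · rcases h1 c with ⟨v, hv⟩ | ⟨p, b, -, hp⟩
    · exact fun y => ⟨∅, by simp, fun y' _ => by beta_reduce; rw [hv, hv]⟩
    · exact fun y => ⟨{p}, by simp, fun y' h => by beta_reduce; rw [hp, hp, h p (by simp)]⟩
  · rw [h2]
    constructor
    · rintro ⟨a, ⟨g0, g2, gp⟩, hl⟩
      obtain ⟨i, hi⟩ := (chain_or_iff _).1 ⟨_, g0⟩
      refine ⟨i, fun j => ?_⟩
      obtain ⟨k, hk⟩ := (chain_or_iff _).1 ⟨_, g2 j⟩
      refine ⟨k, ?_⟩
      have h3 := (chain_xor_iff _).1 ⟨_, gp j⟩
      rw [← h3, ← Equiv.sum_comp en]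
      refine Finset.sum_congr rfl fun p _ => ?_
      have := hl ((i, j, k), en p) trivial
      simp only [mem_insert, mem_singleton, exists_eq_or_imp, exists_eq_left, hi, hk] at this
      simp at this
      rw [this]
    · rintro ⟨i, h⟩
      choose k hk using h
      obtain ⟨d0, hd0⟩ := (chain_or_iff (fun i' => decide (i' = i))).2 ⟨i, by simp⟩
      have := fun j => (chain_or_iff (fun k' => decide (k' = k j))).2 ⟨k j, by simp⟩
      choose d2 hd2 using this
      have := fun j => (chain_xor_iff (fun p => z ((i, j, k j), en p))).2 (by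
        rw [← hk j]; exact Equiv.sum_comp en (fun p => b2z (z ((i, j, k j), p))))
      choose dp hdp using this
      refine ⟨Sum.elim (Sum.elim (fun i' => decide (i' = i)) d0)
        (Sum.elim (Sum.elim (fun q => decide (q.2 = k q.1)) (fun q => d2 q.1 q.2))
          (Sum.elim (fun q => z ((i, q.1, k q.1), q.2)) (fun q => dp q.1 q.2))),
        ⟨hd0, hd2, hdp⟩, ?_⟩
      rintro ⟨⟨i', j, k'⟩, p⟩ -
      simp only [mem_insert, mem_singleton, exists_eq_or_imp, exists_eq_left, s0, s2, g,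
        Sum.elim_inl, Sum.elim_inr]
      by_cases hi : i' = i
      · by_cases hk' : k' = k j
        · subst hi; subst hk'; simp
        · simp [hk']
      · simp [hi]

/-- AND of OR of AND with triples of selectors -/
theorem embed_triple {n r s : ℕ} (hn : r * s * 4 + r * (s + 1) * 3 ≤ n) :
    ∃ e : ((Fin r × (Fin s × Fin s × Fin s)) × Bool → Bool) → Clause n → Bool,
      (∀ c, (∃ v : Prop, ∀ z, e z c = true ↔ v) ∨ ∃ p, ∀ z, e z c = true ↔ z p = false) ∧
      ∀ z, SAT (e z) ↔ ∀ i, ∃ j, ∀ β, z ((i, j), β) = true := by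
  let W := ((Fin r × Fin s × Bool) ⊕ (Fin r × Fin s) ⊕ (Fin r × Fin s)) ⊕
    ((Fin r × Fin (s + 1)) ⊕ (Fin r × Fin (s + 1)) ⊕ (Fin r × Fin (s + 1)))
  let u : Fin r × Fin s × Bool → W := fun i => Sum.inl (Sum.inl i)
  let v : Fin r × Fin s → W := fun i => Sum.inl (Sum.inr (Sum.inl i))
  let w : Fin r × Fin s → W := fun i => Sum.inl (Sum.inr (Sum.inr i))
  let cu : Fin r × Fin (s + 1) → W := fun i => Sum.inr (Sum.inl i)
  let cv : Fin r × Fin (s + 1) → W := fun i => Sum.inr (Sum.inr (Sum.inl i))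
  let cw : Fin r × Fin (s + 1) → W := fun i => Sum.inr (Sum.inr (Sum.inr i))
  obtain ⟨e, h1, h2⟩ := embed (W := W) (X := (Fin r × (Fin s × Fin s × Fin s)) × Bool) (n := n)
    (by simp only [W, Fintype.card_sum, Fintype.card_prod, Fintype.card_fin, Fintype.card_bool]
        nlinarith)
    (fun a => (∀ q : Fin r × Fin s, a (u (q.1, q.2, false)) = a (u (q.1, q.2, true))) ∧
      (∀ j, Chain or (fun i => a (cu (j, i))) (fun i => a (u (j, i, false)))) ∧
      (∀ j, Chain or (fun i => a (cv (j, i))) (fun i => a (v (j, i)))) ∧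
      ∀ j, Chain or (fun i => a (cw (j, i))) (fun i => a (w (j, i))))
    (cert1_not_and (cert1_not_all fun q a ha =>
        ⟨{u (q.1, q.2, false), u (q.1, q.2, true)}, card_le_two.trans (by norm_num),
          fun a' h' hc => ha (by
            rw [← h' (u (q.1, q.2, false)) (by simp), ← h' (u (q.1, q.2, true)) (by simp)]
            exact hc)⟩)
      (cert1_not_and
      (cert1_not_all fun j => chain_cert _ (fun i => cu (j, i)) (fun i => u (j, i, false)))
      (cert1_not_and
      (cert1_not_all fun j => chain_cert _ (fun i => cv (j, i)) (fun i => v (j, i)))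
      (cert1_not_all fun j => chain_cert _ (fun i => cw (j, i)) (fun i => w (j, i))))))
    (fun _ b => b = false)
    (fun q _ => {(u (q.1.1, q.1.2.1, q.2), false), (v (q.1.1, q.1.2.2.1), false),
      (w (q.1.1, q.1.2.2.2), false)})
    (fun _ _ => card_le_three)
    (by
      rintro ⟨⟨i, a, b, c⟩, β⟩ _ ⟨⟨i', a', b', c'⟩, β'⟩ _ rfl rfl h
      have e1 : (u (i, a, β), false) ∈ ({(u (i', a', β'), false), (v (i', b'), false),
        (w (i', c'), false)} : Finset (W × Bool)) := by rw [← h]; simp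
      have e2 : (v (i, b), false) ∈ ({(u (i', a', β'), false), (v (i', b'), false),
        (w (i', c'), false)} : Finset (W × Bool)) := by rw [← h]; simp
      have e3 : (w (i, c), false) ∈ ({(u (i', a', β'), false), (v (i', b'), false),
        (w (i', c'), false)} : Finset (W × Bool)) := by rw [← h]; simp
      simp [u, v, w, W] at e1 e2 e3
      obtain ⟨rfl, rfl, rfl⟩ := e1
      obtain ⟨-, rfl⟩ := e2
      obtain ⟨-, rfl⟩ := e3
      exact ⟨rfl, rfl⟩)
  refine ⟨e, fun c => ?_, fun z => ?_⟩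
  · rcases h1 c with h | ⟨p, b, rfl, hp⟩
    · exact Or.inl h
    · exact Or.inr ⟨p, hp⟩
  · rw [h2]
    constructor
    · rintro ⟨a, ⟨ge, gu, gv, gw⟩, hl⟩ i
      obtain ⟨a1, h1⟩ := (chain_or_iff _).1 ⟨_, gu i⟩
      obtain ⟨a2, h2⟩ := (chain_or_iff _).1 ⟨_, gv i⟩
      obtain ⟨a3, h3⟩ := (chain_or_iff _).1 ⟨_, gw i⟩
      refine ⟨(a1, a2, a3), fun β => ?_⟩
      by_contra hz
      have := hl ((i, a1, a2, a3), β) (by simpa using hz)
      have h4 : a (u (i, a1, β)) = true := by
        cases β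
        · exact h1
        · rw [← ge (i, a1)]; exact h1
      simp only [mem_insert, mem_singleton, exists_eq_or_imp, exists_eq_left, h2, h3, h4] at this
      simp at this
    · intro h
      choose j hj using h
      have := fun i => (chain_or_iff (fun k' => decide (k' = (j i).1))).2 ⟨(j i).1, by simp⟩
      choose du hdu using this
      have := fun i => (chain_or_iff (fun k' => decide (k' = (j i).2.1))).2 ⟨(j i).2.1, by simp⟩
      choose dv hdv using this
      have := fun i => (chain_or_iff (fun k' => decide (k' = (j i).2.2))).2 ⟨(j i).2.2, by simp⟩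
      choose dw hdw using this
      refine ⟨Sum.elim (Sum.elim (fun q => decide (q.2.1 = (j q.1).1))
          (Sum.elim (fun q => decide (q.2 = (j q.1).2.1)) (fun q => decide (q.2 = (j q.1).2.2))))
        (Sum.elim (fun q => du q.1 q.2) (Sum.elim (fun q => dv q.1 q.2) (fun q => dw q.1 q.2))),
        ⟨fun q => rfl, hdu, hdv, hdw⟩, ?_⟩
      rintro ⟨⟨i, a1, a2, a3⟩, β⟩ hz
      simp only [mem_insert, mem_singleton, exists_eq_or_imp, exists_eq_left, u, v, w,
        Sum.elim_inl, Sum.elim_inr, decide_eq_false_iff_not]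
      by_contra hcon
      push Not at hcon
      have : (a1, a2, a3) = j i := Prod.ext hcon.1 (Prod.ext hcon.2.1 hcon.2.2)
      rw [this, hj i β] at hz
      exact absurd hz (by simp)

/-- OR of AND of OR with linearly many variables -/
theorem embed_lin {n r T : ℕ} (hn : r + (r + 1) + T ≤ n) :
    ∃ e : ((Fin r × Fin T) × Bool → Bool) → Clause n → Bool,
      (∀ c, (∃ v : Prop, ∀ z, ¬ e z c = true ↔ v) ∨ ∃ p, ∀ z, ¬ e z c = true ↔ z p = false) ∧
      ∀ z, ¬ SAT (e z) ↔ ∀ i, ∃ j, ∀ β, z ((i, j), β) = true := by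
  let W := (Fin r ⊕ Fin (r + 1)) ⊕ Fin T
  let s0 : Fin r → W := fun i => Sum.inl (Sum.inl i)
  let c0 : Fin (r + 1) → W := fun i => Sum.inl (Sum.inr i)
  let σ : Fin T → W := fun i => Sum.inr i
  obtain ⟨e, h1, h2⟩ := embed (W := W) (X := (Fin r × Fin T) × Bool) (n := n)
    (by simp only [W, Fintype.card_sum, Fintype.card_fin]; omega)
    (fun a => Chain or (fun i => a (c0 i)) (fun i => a (s0 i))) (chain_cert _ _ _)
    (fun _ b => b = true)
    (fun q _ => {(s0 q.1.1, false), (σ q.1.2, !q.2)})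
    (fun _ _ => card_le_two.trans (by norm_num))
    (by
      rintro ⟨⟨i, j⟩, β⟩ _ ⟨⟨i', j'⟩, β'⟩ _ rfl rfl h
      have e1 : (s0 i, false) ∈ ({(s0 i', false), (σ j', !β')} : Finset (W × Bool)) := by
        rw [← h]; simp
      have e2 : (σ j, !β) ∈ ({(s0 i', false), (σ j', !β')} : Finset (W × Bool)) := by
        rw [← h]; simp
      simp [s0, σ, W] at e1 e2
      obtain ⟨rfl, rfl⟩ := e2
      subst e1
      exact ⟨rfl, rfl⟩)
  refine ⟨e, fun c => ?_, fun z => ?_⟩
  · rcases h1 c with ⟨v, h⟩ | ⟨p, b, rfl, hp⟩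
    · exact Or.inl ⟨¬ v, fun z => not_congr (h z)⟩
    · exact Or.inr ⟨p, fun z => by rw [hp]; simp⟩
  · rw [h2]
    constructor
    · intro h i
      by_contra hcon
      push Not at hcon
      choose β hβ using hcon
      apply h
      obtain ⟨d0, hd0⟩ := (chain_or_iff (fun i' => decide (i' = i))).2 ⟨i, by simp⟩
      refine ⟨Sum.elim (Sum.elim (fun i' => decide (i' = i)) d0) β, hd0, ?_⟩
      rintro ⟨⟨i', j⟩, b⟩ hz
      simp only [mem_insert, mem_singleton, exists_eq_or_imp, exists_eq_left, s0, σ,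
        Sum.elim_inl, Sum.elim_inr, decide_eq_false_iff_not]
      by_cases hi : i' = i
      · right
        subst hi
        have := hβ j
        by_contra hb
        have : β j = b := by simpa using hb
        exact hβ j (this ▸ hz)
      · exact Or.inl hi
    · rintro h ⟨a, g0, hl⟩
      obtain ⟨i, hi⟩ := (chain_or_iff _).1 ⟨_, g0⟩
      obtain ⟨j, hj⟩ := h i
      have := hl ((i, j), a (σ j)) (hj _)
      simp only [mem_insert, mem_singleton, exists_eq_or_imp, exists_eq_left, hi] at this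
      simp at this

end Pool.Agent.P.MP_b53add_lc
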