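import Pool.Agent.P.MP_b53add_lc.Embed

set_option autoImplicit false

namespace Pool.Agent.P.MP_b53add_lc

open Finset Classical

/-- the circuit decides satisfiability, phrased with Boolean gate values -/
def Decides {n : ℕ} (C : Circ (Clause n)) (o : Fin C.m) : Prop :=
  ∀ x : Clause n → Bool,
    ((∃ v : Fin C.m → Bool,
      (∀ j : Fin C.m,
        (C.kind j = 0 → (v j = true ↔
          ((∃ i ∈ C.inp j, x i = true) ∨ ∃ k ∈ C.prd j, v k = true))) ∧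
        (C.kind j = 1 → (v j = true ↔
          ((∀ i ∈ C.inp j, x i = true) ∧ ∀ k ∈ C.prd j, v k = true))) ∧
        (C.kind j = 2 → (v j = true ↔
          ¬ ((∀ i ∈ C.inp j, x i = true) ∧ ∀ k ∈ C.prd j, v k = true)))) ∧
      v o = true) ↔
    ∃ a : Fin n → Bool, ∀ c : Clause n, x c = true → ∃ l ∈ c.1, a l.1 = l.2)

theorem Decides.sem {n : ℕ} {C : Circ (Clause n)} {o : Fin C.m} (h : Decides C o) :
    ∃ G : (Clause n → Bool) → Fin C.m → Prop,
      (∀ x, C.Sem (fun i => x i = true) (G x)) ∧ ∀ x, G x o ↔ SAT x := by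
  choose G hG using fun x : Clause n → Bool => C.exists_sem (fun i => x i = true)
  refine ⟨G, hG, fun x => Iff.trans ?_ (h x)⟩
  constructor
  · intro ho
    refine ⟨fun j => decide (G x j), fun j => ?_, by simpa using ho⟩
    simp only [decide_eq_true_eq]
    exact hG x j
  · rintro ⟨v, hv, ho⟩
    exact (Circ.sem_unique (g' := G x) (g := fun j => v j = true) hv (hG x) o).2 ho

theorem two_le_size {n : ℕ} (C : Circ (Clause n)) (o : Fin C.m) :
    2 ≤ Fintype.card (Clause n) + C.m := by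
  have h1 : 0 < Fintype.card (Clause n) := Fintype.card_pos_iff.2 ⟨⟨∅, by simp⟩⟩
  have h2 : 0 < C.m := o.pos
  omega

theorem pow_cancel {a t r M : ℕ} (ht : 1 ≤ t) (ha : 2 * t ≤ a) (h : a ^ r ≤ M * t ^ r) :
    2 ^ r ≤ M := by
  have h1 : (2 * t) ^ r ≤ a ^ r := Nat.pow_le_pow_left ha r
  rw [mul_pow] at h1
  exact Nat.le_of_mul_le_mul_right (h1.trans h) (by positivity)

theorem free_nat {n : ℕ} {C : Circ (Clause n)} {o : Fin C.m} (h : Decides C o)
    {lvl : Fin C.m → ℕ} (hl : C.FreeLvl lvl) {r t : ℕ} (hr : 1 ≤ r) (ho : lvl o ≤ r + 3)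
    (ht : 1 ≤ t) (hn : 5 * (16 * t) ^ (r + 1) ≤ n) : 2 ^ t ≤ Fintype.card (Clause n) + C.m := by
  by_contra hcon
  push Not at hcon
  obtain ⟨G, hG, hGo⟩ := h.sem
  obtain ⟨P, _, hP, hred⟩ := red_many hl ht (by rw [pow_succ]; omega) r
  have hu : 16 * t ≤ (16 * t) ^ r := Nat.le_self_pow (by omega) _
  obtain ⟨e, he, hsat⟩ := embed_tree (n := n) (T := 2 * t) P (by
    rw [hP]; rw [pow_succ] at hn
    set u := (16 * t) ^ r
    nlinarith)
  have : Nonempty (Fin (2 * t)) := ⟨⟨0, by omega⟩⟩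
  have := free_core hl hred (Fin (2 * t)) (fun z i => e z i = true) (fun z => G (e z))
    (fun z => hG _) he o ho (fun z => (hGo _).trans (hsat z))
  rw [Fintype.card_fin] at this
  have h2 := pow_cancel ht le_rfl this
  have h3 : 2 ^ (t + 1) ≤ 2 ^ (2 * t) := Nat.pow_le_pow_right (by norm_num) (by omega)
  rw [pow_succ] at h3
  omega

theorem lin_nat {n : ℕ} {C : Circ (Clause n)} {o : Fin C.m} (h : Decides C o)
    {lvl : Fin C.m → ℕ} (hl : C.FullLvl lvl) (ho : C.dual.GoodTop lvl o) {t : ℕ}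
    (ht : 1 ≤ t) (hn : 4 * t + 3 ≤ n) : 2 ^ t ≤ Fintype.card (Clause n) + C.m := by
  by_contra hcon
  push Not at hcon
  obtain ⟨G, hG, hGo⟩ := h.sem
  obtain ⟨e, he, hsat⟩ := embed_lin (n := n) (r := t + 1) (T := 2 * t) (by omega)
  have := full_core (C := C.dual) (lvl := lvl) hl (ξ := fun z i => ¬ e z i = true)
    (G := fun z j => ¬ G (e z) j) (fun z => (hG _).dual) he (t := t)
    (by change (Fintype.card (Clause n) + C.m) * 2 < _; rw [pow_succ]; omega) ho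
    (fun z => (not_congr (hGo _)).trans (hsat z))
  rw [Fintype.card_fin, Fintype.card_fin] at this
  have h2 := pow_cancel ht le_rfl this
  change _ ≤ (Fintype.card (Clause n) + C.m) * 2 at h2
  rw [pow_succ] at h2
  omega

theorem triple_nat {n : ℕ} {C : Circ (Clause n)} {o : Fin C.m} (h : Decides C o)
    {lvl : Fin C.m → ℕ} (hl : C.FullLvl lvl) (ho : lvl o ≤ 4) {s t : ℕ}
    (ht : 1 ≤ t) (hs : 2 * t ≤ s ^ 3) (hn : 10 * s ^ 4 ≤ n) :
    2 ^ t ≤ Fintype.card (Clause n) + C.m := by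
  have hs1 : 1 ≤ s := by
    rcases Nat.eq_zero_or_pos s with rfl | h
    · simp at hs; omega
    · exact h
  have h4 : s ^ 3 ≤ s ^ 4 := Nat.pow_le_pow_right hs1 (by norm_num)
  rcases goodTop_or_dual (C := C) (lvl := lvl) ho with hg | hg
  swap
  · exact lin_nat h hl hg ht (by omega)
  by_contra hcon
  push Not at hcon
  obtain ⟨G, hG, hGo⟩ := h.sem
  obtain ⟨e, he, hsat⟩ := embed_triple (n := n) (r := t + 1) (s := s) (by
    have h5 : t + 1 ≤ s ^ 3 := by omega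
    have h6 : (t + 1) * s ≤ s ^ 4 := by rw [pow_succ s 3]; exact Nat.mul_le_mul_right _ h5
    nlinarith)
  have := full_core hl (ξ := fun z i => e z i = true)
    (G := fun z j => G (e z) j) (fun z => hG _) he (t := t)
    (by rw [pow_succ]; omega) hg (fun z => (hGo _).trans (hsat z))
  have h2 := pow_cancel ht (a := Fintype.card (Fin s × Fin s × Fin s))
    (by simp only [Fintype.card_prod, Fintype.card_fin]; nlinarith) this
  rw [Fintype.card_fin, pow_succ] at h2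
  omega

theorem rpow_lt_of {S t : ℕ} {y : ℝ} (h2 : 2 ≤ S) (h : y < 1 ∨ (y < t ∧ 2 ^ t ≤ S)) :
    (2 : ℝ) ^ y < S := by
  rcases h with h | ⟨h, h'⟩
  · calc (2 : ℝ) ^ y < (2 : ℝ) ^ (1 : ℝ) := Real.rpow_lt_rpow_of_exponent_lt (by norm_num) h
      _ = 2 := by simp
      _ ≤ S := by exact_mod_cast h2
  · calc (2 : ℝ) ^ y < (2 : ℝ) ^ (t : ℝ) := Real.rpow_lt_rpow_of_exponent_lt (by norm_num) h
      _ = ((2 ^ t : ℕ) : ℝ) := by rw [Real.rpow_natCast]; push_cast; rfl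
      _ ≤ S := by exact_mod_cast h'

theorem free_real {n : ℕ} {C : Circ (Clause n)} {o : Fin C.m} (h : Decides C o)
    {lvl : Fin C.m → ℕ} (hl : C.FreeLvl lvl) {d : ℕ} (hd : 4 ≤ d) (ho : lvl o ≤ d) :
    (2 : ℝ) ^ ((1 / 100 : ℝ) * (n : ℝ) ^ (1 / ((d : ℝ) - 2))) <
      (Fintype.card (Clause n) : ℝ) + (C.m : ℝ) := by
  obtain ⟨r, rfl⟩ : ∃ r, d = r + 3 := ⟨d - 3, by omega⟩
  have hr : 1 ≤ r := by omega
  have e : (1 / (((r + 3 : ℕ) : ℝ) - 2)) = (((r + 1 : ℕ) : ℝ))⁻¹ := by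
    push_cast; rw [one_div]; congr 1; ring
  rw [e]
  set x := (n : ℝ) ^ (((r + 1 : ℕ) : ℝ))⁻¹ with hx
  have hx0 : 0 ≤ x := by positivity
  have hxn : x ^ (r + 1) = n := Real.rpow_inv_natCast_pow (by positivity) (by omega)
  rw [← Nat.cast_add]
  apply rpow_lt_of (t := ⌊x / 48⌋₊) (two_le_size C o)
  by_cases h96 : x < 96
  · left; linarith
  right
  push Not at h96
  have h1 : x / 48 < ⌊x / 48⌋₊ + 1 := Nat.lt_floor_add_one _
  have h2 : (⌊x / 48⌋₊ : ℝ) ≤ x / 48 := Nat.floor_le (by positivity)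
  refine ⟨by linarith, free_nat h hl hr ho ?_ ?_⟩
  · have : (1 : ℝ) ≤ ⌊x / 48⌋₊ := by linarith
    exact_mod_cast this
  · have h3 : ((16 : ℝ) * ⌊x / 48⌋₊) ^ (r + 1) ≤ (x / 3) ^ (r + 1) :=
      pow_le_pow_left₀ (by positivity) (by linarith) _
    rw [div_pow, hxn] at h3
    have h4 : (9 : ℝ) ≤ 3 ^ (r + 1) := by
      calc (9 : ℝ) = 3 ^ 2 := by norm_num
        _ ≤ _ := pow_le_pow_right₀ (by norm_num) (by omega)
    have h5 : (n : ℝ) / 3 ^ (r + 1) ≤ n / 9 := div_le_div_of_nonneg_left (by positivity) (by norm_num) h4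
    have h6 : (5 : ℝ) * ((16 : ℝ) * ⌊x / 48⌋₊) ^ (r + 1) ≤ n := by
      have : (0 : ℝ) ≤ n := by positivity
      linarith
    exact_mod_cast h6

theorem triple_real {n : ℕ} {C : Circ (Clause n)} {o : Fin C.m} (h : Decides C o)
    {lvl : Fin C.m → ℕ} (hl : C.FullLvl lvl) (ho : lvl o ≤ 4) :
    (2 : ℝ) ^ ((1 / 600 : ℝ) * (n : ℝ) ^ (3 / 4 : ℝ)) <
      (Fintype.card (Clause n) : ℝ) + (C.m : ℝ) := by
  set x := (n : ℝ) ^ (((4 : ℕ) : ℝ))⁻¹ with hx
  have hx0 : 0 ≤ x := by positivity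
  have hxn : x ^ 4 = n := Real.rpow_inv_natCast_pow (by positivity) (by omega)
  have hx3 : (n : ℝ) ^ (3 / 4 : ℝ) = x ^ 3 := by
    rw [hx, ← Real.rpow_natCast, ← Real.rpow_mul (by positivity)]; norm_num
  rw [hx3, ← Nat.cast_add]
  set s := ⌊x / 2⌋₊
  apply rpow_lt_of (t := s ^ 3 / 2) (two_le_size C o)
  by_cases h8 : x < 8
  · left
    have : x ^ 3 < 8 ^ 3 := pow_lt_pow_left₀ h8 hx0 (by norm_num)
    linarith
  right
  push Not at h8
  have h1 : x / 2 < s + 1 := Nat.lt_floor_add_one _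
  have h2 : (s : ℝ) ≤ x / 2 := Nat.floor_le (by positivity)
  have h3 : (3 * x / 8) ^ 3 ≤ (s : ℝ) ^ 3 := pow_le_pow_left₀ (by positivity) (by linarith) _
  have h4 : (8 : ℝ) ^ 3 ≤ x ^ 3 := pow_le_pow_left₀ (by norm_num) h8 _
  have h5 : (s : ℝ) ^ 3 ≤ 2 * ((s ^ 3 / 2 : ℕ) : ℝ) + 1 := by
    have : s ^ 3 ≤ 2 * (s ^ 3 / 2) + 1 := by omega
    exact_mod_cast this
  have h6 : (3 * x / 8) ^ 3 = 27 / 512 * x ^ 3 := by ring
  refine ⟨by linarith, triple_nat h hl ho (s := s) ?_ (by omega) ?_⟩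
  · have : (1 : ℝ) ≤ ((s ^ 3 / 2 : ℕ) : ℝ) := by linarith
    exact_mod_cast this
  · have h7 : (s : ℝ) ^ 4 ≤ (x / 2) ^ 4 := pow_le_pow_left₀ (by positivity) h2 _
    rw [div_pow, hxn] at h7
    have h9 : (10 : ℝ) * (s : ℝ) ^ 4 ≤ n := by
      have : (0 : ℝ) ≤ n := by positivity
      linarith
    exact_mod_cast h9

theorem lin_real {n : ℕ} {C : Circ (Clause n)} {o : Fin C.m} (h : Decides C o)
    {lvl : Fin C.m → ℕ} (hl : C.FullLvl lvl) (ho : lvl o ≤ 3 ∨ (lvl o ≤ 4 ∧ C.kind o = 1)) :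
    (2 : ℝ) ^ ((1 / 16 : ℝ) * (n : ℝ)) < (Fintype.card (Clause n) : ℝ) + (C.m : ℝ) := by
  rw [← Nat.cast_add]
  apply rpow_lt_of (t := (n - 3) / 4) (two_le_size C o)
  by_cases h8 : n < 16
  · left
    have : (n : ℝ) < 16 := by exact_mod_cast h8
    linarith
  right
  refine ⟨?_, lin_nat h hl ?_ (by omega) (by omega)⟩
  · have : n < 16 * ((n - 3) / 4) := by omega
    have : (n : ℝ) < 16 * (((n - 3) / 4 : ℕ) : ℝ) := by exact_mod_cast this
    linarith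
  · rcases ho with ho | ⟨ho, hk⟩
    · exact Or.inl ho
    · exact Or.inr ⟨ho, Or.inl (by simp [Circ.dual, hk])⟩

end Pool.Agent.P.MP_b53add_lc
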