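import Mathlib

set_option autoImplicit false

namespace Pool.Agent.P.MP_b53add_lc.Mono

open Finset Classical

/-- a clause is a triple of literals -/
abbrev Cl (α : Type) := Fin 3 → α × Bool

variable {α : Type} [DecidableEq α]

def Ag (y : α → Bool) (W : Finset (α × Bool)) : Prop := ∀ l ∈ W, y l.1 = l.2

def Sat (y : α → Bool) (c : Cl α) : Prop := ∃ j, y (c j).1 = (c j).2

def cvars (c : Cl α) : Finset α := univ.image fun j => (c j).1

def vars (K : Finset (Cl α)) : Finset α := K.biUnion cvars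

/-- expansion -/
def Exp (r : ℕ) (p : Finset (Cl α)) : Prop :=
  ∀ K ⊆ p, K.card ≤ 2 * r → 3 * K.card ≤ 2 * (vars K).card

/-- local consistency of a set of literals -/
def Al (r : ℕ) (p : Finset (Cl α)) (W : Finset (α × Bool)) : Prop :=
  ∀ K ⊆ p, K.card ≤ r → ∃ y, Ag y W ∧ ∀ c ∈ K, Sat y c

theorem Exp.mono {r : ℕ} {p q : Finset (Cl α)} (h : Exp r p) (hq : q ⊆ p) : Exp r q :=
  fun K hK => h K (hK.trans hq)

theorem mem_cvars (c : Cl α) (j : Fin 3) : (c j).1 ∈ cvars c :=
  mem_image.2 ⟨j, mem_univ _, rfl⟩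

theorem Sat.congr {y y' : α → Bool} {c : Cl α} (h : Sat y c) (e : ∀ v ∈ cvars c, y' v = y v) :
    Sat y' c := by
  obtain ⟨j, hj⟩ := h
  exact ⟨j, (e _ (mem_cvars c j)).trans hj⟩

theorem closure {r : ℕ} {p : Finset (Cl α)} (hp : Exp r p) (W : Finset (α × Bool))
    (hW : 2 * W.card < r) :
    ∃ (S : Finset (Cl α)) (U : Finset α), S ⊆ p ∧ S.card < r ∧ U.card ≤ 3 * W.card ∧
      (∀ l ∈ W, l.1 ∈ U) ∧ (∀ c ∈ S, cvars c ⊆ U) ∧
      ∀ (y0 : α → Bool) (z : α), (∀ c ∈ S, Sat y0 c) → ∀ K ⊆ p, K.card ≤ r →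
        ∃ y : α → Bool, (∀ v ∈ insert z U, y v = y0 v) ∧ ∀ c ∈ K, Sat y c := by
  set D : Finset α := W.image Prod.fst with hD
  have hDc : D.card ≤ W.card := card_image_le
  have small : ∀ K ⊆ p, K.card ≤ 2 * r → (vars K \ D).card ≤ K.card → K.card ≤ 2 * W.card := by
    intro K hK h1 h2
    have h3 := hp K hK h1
    have h4 : (vars K).card ≤ (vars K \ D).card + D.card := card_le_card_sdiff_add_card
    omega
  obtain ⟨S, hS, hmax⟩ := exists_max_image
    (p.powerset.filter fun K => K.card ≤ r ∧ (vars K \ D).card ≤ K.card) card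
    ⟨∅, mem_filter.2 ⟨empty_mem_powerset _, by simp, by simp [vars]⟩⟩
  simp only [mem_filter, mem_powerset] at hS hmax
  obtain ⟨hSp, hSr, hSv⟩ := hS
  have hS2 := small S hSp (by omega) hSv
  refine ⟨S, D ∪ vars S, hSp, by omega, ?_, ?_, ?_, ?_⟩
  · have : (D ∪ vars S).card ≤ D.card + (vars S \ D).card := by
      rw [← union_sdiff_self_eq_union]; exact card_union_le _ _
    omega
  · intro l hl
    exact mem_union_left _ (mem_image.2 ⟨l, hl, rfl⟩)
  · intro c hc v hv
    exact mem_union_right _ (mem_biUnion.2 ⟨c, hc, hv⟩)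
  intro y0 z hy0 K hK hKr
  have hall : ∀ s : Finset {c // c ∈ K \ S},
      s.card ≤ (s.biUnion fun c => cvars c.1 \ insert z (D ∪ vars S)).card := by
    intro s
    by_contra hcon
    push Not at hcon
    set s' : Finset (Cl α) := s.map (Function.Embedding.subtype _) with hs'
    have hc : s'.card = s.card := card_map _
    have hsub : s' ⊆ K \ S := by
      intro c hc
      obtain ⟨d, -, rfl⟩ := mem_map.1 hc
      exact d.2
    have hdis : Disjoint S s' := by
      rw [disjoint_left]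
      intro c h1 h2
      exact (mem_sdiff.1 (hsub h2)).2 h1
    have hcard : (S ∪ s').card = S.card + s.card := by rw [card_union_of_disjoint hdis, hc]
    have hsr : s.card ≤ r := by
      rw [← hc]; exact (card_le_card (hsub.trans sdiff_subset)).trans hKr
    have hvs : vars (S ∪ s') \ D ⊆ (vars S \ D) ∪
        insert z (s.biUnion fun c => cvars c.1 \ insert z (D ∪ vars S)) := by
      intro v hv
      obtain ⟨hv1, hv2⟩ := mem_sdiff.1 hv
      by_cases h1 : v ∈ vars S
      · exact mem_union_left _ (mem_sdiff.2 ⟨h1, hv2⟩)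
      refine mem_union_right _ ?_
      by_cases h2 : v = z
      · exact mem_insert.2 (Or.inl h2)
      refine mem_insert.2 (Or.inr ?_)
      obtain ⟨c, hc1, hc2⟩ := mem_biUnion.1 hv1
      rcases mem_union.1 hc1 with h3 | h3
      · exact absurd (mem_biUnion.2 ⟨c, h3, hc2⟩) h1
      obtain ⟨d, hd, rfl⟩ := mem_map.1 h3
      refine mem_biUnion.2 ⟨d, hd, mem_sdiff.2 ⟨hc2, ?_⟩⟩
      simp only [mem_insert, mem_union, not_or]
      exact ⟨h2, hv2, h1⟩
    have h5 := (card_le_card hvs).trans (card_union_le _ _)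
    have h6 := card_insert_le z (s.biUnion fun c => cvars c.1 \ insert z (D ∪ vars S))
    have hsp : S ∪ s' ⊆ p := union_subset hSp (hsub.trans (sdiff_subset.trans hK))
    have h7 := small (S ∪ s') hsp (by omega) (by omega)
    have h8 := hmax (S ∪ s') ⟨hsp, by omega, by omega⟩
    omega
  obtain ⟨f, hf, hf'⟩ := (all_card_le_biUnion_card_iff_exists_injective _).1 hall
  have hj : ∀ c : {c // c ∈ K \ S}, ∃ j, (c.1 j).1 = f c := by
    intro c
    obtain ⟨j, -, hj⟩ := mem_image.1 (mem_sdiff.1 (hf' c)).1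
    exact ⟨j, hj⟩
  choose j hj using hj
  let y : α → Bool := fun v => if h : ∃ c, f c = v then (h.choose.1 (j h.choose)).2 else y0 v
  have hy : ∀ v ∈ insert z (D ∪ vars S), y v = y0 v := by
    intro v hv
    have : ¬ ∃ c, f c = v := by
      rintro ⟨c, rfl⟩
      exact (mem_sdiff.1 (hf' c)).2 hv
    simp only [y, dif_neg this]
  refine ⟨y, hy, fun c hc => ?_⟩
  by_cases h1 : c ∈ S
  · exact (hy0 c h1).congr fun v hv => hy v
      (mem_insert_of_mem (mem_union_right _ (mem_biUnion.2 ⟨c, h1, hv⟩)))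
  · let d : {c // c ∈ K \ S} := ⟨c, mem_sdiff.2 ⟨hc, h1⟩⟩
    refine ⟨j d, ?_⟩
    have h2 : ∃ e, f e = (c (j d)).1 := ⟨d, (hj d).symm⟩
    have h3 : h2.choose = d := hf (h2.choose_spec.trans (hj d))
    simp only [y, dif_pos h2, h3]
    rfl

/-- an alive set of literals can be extended by a literal of any clause -/
theorem Al.step {r : ℕ} {p : Finset (Cl α)} (hp : Exp r p) {W : Finset (α × Bool)}
    (hW : 2 * W.card < r) (h : Al r p W) {c : Cl α} (hc : c ∈ p) :
    ∃ j, Al r p (insert (c j) W) := by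
  obtain ⟨S, U, hSp, hSr, -, hWU, -, hext⟩ := closure hp W hW
  obtain ⟨y0, hy0, hs⟩ := h (insert c S) (insert_subset hc hSp)
    ((card_insert_le _ _).trans (by omega))
  obtain ⟨j, hj⟩ := hs c (mem_insert_self _ _)
  refine ⟨j, fun K hK hKr => ?_⟩
  obtain ⟨y, hy, hK'⟩ := hext y0 (c j).1 (fun d hd => hs d (mem_insert_of_mem hd)) K hK hKr
  refine ⟨y, fun l hl => ?_, hK'⟩
  rcases mem_insert.1 hl with rfl | hl
  · exact (hy _ (mem_insert_self _ _)).trans hj
  · exact (hy _ (mem_insert_of_mem (hWU l hl))).trans (hy0 l hl)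

/-- a clause that kills an alive set has all its variables in a small set -/
theorem kill {r : ℕ} {p : Finset (Cl α)} (hp : Exp r p) (W : Finset (α × Bool))
    (hW : 2 * W.card < r) (h : Al r p W) :
    ∃ U : Finset α, U.card ≤ 3 * W.card ∧
      ∀ c : Cl α, ¬ Al r (insert c p) W → ∀ j, (c j).1 ∈ U := by
  obtain ⟨S, U, hSp, hSr, hU, hWU, hSU, hext⟩ := closure hp W hW
  refine ⟨U, hU, fun c hc j => ?_⟩
  by_contra hz
  apply hc
  obtain ⟨y0, hy0, hs⟩ := h S hSp hSr.le
  intro K hK hKr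
  have hne : ∀ v ∈ U, Function.update y0 (c j).1 (c j).2 v = y0 v := fun v hv =>
    Function.update_of_ne (fun e : v = (c j).1 => hz (e ▸ hv)) _ _
  obtain ⟨y, hy, hK'⟩ := hext (Function.update y0 (c j).1 (c j).2) (c j).1
    (fun d hd => (hs d hd).congr fun v hv => hne v (hSU d hd hv)) (K.erase c)
    (fun d hd => by
      obtain ⟨h1, h2⟩ := mem_erase.1 hd
      exact (mem_insert.1 (hK h2)).resolve_left h1)
    ((card_le_card (erase_subset _ _)).trans hKr)
  refine ⟨y, fun l hl => ?_, fun d hd => ?_⟩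
  · exact (hy _ (mem_insert_of_mem (hWU l hl))).trans ((hne _ (hWU l hl)).trans (hy0 l hl))
  · by_cases h1 : d = c
    · subst h1
      exact ⟨j, (hy _ (mem_insert_self _ _)).trans (Function.update_self _ _ _)⟩
    · exact hK' d (mem_erase.2 ⟨h1, hd⟩)

theorem al_empty [Nonempty α] {r : ℕ} {p : Finset (Cl α)} (hp : Exp r p) (hr : 0 < r) :
    Al r p ∅ := by
  obtain ⟨S, U, -, -, hU, -, hSU, hext⟩ := closure hp ∅ (by simpa using hr)
  have hU0 : U = ∅ := by simpa using hU
  intro K hK hKr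
  obtain ⟨y, -, hy⟩ := hext (fun _ => true) (Classical.arbitrary α) (fun c hc => by
    have := hSU c hc (mem_cvars c 0)
    simp [hU0] at this) K hK hKr
  exact ⟨y, fun l hl => by simp at hl, hy⟩

/-- the game: the set can be emptied by at most `k` rounds of choosing a clause, the adversary
choosing a literal of it -/
def Q (φ : Finset (Cl α)) : ℕ → Set (α → Bool) → Prop
  | 0, B => B = ∅
  | k + 1, B => B = ∅ ∨ ∃ c ∈ φ, ∀ j, Q φ k (B ∩ {y | y (c j).1 = (c j).2})

theorem Q_realize : True := by have := @Q.eq_def; trivial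

omit [DecidableEq α] in
theorem Q_empty (φ : Finset (Cl α)) (k : ℕ) : Q φ k ∅ := by
  cases k with
  | zero => rfl
  | succ k => exact Or.inl rfl

omit [DecidableEq α] in
theorem Q.mono {φ : Finset (Cl α)} : ∀ {k : ℕ} {B B' : Set (α → Bool)}, Q φ k B → B' ⊆ B →
    Q φ k B'
  | 0, _, _, h, hs => Set.subset_eq_empty hs h
  | _ + 1, _, _, h, hs => by
    rcases h with h | ⟨c, hc, h⟩
    · exact Or.inl (Set.subset_eq_empty hs h)
    · exact Or.inr ⟨c, hc, fun j => (h j).mono (Set.inter_subset_inter_left _ hs)⟩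

omit [DecidableEq α] in
theorem Q.succ {φ : Finset (Cl α)} : ∀ {k : ℕ} {B : Set (α → Bool)}, Q φ k B → Q φ (k + 1) B
  | 0, _, h => Or.inl h
  | _ + 1, _, h => by
    rcases h with h | ⟨c, hc, h⟩
    · exact Or.inl h
    · exact Or.inr ⟨c, hc, fun j => (h j).succ⟩

omit [DecidableEq α] in
theorem Q.le {φ : Finset (Cl α)} {k k' : ℕ} {B : Set (α → Bool)} (h : Q φ k B) (hk : k ≤ k') :
    Q φ k' B := by
  induction hk with
  | refl => exact h
  | step _ ih => exact ih.succ

omit [DecidableEq α] in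
theorem Q.union {φ : Finset (Cl α)} {b : ℕ} : ∀ {a : ℕ} {X Y : Set (α → Bool)}, Q φ a X →
    Q φ b Y → Q φ (a + b) (X ∪ Y)
  | 0, X, Y, h, h' => by
    have : X = ∅ := h
    simpa [this] using h'
  | a + 1, X, Y, h, h' => by
    rcases h with h | ⟨c, hc, h⟩
    · rw [h, Set.empty_union]; exact h'.le (by omega)
    · rw [show a + 1 + b = (a + b) + 1 by omega]
      refine Or.inr ⟨c, hc, fun j => ?_⟩
      rw [Set.union_inter_distrib_right]
      exact (h j).union (h'.mono Set.inter_subset_left)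

omit [DecidableEq α] in
theorem Q_fals {φ : Finset (Cl α)} {c : Cl α} (hc : c ∈ φ) : Q φ 1 {y | ¬ Sat y c} := by
  refine Or.inr ⟨c, hc, fun j => ?_⟩
  change _ = ∅
  ext y
  simp only [Set.mem_inter_iff, Set.mem_ofPred_eq, Set.mem_empty_iff_false, iff_false, not_and]
  exact fun h h' => h ⟨j, h'⟩

theorem not_Q_of_al {r : ℕ} {φ : Finset (Cl α)} (hφ : Exp r φ) : ∀ (k : ℕ)
    (W : Finset (α × Bool)) (B : Set (α → Bool)), 2 * (W.card + k) < r → Al r φ W →
    (∀ y, Ag y W → y ∈ B) → ¬ Q φ k B := by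
  intro k
  have hne : ∀ (W : Finset (α × Bool)) (B : Set (α → Bool)), Al r φ W →
      (∀ y, Ag y W → y ∈ B) → B ≠ ∅ := by
    intro W B h hB
    obtain ⟨y, hy, -⟩ := h ∅ (empty_subset _) (by simp)
    exact Set.Nonempty.ne_empty ⟨y, hB y hy⟩
  induction k with
  | zero => exact fun W B _ h hB => hne W B h hB
  | succ k ih =>
    rintro W B hW h hB (h0 | ⟨c, hc, hq⟩)
    · exact hne W B h hB h0
    obtain ⟨j, hj⟩ := h.step hφ (by omega) hc
    refine ih (insert (c j) W) (B ∩ {y | y (c j).1 = (c j).2}) ?_ hj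
      (fun y hy => ⟨hB y fun l hl => hy l (mem_insert_of_mem hl),
        hy _ (mem_insert_self _ _)⟩) (hq j)
    have := card_insert_le (c j) W
    omega

end Pool.Agent.P.MP_b53add_lc.Mono
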