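import Pool.Agent.P.MP_b53add_lc.MonoProj
import Pool.Agent.P.MP_b53add_lc.Main

set_option autoImplicit false

namespace Pool.Agent.P.MP_b53add_lc.Mono

open Finset Classical

/-- points lying in a thin slice -/
def Light {n : ℕ} (T : ℕ) (Y : (Fin n → Bool) → Prop) (x : Fin n → Bool) : Prop :=
  Y x ∧ ∃ τ : Finset (Fin n × Bool), τ.card ≤ T ∧ Ag x τ ∧
    cnt (fun x' => Y x' ∧ Ag x' τ) * (24 * 10 ^ 18) ^ T < 2 ^ n

theorem lit_count {n T : ℕ} (hn : n ≤ 2 * 10 ^ 18 * T) :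
    cnt (fun τ : Finset (Fin n × Bool) => τ.card ≤ T) ≤ (12 * 10 ^ 18) ^ T := by
  have h := count_small (β := Fin n × Bool) (T := T) (c := 4 * 10 ^ 18) (by norm_num) (by
    have : (n : ℝ) ≤ 2 * 10 ^ 18 * T := by exact_mod_cast hn
    simp only [Fintype.card_prod, Fintype.card_fin, Fintype.card_bool]
    push_cast
    linarith) (fun τ => τ.card ≤ T) fun S hS => hS
  exact h.trans (le_of_eq (by norm_num))

theorem light_count {n T : ℕ} (hn : n ≤ 2 * 10 ^ 18 * T) (Y : (Fin n → Bool) → Prop) :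
    cnt (Light T Y) * 2 ^ T ≤ 2 ^ n := by
  have h1 := cnt_exists_le (fun τ : Finset (Fin n × Bool) => τ.card ≤ T)
    (fun τ x => (Y x ∧ Ag x τ) ∧ cnt (fun x' => Y x' ∧ Ag x' τ) * (24 * 10 ^ 18) ^ T < 2 ^ n)
    (Light T Y) (w := 2 ^ n / (24 * 10 ^ 18) ^ T)
    (fun x ⟨h1, τ, h2, h3, h4⟩ => ⟨τ, h2, ⟨h1, h3⟩, h4⟩) (by
      intro τ _
      by_cases h : cnt (fun x' => Y x' ∧ Ag x' τ) * (24 * 10 ^ 18) ^ T < 2 ^ n
      · refine (cnt_mono fun x hx => hx.1).trans ?_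
        rw [le_div_iff₀ (by positivity)]
        exact h.le
      · refine (cnt_le_card (A := ∅) fun x hx => absurd hx.2 h).trans ?_
        rw [card_empty, Nat.cast_zero]
        positivity)
  have h2 := h1.trans (mul_le_mul_of_nonneg_right (lit_count hn) (by positivity))
  refine (mul_le_mul_of_nonneg_right h2 (by positivity)).trans (le_of_eq ?_)
  have : ((24 : ℝ) * 10 ^ 18) ^ T = (12 * 10 ^ 18) ^ T * 2 ^ T := by
    rw [← mul_pow]; norm_num
  rw [this]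
  field_simp

theorem removal {β ι : Type} (rk : ι → ℕ) (B : ι → β → Prop) (L : (β → Prop) → β → Prop) :
    ∃ B' : ι → β → Prop, (∀ k x, B' k x → B k x) ∧
      (∀ k i x, rk i < rk k → B' k x → B i x → B' i x ∧ ¬ L (B' i) x) ∧
      ∀ k x, B k x → ¬ B' k x → ∃ i, L (B' i) x := by
  let E : ℕ → β → Prop := fun t => Nat.rec (fun _ => False)
    (fun t Et x => Et x ∨ ∃ i, rk i = t ∧ L (fun x => B i x ∧ ¬ Et x) x) t
  have hE : ∀ t x, E (t + 1) x ↔ E t x ∨ ∃ i, rk i = t ∧ L (fun x => B i x ∧ ¬ E t x) x :=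
    fun t x => Iff.rfl
  have hmono : ∀ t t' x, t ≤ t' → E t x → E t' x := by
    intro t t' x h
    induction h with
    | refl => exact id
    | step _ ih => exact fun h => (hE _ _).2 (Or.inl (ih h))
  refine ⟨fun k x => B k x ∧ ¬ E (rk k) x, fun k x h => h.1, fun k i x h h1 h2 =>
    ⟨⟨h2, fun h3 => h1.2 (hmono _ _ x h.le h3)⟩, fun h3 =>
      h1.2 (hmono _ _ x h ((hE _ _).2 (Or.inr ⟨i, rfl, h3⟩)))⟩, fun k x h1 h2 => ?_⟩
  have h3 : E (rk k) x := by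
    by_contra h4
    exact h2 ⟨h1, h4⟩
  generalize rk k = t at h3
  induction t with
  | zero => exact h3.elim
  | succ t ih =>
    rcases (hE _ _).1 h3 with h4 | ⟨i, rfl, h4⟩
    · exact ih h4
    · exact ⟨i, h4⟩

theorem choose_g {n T n0 : ℕ} (hT : 1 ≤ T) (hn : 10 ^ 18 * T ≤ n) (hn' : n ≤ 2 * 10 ^ 18 * T)
    (hn0 : n0 = 10 ^ 12 * T) {ι : Type} [Fintype ι] (hι : 2 * (Fintype.card ι : ℝ) ≤ 2 ^ T)
    (B : ι → (Fin n → Bool) → Prop) :
    ∃ g : Fin n0 → Fin n, (∀ k (τ : Finset (Fin n × Bool)) x, τ.card ≤ T → B k x → Ag x τ →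
      ¬ Light T (B k) x → ∃ Z : Finset (Fin n0 × Bool), Z.card ≤ 9 * T ∧ (∃ y, Ag y Z) ∧
        ∀ y, Ag y Z → ∃ x, (B k x ∧ Ag x τ) ∧ ∀ i, x (g i) = y i) ∧
      ∀ y : Fin n0 → Bool, ∃ x, (¬ ∃ i, Light T (B i) x) ∧ ∀ i, x (g i) = y i := by
  have h2T : (0 : ℝ) < 2 ^ T := by positivity
  have hX0 : (2 : ℝ) ^ n ≤ cnt (fun x => ¬ ∃ i, Light T (B i) x) * 2 := by
    have h1 := cnt_add_not (fun x => ∃ i, Light T (B i) x)
    have h2 := (cnt_exists_sum univ (fun i => Light T (B i)) (fun x => ∃ i, Light T (B i) x)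
      fun x ⟨i, hi⟩ => ⟨i, mem_univ _, hi⟩).trans (sum_le_sum (g := fun _ => 2 ^ n / 2 ^ T)
        fun i _ => by rw [le_div_iff₀ h2T]; exact light_count hn' _)
    rw [sum_const, card_univ, nsmul_eq_mul] at h2
    rw [Fintype.card_fun, Fintype.card_bool, Fintype.card_fin] at h1
    push_cast at h1
    have h3 := mul_le_mul_of_nonneg_right hι (show (0 : ℝ) ≤ 2 ^ n / 2 ^ T by positivity)
    rw [mul_div_cancel₀ _ h2T.ne'] at h3
    linarith
  obtain ⟨A, hA1, hA2, hA3⟩ : ∃ A : Finset (ι × Finset (Fin n × Bool)),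
      (A.card : ℝ) ≤ (24 * 10 ^ 18) ^ T ∧
      (∀ q ∈ A, (2 : ℝ) ^ n ≤ cnt (fun x => B q.1 x ∧ Ag x q.2) * (24 * 10 ^ 18) ^ T) ∧
      ∀ k τ, τ.card ≤ T → (2 : ℝ) ^ n ≤ cnt (fun x => B k x ∧ Ag x τ) * (24 * 10 ^ 18) ^ T →
        (k, τ) ∈ A := by
    refine ⟨(univ ×ˢ univ.filter fun τ : Finset (Fin n × Bool) => τ.card ≤ T).filter
      fun q : ι × Finset (Fin n × Bool) =>
        (2 : ℝ) ^ n ≤ cnt (fun x => B q.1 x ∧ Ag x q.2) * (24 * 10 ^ 18) ^ T, ?_, ?_, ?_⟩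
    · have h1 := card_le_cnt (P := fun τ : Finset (Fin n × Bool) => τ.card ≤ T)
        (A := univ.filter fun τ : Finset (Fin n × Bool) => τ.card ≤ T)
        fun τ hτ => (mem_filter.1 hτ).2
      refine le_trans (Nat.cast_le.2 (card_filter_le _ _)) ?_
      rw [card_product, card_univ]
      push_cast
      have h2 : (Fintype.card ι : ℝ) ≤ 2 ^ T := by linarith
      refine (mul_le_mul h2 (h1.trans (lit_count hn')) (by positivity) (by positivity)).trans ?_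
      rw [← mul_pow]; norm_num
    · intro q hq
      rw [mem_filter] at hq
      exact hq.2
    · intro k τ h1 h2
      rw [mem_filter, mem_product, mem_filter]
      exact ⟨⟨mem_univ _, mem_univ _, h1⟩, h2⟩
  obtain ⟨V, hV, hS, hS0⟩ := choose_V hT hn A hA1 (fun q x => B q.1 x ∧ Ag x q.2) hA2 _ hX0
  obtain ⟨g, hginj, hgV⟩ : ∃ g : Fin n0 → Fin n, Function.Injective g ∧ ∀ i, V (g i) = true := by
    obtain ⟨e⟩ : Nonempty (Fin n0 ↪ {i // V i = true}) :=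
      Function.Embedding.nonempty_of_card_le (by
        rw [Fintype.card_fin, Fintype.card_subtype, hn0]; exact hV)
    exact ⟨fun i => (e i).1, Subtype.val_injective.comp e.injective, fun i => (e i).2⟩
  refine ⟨g, fun k τ x h1 h2 h3 h4 => ?_, fun y => ?_⟩
  · exact (hS (k, τ) (hA3 k τ h1 (not_lt.1 fun hl => h4 ⟨h2, τ, h1, h3, hl⟩))).restrict hginj hgV
  · obtain ⟨Z, hZ, -, hZ'⟩ := hS0.restrict hginj hgV
    refine hZ' y ?_
    rw [card_eq_zero.1 (Nat.le_zero.1 hZ)]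
    intro l hl
    simp at hl

theorem lines {n T : ℕ} (hT : 1 ≤ T) (hn : 10 ^ 18 * T ≤ n) (hn' : n ≤ 2 * 10 ^ 18 * T)
    {ι : Type} [Fintype ι] (rk : ι → ℕ) (B : ι → (Fin n → Bool) → Prop)
    (h : ∀ Φ : Finset (Cl (Fin n)), (∀ y, ∃ c ∈ Φ, ¬ Sat y c) → ∃ A : ι → Prop,
      (∀ k, A k → ∃ X : Bool → (Fin n → Bool) → Prop, (∀ x, B k x → ∃ b, X b x) ∧ ∀ b,
        (∃ i, A i ∧ rk i < rk k ∧ ∀ x, X b x → B i x) ∨ (∃ c ∈ Φ, ∀ x, X b x → ¬ Sat x c) ∨
          ∀ x, ¬ X b x) ∧ ∃ k, A k ∧ ∀ x, B k x) :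
    2 ^ T < 2 * Fintype.card ι := by
  by_contra hcon
  push Not at hcon
  have hι : 2 * (Fintype.card ι : ℝ) ≤ 2 ^ T := by exact_mod_cast hcon
  obtain ⟨B', hB1, hB2, hB3⟩ := removal rk B (Light T)
  obtain ⟨n0, hn0⟩ : ∃ n0, n0 = 10 ^ 12 * T := ⟨_, rfl⟩
  obtain ⟨g, hS, hS0⟩ := choose_g hT hn hn' hn0 hι B'
  obtain ⟨φ, hφ, hgap, hfin⟩ := small_world hT ((Fintype.card_fin _).trans hn0) (ι := ι) (by omega)
    (fun k => {y | ∃ x, B' k x ∧ ∀ i, x (g i) = y i})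
    (fun k => {y | ∃ x, (B' k x ∧ ¬ Light T (B' k) x) ∧ ∀ i, x (g i) = y i}) (by
      rintro k τ hτ ⟨y, ⟨x, ⟨hx1, hx2⟩, hx3⟩, hy⟩
      have hc : (τ.image fun l => (g l.1, l.2)).card ≤ T := card_image_le.trans hτ
      have hag : Ag x (τ.image fun l => (g l.1, l.2)) := by
        intro l hl
        obtain ⟨l', hl', rfl⟩ := mem_image.1 hl
        exact (hx3 _).trans (hy l' hl')
      obtain ⟨Z, hZ, ⟨y0, hy0⟩, hZ'⟩ := hS k _ x hc hx1 hag hx2
      refine ⟨Z, ⟨hZ, fun y' hy' => ?_⟩, y0, fun l hl => ?_⟩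
      · obtain ⟨x', h1, h2⟩ := hZ' y' hy'
        exact ⟨x', h1.1, h2⟩
      · rcases mem_union.1 hl with h1 | h1
        · exact hy0 l h1
        · obtain ⟨x', h2, h3⟩ := hZ' y0 hy0
          exact (h3 _).symm.trans (h2.2 (g l.1, l.2) (mem_image.2 ⟨l, h1, rfl⟩)))
  obtain ⟨A, hA, k0, hk0, hk0'⟩ := h (φ.image fun c j => (g (c j).1, (c j).2)) (by
    intro x
    obtain ⟨c, hc, hs⟩ := hφ fun i => x (g i)
    exact ⟨_, mem_image.2 ⟨c, hc, rfl⟩, hs⟩)
  have main : ∀ t k, rk k < t → A k → Q φ (2 * T) {y | ∃ x, B' k x ∧ ∀ i, x (g i) = y i} := by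
    intro t
    induction t with
    | zero => intro k hk; omega
    | succ t ih =>
      intro k hk hAk
      obtain ⟨X, hX, hp⟩ := hA k hAk
      have h1 : ∀ b, Q φ T {y | ∃ x, (B' k x ∧ X b x) ∧ ∀ i, x (g i) = y i} := by
        intro b
        rcases hp b with ⟨i, h1, h2, h3⟩ | ⟨c, hc, h3⟩ | h3
        · refine (hgap i (ih i (by omega) h1)).mono ?_
          rintro y ⟨x, ⟨h4, h5⟩, h6⟩
          exact ⟨x, hB2 k i x h2 h4 (h3 x h5), h6⟩
        · obtain ⟨d, hd, rfl⟩ := mem_image.1 hc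
          refine ((Q_fals hd).le hT).mono ?_
          rintro y ⟨x, ⟨-, h5⟩, h6⟩ ⟨j, hj⟩
          exact h3 x h5 ⟨j, (h6 _).trans hj⟩
        · refine (Q_empty φ T).mono ?_
          rintro y ⟨x, ⟨-, h5⟩, -⟩
          exact h3 x h5
      rw [two_mul]
      refine ((h1 false).union (h1 true)).mono ?_
      rintro y ⟨x, h2, h3⟩
      obtain ⟨b, hb⟩ := hX x (hB1 k x h2)
      cases b
      · exact Or.inl ⟨x, ⟨h2, hb⟩, h3⟩
      · exact Or.inr ⟨x, ⟨h2, hb⟩, h3⟩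
  refine hfin ((main _ k0 (Nat.lt_succ_self _) hk0).mono fun y _ => ?_)
  obtain ⟨x, h1, h2⟩ := hS0 y
  refine ⟨x, ?_, h2⟩
  by_contra h3
  exact h1 (hB3 k0 x (hk0' x) h3)

/-- signed gate values of a unate circuit are monotone -/
theorem unate_gate {I : Type} (C : Circ I) (s : Fin C.m → Bool)
    (hs : ∀ j, (∀ k ∈ C.prd j, s k = xor (s j) (decide (C.kind j = 2))) ∧
      ((C.inp j).Nonempty → s j = decide (C.kind j = 2))) (j : Fin C.m) :
    (∀ ξ G, C.Sem ξ G → ((G j ↔ s j = false) ↔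
      ∀ u, C.Child j u → Sum.elim ξ (fun k => (G k ↔ s k = false)) u)) ∨
    (∀ ξ G, C.Sem ξ G → ((G j ↔ s j = false) ↔
      ∃ u, C.Child j u ∧ Sum.elim ξ (fun k => (G k ↔ s k = false)) u)) := by
  obtain ⟨h1, h2⟩ := hs j
  have hall : ∀ (ξ : I → Prop) (w : Fin C.m → Prop), (∀ u, C.Child j u → Sum.elim ξ w u) ↔
      (∀ i ∈ C.inp j, ξ i) ∧ ∀ k ∈ C.prd j, w k := fun ξ w => by simp [Circ.Child]
  have hex : ∀ (ξ : I → Prop) (w : Fin C.m → Prop), (∃ u, C.Child j u ∧ Sum.elim ξ w u) ↔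
      (∃ i ∈ C.inp j, ξ i) ∨ ∃ k ∈ C.prd j, w k := fun ξ w => by simp [Circ.Child]
  simp only [hall, hex]
  have hf : ∀ G : Fin C.m → Prop, (∀ k ∈ C.prd j, s k = false) →
      ((∀ k ∈ C.prd j, (G k ↔ s k = false)) ↔ ∀ k ∈ C.prd j, G k) ∧
      ((∃ k ∈ C.prd j, (G k ↔ s k = false)) ↔ ∃ k ∈ C.prd j, G k) := fun G h =>
    ⟨forall₂_congr fun k hk => by simp [h k hk],
      exists_congr fun k => and_congr_right fun hk => by simp [h k hk]⟩
  have ht : ∀ G : Fin C.m → Prop, (∀ k ∈ C.prd j, s k = true) →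
      ((∀ k ∈ C.prd j, (G k ↔ s k = false)) ↔ ∀ k ∈ C.prd j, ¬ G k) ∧
      ((∃ k ∈ C.prd j, (G k ↔ s k = false)) ↔ ∃ k ∈ C.prd j, ¬ G k) := fun G h =>
    ⟨forall₂_congr fun k hk => by simp [h k hk],
      exists_congr fun k => and_congr_right fun hk => by simp [h k hk]⟩
  rcases fin3_cases (C.kind j) with hc | hc | hc <;> cases hsj : s j
  · right
    intro ξ G hG
    rw [(hf G fun k hk => by rw [h1 k hk, hsj, hc]; rfl).2, ← (hG j).1 hc]
    simp
  · left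
    intro ξ G hG
    have hi : C.inp j = ∅ := not_nonempty_iff_eq_empty.1 fun h => by
      have := h2 h; rw [hsj, hc] at this; exact absurd this (by decide)
    rw [(ht G fun k hk => by rw [h1 k hk, hsj, hc]; rfl).1, (hG j).1 hc, hi]
    simp
  · left
    intro ξ G hG
    rw [(hf G fun k hk => by rw [h1 k hk, hsj, hc]; rfl).1, ← (hG j).2.1 hc]
    simp
  · right
    intro ξ G hG
    have hi : C.inp j = ∅ := not_nonempty_iff_eq_empty.1 fun h => by
      have := h2 h; rw [hsj, hc] at this; exact absurd this (by decide)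
    rw [(ht G fun k hk => by rw [h1 k hk, hsj, hc]; rfl).2, (hG j).2.1 hc, hi]
    simp
  · right
    intro ξ G hG
    have hi : C.inp j = ∅ := not_nonempty_iff_eq_empty.1 fun h => by
      have := h2 h; rw [hsj, hc] at this; exact absurd this (by decide)
    rw [(ht G fun k hk => by rw [h1 k hk, hsj, hc]; rfl).2, (hG j).2.2 hc, hi]
    simp
  · left
    intro ξ G hG
    rw [(hf G fun k hk => by rw [h1 k hk, hsj, hc]; rfl).1, (hG j).2.2 hc]
    simp

theorem mono_nat {n T : ℕ} (hT : 1 ≤ T) (hn : 10 ^ 18 * T ≤ n) (hn' : n ≤ 2 * 10 ^ 18 * T)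
    {C : Circ (Clause n)} {o : Fin C.m} (h : Decides C o) (s : Fin C.m → Bool) (ho : s o = true)
    (hs : ∀ j, (∀ k ∈ C.prd j, s k = xor (s j) (decide (C.kind j = 2))) ∧
      ((C.inp j).Nonempty → s j = decide (C.kind j = 2))) :
    2 ^ T < 2 * (Fintype.card (Clause n) + C.m) ^ 2 := by
  obtain ⟨G, hG, hGo⟩ := h.sem
  obtain ⟨S, hS⟩ : ∃ S, S = Fintype.card (Clause n ⊕ Fin C.m) := ⟨_, rfl⟩
  let e : Clause n ⊕ Fin C.m ≃ Fin S := Fintype.equivFinOfCardEq hS.symm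
  let W : (Clause n → Bool) → Clause n ⊕ Fin C.m → Prop := fun x =>
    Sum.elim (fun i => x i = true) (fun k => (G x k ↔ s k = false))
  let tr : (Fin n → Bool) → Clause n → Bool := fun y c => decide (∃ l ∈ c.1, y l.1 = l.2)
  let AndT : Fin C.m → Prop := fun j => ∀ x, W x (Sum.inr j) ↔ ∀ u, C.Child j u → W x u
  have hor : ∀ j, ¬ AndT j → ∀ x, W x (Sum.inr j) ↔ ∃ u, C.Child j u ∧ W x u := fun j hj x =>
    (unate_gate C s hs j).resolve_left (fun h => hj fun x => h _ _ (hG x)) _ _ (hG x)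
  let B : Fin C.m × Fin (S + 1) → (Fin n → Bool) → Prop := fun q y =>
    ¬ W (tr y) (Sum.inr q.1) ∧
      (AndT q.1 → ∃ u, C.Child q.1 u ∧ (e u).val < q.2.val ∧ ¬ W (tr y) u)
  have hlast : ∀ k y, ¬ W (tr y) (Sum.inr k) → B (k, Fin.last S) y := by
    intro k y hy
    refine ⟨hy, fun ha => ?_⟩
    rw [ha] at hy
    push Not at hy
    obtain ⟨u, h1, h2⟩ := hy
    exact ⟨u, h1, (e u).2, h2⟩
  have hl := lines hT hn hn' (fun q : Fin C.m × Fin (S + 1) => q.1.val * (S + 1) + q.2.val) B (by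
    intro Φ hΦ
    let x : Clause n → Bool := fun c => decide (∃ d ∈ Φ, c.1 = univ.image d)
    have piece : ∀ (q : Fin C.m × Fin (S + 1)) u, C.Child q.1 u → W x u →
        (∃ i : Fin C.m × Fin (S + 1), W x (Sum.inr i.1) ∧
          i.1.val * (S + 1) + i.2.val < q.1.val * (S + 1) + q.2.val ∧
          ∀ y, ¬ W (tr y) u → B i y) ∨ (∃ c ∈ Φ, ∀ y, ¬ W (tr y) u → ¬ Sat y c) ∨
          ∀ y, ¬ ¬ W (tr y) u := by
      rintro q (c | k) hu hw
      · obtain ⟨d, hd, hc⟩ := of_decide_eq_true (show x c = true from hw)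
        refine Or.inr (Or.inl ⟨d, hd, fun y hy ⟨j, hj⟩ => hy ?_⟩)
        exact decide_eq_true ⟨d j, hc ▸ mem_image_of_mem _ (mem_univ _), hj⟩
      · refine Or.inl ⟨(k, Fin.last S), hw, ?_, hlast k⟩
        have h1 : k.val + 1 ≤ q.1.val := C.acyc _ _ hu
        have h2 := Nat.mul_le_mul_right (S + 1) h1
        simp only [Fin.val_last]
        nlinarith
    refine ⟨fun q => W x (Sum.inr q.1), fun q hq => ?_, (o, Fin.last S), ?_, fun y => hlast o y ?_⟩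
    · by_cases ha : AndT q.1
      · rcases Nat.eq_zero_or_pos q.2.val with h0 | h0
        · refine ⟨fun _ _ => False, fun y hy => ?_, fun b => Or.inr (Or.inr fun _ => id)⟩
          obtain ⟨u, -, h1, -⟩ := hy.2 ha
          omega
        have ht : q.2.val - 1 < S := by have := q.2.2; omega
        refine ⟨fun b y => if b = true then B (q.1, ⟨q.2.val - 1, by omega⟩) y else
          C.Child q.1 (e.symm ⟨q.2.val - 1, ht⟩) ∧ ¬ W (tr y) (e.symm ⟨q.2.val - 1, ht⟩),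
          fun y hy => ?_, fun b => ?_⟩
        · obtain ⟨u, h1, h2, h3⟩ := hy.2 ha
          by_cases h4 : (e u).val < q.2.val - 1
          · exact ⟨true, by simpa using ⟨hy.1, fun _ => ⟨u, h1, h4, h3⟩⟩⟩
          · have h5 : e.symm ⟨q.2.val - 1, ht⟩ = u := by
              rw [Equiv.symm_apply_eq]
              exact Fin.ext (by simp only; omega)
            exact ⟨false, by simpa [h5] using ⟨h1, h3⟩⟩
        · cases b
          · simp only [Bool.false_eq_true, if_false]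
            by_cases h1 : C.Child q.1 (e.symm ⟨q.2.val - 1, ht⟩)
            · simp only [h1, true_and]
              exact piece q _ h1 ((ha x).1 hq _ h1)
            · exact Or.inr (Or.inr fun y hy => h1 hy.1)
          · simp only [if_true]
            exact Or.inl ⟨(q.1, ⟨q.2.val - 1, by omega⟩), hq, by simp only; omega, fun y hy => hy⟩
      · obtain ⟨u, h1, h2⟩ := (hor _ ha x).1 hq
        exact ⟨fun _ y => ¬ W (tr y) u, fun y hy =>
          ⟨true, fun h3 => hy.1 ((hor _ ha _).2 ⟨u, h1, h3⟩)⟩, fun _ => piece q u h1 h2⟩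
    · change G x o ↔ s o = false
      rw [hGo, ho]
      refine iff_of_false ?_ (by simp)
      rintro ⟨a, ha⟩
      obtain ⟨d, hd, hs⟩ := hΦ a
      obtain ⟨l, hl, hl'⟩ := ha ⟨univ.image d, card_image_le.trans (by simp)⟩
        (decide_eq_true ⟨d, hd, rfl⟩)
      obtain ⟨j, -, rfl⟩ := mem_image.1 hl
      exact hs ⟨j, hl'⟩
    · change ¬ (G (tr y) o ↔ s o = false)
      rw [hGo, ho]
      intro h1
      exact absurd (h1.1 ⟨y, fun c hc => of_decide_eq_true hc⟩) (by simp))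
  rw [Fintype.card_prod, Fintype.card_fin, Fintype.card_fin] at hl
  rw [Fintype.card_sum, Fintype.card_fin] at hS
  have h1 : 0 < Fintype.card (Clause n) := Fintype.card_pos_iff.2 ⟨⟨∅, by simp⟩⟩
  rw [← hS]
  refine hl.trans_le (Nat.mul_le_mul_left _ ?_)
  have h2 : C.m + 1 ≤ S := by omega
  nlinarith

theorem mono_real {n : ℕ} {C : Circ (Clause n)} {o : Fin C.m} (h : Decides C o)
    (s : Fin C.m → Bool) (ho : s o = true)
    (hs : ∀ j, (∀ k ∈ C.prd j, s k = xor (s j) (decide (C.kind j = 2))) ∧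
      ((C.inp j).Nonempty → s j = decide (C.kind j = 2))) :
    (2 : ℝ) ^ ((1 / (8 * 10 ^ 18) : ℝ) * (n : ℝ)) <
      (Fintype.card (Clause n) : ℝ) + (C.m : ℝ) := by
  rw [← Nat.cast_add]
  apply rpow_lt_of (t := n / 10 ^ 18 / 4) (two_le_size C o)
  by_cases h8 : n < 8 * 10 ^ 18
  · left
    have : (n : ℝ) < 8 * 10 ^ 18 := by exact_mod_cast h8
    linarith
  right
  refine ⟨?_, ?_⟩
  · have : n < 8 * 10 ^ 18 * (n / 10 ^ 18 / 4) := by omega
    have : (n : ℝ) < 8 * 10 ^ 18 * ((n / 10 ^ 18 / 4 : ℕ) : ℝ) := by exact_mod_cast this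
    linarith
  · have h1 := mono_nat (T := n / 10 ^ 18) (by omega) (by omega) (by omega) h s ho hs
    by_contra h2
    push Not at h2
    have h3 := Nat.pow_le_pow_left h2.le 2
    have h4 : 2 ^ (n / 10 ^ 18 / 4 * 2 + 1) ≤ 2 ^ (n / 10 ^ 18) :=
      Nat.pow_le_pow_right (by norm_num) (by omega)
    rw [pow_succ, pow_mul] at h4
    omega

end Pool.Agent.P.MP_b53add_lc.Mono
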