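import Pool.Agent.P.MP_b53add_lc.MonoCount

set_option autoImplicit false
set_option linter.unusedSectionVars false

namespace Pool.Agent.P.MP_b53add_lc.Mono

open Finset Classical

variable {α : Type} [DecidableEq α] [Fintype α]

theorem card_Cl : (Fintype.card (Cl α) : ℝ) = (2 * Fintype.card α) ^ 3 := by
  simp [Fintype.card_prod, mul_comm]

theorem gap_count {T m : ℕ} (hT : 1 ≤ T) (hα : Fintype.card α = 10 ^ 12 * T)
    (hm : m = 6 * Fintype.card α) (P B : Set (α → Bool))
    (hE : ∀ τ : Finset (α × Bool), τ.card ≤ T → (∃ y ∈ B, Ag y τ) →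
      ∃ Z : Finset (α × Bool), (Z.card ≤ 9 * T ∧ ∀ y, Ag y Z → y ∈ P) ∧ ∃ y, Ag y (Z ∪ τ)) :
    cnt (fun f : Fin m → Cl α => Exp (23 * T) (List.ofFn f).toFinset ∧
      Q (List.ofFn f).toFinset (2 * T) P ∧ ¬ Q (List.ofFn f).toFinset T B) ≤
      (Fintype.card (Cl α) : ℝ) ^ m * (1 / 10 ^ 7) ^ T := by
  have : Nonempty α := Fintype.card_pos_iff.1 (by omega)
  set core : Finset (α × Bool) → Prop := fun Z => Z.card ≤ 9 * T ∧ ∀ y, Ag y Z → y ∈ P
    with hcore
  have hT0 : (0 : ℝ) < T := by exact_mod_cast hT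
  have h1 := cnt_exists_le (fun ρ : Finset (α × Bool) => ρ.card = T)
    (fun ρ (f : Fin m → Cl α) => Fwd (23 * T) core (List.ofFn f) ∅ ρ)
    (fun f => Exp (23 * T) (List.ofFn f).toFinset ∧
      Q (List.ofFn f).toFinset (2 * T) P ∧ ¬ Q (List.ofFn f).toFinset T B)
    (w := (Fintype.card (Cl α) : ℝ) ^ m * (8100 / 10 ^ 24) ^ T) (by
      rintro f ⟨h1, h2, h3⟩
      have := back (T := T) (core := core) h1 hE (List.ofFn f) [] ∅ T subset_rfl rfl (by simp)
        (Or.inr ⟨fun Z hZ hal => ?_, fun h => h3 (h.mono fun y hy => ⟨hy, fun l hl => by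
          simp at hl⟩)⟩)
      · simpa using this
      · rw [union_empty] at hal
        exact not_Q_of_al h1 (2 * T) Z P (by have := hZ.1; omega) hal hZ.2 h2)
    (by
      intro ρ hρ
      have h2 := fwd_count (r := 23 * T) (h := 9 * T) (T := T) (core := core) (fun Z hZ => hZ.1)
        (by omega) m ∅ ρ hρ.le
      rw [hρ] at h2
      refine h2.trans (le_of_eq ?_)
      congr 2
      rw [card_Cl, hm, hα]
      push_cast
      field_simp
      ring)
  have h2 := count_small (β := α × Bool) (T := T) (c := 2 * 10 ^ 12) (by norm_num)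
    (by rw [Fintype.card_prod, hα]; simp; linarith) (fun ρ => ρ.card = T) (fun S hS => hS.le)
  refine h1.trans ((mul_le_mul_of_nonneg_right h2 (by positivity)).trans ?_)
  rw [mul_left_comm, ← mul_pow]
  exact mul_le_mul_of_nonneg_left (pow_le_pow_left₀ (by norm_num) (by norm_num) _) (by positivity)

theorem exp_count_k {T m k : ℕ} (hT : 1 ≤ T) (hα : Fintype.card α = 10 ^ 12 * T)
    (hm : m = 6 * Fintype.card α) (hk : 1 ≤ k) (hk' : k ≤ 46 * T) :
    cnt (fun f : Fin m → Cl α => ∃ I : Finset (Fin m), I.card = k ∧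
      ∃ S : Finset α, 2 * S.card ≤ 3 * k ∧ ∀ i ∈ I, ∀ j, (f i j).1 ∈ S) ≤
      (Fintype.card (Cl α) : ℝ) ^ m * (1 / 100) ^ k := by
  have : Nonempty α := Fintype.card_pos_iff.1 (by omega)
  have hT0 : (0 : ℝ) < T := by exact_mod_cast hT
  have hk0 : (0 : ℝ) < k := by exact_mod_cast hk
  have hn : (Fintype.card α : ℝ) = 10 ^ 12 * T := by exact_mod_cast hα
  have hn0 : (0 : ℝ) < Fintype.card α := by rw [hn]; positivity
  obtain ⟨y, hy0, hy2, hy1⟩ : ∃ y : ℝ, 0 < y ∧ y ^ 2 * Fintype.card α = k ∧ y ≤ 1 / 10 ^ 5 := by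
    refine ⟨Real.sqrt (k / Fintype.card α), Real.sqrt_pos.2 (by positivity), ?_, ?_⟩
    · rw [Real.sq_sqrt (by positivity)]; field_simp
    · refine Real.sqrt_le_iff.2 ⟨by norm_num, ?_⟩
      rw [div_le_iff₀ hn0, hn]
      have : (k : ℝ) ≤ 46 * T := by exact_mod_cast hk'
      nlinarith
  have hS : cnt (fun S : Finset α => 2 * S.card ≤ 3 * k) ≤ (3 / y ^ 3) ^ k := by
    have h1 := count_le (fun S : Finset α => 2 * S.card ≤ 3 * k) (x := y ^ 2) (w := y ^ (3 * k))
      (by positivity) fun S hS => by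
        rw [← pow_mul]
        exact pow_le_pow_of_le_one hy0.le (by linarith) hS
    rw [hy2] at h1
    rw [div_pow, le_div_iff₀ (by positivity), ← pow_mul]
    exact h1.trans (exp_nat_le k)
  have hI : cnt (fun I : Finset (Fin m) => I.card = k) ≤ (3 * (6 / y ^ 2)) ^ k := by
    refine count_small ?_ ?_ _ fun S hS => le_of_eq hS
    · rw [le_div_iff₀ (by positivity)]; nlinarith
    · rw [Fintype.card_fin, hm, ← hy2]; push_cast; field_simp; rfl
  have h1 := cnt_exists_le (fun I : Finset (Fin m) => I.card = k)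
    (fun I (f : Fin m → Cl α) => ∃ S : Finset α, 2 * S.card ≤ 3 * k ∧ ∀ i ∈ I, ∀ j, (f i j).1 ∈ S)
    (fun f => ∃ I : Finset (Fin m), I.card = k ∧
      ∃ S : Finset α, 2 * S.card ≤ 3 * k ∧ ∀ i ∈ I, ∀ j, (f i j).1 ∈ S)
    (w := (3 / y ^ 3) ^ k * ((Fintype.card (Cl α) : ℝ) ^ m * ((3 / 2 * y ^ 2) ^ 3) ^ k))
    (fun f hf => hf) (by
      intro I hIk
      have h2 := cnt_exists_le (fun S : Finset α => 2 * S.card ≤ 3 * k)
        (fun S (f : Fin m → Cl α) => ∀ i ∈ I, ∀ j, (f i j).1 ∈ S)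
        (fun f => ∃ S : Finset α, 2 * S.card ≤ 3 * k ∧ ∀ i ∈ I, ∀ j, (f i j).1 ∈ S)
        (w := (Fintype.card (Cl α) : ℝ) ^ m * ((3 / 2 * y ^ 2) ^ 3) ^ k) (fun f hf => hf) (by
          intro S hS
          have h3 := card_pi_le I (Fintype.piFinset fun _ : Fin 3 => S ×ˢ (univ : Finset Bool))
            (fun f : Fin m → Cl α => ∀ i ∈ I, ∀ j, (f i j).1 ∈ S) fun f hf i hi =>
              Fintype.mem_piFinset.2 fun j => mem_product.2 ⟨hf i hi j, mem_univ _⟩
          rw [hIk] at h3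
          refine h3.trans (mul_le_mul_of_nonneg_left
            (pow_le_pow_left₀ (by positivity) ?_ _) (by positivity))
          rw [card_Cl, Fintype.card_piFinset, prod_const, card_univ, Fintype.card_fin, card_product,
            card_univ, Fintype.card_bool]
          push_cast
          rw [← div_pow]
          refine pow_le_pow_left₀ (by positivity) ?_ _
          rw [div_le_iff₀ (by positivity)]
          have : 2 * (S.card : ℝ) ≤ 3 * k := by exact_mod_cast hS
          nlinarith)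
      exact h2.trans (mul_le_mul_of_nonneg_right hS (by positivity)))
  refine h1.trans ((mul_le_mul_of_nonneg_right hI (by positivity)).trans ?_)
  rw [← mul_assoc, mul_left_comm, ← mul_pow, ← mul_pow]
  refine mul_le_mul_of_nonneg_left (pow_le_pow_left₀ (by positivity) ?_ _) (by positivity)
  have : 3 * (6 / y ^ 2) * (3 / y ^ 3) * (3 / 2 * y ^ 2) ^ 3 = 729 / 4 * y := by
    field_simp; ring
  rw [this]
  linarith

theorem exp_count {T m : ℕ} (hT : 1 ≤ T) (hα : Fintype.card α = 10 ^ 12 * T)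
    (hm : m = 6 * Fintype.card α) :
    cnt (fun f : Fin m → Cl α => ¬ Exp (23 * T) (List.ofFn f).toFinset) ≤
      (Fintype.card (Cl α) : ℝ) ^ m * (1 / 10) := by
  have h1 := cnt_exists_sum (Ico 1 (46 * T + 1)) (fun k (f : Fin m → Cl α) =>
        ∃ I : Finset (Fin m), I.card = k ∧
          ∃ S : Finset α, 2 * S.card ≤ 3 * k ∧ ∀ i ∈ I, ∀ j, (f i j).1 ∈ S)
    (fun f => ¬ Exp (23 * T) (List.ofFn f).toFinset) (by
      intro f h2
      unfold Exp at h2
      push Not at h2
      obtain ⟨K, hK, h3, h4⟩ := h2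
      have h5 : ∀ c : K, ∃ i, f i = c := by
        intro c
        have := hK c.2
        simpa only [List.mem_toFinset, List.mem_ofFn] using this
      choose g hg using h5
      have hinj : Function.Injective g := fun c d e =>
        Subtype.ext ((hg c).symm.trans ((congrArg f e).trans (hg d)))
      refine ⟨K.card, mem_Ico.2 ⟨by omega, by omega⟩, univ.image g, ?_, vars K, h4.le, ?_⟩
      · rw [card_image_of_injective _ hinj, card_univ, Fintype.card_coe]
      · intro i hi j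
        obtain ⟨c, -, rfl⟩ := mem_image.1 hi
        rw [hg c]
        exact mem_biUnion.2 ⟨c, c.2, mem_cvars _ j⟩)
  refine h1.trans ((sum_le_sum fun k hk => exp_count_k hT hα hm (mem_Ico.1 hk).1
    (Nat.lt_succ_iff.1 (mem_Ico.1 hk).2)).trans ?_)
  rw [← mul_sum]
  refine mul_le_mul_of_nonneg_left
    ((geom_sum_Ico_le_of_lt_one (by norm_num) (by norm_num)).trans (by norm_num)) (by positivity)

theorem sat_count {m : ℕ} (hα : 12 ≤ Fintype.card α) (hm : m = 6 * Fintype.card α) :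
    cnt (fun f : Fin m → Cl α => ∃ y, ∀ i, Sat y (f i)) ≤
      (Fintype.card (Cl α) : ℝ) ^ m * (3 / 10) := by
  have : Nonempty α := Fintype.card_pos_iff.1 (by omega)
  have hn0 : (0 : ℝ) < Fintype.card α := by exact_mod_cast Fintype.card_pos
  have h1 := cnt_exists_sum univ (fun (y : α → Bool) (f : Fin m → Cl α) => ∀ i, Sat y (f i))
    (fun f => ∃ y, ∀ i, Sat y (f i)) (fun f ⟨y, hy⟩ => ⟨y, mem_univ _, hy⟩)
  have h2 : ∀ y : α → Bool, cnt (fun f : Fin m → Cl α => ∀ i, Sat y (f i)) ≤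
      (Fintype.card (Cl α) : ℝ) ^ m * (7 / 8) ^ m := by
    intro y
    have h3 := card_pi_le (univ : Finset (Fin m)) (univ.filter (Sat y))
      (fun f : Fin m → Cl α => ∀ i, Sat y (f i)) fun f hf i _ => mem_filter.2 ⟨mem_univ _, hf i⟩
    rw [card_univ, Fintype.card_fin] at h3
    refine h3.trans (mul_le_mul_of_nonneg_left
      (pow_le_pow_left₀ (by positivity) ?_ _) (by positivity))
    have h4 := cnt_add_not (Sat y)
    have h5 := card_le_cnt (P := fun c => ¬ Sat y c)
      (A := Fintype.piFinset fun _ : Fin 3 => univ.image fun v : α => (v, !y v)) (by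
        rintro c hc ⟨j, hj⟩
        obtain ⟨v, -, hv⟩ := mem_image.1 (Fintype.mem_piFinset.1 hc j)
        rw [← hv] at hj
        simp at hj)
    rw [Fintype.card_piFinset, prod_const, card_univ, Fintype.card_fin,
      card_image_of_injective _ (fun a b e => congrArg Prod.fst e), card_univ] at h5
    push_cast at h5
    change cnt (Sat y) / _ ≤ _
    rw [card_Cl] at h4 ⊢
    rw [div_le_iff₀ (by positivity)]
    linarith
  refine h1.trans ((sum_le_sum fun y _ => h2 y).trans ?_)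
  rw [sum_const, card_univ, nsmul_eq_mul, mul_left_comm]
  refine mul_le_mul_of_nonneg_left ?_ (by positivity)
  rw [Fintype.card_fun, Fintype.card_bool, hm, pow_mul]
  push_cast
  rw [← mul_pow]
  calc ((2 : ℝ) * (7 / 8) ^ 6) ^ Fintype.card α ≤ (2 * (7 / 8) ^ 6) ^ 12 :=
        pow_le_pow_of_le_one (by norm_num) (by norm_num) hα
    _ ≤ 3 / 10 := by norm_num

/-- the small world: an unsatisfiable formula for which the game values have a gap -/
theorem small_world {T : ℕ} (hT : 1 ≤ T) (hα : Fintype.card α = 10 ^ 12 * T) {ι : Type}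
    [Fintype ι] (hι : Fintype.card ι ≤ 2 ^ T) (P B : ι → Set (α → Bool))
    (hE : ∀ k, ∀ τ : Finset (α × Bool), τ.card ≤ T → (∃ y ∈ B k, Ag y τ) →
      ∃ Z : Finset (α × Bool), (Z.card ≤ 9 * T ∧ ∀ y, Ag y Z → y ∈ P k) ∧ ∃ y, Ag y (Z ∪ τ)) :
    ∃ φ : Finset (Cl α), (∀ y, ∃ c ∈ φ, ¬ Sat y c) ∧
      (∀ k, Q φ (2 * T) (P k) → Q φ T (B k)) ∧ ¬ Q φ (2 * T) Set.univ := by
  have : Nonempty α := Fintype.card_pos_iff.1 (by omega)
  obtain ⟨m, hm⟩ : ∃ m, m = 6 * Fintype.card α := ⟨_, rfl⟩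
  have hM : (0 : ℝ) < (Fintype.card (Cl α) : ℝ) ^ m :=
    pow_pos (by exact_mod_cast Fintype.card_pos) _
  have h1 := exp_count hT hα hm
  have h2 := sat_count (by omega) hm
  have h3 := (cnt_exists_sum univ (fun k (f : Fin m → Cl α) =>
      Exp (23 * T) (List.ofFn f).toFinset ∧
      Q (List.ofFn f).toFinset (2 * T) (P k) ∧ ¬ Q (List.ofFn f).toFinset T (B k))
    (fun f => ∃ k, Exp (23 * T) (List.ofFn f).toFinset ∧
      Q (List.ofFn f).toFinset (2 * T) (P k) ∧ ¬ Q (List.ofFn f).toFinset T (B k))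
    (fun f ⟨k, hk⟩ => ⟨k, mem_univ _, hk⟩)).trans
    (sum_le_sum fun k _ => gap_count hT hα hm (P k) (B k) (hE k))
  rw [sum_const, card_univ, nsmul_eq_mul, mul_left_comm] at h3
  have h4 : (Fintype.card ι : ℝ) * (1 / 10 ^ 7) ^ T ≤ 1 / 10 := by
    have h5 : (Fintype.card ι : ℝ) ≤ 2 ^ T := by exact_mod_cast hι
    refine (mul_le_mul_of_nonneg_right h5 (by positivity)).trans ?_
    rw [← mul_pow]
    exact (pow_le_of_le_one (by norm_num) (by norm_num) (by omega)).trans (by norm_num)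
  have h5 := mul_le_mul_of_nonneg_left h4 hM.le
  obtain ⟨f, hf⟩ := exists_not_of_cnt_lt (P := fun f : Fin m → Cl α =>
    (¬ Exp (23 * T) (List.ofFn f).toFinset ∨ ∃ y, ∀ i, Sat y (f i)) ∨
      ∃ k, Exp (23 * T) (List.ofFn f).toFinset ∧
        Q (List.ofFn f).toFinset (2 * T) (P k) ∧ ¬ Q (List.ofFn f).toFinset T (B k)) (by
    refine ((cnt_or _ _).trans (add_le_add (cnt_or _ _) le_rfl)).trans_lt ?_
    rw [Fintype.card_fun, Fintype.card_fin]
    push_cast
    linarith)
  push Not at hf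
  obtain ⟨⟨h6, h7⟩, h8⟩ := hf
  refine ⟨(List.ofFn f).toFinset, fun y => ?_, fun k => h8 k h6, ?_⟩
  · obtain ⟨i, hi⟩ := h7 y
    exact ⟨f i, by simp only [List.mem_toFinset, List.mem_ofFn]; exact ⟨i, rfl⟩, hi⟩
  · exact not_Q_of_al h6 (2 * T) ∅ _ (by simp; omega) (al_empty h6 (by omega))
      fun _ _ => trivial

end Pool.Agent.P.MP_b53add_lc.Mono
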