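import Pool.Agent.P.MP_b53add_lc.MonoLines

set_option autoImplicit false

namespace Pool.Agent.P.MP_b53add_lc.MonotoneOld

theorem monotone_h :
  ∃ δ : ℝ, 0 < δ ∧ ∀ n : ℕ,
    ¬ ∃ (m : ℕ) (kind : Fin m → Fin 3)
        (predIn : Fin m → Finset {c : Finset (Fin n × Bool) // c.card ≤ 3})
        (predG : Fin m → Finset (Fin m)) (o : Fin m),
      (∀ j : Fin m, ∀ k ∈ predG j, k < j) ∧
      (∀ j : Fin m, kind j = 2 → (predIn j).card + (predG j).card = 1) ∧
      (∃ s : Fin m → Bool, s o = true ∧ ∀ j : Fin m,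
        (∀ k ∈ predG j, s k = xor (s j) (decide (kind j = 2))) ∧
        ((predIn j).Nonempty → s j = decide (kind j = 2))) ∧
      ((Fintype.card {c : Finset (Fin n × Bool) // c.card ≤ 3} : ℝ) + (m : ℝ)
          ≤ (2 : ℝ) ^ (δ * (n : ℝ))) ∧
      ∀ x : {c : Finset (Fin n × Bool) // c.card ≤ 3} → Bool,
        ((∃ v : Fin m → Bool,
          (∀ j : Fin m,
            (kind j = 0 → (v j = true ↔
              ((∃ i ∈ predIn j, x i = true) ∨ ∃ k ∈ predG j, v k = true))) ∧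
            (kind j = 1 → (v j = true ↔
              ((∀ i ∈ predIn j, x i = true) ∧ ∀ k ∈ predG j, v k = true))) ∧
            (kind j = 2 → (v j = true ↔
              ¬ ((∀ i ∈ predIn j, x i = true) ∧ ∀ k ∈ predG j, v k = true)))) ∧
          v o = true) ↔
        ∃ a : Fin n → Bool, ∀ c : {c : Finset (Fin n × Bool) // c.card ≤ 3},
          x c = true → ∃ l ∈ c.1, a l.1 = l.2) := by
  refine ⟨1 / (8 * 10 ^ 18), by norm_num, fun n => ?_⟩
  rintro ⟨m, kind, predIn, predG, o, h1, h2, ⟨s, h3, h4⟩, h6, h7⟩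
  exact absurd h6 (not_le.2 (Pool.Agent.P.MP_b53add_lc.Mono.mono_real
    (C := ⟨m, kind, predIn, predG, h1, h2⟩) (o := o) h7 s h3 h4))

end Pool.Agent.P.MP_b53add_lc.MonotoneOld
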