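import Pool.Agent.P.MP_b53add_lc.MonoLines

set_option autoImplicit false

namespace Pool.Agent.P.MP_b53add_lc.Neg

open Finset Classical

variable {I : Type}

/-- levels counting negations along paths -/
def NLvl (C : Circ I) (lvl : Fin C.m → ℕ) : Prop :=
  ∀ j, ∀ i ∈ C.prd j, lvl i + (if C.kind j = 2 then 1 else 0) ≤ lvl j

theorem mono_step {C : Circ I} {lvl : Fin C.m → ℕ} (hl : NLvl C lvl) {ξ ξ' : I → Prop}
    {g g' : Fin C.m → Prop} (h : C.Sem ξ g) (h' : C.Sem ξ' g') (hξ : ∀ i, ξ i → ξ' i) {e : ℕ}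
    (hag : ∀ i, C.kind i = 2 → lvl i < e → (g i ↔ g' i)) (j : Fin C.m) :
    lvl j < e → g j → g' j := by
  induction j using (wellFounded_lt (α := Fin C.m)).induction with
  | _ j ih =>
  intro hj hg
  have hk : ∀ k ∈ C.prd j, g k → g' k := fun k hk =>
    ih k (C.acyc j k hk) (by have := hl j k hk; omega)
  rcases fin3_cases (C.kind j) with hc | hc | hc
  · rw [(h' j).1 hc]
    rcases ((h j).1 hc).1 hg with ⟨i, h1, h2⟩ | ⟨k, h1, h2⟩
    · exact Or.inl ⟨i, h1, hξ i h2⟩
    · exact Or.inr ⟨k, h1, hk k h1 h2⟩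
  · rw [(h' j).2.1 hc]
    obtain ⟨h1, h2⟩ := ((h j).2.1 hc).1 hg
    exact ⟨fun i hi => hξ i (h1 i hi), fun k h3 => hk k h3 (h2 k h3)⟩
  · exact (hag j hc hj).1 hg

theorem anti_step {C : Circ I} {lvl : Fin C.m → ℕ} (hl : NLvl C lvl) {ξ ξ' : I → Prop}
    {g g' : Fin C.m → Prop} (h : C.Sem ξ g) (h' : C.Sem ξ' g') (hξ : ∀ i, ξ i → ξ' i) {e : ℕ}
    (hag : ∀ i, C.kind i = 2 → lvl i < e → (g i ↔ g' i)) {j : Fin C.m} (hc : C.kind j = 2)
    (hj : lvl j ≤ e) : g' j → g j := by
  rw [(h j).2.2 hc, (h' j).2.2 hc]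
  rintro h1 ⟨h2, h3⟩
  refine h1 ⟨fun i hi => hξ i (h2 i hi), fun k hk => mono_step hl h h' hξ hag k ?_ (h3 k hk)⟩
  have := hl j k hk
  rw [if_pos hc] at this
  omega

/-- along a chain the negation pattern changes only few times -/
theorem chain_count {C : Circ I} {lvl : Fin C.m → ℕ} (hl : NLvl C lvl) (ξ : ℕ → I → Prop)
    (g : ℕ → Fin C.m → Prop) (h : ∀ a, C.Sem (ξ a) (g a)) (hξ : ∀ a i, ξ a i → ξ (a + 1) i)
    (L e : ℕ) : ((range L).filter fun a =>
      ∃ i, C.kind i = 2 ∧ lvl i < e ∧ ¬ (g a i ↔ g (a + 1) i)).card + 1 ≤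
      ∏ e' ∈ range e, ((univ.filter fun i => C.kind i = 2 ∧ lvl i = e').card + 1) := by
  induction e with
  | zero => simp
  | succ e ih =>
    rw [prod_range_succ]
    refine le_trans ?_ (Nat.mul_le_mul_right _ ih)
    set X := (range L).filter fun a => ∃ i, C.kind i = 2 ∧ lvl i < e ∧ ¬ (g a i ↔ g (a + 1) i)
      with hX
    have hst : ∀ a < L, a ∉ X → ∀ i, C.kind i = 2 → lvl i = e → g (a + 1) i → g a i := by
      intro a h1 h2 i h3 h4
      refine anti_step hl (h a) (h (a + 1)) (hξ a) (fun i' h5 h6 => ?_) h3 h4.le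
      by_contra h7
      exact h2 (mem_filter.2 ⟨mem_range.2 h1, i', h5, h6, h7⟩)
    have hD : ∀ i ∈ univ.filter fun i => C.kind i = 2 ∧ lvl i = e,
        ((range L).filter fun a => a ∉ X ∧ ¬ (g a i ↔ g (a + 1) i)).card ≤ X.card + 1 := by
      intro i hi
      obtain ⟨-, h3, h4⟩ := mem_filter.1 hi
      have key : ∀ a b, a < b → b < L → a ∉ X → b ∉ X → ¬ (g a i ↔ g (a + 1) i) →
          ¬ (g b i ↔ g (b + 1) i) → (X.filter (· < a)).card < (X.filter (· < b)).card := by
        intro a b hab hb ha' hb' h5 h6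
        have hsub : X.filter (· < a) ⊆ X.filter (· < b) := fun c hc =>
          mem_filter.2 ⟨(mem_filter.1 hc).1, (mem_filter.1 hc).2.trans hab⟩
        by_contra hcon
        have heq := eq_of_subset_of_card_le hsub (not_lt.1 hcon)
        have h7 : ¬ g (a + 1) i := fun h8 =>
          h5 ⟨fun _ => h8, fun _ => hst a (by omega) ha' i h3 h4 h8⟩
        have h8 : ∀ c, a + 1 ≤ c → c ≤ b → ¬ g c i := by
          intro c h9
          induction c, h9 using Nat.le_induction with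
          | base => exact fun _ => h7
          | succ c h9 ih' =>
            intro h10 h11
            refine ih' (by omega) (hst c (by omega) (fun h12 => ?_) i h3 h4 h11)
            have h13 : c ∈ X.filter (· < b) := mem_filter.2 ⟨h12, by omega⟩
            rw [← heq] at h13
            have := (mem_filter.1 h13).2
            omega
        exact h6 ⟨fun h9 => absurd h9 (h8 b hab le_rfl), fun h9 => hst b hb hb' i h3 h4 h9⟩
      rw [← card_range (X.card + 1)]
      refine card_le_card_of_injOn (fun a => (X.filter (· < a)).card)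
        (fun a _ => by
          simp only [coe_range, Set.mem_Iio]
          exact Nat.lt_succ_of_le (card_filter_le _ _)) fun a ha b hb hab => ?_
      obtain ⟨a1, a2, a3⟩ := mem_filter.1 (mem_coe.1 ha)
      obtain ⟨b1, b2, b3⟩ := mem_filter.1 (mem_coe.1 hb)
      rcases lt_trichotomy a b with h5 | h5 | h5
      · exact absurd hab (key a b h5 (mem_range.1 b1) a2 b2 a3 b3).ne
      · exact h5
      · exact absurd hab (key b a h5 (mem_range.1 a1) b2 a2 b3 a3).ne'
    have hsub : ((range L).filter fun a =>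
        ∃ i, C.kind i = 2 ∧ lvl i < e + 1 ∧ ¬ (g a i ↔ g (a + 1) i)) ⊆
        X ∪ (univ.filter fun i => C.kind i = 2 ∧ lvl i = e).biUnion fun i =>
          (range L).filter fun a => a ∉ X ∧ ¬ (g a i ↔ g (a + 1) i) := by
      intro a ha
      obtain ⟨h1, i, h2, h3, h4⟩ := mem_filter.1 ha
      by_cases h5 : a ∈ X
      · exact mem_union_left _ h5
      refine mem_union_right _ (mem_biUnion.2 ⟨i, mem_filter.2 ⟨mem_univ _, h2, ?_⟩,
        mem_filter.2 ⟨h1, h5, h4⟩⟩)
      by_contra h6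
      exact h5 (mem_filter.2 ⟨h1, i, h2, by omega, h4⟩)
    have h1 := (card_le_card hsub).trans ((card_union_le _ _).trans
      (Nat.add_le_add_left (card_biUnion_le_card_mul _ _ _ hD) _))
    nlinarith

/-- negations replaced by constants -/
noncomputable def freeze (C : Circ I) (a : Fin C.m → Prop) : Circ I where
  m := C.m
  kind := fun j => if C.kind j = 2 then (if a j then 1 else 0) else C.kind j
  inp := fun j => if C.kind j = 2 then ∅ else C.inp j
  prd := fun j => if C.kind j = 2 then ∅ else C.prd j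
  acyc := fun j k hk => by
    split_ifs at hk
    · simp at hk
    · exact C.acyc j k hk
  fan := fun j hj => by
    split_ifs at hj with h1 h2
    · simp at hj
    · simp at hj
    · exact absurd hj h1

theorem freeze_kind (C : Circ I) (a : Fin C.m → Prop) (j : Fin C.m) :
    (freeze C a).kind j ≠ 2 := by
  intro hj
  simp only [freeze] at hj
  split_ifs at hj with h1 h2
  · simp at hj
  · simp at hj
  · exact absurd hj h1

theorem freeze_sem {C : Circ I} {a : Fin C.m → Prop} {ξ : I → Prop} {g : Fin C.m → Prop}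
    (h : (freeze C a).Sem ξ g) (j : Fin C.m) :
    (C.kind j = 0 → (g j ↔ (∃ i ∈ C.inp j, ξ i) ∨ ∃ k ∈ C.prd j, g k)) ∧
    (C.kind j = 1 → (g j ↔ (∀ i ∈ C.inp j, ξ i) ∧ ∀ k ∈ C.prd j, g k)) ∧
    (C.kind j = 2 → (g j ↔ a j)) := by
  have h1 : ((if C.kind j = 2 then (if a j then 1 else 0) else C.kind j : Fin 3) = 0 →
      (g j ↔ (∃ i ∈ (if C.kind j = 2 then ∅ else C.inp j : Finset I), ξ i) ∨
        ∃ k ∈ (if C.kind j = 2 then ∅ else C.prd j : Finset (Fin C.m)), g k)) := (h j).1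
  have h2 : ((if C.kind j = 2 then (if a j then 1 else 0) else C.kind j : Fin 3) = 1 →
      (g j ↔ (∀ i ∈ (if C.kind j = 2 then ∅ else C.inp j : Finset I), ξ i) ∧
        ∀ k ∈ (if C.kind j = 2 then ∅ else C.prd j : Finset (Fin C.m)), g k)) := (h j).2.1
  refine ⟨fun hc => by simpa [hc] using h1, fun hc => by simpa [hc] using h2, fun hc => ?_⟩
  by_cases ha : a j
  · simpa [hc, ha] using h2
  · simpa [hc, ha] using h1

theorem freeze_mono {C : Circ I} {a : Fin C.m → Prop} {ξ ξ' : I → Prop} {g g' : Fin C.m → Prop}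
    (h : (freeze C a).Sem ξ g) (h' : (freeze C a).Sem ξ' g') (hξ : ∀ i, ξ i → ξ' i)
    (j : Fin C.m) : g j → g' j :=
  mono_step (C := freeze C a) (lvl := fun _ => 0) (fun j i _ => by rw [if_neg (freeze_kind C a j)]) h h' hξ
    (e := 1) (fun i hi => absurd hi (freeze_kind C a i)) j (by simp)

theorem freeze_agree {C : Circ I} {lvl : Fin C.m → ℕ} (hl : NLvl C lvl) {a : Fin C.m → Prop}
    {ξ : I → Prop} {g g' : Fin C.m → Prop} (h : C.Sem ξ g) (h' : (freeze C a).Sem ξ g') {e : ℕ}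
    (hag : ∀ i, C.kind i = 2 → lvl i < e → (g i ↔ a i)) (j : Fin C.m) :
    lvl j < e → (g' j ↔ g j) := by
  induction j using (wellFounded_lt (α := Fin C.m)).induction with
  | _ j ih =>
  intro hj
  have hk : ∀ k ∈ C.prd j, (g' k ↔ g k) := fun k hk =>
    ih k (C.acyc j k hk) (by have := hl j k hk; omega)
  have e1 : (∃ k ∈ C.prd j, g' k) ↔ ∃ k ∈ C.prd j, g k :=
    ⟨fun ⟨k, a, b⟩ => ⟨k, a, (hk k a).1 b⟩, fun ⟨k, a, b⟩ => ⟨k, a, (hk k a).2 b⟩⟩
  have e2 : (∀ k ∈ C.prd j, g' k) ↔ ∀ k ∈ C.prd j, g k :=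
    ⟨fun a k b => (hk k b).1 (a k b), fun a k b => (hk k b).2 (a k b)⟩
  obtain ⟨b0, b1, b2⟩ := freeze_sem h' j
  rcases fin3_cases (C.kind j) with hc | hc | hc
  · rw [(h j).1 hc, ← e1, b0 hc]
  · rw [(h j).2.1 hc, ← e2, b1 hc]
  · rw [hag j hc hj, b2 hc]

end Pool.Agent.P.MP_b53add_lc.Neg
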