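import Pool.Agent.P.MP_b53add_lc.NegCount

set_option autoImplicit false

namespace Pool.Agent.P.MP_b53add_lc.Neg

open Finset Classical Mono

theorem mono_core {k T : ℕ} (hT : 1 ≤ T) (hk : 10 ^ 18 * T ≤ k) (hk' : k ≤ 2 * 10 ^ 18 * T)
    {I : Type} [Fintype I] [Nonempty I] (C : Circ I) (hC : ∀ j, C.kind j ≠ 2)
    (G : (I → Bool) → Fin C.m → Prop) (hG : ∀ x, C.Sem (fun i => x i = true) (G x))
    (tr : (Fin k → Bool) → I → Bool)
    (h : ∀ Φ : Finset (Cl (Fin k)), (∀ y, ∃ c ∈ Φ, ¬ Sat y c) → ∃ x : I → Bool,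
      (∀ c, x c = true → (∃ d ∈ Φ, ∀ y, Sat y d → tr y c = true) ∨ ∀ y, tr y c = true) ∧
      ∃ j, G x j ∧ ∀ y, ¬ G (tr y) j) :
    2 ^ T < 2 * (Fintype.card I + C.m) ^ 2 := by
  obtain ⟨S, hS⟩ : ∃ S, S = Fintype.card (I ⊕ Fin C.m) := ⟨_, rfl⟩
  let e : I ⊕ Fin C.m ≃ Fin S := Fintype.equivFinOfCardEq hS.symm
  let W : (I → Bool) → I ⊕ Fin C.m → Prop := fun x => Sum.elim (fun i => x i = true) (G x)
  let AndT : Fin C.m → Prop := fun j => ∀ x, W x (Sum.inr j) ↔ ∀ u, C.Child j u → W x u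
  have hor : ∀ j, ¬ AndT j → ∀ x, W x (Sum.inr j) ↔ ∃ u, C.Child j u ∧ W x u := by
    intro j hj x
    rcases fin3_cases (C.kind j) with hc | hc | hc
    · exact (hG x).ex hc
    · exact absurd (fun x => (hG x).all hc) hj
    · exact absurd hc (hC j)
  let B : Fin C.m × Fin (S + 1) → (Fin k → Bool) → Prop := fun q y =>
    ¬ W (tr y) (Sum.inr q.1) ∧
      (AndT q.1 → ∃ u, C.Child q.1 u ∧ (e u).val < q.2.val ∧ ¬ W (tr y) u)
  have hlast : ∀ k y, ¬ W (tr y) (Sum.inr k) → B (k, Fin.last S) y := by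
    intro k y hy
    refine ⟨hy, fun ha => ?_⟩
    rw [ha] at hy
    push Not at hy
    obtain ⟨u, h1, h2⟩ := hy
    exact ⟨u, h1, (e u).2, h2⟩
  have hl := lines hT hk hk' (fun q : Fin C.m × Fin (S + 1) => q.1.val * (S + 1) + q.2.val) B (by
    intro Φ hΦ
    obtain ⟨x, hx, o, ho, ho'⟩ := h Φ hΦ
    have piece : ∀ (q : Fin C.m × Fin (S + 1)) u, C.Child q.1 u → W x u →
        (∃ i : Fin C.m × Fin (S + 1), W x (Sum.inr i.1) ∧
          i.1.val * (S + 1) + i.2.val < q.1.val * (S + 1) + q.2.val ∧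
          ∀ y, ¬ W (tr y) u → B i y) ∨ (∃ c ∈ Φ, ∀ y, ¬ W (tr y) u → ¬ Sat y c) ∨
          ∀ y, ¬ ¬ W (tr y) u := by
      rintro q (c | k) hu hw
      · rcases hx c hw with ⟨d, hd, hc⟩ | hc
        · exact Or.inr (Or.inl ⟨d, hd, fun y hy hs => hy (hc y hs)⟩)
        · exact Or.inr (Or.inr fun y hy => hy (hc y))
      · refine Or.inl ⟨(k, Fin.last S), hw, ?_, hlast k⟩
        have h1 : k.val + 1 ≤ q.1.val := C.acyc _ _ hu
        have h2 := Nat.mul_le_mul_right (S + 1) h1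
        simp only [Fin.val_last]
        nlinarith
    refine ⟨fun q => W x (Sum.inr q.1), fun q hq => ?_, (o, Fin.last S), ho,
      fun y => hlast o y (ho' y)⟩
    by_cases ha : AndT q.1
    · rcases Nat.eq_zero_or_pos q.2.val with h0 | h0
      · refine ⟨fun _ _ => False, fun y hy => ?_, fun b => Or.inr (Or.inr fun _ => id)⟩
        obtain ⟨u, -, h1, -⟩ := hy.2 ha
        omega
      have ht : q.2.val - 1 < S := by have := q.2.2; omega
      refine ⟨fun b y => if b = true then B (q.1, ⟨q.2.val - 1, by omega⟩) y else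
        C.Child q.1 (e.symm ⟨q.2.val - 1, ht⟩) ∧ ¬ W (tr y) (e.symm ⟨q.2.val - 1, ht⟩),
        fun y hy => ?_, fun b => ?_⟩
      · obtain ⟨u, h1, h2, h3⟩ := hy.2 ha
        by_cases h4 : (e u).val < q.2.val - 1
        · exact ⟨true, by simpa using ⟨hy.1, fun _ => ⟨u, h1, h4, h3⟩⟩⟩
        · have h5 : e.symm ⟨q.2.val - 1, ht⟩ = u := by
            rw [Equiv.symm_apply_eq]
            exact Fin.ext (by simp only; omega)
          exact ⟨false, by simpa [h5] using ⟨h1, h3⟩⟩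
      · cases b
        · simp only [Bool.false_eq_true, if_false]
          by_cases h1 : C.Child q.1 (e.symm ⟨q.2.val - 1, ht⟩)
          · simp only [h1, true_and]
            exact piece q _ h1 ((ha x).1 hq _ h1)
          · exact Or.inr (Or.inr fun y hy => h1 hy.1)
        · simp only [if_true]
          exact Or.inl ⟨(q.1, ⟨q.2.val - 1, by omega⟩), hq, by simp only; omega, fun y hy => hy⟩
    · obtain ⟨u, h1, h2⟩ := (hor _ ha x).1 hq
      exact ⟨fun _ y => ¬ W (tr y) u, fun y hy =>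
        ⟨true, fun h3 => hy.1 ((hor _ ha _).2 ⟨u, h1, h3⟩)⟩, fun _ => piece q u h1 h2⟩)
  rw [Fintype.card_prod, Fintype.card_fin, Fintype.card_fin] at hl
  rw [Fintype.card_sum, Fintype.card_fin] at hS
  have h1 : 0 < Fintype.card I := Fintype.card_pos
  rw [← hS]
  refine hl.trans_le (Nat.mul_le_mul_left _ ?_)
  have h2 : C.m + 1 ≤ S := by omega
  nlinarith

/-- every clause lies inside one block of variables -/
def Blk {n : ℕ} (k : ℕ) (x : Clause n → Bool) : Prop :=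
  ∀ c, x c = true → ∀ l ∈ c.1, ∀ l' ∈ c.1, l.1.val / k = l'.1.val / k

/-- the true clauses inside the first blocks -/
noncomputable def Zt {n : ℕ} (k j : ℕ) (a : Fin n → Bool) : Clause n → Bool := fun c =>
  decide (∃ b < j, (∀ l ∈ c.1, l.1.val / k = b) ∧ ∃ l ∈ c.1, a l.1 = l.2)

/-- overwrite one block -/
def upd {n k : ℕ} (hk : 0 < k) (j : ℕ) (a : Fin n → Bool) (y : Fin k → Bool) : Fin n → Bool :=
  fun v => if v.val / k = j then y ⟨v.val % k, Nat.mod_lt _ hk⟩ else a v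

theorem Zt_le {n k : ℕ} (hk : 0 < k) (j : ℕ) (a : Fin n → Bool) (y : Fin k → Bool) (c : Clause n)
    (h : Zt k j a c = true) : Zt k (j + 1) (upd hk j a y) c = true := by
  obtain ⟨b, h1, h2, l, h3, h4⟩ := of_decide_eq_true h
  refine decide_eq_true ⟨b, by omega, h2, l, h3, ?_⟩
  rw [upd, if_neg (by rw [h2 l h3]; omega), h4]

theorem Zt_blk {n : ℕ} (k j : ℕ) (a : Fin n → Bool) : Blk k (Zt k j a) := by
  intro c h l hl l' hl'
  obtain ⟨b, -, h2, -⟩ := of_decide_eq_true h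
  rw [h2 l hl, h2 l' hl']

theorem neg_nat {n k T : ℕ} (hT : 1 ≤ T) (hk : 10 ^ 18 * T ≤ k) (hk' : k ≤ 2 * 10 ^ 18 * T)
    (C : Circ (Clause n)) (o : Fin C.m) {lvl : Fin C.m → ℕ} (hl : NLvl C lvl)
    (G : (Clause n → Bool) → Fin C.m → Prop) (hG : ∀ x, C.Sem (fun i => x i = true) (G x))
    (hGo : ∀ x, Blk k x → (G x o ↔ SAT x))
    (hn : (∏ e ∈ range (lvl o + 1),
      ((univ.filter fun i => C.kind i = 2 ∧ lvl i = e).card + 1)) * k ≤ n) :
    2 ^ T < 2 * (Fintype.card (Clause n) + C.m) ^ 2 := by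
  have hk0 : 0 < k := by omega
  obtain ⟨L, hL⟩ : ∃ L, L = ∏ e ∈ range (lvl o + 1),
    ((univ.filter fun i => C.kind i = 2 ∧ lvl i = e).card + 1) := ⟨_, rfl⟩
  rw [← hL] at hn
  have hstop : ∃ j < L, ∃ a : Fin n → Bool, ∀ y : Fin k → Bool, ∀ i, C.kind i = 2 →
      lvl i < lvl o + 1 → (G (Zt k j a) i ↔ G (Zt k (j + 1) (upd hk0 j a y)) i) := by
    by_contra hcon
    have h1 : ∀ (j : ℕ) (a : Fin n → Bool), ∃ y : Fin k → Bool, j < L → ∃ i, C.kind i = 2 ∧
        lvl i < lvl o + 1 ∧ ¬ (G (Zt k j a) i ↔ G (Zt k (j + 1) (upd hk0 j a y)) i) := by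
      intro j a
      by_contra h2
      refine hcon ⟨j, by_contra fun h3 => h2 ⟨fun _ => true, fun h4 => absurd h4 h3⟩, a,
        fun y i h3 h4 => by_contra fun h5 => h2 ⟨y, fun _ => ⟨i, h3, h4, h5⟩⟩⟩
    choose y hy using h1
    let a : ℕ → Fin n → Bool := fun j => Nat.rec (fun _ => true) (fun j a => upd hk0 j a (y j a)) j
    have h2 := chain_count hl (fun j i => Zt k j (a j) i = true) (fun j => G (Zt k j (a j)))
      (fun j => hG _) (fun j i => Zt_le hk0 j (a j) (y j (a j)) i) L (lvl o + 1)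
    rw [← hL, filter_true_of_mem fun j hj => hy j (a j) (mem_range.1 hj), card_range] at h2
    omega
  obtain ⟨j, hj, a, hst⟩ := hstop
  have hlt : ∀ v : Fin k, j * k + v.val < n := fun v => by
    have h1 := Nat.mul_le_mul_right k (show j + 1 ≤ L from hj)
    have h2 := v.2
    nlinarith
  let em : Fin k × Bool → Fin n × Bool := fun l => (⟨j * k + l.1.val, hlt l.1⟩, l.2)
  have hdiv : ∀ l, (em l).1.val / k = j := fun l => by
    change (j * k + l.1.val) / k = j
    rw [add_comm, Nat.add_mul_div_right _ _ hk0, Nat.div_eq_of_lt l.1.2, zero_add]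
  have hupd : ∀ (b : Fin n → Bool) y l, upd hk0 j b y (em l).1 = y l.1 := fun b y l => by
    rw [upd, if_pos (hdiv l)]
    congr 1
    exact Fin.ext (by
      change (j * k + l.1.val) % k = l.1.val
      rw [add_comm, Nat.add_mul_mod_self_right, Nat.mod_eq_of_lt l.1.2])
  choose G' hG' using fun x : Clause n → Bool =>
    (freeze C (G (Zt k j a))).exists_sem fun i => x i = true
  have : Nonempty (Clause n) := ⟨⟨∅, by simp⟩⟩
  refine mono_core hT hk hk' (freeze C (G (Zt k j a))) (freeze_kind C _) G' hG'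
    (fun y => Zt k (j + 1) (upd hk0 j a y)) fun Φ hΦ => ?_
  let x : Clause n → Bool := fun c =>
    decide (Zt k j a c = true ∨ ∃ d ∈ Φ, c.1 = univ.image fun i => em (d i))
  have hzx : ∀ c, Zt k j a c = true → x c = true := fun c hc => decide_eq_true (Or.inl hc)
  have htr : ∀ (c : Clause n) (d : Cl (Fin k)), (c.1 = univ.image fun i => em (d i)) →
      ∀ y, Sat y d → Zt k (j + 1) (upd hk0 j a y) c = true := by
    rintro c d hc y ⟨i, hi⟩
    refine decide_eq_true ⟨j, by omega, fun l hl => ?_, em (d i),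
      hc ▸ mem_image_of_mem (fun i => em (d i)) (mem_univ _), (hupd a y _).trans hi⟩
    rw [hc] at hl
    obtain ⟨i, -, rfl⟩ := mem_image.1 hl
    exact hdiv _
  refine ⟨x, fun c hc => ?_, ?_⟩
  · rcases of_decide_eq_true hc with h1 | ⟨d, hd, h1⟩
    · exact Or.inr fun y => Zt_le hk0 j a y c h1
    · exact Or.inl ⟨d, hd, htr c d h1⟩
  have hz : G (Zt k j a) o := by
    refine (hGo _ (Zt_blk _ _ _)).2 ⟨a, fun c hc => ?_⟩
    obtain ⟨b, -, -, h1⟩ := of_decide_eq_true hc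
    exact h1
  have hx : ¬ G x o := by
    rw [hGo x]
    · rintro ⟨b, hb⟩
      obtain ⟨d, hd, hs⟩ := hΦ fun v => b (em (v, true)).1
      obtain ⟨l, h1, h2⟩ := hb ⟨univ.image fun i => em (d i), card_image_le.trans (by simp)⟩
        (decide_eq_true (Or.inr ⟨d, hd, rfl⟩))
      obtain ⟨i, -, rfl⟩ := mem_image.1 h1
      exact hs ⟨i, h2⟩
    · intro c hc l h1 l' h2
      rcases of_decide_eq_true hc with h3 | ⟨d, -, h3⟩
      · exact Zt_blk k j a c h3 l h1 l' h2
      · rw [h3] at h1 h2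
        obtain ⟨i, -, rfl⟩ := mem_image.1 h1
        obtain ⟨i', -, rfl⟩ := mem_image.1 h2
        rw [hdiv, hdiv]
  have hex : ∃ e, ∃ i, C.kind i = 2 ∧ lvl i = e ∧ e < lvl o + 1 ∧
      ¬ (G (Zt k j a) i ↔ G x i) := by
    by_contra hcon
    refine hx (mono_step hl (hG _) (hG x) hzx (e := lvl o + 1) (fun i h1 h2 => ?_) o
      (Nat.lt_succ_self _) hz)
    by_contra h3
    exact hcon ⟨_, i, h1, rfl, h2, h3⟩
  obtain ⟨i, h1, h2, h3, h4⟩ := Nat.find_spec hex
  have hlow : ∀ i', C.kind i' = 2 → lvl i' < lvl i → (G (Zt k j a) i' ↔ G x i') := by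
    intro i' h5 h6
    by_contra h7
    exact Nat.find_min hex (h2 ▸ h6) ⟨i', h5, rfl, by omega, h7⟩
  have h5 := anti_step hl (hG _) (hG x) hzx hlow h1 le_rfl
  have h6 : ¬ G x i := fun h => h4 ⟨fun _ => h, fun _ => h5 h⟩
  have h7 : G (Zt k j a) i := by_contra fun h => h4 ⟨fun h' => absurd h' h, fun h' => absurd h' h6⟩
  obtain ⟨u, hu, hu'⟩ := C.neg_child h1
  have h8 := not_not.1 fun h => h6 ((hu' _ _ (hG x)).2 h)
  have h9 := fun y => (hu' _ _ (hG _)).1 ((hst y i h1 (by omega)).1 h7)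
  rcases u with c | i'
  · exfalso
    rcases of_decide_eq_true (show x c = true from h8) with h10 | ⟨d, -, h10⟩
    · exact h9 (fun _ => true) (Zt_le hk0 j a _ c h10)
    · exact h9 (fun _ => (d 0).2) (htr c d h10 _ ⟨0, rfl⟩)
  · have h10 := hl i i' hu
    rw [if_pos h1] at h10
    refine ⟨i', (freeze_agree hl (hG x) (hG' x) (e := lvl i)
      (fun i'' g1 g2 => (hlow i'' g1 g2).symm) i' (by omega)).2 h8, fun y h11 => h9 y ?_⟩
    exact (freeze_agree hl (hG _) (hG' _) (e := lvl o + 1)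
      (fun i'' g1 g2 => (hst y i'' g1 g2).symm) i' (by omega)).1 h11

theorem neg_real {n k : ℕ} (C : Circ (Clause n)) (o : Fin C.m) {lvl : Fin C.m → ℕ}
    (hl : NLvl C lvl)
    (h : ∀ x : Clause n → Bool, Blk k x →
      ((∃ v : Fin C.m → Bool,
        (∀ j : Fin C.m,
          (C.kind j = 0 → (v j = true ↔
            ((∃ i ∈ C.inp j, x i = true) ∨ ∃ k ∈ C.prd j, v k = true))) ∧
          (C.kind j = 1 → (v j = true ↔
            ((∀ i ∈ C.inp j, x i = true) ∧ ∀ k ∈ C.prd j, v k = true))) ∧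
          (C.kind j = 2 → (v j = true ↔
            ¬ ((∀ i ∈ C.inp j, x i = true) ∧ ∀ k ∈ C.prd j, v k = true)))) ∧
        v o = true) ↔ SAT x))
    (hn : (∏ e ∈ range (lvl o + 1),
      ((univ.filter fun i => C.kind i = 2 ∧ lvl i = e).card + 1)) * k ≤ n) :
    (2 : ℝ) ^ ((1 / (8 * 10 ^ 18) : ℝ) * (k : ℝ)) <
      (Fintype.card (Clause n) : ℝ) + (C.m : ℝ) := by
  choose G hG using fun x : Clause n → Bool => C.exists_sem (fun i => x i = true)
  have hGo : ∀ x, Blk k x → (G x o ↔ SAT x) := by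
    refine fun x hx => Iff.trans ?_ (h x hx)
    constructor
    · intro ho
      refine ⟨fun j => decide (G x j), fun j => ?_, by simpa using ho⟩
      simp only [decide_eq_true_eq]
      exact hG x j
    · rintro ⟨v, hv, ho⟩
      exact (Circ.sem_unique (g' := G x) (g := fun j => v j = true) hv (hG x) o).2 ho
  rw [← Nat.cast_add]
  apply rpow_lt_of (t := k / 10 ^ 18 / 4) (two_le_size C o)
  by_cases h8 : k < 8 * 10 ^ 18
  · left
    have : (k : ℝ) < 8 * 10 ^ 18 := by exact_mod_cast h8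
    linarith
  right
  refine ⟨?_, ?_⟩
  · have : k < 8 * 10 ^ 18 * (k / 10 ^ 18 / 4) := by omega
    have : (k : ℝ) < 8 * 10 ^ 18 * ((k / 10 ^ 18 / 4 : ℕ) : ℝ) := by exact_mod_cast this
    linarith
  · have h1 := neg_nat (T := k / 10 ^ 18) (by omega) (by omega) (by omega) C o hl G hG hGo hn
    by_contra h2
    push Not at h2
    have h3 := Nat.pow_le_pow_left h2.le 2
    have h4 : 2 ^ (k / 10 ^ 18 / 4 * 2 + 1) ≤ 2 ^ (k / 10 ^ 18) :=
      Nat.pow_le_pow_right (by norm_num) (by omega)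
    rw [pow_succ, pow_mul] at h4
    omega

end Pool.Agent.P.MP_b53add_lc.Neg
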