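import Mathlib

set_option autoImplicit false

namespace Pool.Agent.P.MP_b53add_lc.RealC

/-- the eight Margulis-Gabber-Galil maps of the discrete torus -/
def step {m : ℕ} (i : Bool × Bool × Bool) (p : ZMod m × ZMod m) : ZMod m × ZMod m :=
  if i.1 then (p.1 + (if i.2.1 then 1 else -1) * (2 * p.2 + if i.2.2 then 1 else 0), p.2)
  else (p.1, p.2 + (if i.2.1 then 1 else -1) * (2 * p.1 + if i.2.2 then 1 else 0))

/-- the composite of a word of such maps -/
def walk {m t : ℕ} (g : Fin t → Bool × Bool × Bool) (p : ZMod m × ZMod m) : ZMod m × ZMod m :=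
  (List.ofFn g).foldr step p

/-- the torus point attached to a variable index -/
def blk (m v : ℕ) : ZMod m × ZMod m := ((v : ZMod m), ((v / m : ℕ) : ZMod m))

/-- the admissible clauses -/
def InPool (c t n : ℕ) (C : Finset (Fin n × Bool)) : Prop :=
  ∃ (u v w : Fin n × Bool) (g g' : Fin t → Bool × Bool × Bool), C = {u, v, w} ∧
    blk (Nat.sqrt (n / c)) w.1 =
      walk g (blk (Nat.sqrt (n / c)) u.1) + walk g' (blk (Nat.sqrt (n / c)) v.1)

end Pool.Agent.P.MP_b53add_lc.RealC
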