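import Pool.Agent.P.MP_b53add_lc.RealDefs
import Pool.Agent.P.MP_b53add_lc.MonoCount

set_option autoImplicit false
set_option linter.unusedSectionVars false

namespace Pool.Agent.P.MP_b53add_lc.RealC

open Finset Complex
open scoped ComplexConjugate

variable {m : ℕ} [NeZero m]

noncomputable def ch (x : ZMod m) : ℂ := ZMod.stdAddChar x

theorem ch_add (x y : ZMod m) : ch (x + y) = ch x * ch y := AddChar.map_add_eq_mul _ _ _

theorem ch_neg (x : ZMod m) : ch (-x) = conj (ch x) := AddChar.map_neg_eq_conj _ _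

theorem ch_zero : ch (0 : ZMod m) = 1 := AddChar.map_zero_eq_one _

theorem norm_ch (x : ZMod m) : ‖ch x‖ = 1 := AddChar.norm_apply _ _

theorem sum_ch (b : ZMod m) : ∑ x : ZMod m, ch (x * b) = if b = 0 then (m : ℂ) else 0 := by
  have := AddChar.sum_mulShift b (ZMod.isPrimitive_stdAddChar m)
  rw [ZMod.card] at this
  unfold ch
  rw [this]
  split_ifs <;> simp

/-- Fourier transform on the torus -/
noncomputable def FT (f : ZMod m × ZMod m → ℝ) (z : ZMod m × ZMod m) : ℂ :=
  ∑ p, (f p : ℂ) * ch (z.1 * p.1 + z.2 * p.2)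

theorem planch (f g : ZMod m × ZMod m → ℝ) :
    ∑ z, FT f z * conj (FT g z) = (m : ℂ) ^ 2 * ((∑ p, f p * g p : ℝ) : ℂ) := by
  have h1 : ∀ p q : ZMod m × ZMod m,
      ∑ z : ZMod m × ZMod m, ch (z.1 * p.1 + z.2 * p.2) * conj (ch (z.1 * q.1 + z.2 * q.2)) =
        if p = q then (m : ℂ) ^ 2 else 0 := by
    intro p q
    have h2 : ∀ z : ZMod m × ZMod m,
        ch (z.1 * p.1 + z.2 * p.2) * conj (ch (z.1 * q.1 + z.2 * q.2)) =
          ch (z.1 * (p.1 - q.1)) * ch (z.2 * (p.2 - q.2)) := by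
      intro z
      rw [← ch_neg, ← ch_add, ← ch_add]
      congr 1
      ring
    simp only [h2]
    rw [Fintype.sum_prod_type]
    simp only
    rw [← sum_mul_sum, sum_ch, sum_ch]
    by_cases e : p = q
    · subst e; simp [sq]
    · rw [if_neg e]
      by_cases e1 : p.1 - q.1 = 0
      · have e2 : ¬ p.2 - q.2 = 0 := fun e2 =>
          e (Prod.ext (sub_eq_zero.1 e1) (sub_eq_zero.1 e2))
        rw [if_neg e2, mul_zero]
      · rw [if_neg e1, zero_mul]
  simp only [FT, map_sum, map_mul, conj_ofReal, sum_mul_sum]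
  rw [sum_comm]
  push_cast
  rw [mul_sum]
  refine sum_congr rfl fun p _ => ?_
  rw [sum_comm]
  have h3 : ∀ q : ZMod m × ZMod m, ∑ z : ZMod m × ZMod m,
      (f p : ℂ) * ch (z.1 * p.1 + z.2 * p.2) * ((g q : ℂ) * conj (ch (z.1 * q.1 + z.2 * q.2))) =
      if p = q then (f p : ℂ) * g q * (m : ℂ) ^ 2 else 0 := by
    intro q
    have := h1 p q
    calc _ = (f p : ℂ) * g q * ∑ z : ZMod m × ZMod m,
          ch (z.1 * p.1 + z.2 * p.2) * conj (ch (z.1 * q.1 + z.2 * q.2)) := by
          rw [mul_sum]; exact sum_congr rfl fun z _ => by ring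
      _ = _ := by rw [this]; split_ifs <;> simp
  simp only [h3, sum_ite_eq, mem_univ, if_true]
  ring

theorem planch_norm (f : ZMod m × ZMod m → ℝ) :
    ∑ z, ‖FT f z‖ ^ 2 = (m : ℝ) ^ 2 * ∑ p, f p ^ 2 := by
  have h := planch f f
  simp only [mul_conj, normSq_eq_norm_sq] at h
  have h2 : ((∑ z, ‖FT f z‖ ^ 2 : ℝ) : ℂ) = (((m : ℝ) ^ 2 * ∑ p, f p ^ 2 : ℝ) : ℂ) := by
    push_cast at h ⊢
    rw [h]
    simp [sq]
  exact_mod_cast h2

theorem FT_shear (g : ZMod m × ZMod m → ℝ) (s e : ZMod m) (z : ZMod m × ZMod m) :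
    FT (fun p => g (p.1 + s * (2 * p.2 + e), p.2)) z =
      ch (-(s * e * z.1)) * FT g (z.1, z.2 - 2 * s * z.1) := by
  unfold FT
  rw [mul_sum]
  refine Fintype.sum_equiv ⟨fun p => (p.1 + s * (2 * p.2 + e), p.2),
    fun q => (q.1 - s * (2 * q.2 + e), q.2), fun p => by simp, fun q => by simp⟩ _ _ fun p => ?_
  simp only [Equiv.coe_fn_mk]
  rw [mul_left_comm, ← ch_add]
  congr 2
  ring

/-- distance to the nearest multiple -/
def da (x : ZMod m) : ℤ := |x.valMinAbs|

noncomputable def gam (p q : ℤ) : ℝ := if q < p then 11 / 10 else if p < q then 10 / 11 else 1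

theorem gam_mul (p q : ℤ) : gam p q * gam q p = 1 := by
  unfold gam
  rcases lt_trichotomy p q with h | h | h
  · rw [if_neg (by omega), if_pos h, if_pos h]; norm_num
  · simp [h]
  · rw [if_pos h, if_neg (by omega), if_pos h]; norm_num

theorem gam_pos (p q : ℤ) : 0 < gam p q := by
  unfold gam; split_ifs <;> norm_num

theorem gam_le (p q : ℤ) : gam p q ≤ 11 / 10 := by
  unfold gam; split_ifs <;> norm_num

theorem gam_up {p q : ℤ} (h : p < q) : gam p q = 10 / 11 := by
  unfold gam; rw [if_neg (by omega), if_pos h]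

theorem gam_nd {p q : ℤ} (h : p ≤ q) : gam p q ≤ 1 := by
  unfold gam; rw [if_neg (by omega)]; split_ifs <;> norm_num

theorem amgm (p q : ℤ) (a b : ℝ) : 2 * (a * b) ≤ gam p q * a ^ 2 + gam q p * b ^ 2 := by
  have h1 := gam_mul p q
  have h2 := gam_pos p q
  have h3 := gam_pos q p
  generalize gam p q = x at *
  generalize gam q p = y at *
  have h4 : 0 ≤ y * (x * a - b) ^ 2 := by positivity
  have h5 : y * (x * a - b) ^ 2 = (x * y) * x * a ^ 2 - 2 * (x * y) * (a * b) + y * b ^ 2 := by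
    ring
  rw [h5, h1] at h4
  linarith

theorem le_da {k w : ℤ} (h1 : k ≤ |w|) (h2 : |w| ≤ m - k) : k ≤ da (w : ZMod m) := by
  unfold da
  by_contra hc
  push Not at hc
  have h3 : ((w : ZMod m).valMinAbs : ZMod m) = (w : ZMod m) := ZMod.coe_valMinAbs _
  obtain ⟨j, hj⟩ := (ZMod.intCast_eq_intCast_iff_dvd_sub _ _ _).1 h3
  generalize (w : ZMod m).valMinAbs = v at *
  have hm : (0 : ℤ) < m := by exact_mod_cast Nat.pos_of_ne_zero (NeZero.ne m)
  rcases lt_trichotomy j 0 with h | h | h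
  · have : (m : ℤ) * j ≤ m * (-1) := mul_le_mul_of_nonneg_left (by omega) hm.le
    rcases abs_cases w with h4 | h4 <;> rcases abs_cases v with h5 | h5 <;> omega
  · subst h
    have : w = v := by omega
    subst this
    omega
  · have : (m : ℤ) * 1 ≤ m * j := mul_le_mul_of_nonneg_left (by omega) hm.le
    rcases abs_cases w with h4 | h4 <;> rcases abs_cases v with h5 | h5 <;> omega

/-- the weight of the two shears changing the second coordinate -/
noncomputable def ps (x y : ZMod m) : ℝ :=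
  gam (da y) (da (y - 2 * 1 * x)) + gam (da y) (da (y - 2 * (-1) * x))

theorem ps_le (x y : ZMod m) : ps x y ≤ 11 / 5 := by
  unfold ps
  linarith [gam_le (da y) (da (y - 2 * 1 * x)), gam_le (da y) (da (y - 2 * (-1) * x))]

theorem ps_pos (x y : ZMod m) : 0 ≤ ps x y := add_nonneg (gam_pos _ _).le (gam_pos _ _).le

theorem ps_cases (x y : ZMod m) (h : 2 * (da x + da y) < m) :
    (da y < da x → ps x y ≤ 20 / 11) ∧ (0 < da x → ps x y ≤ 10 / 11 + 11 / 10) ∧
    (0 < da x → da x = da y → ps x y ≤ 10 / 11 + 1) ∧ (da x = 0 → ps x y ≤ 2) := by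
  have e1 : y - 2 * 1 * x = ((y.valMinAbs - 2 * x.valMinAbs : ℤ) : ZMod m) := by
    push_cast; simp
  have e2 : y - 2 * (-1) * x = ((y.valMinAbs + 2 * x.valMinAbs : ℤ) : ZMod m) := by
    push_cast; simp
  unfold ps
  rw [e1, e2]
  have hx : da x = |x.valMinAbs| := rfl
  have hy : da y = |y.valMinAbs| := rfl
  generalize x.valMinAbs = a at *
  generalize y.valMinAbs = b at *
  rw [hx, hy] at h
  rw [hx, hy]
  have up : ∀ w : ℤ, |b| < |w| → |w| < m - |b| → gam |b| (da (w : ZMod m)) = 10 / 11 :=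
    fun w h1 h2 => gam_up (le_da (k := |b| + 1) (by omega) (by omega))
  have nd : ∀ w : ℤ, |b| ≤ |w| → |w| ≤ m - |b| → gam |b| (da (w : ZMod m)) ≤ 1 :=
    fun w h1 h2 => gam_nd (le_da h1 h2)
  have l1 := gam_le |b| (da ((b - 2 * a : ℤ) : ZMod m))
  have l2 := gam_le |b| (da ((b + 2 * a : ℤ) : ZMod m))
  have u1 := up (b - 2 * a)
  have u2 := up (b + 2 * a)
  have n1 := nd (b - 2 * a)
  have n2 := nd (b + 2 * a)
  refine ⟨fun h1 => ?_, fun h1 => ?_, fun h1 h2 => ?_, fun h1 => ?_⟩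
  · rw [u1, u2]
    · norm_num
    all_goals
      rcases abs_cases a with h4 | h4 <;> rcases abs_cases b with h5 | h5 <;>
        rcases abs_cases (b - 2 * a) with h6 | h6 <;> rcases abs_cases (b + 2 * a) with h7 | h7 <;>
        omega
  · by_cases h2 : |b| < |b - 2 * a|
    · rw [u1 h2]
      · linarith
      · rcases abs_cases a with h4 | h4 <;> rcases abs_cases b with h5 | h5 <;>
          rcases abs_cases (b - 2 * a) with h6 | h6 <;> omega
    · rw [u2]
      · linarith
      all_goals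
        rcases abs_cases a with h4 | h4 <;> rcases abs_cases b with h5 | h5 <;>
          rcases abs_cases (b - 2 * a) with h6 | h6 <;>
          rcases abs_cases (b + 2 * a) with h7 | h7 <;> omega
  · by_cases h3 : |b| < |b - 2 * a|
    · rw [u1 h3]
      · refine add_le_add le_rfl (n2 ?_ ?_)
        all_goals
          rcases abs_cases a with h4 | h4 <;> rcases abs_cases b with h5 | h5 <;>
            rcases abs_cases (b + 2 * a) with h7 | h7 <;> omega
      · rcases abs_cases a with h4 | h4 <;> rcases abs_cases b with h5 | h5 <;>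
          rcases abs_cases (b - 2 * a) with h6 | h6 <;> omega
    · rw [u2, add_comm]
      · refine add_le_add le_rfl (n1 ?_ ?_)
        all_goals
          rcases abs_cases a with h4 | h4 <;> rcases abs_cases b with h5 | h5 <;>
            rcases abs_cases (b - 2 * a) with h7 | h7 <;> omega
      all_goals
        rcases abs_cases a with h4 | h4 <;> rcases abs_cases b with h5 | h5 <;>
          rcases abs_cases (b - 2 * a) with h6 | h6 <;>
          rcases abs_cases (b + 2 * a) with h7 | h7 <;> omega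
  · have h2 : a = 0 := abs_eq_zero.1 h1
    subst h2
    have h3 := abs_nonneg b
    have := n1 (by simp) (by simp at h ⊢; omega)
    have := n2 (by simp) (by simp at h ⊢; omega)
    linarith

/-- the cosine factor -/
noncomputable def cs (x : ZMod m) : ℝ := ‖1 + ch x‖ / 2

theorem cs_nonneg (x : ZMod m) : 0 ≤ cs x := by unfold cs; positivity

theorem cs_le (x : ZMod m) : cs x ≤ 1 := by
  unfold cs
  have := norm_add_le 1 (ch x)
  rw [norm_ch, norm_one] at this
  linarith

theorem cs_neg (x : ZMod m) : cs (-x) = cs x := by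
  unfold cs
  rw [ch_neg, ← norm_conj (1 + ch x), map_add, map_one]

theorem cs_far (x : ZMod m) (h : (m : ℤ) ≤ 4 * da x) : cs x ≤ 3 / 4 := by
  have hm : (0 : ℝ) < m := by exact_mod_cast Nat.pos_of_ne_zero (NeZero.ne m)
  have h1 : (ch x).re ≤ 0 := by
    have e : ch x = exp ((2 * Real.pi * x.valMinAbs / m : ℝ) * I) := by
      unfold ch
      conv_lhs => rw [← ZMod.coe_valMinAbs x]
      rw [ZMod.stdAddChar_coe]
      congr 1
      push_cast
      ring
    rw [e, exp_ofReal_mul_I_re, ← Real.cos_abs]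
    have h2 := ZMod.valMinAbs_mem_Ioc x
    have h3 : 2 * da x ≤ m := by
      unfold da
      rcases abs_cases x.valMinAbs with h4 | h4 <;> (have := h2.1; have := h2.2; omega)
    have h4 : |2 * Real.pi * x.valMinAbs / m| = 2 * Real.pi * (da x : ℝ) / m := by
      unfold da
      rw [abs_div, abs_mul, abs_of_pos hm, abs_of_pos (by positivity : 0 < 2 * Real.pi)]
      push_cast
      rfl
    rw [h4]
    have h5 : (m : ℝ) ≤ 4 * (da x : ℝ) := by exact_mod_cast h
    have h6 : 2 * (da x : ℝ) ≤ m := by exact_mod_cast h3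
    have hp := Real.pi_pos
    refine Real.cos_nonpos_of_pi_div_two_le_of_le ?_ ?_
    · rw [div_le_div_iff₀ (by norm_num) hm]; nlinarith
    · rw [div_le_iff₀ hm]; nlinarith
  have h2 : ‖1 + ch x‖ ^ 2 ≤ (3 / 2) ^ 2 := by
    have h3 := norm_ch x
    have h4 : ‖ch x‖ ^ 2 = 1 := by rw [h3]; norm_num
    rw [← normSq_eq_norm_sq, normSq_apply] at h4 ⊢
    simp only [add_re, add_im, one_re, one_im]
    nlinarith
  unfold cs
  have := abs_le_of_sq_le_sq' h2 (by norm_num)
  linarith [this.2]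

theorem kappa_le (z : ZMod m × ZMod m) (hz : z ≠ 0) :
    cs z.1 * ps z.1 z.2 + cs z.2 * ps z.2 z.1 ≤ 77 / 20 := by
  have c1 := cs_le z.1
  have c2 := cs_le z.2
  have c3 := cs_nonneg z.1
  have c4 := cs_nonneg z.2
  have p1 := ps_le z.1 z.2
  have p2 := ps_le z.2 z.1
  have p3 := ps_pos z.1 z.2
  have p4 := ps_pos z.2 z.1
  have d1 : 0 ≤ da z.1 := abs_nonneg _
  have d2 : 0 ≤ da z.2 := abs_nonneg _
  by_cases h : 2 * (da z.1 + da z.2) < m
  · have h1 := ps_cases z.1 z.2 h
    have h2 := ps_cases z.2 z.1 (by omega)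
    have h3 : ps z.1 z.2 + ps z.2 z.1 ≤ 77 / 20 := by
      rcases lt_trichotomy (da z.1) (da z.2) with h4 | h4 | h4
      · have := h2.1 h4
        rcases d1.eq_or_lt with h5 | h5
        · linarith [h1.2.2.2 h5.symm]
        · linarith [h1.2.1 h5]
      · have h5 : 0 < da z.1 := by
          rcases d1.eq_or_lt with h5 | h5
          · exfalso
            apply hz
            have h6 : da z.2 = 0 := by omega
            exact Prod.ext ((ZMod.valMinAbs_eq_zero _).1 (abs_eq_zero.1 h5.symm))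
              ((ZMod.valMinAbs_eq_zero _).1 (abs_eq_zero.1 h6))
          · exact h5
        linarith [h1.2.2.1 h5 h4, h2.2.2.1 (by omega) h4.symm]
      · have := h1.1 h4
        rcases d2.eq_or_lt with h5 | h5
        · linarith [h2.2.2.2 h5.symm]
        · linarith [h2.2.1 h5]
    nlinarith
  · by_cases h1 : (m : ℤ) ≤ 4 * da z.1
    · have := cs_far z.1 h1
      nlinarith
    · have := cs_far z.2 (by omega)
      nlinarith

theorem shear_one (f g : ZMod m × ZMod m → ℝ) (s : ZMod m) (hs : s = 1 ∨ s = -1) :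
    (m : ℝ) ^ 2 * ∑ p, f p * (g (p.1 + s * (2 * p.2 + 1), p.2) + g (p.1 + s * (2 * p.2 + 0), p.2)) ≤
      ∑ z, cs z.1 * (gam (da z.2) (da (z.2 - 2 * s * z.1)) * ‖FT f z‖ ^ 2 +
        gam (da z.2) (da (z.2 - 2 * (-s) * z.1)) * ‖FT g z‖ ^ 2) := by
  have h1 := planch f fun p => g (p.1 + s * (2 * p.2 + 1), p.2) + g (p.1 + s * (2 * p.2 + 0), p.2)
  have h2 : ∀ z, FT (fun p => g (p.1 + s * (2 * p.2 + 1), p.2) +
      g (p.1 + s * (2 * p.2 + 0), p.2)) z = (1 + ch (-(s * z.1))) * FT g (z.1, z.2 - 2 * s * z.1) := by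
    intro z
    have e1 := FT_shear g s 1 z
    have e0 := FT_shear g s 0 z
    rw [mul_zero, zero_mul, neg_zero, ch_zero] at e0
    rw [mul_one] at e1
    rw [add_mul, ← e0, ← e1]
    unfold FT
    rw [← sum_add_distrib]
    refine sum_congr rfl fun p _ => ?_
    push_cast
    ring
  have h3 : ∀ z : ZMod m × ZMod m, ‖1 + ch (-(s * z.1))‖ = 2 * cs z.1 := by
    intro z
    have : cs (-(s * z.1)) = cs z.1 := by
      rcases hs with rfl | rfl
      · rw [one_mul, cs_neg]
      · simp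
    rw [← this]; unfold cs; ring
  have h4 := congrArg re h1
  rw [← ofReal_natCast, ← ofReal_pow, ← ofReal_mul, ofReal_re] at h4
  rw [← h4]
  refine (re_le_norm _).trans ((norm_sum_le _ _).trans ?_)
  have h5 : ∑ z : ZMod m × ZMod m, cs z.1 * (gam (da z.2) (da (z.2 - 2 * (-s) * z.1)) *
      ‖FT g z‖ ^ 2) = ∑ z : ZMod m × ZMod m, cs z.1 * (gam (da (z.2 - 2 * s * z.1)) (da z.2) *
      ‖FT g (z.1, z.2 - 2 * s * z.1)‖ ^ 2) := by
    symm
    refine Fintype.sum_equiv ⟨fun z => (z.1, z.2 - 2 * s * z.1),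
      fun z => (z.1, z.2 + 2 * s * z.1), fun p => by simp, fun q => by simp⟩ _ _ fun z => ?_
    simp only [Equiv.coe_fn_mk]
    congr 4
    ring
  simp only [mul_add, sum_add_distrib]
  rw [h5, ← sum_add_distrib]
  refine sum_le_sum fun z _ => ?_
  have h6 := h2 z
  simp only [mul_add] at h6
  rw [norm_mul, norm_conj, h6, norm_mul, h3, ← mul_add]
  have h7 := mul_le_mul_of_nonneg_left (amgm (da z.2) (da (z.2 - 2 * s * z.1)) ‖FT f z‖
    ‖FT g (z.1, z.2 - 2 * s * z.1)‖) (cs_nonneg z.1)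
  linarith

theorem shear (f g : ZMod m × ZMod m → ℝ) :
    (m : ℝ) ^ 2 * ∑ p, f p * ∑ i : Bool × Bool, g (step (true, i) p) ≤
      ∑ z, cs z.1 * ps z.1 z.2 * (‖FT f z‖ ^ 2 + ‖FT g z‖ ^ 2) := by
  have h1 := shear_one f g 1 (Or.inl rfl)
  have h2 := shear_one f g (-1) (Or.inr rfl)
  have h3 := add_le_add h1 h2
  rw [← mul_add, ← sum_add_distrib, ← sum_add_distrib] at h3
  refine le_trans (le_of_eq ?_) (h3.trans (le_of_eq ?_))
  · congr 1
    refine sum_congr rfl fun p _ => ?_
    simp only [Fintype.sum_prod_type, Fintype.sum_bool, step, if_true, Bool.false_eq_true,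
      if_false]
    ring
  · refine sum_congr rfl fun p _ => ?_
    unfold ps
    rw [neg_neg]
    ring

theorem FT_swap (f : ZMod m × ZMod m → ℝ) (z : ZMod m × ZMod m) :
    FT (fun p => f p.swap) z = FT f z.swap := by
  unfold FT
  refine Fintype.sum_equiv (Equiv.prodComm _ _) _ _ fun p => ?_
  simp [add_comm]

/-- the adjacency operator -/
def op (g : ZMod m × ZMod m → ℝ) (p : ZMod m × ZMod m) : ℝ := ∑ i, g (step i p)

theorem bilin (f g : ZMod m × ZMod m → ℝ) (hf : ∑ p, f p = 0) (hg : ∑ p, g p = 0) :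
    ∑ p, f p * op g p ≤ 77 / 20 * (∑ p, f p ^ 2 + ∑ p, g p ^ 2) := by
  have hm : (0 : ℝ) < (m : ℝ) ^ 2 := by
    have : (0 : ℝ) < m := by exact_mod_cast Nat.pos_of_ne_zero (NeZero.ne m)
    positivity
  have h1 := shear f g
  have h2 := shear (fun p => f p.swap) (fun p => g p.swap)
  simp only [FT_swap] at h2
  rw [← (Equiv.prodComm _ _).sum_comp, ← (Equiv.prodComm (ZMod m) (ZMod m)).sum_comp
    (fun z => cs z.1 * ps z.1 z.2 * _)] at h2
  simp only [Equiv.prodComm_apply, Prod.swap_swap, Prod.fst_swap, Prod.snd_swap] at h2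
  have h3 := add_le_add h1 h2
  rw [← mul_add, ← sum_add_distrib, ← sum_add_distrib] at h3
  have h4 : ∀ p, f p * ∑ i : Bool × Bool, g (step (true, i) p) +
      f p * ∑ i : Bool × Bool, g (step (true, i) p.swap).swap = f p * op g p := by
    intro p
    rw [op, Fintype.sum_prod_type (γ := ℝ) (α₁ := Bool) (α₂ := Bool × Bool), Fintype.sum_bool,
      mul_add]
    rfl
  simp only [h4] at h3
  have h0 : ∀ f : ZMod m × ZMod m → ℝ, ∑ p, f p = 0 → FT f 0 = 0 := by
    intro f hf
    simp only [FT, Prod.fst_zero, Prod.snd_zero, zero_mul, add_zero, ch_zero, mul_one]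
    exact_mod_cast hf
  refine le_of_mul_le_mul_left (h3.trans ?_) hm
  rw [mul_left_comm, mul_add, ← planch_norm, ← planch_norm, ← sum_add_distrib, mul_sum]
  refine sum_le_sum fun z _ => ?_
  rw [← add_mul]
  by_cases hz : z = 0
  · rw [hz, h0 f hf, h0 g hg]; simp
  · exact mul_le_mul_of_nonneg_right (kappa_le z hz) (by positivity)

theorem step_inj (i : Bool × Bool × Bool) : Function.Injective (step (m := m) i) := by
  rintro ⟨a, b⟩ ⟨c, d⟩ h
  unfold step at h
  by_cases h1 : i.1 = true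
  · rw [if_pos h1, if_pos h1, Prod.mk.injEq] at h
    obtain ⟨h2, rfl⟩ := h
    exact Prod.ext (add_right_cancel h2) rfl
  · rw [if_neg h1, if_neg h1, Prod.mk.injEq] at h
    obtain ⟨rfl, h2⟩ := h
    exact Prod.ext rfl (add_right_cancel h2)

theorem op_sum (g : ZMod m × ZMod m → ℝ) (hg : ∑ p, g p = 0) : ∑ p, op g p = 0 := by
  unfold op
  rw [sum_comm]
  refine sum_eq_zero fun i _ => ?_
  rw [← hg]
  exact (Finite.injective_iff_bijective.1 (step_inj i)).sum_comp g

theorem op_sq (g : ZMod m × ZMod m → ℝ) (hg : ∑ p, g p = 0) :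
    ∑ p, op g p ^ 2 ≤ 60 * ∑ p, g p ^ 2 := by
  have h1 := bilin (fun p => op g p / 8) g (by rw [← sum_div, op_sum g hg, zero_div]) hg
  have h2 : ∑ p, op g p / 8 * op g p = (∑ p, op g p ^ 2) / 8 := by
    rw [sum_div]; exact sum_congr rfl fun p _ => by ring
  have h3 : ∑ p, (op g p / 8) ^ 2 = (∑ p, op g p ^ 2) / 64 := by
    rw [sum_div]; exact sum_congr rfl fun p _ => by ring
  rw [h2, h3] at h1
  have h4 : 0 ≤ ∑ p, g p ^ 2 := sum_nonneg fun _ _ => sq_nonneg _
  linarith

omit [NeZero m] in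
theorem walk_cons {t : ℕ} (i : Bool × Bool × Bool) (g : Fin t → Bool × Bool × Bool)
    (p : ZMod m × ZMod m) : walk (Fin.cons i g : Fin (t + 1) → _) p = step i (walk g p) := by
  unfold walk
  rw [List.ofFn_cons]
  rfl

theorem walk_inj {t : ℕ} (g : Fin t → Bool × Bool × Bool) :
    Function.Injective (walk (m := m) g) := by
  induction t with
  | zero => intro p q h; simpa [walk] using h
  | succ t ih =>
    intro p q h
    rw [← Fin.cons_self_tail g, walk_cons, walk_cons] at h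
    exact ih _ (step_inj _ h)

theorem walk_sq (t : ℕ) : ∀ f : ZMod m × ZMod m → ℝ, ∑ p, f p = 0 →
    ∑ p, (∑ g : Fin t → Bool × Bool × Bool, f (walk g p)) ^ 2 ≤ 60 ^ t * ∑ p, f p ^ 2 := by
  induction t with
  | zero => intro f _; simp [walk]
  | succ t ih =>
    intro f hf
    have h1 : ∀ p, ∑ g : Fin (t + 1) → Bool × Bool × Bool, f (walk g p) =
        ∑ g : Fin t → Bool × Bool × Bool, op f (walk g p) := by
      intro p
      rw [Mono.sum_cons, sum_comm]
      simp only [walk_cons, op]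
    simp only [h1]
    refine (ih _ (op_sum f hf)).trans ?_
    rw [pow_succ, mul_assoc]
    exact mul_le_mul_of_nonneg_left (op_sq f hf) (by positivity)

/-- expander mixing -/
theorem mixing {t : ℕ} {lam u : ℝ} (hl : 0 ≤ lam) (ht : (60 / 64 : ℝ) ^ t ≤ lam ^ 2)
    (U U' : Finset (ZMod m × ZMod m)) (hU : (U.card : ℝ) ≤ u) (hU' : (U'.card : ℝ) ≤ u) :
    Mono.cnt (fun q : (Fin t → Bool × Bool × Bool) × (ZMod m × ZMod m) =>
      q.2 ∈ U ∧ walk q.1 q.2 ∈ U') ≤ 8 ^ t * (u * (u / (m : ℝ) ^ 2 + lam)) := by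
  classical
  have hm : (0 : ℝ) < (m : ℝ) ^ 2 := by
    have : (0 : ℝ) < m := by exact_mod_cast Nat.pos_of_ne_zero (NeZero.ne m)
    positivity
  have hu : 0 ≤ u := le_trans (Nat.cast_nonneg _) hU
  obtain ⟨μ, hμ⟩ : ∃ μ : ℝ, μ = U'.card / (m : ℝ) ^ 2 := ⟨_, rfl⟩
  have hμ0 : 0 ≤ μ := by rw [hμ]; positivity
  have hμ1 : μ * (m : ℝ) ^ 2 = U'.card := by rw [hμ]; exact div_mul_cancel₀ _ hm.ne'
  let f : ZMod m × ZMod m → ℝ := fun p => (if p ∈ U' then 1 else 0) - μ
  have hc : (Fintype.card (ZMod m × ZMod m) : ℝ) = (m : ℝ) ^ 2 := by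
    simp [ZMod.card, sq]
  have hf : ∑ p, f p = 0 := by
    simp only [f, sum_sub_distrib, sum_boole, sum_const, card_univ, nsmul_eq_mul, hc]
    simp
    linarith
  have hf2 : ∑ p, f p ^ 2 ≤ u := by
    have h1 : ∀ p, f p ^ 2 = (1 - 2 * μ) * (if p ∈ U' then 1 else 0) + μ ^ 2 := by
      intro p; simp only [f]; split_ifs <;> ring
    simp only [h1, sum_add_distrib, ← mul_sum, sum_boole, sum_const, card_univ, nsmul_eq_mul, hc]
    simp only [filter_mem_eq_inter, univ_inter]
    have : (0 : ℝ) ≤ μ * U'.card := by positivity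
    nlinarith
  have hd : (Fintype.card (Fin t → Bool × Bool × Bool) : ℝ) = 8 ^ t := by simp
  have h1 : Mono.cnt (fun q : (Fin t → Bool × Bool × Bool) × (ZMod m × ZMod m) =>
      q.2 ∈ U ∧ walk q.1 q.2 ∈ U') =
      ∑ p ∈ U, (∑ g : Fin t → Bool × Bool × Bool, f (walk g p)) + U.card * (8 ^ t * μ) := by
    rw [Mono.cnt_eq_sum, Fintype.sum_prod_type_right]
    simp only [f, sum_sub_distrib, sum_const, card_univ, nsmul_eq_mul, hd, sub_add_cancel]
    rw [← sum_subset (subset_univ U) fun p _ hp => by simp [hp]]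
    refine sum_congr rfl fun p hp => sum_congr rfl fun g _ => ?_
    simp [hp]
  have h2 := sq_sum_le_card_mul_sum_sq (s := U)
    (f := fun p => ∑ g : Fin t → Bool × Bool × Bool, f (walk g p))
  have h3 : ∑ p ∈ U, (∑ g : Fin t → Bool × Bool × Bool, f (walk g p)) ^ 2 ≤
      60 ^ t * u := (sum_le_sum_of_subset_of_nonneg (subset_univ U) fun _ _ _ =>
        sq_nonneg _).trans ((walk_sq t f hf).trans
          (mul_le_mul_of_nonneg_left hf2 (by positivity)))
  have h4 : (60 : ℝ) ^ t ≤ (8 ^ t * lam) ^ 2 := by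
    rw [div_pow, div_le_iff₀ (by positivity)] at ht
    rw [mul_pow, ← pow_mul, mul_comm t 2, pow_mul, mul_comm]
    norm_num
    exact ht
  have h5 : (∑ p ∈ U, ∑ g : Fin t → Bool × Bool × Bool, f (walk g p)) ^ 2 ≤
      (8 ^ t * lam * u) ^ 2 := by
    refine h2.trans ((mul_le_mul hU (h3.trans (mul_le_mul_of_nonneg_right h4 hu))
      (sum_nonneg fun _ _ => sq_nonneg _) hu).trans (le_of_eq (by ring)))
  have h6 := (abs_le_of_sq_le_sq' h5 (by positivity)).2
  have h7 : μ ≤ u / (m : ℝ) ^ 2 := by rw [hμ]; gcongr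
  have h8 : (U.card : ℝ) * (8 ^ t * μ) ≤ u * (8 ^ t * (u / (m : ℝ) ^ 2)) := by gcongr
  rw [h1]
  linarith

end Pool.Agent.P.MP_b53add_lc.RealC
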