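import Pool.Agent.P.MP_b53add_lc.RealWorld
import Pool.Agent.P.MP_b53add_lc.RealMgg

set_option autoImplicit false
set_option linter.unusedSectionVars false

namespace Pool.Agent.P.MP_b53add_lc.RealC

open Finset Classical Mono

section Abstract

variable {A W : Type} [Fintype A] [DecidableEq A] [AddCommGroup A] [Fintype W]

/-- the triples -/
def tri (G : W → A → A) (θ : (A × A) × (W × W)) : Fin 3 → A :=
  ![θ.1.1, θ.1.2, G θ.2.1 θ.1.1 + G θ.2.2 θ.1.2]

theorem tri_pair {G : W → A → A} (hG : ∀ g, Function.Injective (G g)) (i j : Fin 3) (h : i < j)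
    (U U' : Finset A) : cnt (fun θ => tri G θ i ∈ U ∧ tri G θ j ∈ U') ≤
      U.card * U'.card * (Fintype.card W : ℝ) ^ 2 := by
  refine (cnt_inj _ (fun q : (A × A) × (W × W) => q.1 ∈ U ×ˢ U')
    (fun θ => ((tri G θ i, tri G θ j), θ.2)) (fun θ h => mem_product.2 h) ?_).trans ?_
  · rintro ⟨⟨a, b⟩, g, g'⟩ ⟨⟨a', b'⟩, k, k'⟩ - - e
    simp only [Prod.mk.injEq] at e ⊢
    obtain ⟨⟨e1, e2⟩, rfl, rfl⟩ := e
    refine ⟨?_, rfl, rfl⟩
    fin_cases i <;> fin_cases j <;> simp [tri] at h e1 e2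
    · exact ⟨e1, e2⟩
    · subst e1
      exact ⟨rfl, hG _ (add_left_cancel e2)⟩
    · subst e1
      exact ⟨hG _ (add_right_cancel e2), rfl⟩
  · rw [cnt_fst (γ := W × W) fun q : A × A => q ∈ U ×ˢ U']
    have := cnt_le_card (P := fun q : A × A => q ∈ U ×ˢ U') (A := U ×ˢ U') fun _ h => h
    rw [card_product] at this
    rw [Fintype.card_prod, sq]
    push_cast at this ⊢
    exact mul_le_mul_of_nonneg_right this (by positivity)

theorem slice_card (S : Finset (Fin 3 × A)) (j : Fin 3) :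
    ((univ.filter fun a => (j, a) ∈ S).card : ℝ) ≤ S.card := by
  exact_mod_cast card_le_card_of_injOn (fun a => (j, a))
    (fun a ha => by simpa using ha) (fun a _ b _ e => congrArg Prod.snd e)

theorem good_tri {G : W → A → A} (hG : ∀ g, Function.Injective (G g)) {lam : ℝ}
    (hmix : ∀ (u : ℝ) (U U' : Finset A), (U.card : ℝ) ≤ u → (U'.card : ℝ) ≤ u →
      cnt (fun q : W × A => q.2 ∈ U ∧ G q.1 q.2 ∈ U') ≤
        Fintype.card W * (u * (u / Fintype.card A + lam))) : Good (tri G) lam := by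
  have hn0 : (0 : ℝ) < Fintype.card A := by exact_mod_cast Fintype.card_pos
  have hc : (Fintype.card ((A × A) × (W × W)) : ℝ) =
      (Fintype.card A : ℝ) ^ 2 * (Fintype.card W : ℝ) ^ 2 := by simp [sq]
  have hsl : ∀ (S : Finset (Fin 3 × A)) (x : ℝ), (S.card : ℝ) ≤ x * Fintype.card A → ∀ j,
      ((univ.filter fun a => (j, a) ∈ S).card : ℝ) ≤ x * Fintype.card A :=
    fun S x h j => (slice_card S j).trans h
  refine ⟨fun S x hS j => ?_, fun S x hS i j hij => ?_, fun S x hS j a => ?_⟩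
  · have h1 := hsl S x hS j
    have h2 : ((univ.filter fun a => (j, a) ∈ S).card : ℝ) * Fintype.card A *
        (Fintype.card W : ℝ) ^ 2 ≤ Fintype.card ((A × A) × (W × W)) * x := by
      rw [hc]
      refine (mul_le_mul_of_nonneg_right (mul_le_mul_of_nonneg_right h1 hn0.le)
        (by positivity)).trans (le_of_eq (by ring))
    refine le_trans ?_ h2
    by_cases h0 : j = 0
    · subst h0
      refine (cnt_mono fun θ h => ?_).trans (tri_pair hG 0 1 (by decide) _ univ)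
      simpa using h
    · rw [mul_comm (((univ.filter fun a => (j, a) ∈ S).card : ℝ))]
      refine (cnt_mono fun θ h => ?_).trans (tri_pair hG 0 j (Fin.pos_iff_ne_zero.2 h0) univ _)
      simpa using h
  · refine (cnt_mono fun θ h => ?_).trans ((tri_pair hG i j hij
      (univ.filter fun a => (i, a) ∈ S) (univ.filter fun a => (j, a) ∈ S)).trans ?_)
    · simpa using h
    · rw [hc]
      have h1 := hsl S x hS i
      refine (mul_le_mul_of_nonneg_right (mul_le_mul h1 (hsl S x hS j) (by positivity)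
        (le_trans (by positivity) h1)) (by positivity)).trans (le_of_eq (by ring))
  · have key : ∀ (P : (A × A) × (W × W) → Prop) (π : (A × A) × (W × W) → W × (W × A))
        (U : Finset A) (U' : W → Finset A), (U.card : ℝ) ≤ x * Fintype.card A →
        (∀ g, ((U' g).card : ℝ) ≤ x * Fintype.card A) →
        (∀ θ, P θ → (π θ).2.2 ∈ U ∧ G (π θ).2.1 (π θ).2.2 ∈ U' (π θ).1) →
        (∀ θ θ', P θ → P θ' → π θ = π θ' → θ = θ') →
        cnt P * Fintype.card A ≤ Fintype.card ((A × A) × (W × W)) * (x * (x + lam)) := by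
      intro P π U U' h1 h2 h3 h4
      have h5 := cnt_inj P (fun q : W × (W × A) => q.2.2 ∈ U ∧ G q.2.1 q.2.2 ∈ U' q.1) π h3 h4
      have h6 : cnt (fun q : W × (W × A) => q.2.2 ∈ U ∧ G q.2.1 q.2.2 ∈ U' q.1) =
          ∑ g, cnt (fun q : W × A => q.2 ∈ U ∧ G q.1 q.2 ∈ U' g) := by
        simp only [cnt_eq_sum]
        rw [Fintype.sum_prod_type]
      have h7 := sum_le_sum (s := univ) fun g _ => hmix _ U (U' g) h1 (h2 g)
      rw [← h6, sum_const, card_univ, nsmul_eq_mul] at h7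
      refine (mul_le_mul_of_nonneg_right (h5.trans h7) hn0.le).trans (le_of_eq ?_)
      rw [hc]
      field_simp
    have him : ∀ (i : Fin 3) (f : A → A),
        (((univ.filter fun a => (i, a) ∈ S).image f).card : ℝ) ≤ x * Fintype.card A :=
      fun i f => le_trans (by exact_mod_cast card_image_le) (hsl S x hS i)
    fin_cases j
    · refine key _ (fun θ => (θ.2.1, θ.2.2, θ.1.2)) _
        (fun g => (univ.filter fun a => ((2 : Fin 3), a) ∈ S).image fun w => w - G g a)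
        (hsl S x hS 1) (fun g => him _ _) ?_ ?_
      · rintro ⟨⟨a', b⟩, g, g'⟩ ⟨h1, h2⟩
        obtain rfl : a' = a := h1
        exact ⟨mem_filter.2 ⟨mem_univ _, h2 1⟩, mem_image.2 ⟨_, mem_filter.2 ⟨mem_univ _, h2 2⟩,
          add_sub_cancel_left _ _⟩⟩
      · rintro ⟨⟨a', b⟩, g, g'⟩ ⟨⟨a'', b'⟩, k, k'⟩ ⟨h1, -⟩ ⟨h2, -⟩ e
        obtain rfl : a' = a := h1
        obtain rfl : a'' = a' := h2
        simp only [Prod.mk.injEq] at e ⊢
        tauto
    · refine key _ (fun θ => (θ.2.2, θ.2.1, θ.1.1)) _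
        (fun g => (univ.filter fun a => ((2 : Fin 3), a) ∈ S).image fun w => w - G g a)
        (hsl S x hS 0) (fun g => him _ _) ?_ ?_
      · rintro ⟨⟨b, a'⟩, g, g'⟩ ⟨h1, h2⟩
        obtain rfl : a' = a := h1
        exact ⟨mem_filter.2 ⟨mem_univ _, h2 0⟩, mem_image.2 ⟨_, mem_filter.2 ⟨mem_univ _, h2 2⟩,
          add_sub_cancel_right _ _⟩⟩
      · rintro ⟨⟨b, a'⟩, g, g'⟩ ⟨⟨b', a''⟩, k, k'⟩ ⟨h1, -⟩ ⟨h2, -⟩ e
        obtain rfl : a' = a := h1
        obtain rfl : a'' = a' := h2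
        simp only [Prod.mk.injEq] at e ⊢
        tauto
    · refine key _ (fun θ => (θ.2.2, θ.2.1, θ.1.1)) _
        (fun g => (univ.filter fun a => ((1 : Fin 3), a) ∈ S).image fun w => a - G g w)
        (hsl S x hS 0) (fun g => him _ _) ?_ ?_
      · rintro ⟨⟨b, c⟩, g, g'⟩ ⟨h1, h2⟩
        obtain rfl : G g b + G g' c = a := h1
        exact ⟨mem_filter.2 ⟨mem_univ _, h2 0⟩, mem_image.2 ⟨_, mem_filter.2 ⟨mem_univ _, h2 1⟩,
          add_sub_cancel_right _ _⟩⟩
      · rintro ⟨⟨b, c⟩, g, g'⟩ ⟨⟨b', c'⟩, k, k'⟩ ⟨h1, -⟩ ⟨h2, -⟩ e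
        simp only [Prod.mk.injEq] at e ⊢
        obtain ⟨rfl, rfl, rfl⟩ := e
        have h3 : G g b + G g' c = G g b + G g' c' := Eq.trans h1 (Eq.symm h2)
        exact ⟨⟨rfl, hG _ (add_left_cancel h3)⟩, rfl, rfl⟩

end Abstract

theorem good_mgg : ∃ t : ℕ, ∀ (m : ℕ) [NeZero m],
    Good (tri (walk (m := m) (t := t))) (1 / 10 ^ 15) := by
  obtain ⟨t, ht⟩ := exists_pow_lt_of_lt_one (x := (1 / 10 ^ 15 : ℝ) ^ 2) (y := 60 / 64)
    (by norm_num) (by norm_num)
  refine ⟨t, fun m _ => good_tri walk_inj fun u U U' h1 h2 => ?_⟩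
  have := mixing (by norm_num) ht.le U U' h1 h2
  convert this using 4
  · simp
  · simp [ZMod.card, sq]

end Pool.Agent.P.MP_b53add_lc.RealC
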