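import Pool.Agent.P.MP_b53add_lc.RealGap

set_option autoImplicit false
set_option linter.unusedSectionVars false

namespace Pool.Agent.P.MP_b53add_lc.RealC

open Finset Classical Mono

variable {A Θ : Type} [Fintype A] [DecidableEq A] [Fintype Θ]

/-- the clause attached to a triple and three signs -/
def cl (tr : Θ → Fin 3 → A) (θ : Θ × (Fin 3 → Bool)) : Cl (Fin 3 × A) :=
  fun j => ((j, tr θ.1 j), θ.2 j)

/-- pseudo-randomness of a family of triples -/
structure Good (tr : Θ → Fin 3 → A) (lam : ℝ) : Prop where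
  p1 : ∀ (S : Finset (Fin 3 × A)) (x : ℝ), (S.card : ℝ) ≤ x * Fintype.card A → ∀ j,
    cnt (fun θ => (j, tr θ j) ∈ S) ≤ Fintype.card Θ * x
  p2 : ∀ (S : Finset (Fin 3 × A)) (x : ℝ), (S.card : ℝ) ≤ x * Fintype.card A → ∀ i j, i < j →
    cnt (fun θ => (i, tr θ i) ∈ S ∧ (j, tr θ j) ∈ S) ≤ Fintype.card Θ * x ^ 2
  p3 : ∀ (S : Finset (Fin 3 × A)) (x : ℝ), (S.card : ℝ) ≤ x * Fintype.card A → ∀ j a,
    cnt (fun θ => tr θ j = a ∧ ∀ i, (i, tr θ i) ∈ S) * Fintype.card A ≤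
      Fintype.card Θ * (x * (x + lam))

theorem card_par : (Fintype.card (Θ × (Fin 3 → Bool)) : ℝ) = Fintype.card Θ * 8 := by
  simp

theorem gap_count {T m : ℕ} [Nonempty Θ] {tr : Θ → Fin 3 → A} {lam : ℝ} (G : Good tr lam)
    (hl0 : 0 ≤ lam) (hl : lam ≤ 1 / 10 ^ 15) (hT : 1 ≤ T) (hA : 10 ^ 18 * T ≤ Fintype.card A)
    (hA' : Fintype.card A ≤ 2 * 10 ^ 18 * T) (hm : m = 18 * Fintype.card A)
    (P B : ℝ → Set (Fin 3 × A → Bool)) (hP : ∀ s s', s ≤ s' → P s ⊆ P s')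
    (hE : ∀ s, ∀ τ : Finset ((Fin 3 × A) × Bool), τ.card ≤ T → (∃ y ∈ B s, Ag y τ) →
      ∃ Z : Finset ((Fin 3 × A) × Bool), (Z.card ≤ 9 * T ∧ ∀ y, Ag y Z → y ∈ P s) ∧
        ∃ y, Ag y (Z ∪ τ)) :
    cnt (fun f : Fin m → Θ × (Fin 3 → Bool) =>
      Exp (23 * T) (List.ofFn fun i => cl tr (f i)).toFinset ∧ ∃ s,
      Q (List.ofFn fun i => cl tr (f i)).toFinset (2 * T) (P s) ∧
        ¬ Q (List.ofFn fun i => cl tr (f i)).toFinset T (B s)) ≤
      (Fintype.card (Θ × (Fin 3 → Bool)) : ℝ) ^ m * (1 / 10 ^ 7) ^ T := by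
  set core : ℝ → Finset ((Fin 3 × A) × Bool) → Prop :=
    fun s Z => Z.card ≤ 9 * T ∧ ∀ y, Ag y Z → y ∈ P s with hcore
  have hT0 : (0 : ℝ) < T := by exact_mod_cast hT
  have hn : (10 : ℝ) ^ 18 * T ≤ Fintype.card A := by exact_mod_cast hA
  have hn' : (Fintype.card A : ℝ) ≤ 2 * 10 ^ 18 * T := by exact_mod_cast hA'
  have hn0 : (0 : ℝ) < Fintype.card A := lt_of_lt_of_le (by positivity) hn
  have h1 := cnt_exists_le (fun ρ : Finset ((Fin 3 × A) × Bool) => ρ.card = T)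
    (fun ρ (f : Fin m → Θ × (Fin 3 → Bool)) =>
      FwdC (PivC (23 * T) core) (List.ofFn fun i => cl tr (f i)) ∅ ρ)
    (fun f => Exp (23 * T) (List.ofFn fun i => cl tr (f i)).toFinset ∧ ∃ s,
      Q (List.ofFn fun i => cl tr (f i)).toFinset (2 * T) (P s) ∧
        ¬ Q (List.ofFn fun i => cl tr (f i)).toFinset T (B s))
    (w := (Fintype.card (Θ × (Fin 3 → Bool)) : ℝ) ^ m * (1080 / 10 ^ 33) ^ T) (by
      rintro f ⟨h1, s, h2, h3⟩
      have := back (T := T) (core := core s) h1 (hE s) (List.ofFn fun i => cl tr (f i)) [] ∅ T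
        subset_rfl rfl (by simp)
        (Or.inr ⟨fun Z hZ hal => ?_, fun h => h3 (h.mono fun y hy => ⟨hy, fun l hl => by
          simp at hl⟩)⟩)
      · obtain ⟨ρ, h4, h5⟩ := this
        rw [List.append_nil] at h5
        exact ⟨ρ, h4, fwdC_of_fwd s _ _ _ h5⟩
      · rw [union_empty] at hal
        exact not_Q_of_al h1 (2 * T) Z (P s) (by have := hZ.1; omega) hal hZ.2 h2)
    (by
      intro ρ hρ
      have h2 := fwdC_count (cl tr) (T := T) (b := 60 / 10 ^ 33 / Fintype.card A)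
        (by positivity) (Pv := PivC (23 * T) core) (by
          intro p τ l hτ
          obtain ⟨U, hU, hU'⟩ := pivC_small (r := 23 * T) (h := 9 * T) (T := T) (core := core)
            (fun s Z hZ => hZ.1) (fun s s' Z hs hZ => ⟨hZ.1, fun y hy => hP s s' hs (hZ.2 y hy)⟩)
            (by omega) p hτ
          have h3 := G.p3 U (30 / 10 ^ 18) (by
            have : (U.card : ℝ) ≤ 30 * T := by exact_mod_cast (by omega : U.card ≤ 30 * T)
            linarith) l.1.1 l.1.2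
          have h4 := cnt_fst (γ := Fin 3 → Bool)
            (fun θ => tr θ l.1.1 = l.1.2 ∧ ∀ i, (i, tr θ i) ∈ U)
          refine (cnt_mono fun θ hθ => ?_).trans (h4.le.trans ?_)
          · obtain ⟨⟨j, rfl⟩, h6⟩ := hU' _ _ hθ
            exact ⟨rfl, h6⟩
          · rw [card_par, ← mul_div_assoc, le_div_iff₀ hn0]
            simp only [Fintype.card_fun, Fintype.card_bool, Fintype.card_fin]
            have h5 : (0 : ℝ) ≤ Fintype.card Θ := Nat.cast_nonneg _
            have h6 : (30 : ℝ) / 10 ^ 18 * (30 / 10 ^ 18 + lam) ≤ 60 / 10 ^ 33 := by linarith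
            have h7 := mul_le_mul_of_nonneg_left h6 h5
            push_cast
            linarith) m ∅ ρ hρ.le
      rw [hρ] at h2
      refine h2.trans (le_of_eq ?_)
      congr 2
      rw [hm]
      push_cast
      field_simp
      ring)
  have h2 := count_small (β := (Fin 3 × A) × Bool) (T := T) (c := 12 * 10 ^ 18) (by norm_num)
    (by simp only [Fintype.card_prod, Fintype.card_fin, Fintype.card_bool]; push_cast; linarith)
    (fun ρ => ρ.card = T) (fun S hS => hS.le)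
  refine h1.trans ((mul_le_mul_of_nonneg_right h2 (by positivity)).trans ?_)
  rw [mul_left_comm, ← mul_pow]
  exact mul_le_mul_of_nonneg_left (pow_le_pow_left₀ (by norm_num) (by norm_num) _) (by positivity)

theorem one_step {tr : Θ → Fin 3 → A} {lam : ℝ} (G : Good tr lam) (hl0 : 0 ≤ lam) {μ x : ℝ}
    (hμ : 0 ≤ μ) (hA : 0 < Fintype.card A) (S : Finset (Fin 3 × A))
    (hS : (S.card : ℝ) ≤ x * Fintype.card A) :
    ∑ θ, μ ^ (cvars (cl tr θ) \ S).card ≤ Fintype.card (Θ × (Fin 3 → Bool)) *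
      (μ ^ 3 + 3 * μ ^ 2 * x + 3 * μ * x ^ 2 + x ^ 2 * (x + lam)) := by
  have hn0 : (0 : ℝ) < Fintype.card A := by exact_mod_cast hA
  have hx : 0 ≤ x := nonneg_of_mul_nonneg_left (le_trans (Nat.cast_nonneg _) hS) hn0
  have h1 : ∀ θ : Θ × (Fin 3 → Bool), μ ^ (cvars (cl tr θ) \ S).card ≤ μ ^ 3 +
      μ ^ 2 * ((if (0, tr θ.1 0) ∈ S then 1 else 0) + (if (1, tr θ.1 1) ∈ S then 1 else 0) +
        (if (2, tr θ.1 2) ∈ S then 1 else 0)) +
      μ * ((if (0, tr θ.1 0) ∈ S ∧ (1, tr θ.1 1) ∈ S then 1 else 0) +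
        (if (0, tr θ.1 0) ∈ S ∧ (2, tr θ.1 2) ∈ S then 1 else 0) +
        (if (1, tr θ.1 1) ∈ S ∧ (2, tr θ.1 2) ∈ S then 1 else 0)) +
      (if ∀ i, (i, tr θ.1 i) ∈ S then 1 else 0) := by
    intro θ
    have h2 : (cvars (cl tr θ) \ S).card =
        (univ.filter fun j : Fin 3 => (j, tr θ.1 j) ∉ S).card := by
      rw [← card_image_of_injective _ (f := fun j : Fin 3 => (j, tr θ.1 j))
        fun i j e => congrArg Prod.fst e]
      congr 1
      ext v
      simp only [cvars, cl, mem_sdiff, mem_image, mem_univ, true_and, mem_filter]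
      constructor
      · rintro ⟨⟨j, rfl⟩, h⟩; exact ⟨j, h, rfl⟩
      · rintro ⟨j, h, rfl⟩; exact ⟨⟨j, rfl⟩, h⟩
    rw [h2, card_filter, Fin.sum_univ_three]
    have q2 : 0 ≤ μ ^ 2 := by positivity
    have q3 : 0 ≤ μ ^ 3 := by positivity
    simp only [Fin.forall_fin_succ, Fin.succ_zero_eq_one, Fin.succ_one_eq_two, IsEmpty.forall_iff,
      and_true]
    by_cases a0 : (0, tr θ.1 0) ∈ S <;> by_cases a1 : (1, tr θ.1 1) ∈ S <;>
      by_cases a2 : (2, tr θ.1 2) ∈ S <;> simp [a0, a1, a2] <;> linarith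
  refine (sum_le_sum fun θ _ => h1 θ).trans ?_
  simp only [sum_add_distrib, ← mul_sum, sum_const, card_univ, nsmul_eq_mul]
  have e : ∀ (P : Θ → Prop) [DecidablePred P],
      ∑ θ : Θ × (Fin 3 → Bool), (if P θ.1 then (1 : ℝ) else 0) = cnt P * 8 := by
    intro P _
    have := cnt_fst (γ := Fin 3 → Bool) P
    rw [cnt_eq_sum] at this
    simp only [Fintype.card_fun, Fintype.card_bool, Fintype.card_fin] at this
    convert this using 2
    · congr
    · norm_num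
  rw [e fun θ => (0, tr θ 0) ∈ S, e fun θ => (1, tr θ 1) ∈ S, e fun θ => (2, tr θ 2) ∈ S,
    e fun θ => (0, tr θ 0) ∈ S ∧ (1, tr θ 1) ∈ S, e fun θ => (0, tr θ 0) ∈ S ∧ (2, tr θ 2) ∈ S,
    e fun θ => (1, tr θ 1) ∈ S ∧ (2, tr θ 2) ∈ S, e fun θ => ∀ i, (i, tr θ i) ∈ S, card_par]
  have a0 := G.p1 S x hS 0
  have a1 := G.p1 S x hS 1
  have a2 := G.p1 S x hS 2
  have b0 := G.p2 S x hS 0 1 (by decide)
  have b1 := G.p2 S x hS 0 2 (by decide)
  have b2 := G.p2 S x hS 1 2 (by decide)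
  have c0 : cnt (fun θ => ∀ i, (i, tr θ i) ∈ S) ≤ Fintype.card Θ * (x ^ 2 * (x + lam)) := by
    have h3 := cnt_exists_sum (S.image Prod.snd)
      (fun a θ => tr θ 0 = a ∧ ∀ i, (i, tr θ i) ∈ S) (fun θ => ∀ i, (i, tr θ i) ∈ S)
      fun θ h => ⟨_, mem_image.2 ⟨_, h 0, rfl⟩, rfl, h⟩
    have h4 := sum_le_sum (s := S.image Prod.snd) fun a _ => G.p3 S x hS 0 a
    rw [← sum_mul, sum_const, nsmul_eq_mul] at h4
    have h5 : ((S.image Prod.snd).card : ℝ) ≤ x * Fintype.card A :=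
      le_trans (by exact_mod_cast card_image_le) hS
    refine le_of_mul_le_mul_right (((mul_le_mul_of_nonneg_right h3 hn0.le).trans h4).trans
      ((mul_le_mul_of_nonneg_right h5 (by positivity)).trans (le_of_eq (by ring)))) hn0
  have d1 := mul_le_mul_of_nonneg_left (add_le_add (add_le_add a0 a1) a2) (sq_nonneg μ)
  have d2 := mul_le_mul_of_nonneg_left (add_le_add (add_le_add b0 b1) b2) hμ
  linarith

theorem exp_count_k {T m k : ℕ} [Nonempty Θ] {tr : Θ → Fin 3 → A} {lam : ℝ} (G : Good tr lam)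
    (hl0 : 0 ≤ lam) (hl : lam ≤ 1 / 10 ^ 15) (hT : 1 ≤ T) (hA : 10 ^ 18 * T ≤ Fintype.card A)
    (hm : m = 18 * Fintype.card A) (hk : 1 ≤ k) (hk' : k ≤ 46 * T) :
    cnt (fun f : Fin m → Θ × (Fin 3 → Bool) => ∃ I : Finset (Fin m), I.card = k ∧
      2 * (I.biUnion fun i => cvars (cl tr (f i))).card ≤ 3 * k) ≤
      (Fintype.card (Θ × (Fin 3 → Bool)) : ℝ) ^ m * (1 / 100) ^ k := by
  have hT0 : (0 : ℝ) < T := by exact_mod_cast hT
  have hk0 : (0 : ℝ) < k := by exact_mod_cast hk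
  have hn : (10 : ℝ) ^ 18 * T ≤ Fintype.card A := by exact_mod_cast hA
  have hn0 : (0 : ℝ) < Fintype.card A := lt_of_lt_of_le (by positivity) hn
  have hM : (0 : ℝ) < Fintype.card (Θ × (Fin 3 → Bool)) := by exact_mod_cast Fintype.card_pos
  obtain ⟨y, hy0, hy2, hy1⟩ : ∃ y : ℝ, 0 < y ∧ y ^ 3 * Fintype.card A = 3 * k ∧
      y ≤ 1 / 10 ^ 5 := by
    have h1 : ((3 * k / Fintype.card A : ℝ) ^ ((3 : ℕ)⁻¹ : ℝ)) ^ 3 = 3 * k / Fintype.card A :=
      Real.rpow_inv_natCast_pow (by positivity) (by norm_num)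
    refine ⟨(3 * k / Fintype.card A : ℝ) ^ ((3 : ℕ)⁻¹ : ℝ), by positivity, ?_, ?_⟩
    · rw [h1]; field_simp
    · refine le_of_pow_le_pow_left₀ (n := 3) (by norm_num) (by norm_num) ?_
      rw [h1, div_le_iff₀ hn0]
      have : (k : ℝ) ≤ 46 * T := by exact_mod_cast hk'
      nlinarith
  set M : ℝ := (Fintype.card (Θ × (Fin 3 → Bool)) : ℝ) with hMd
  have hI : cnt (fun I : Finset (Fin m) => I.card = k) ≤ (3 * (54 / y ^ 3)) ^ k := by
    have h3 : y ^ 3 ≤ 1 := pow_le_one₀ hy0.le (by linarith)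
    refine count_small ?_ ?_ _ fun S hS => le_of_eq hS
    · rw [le_div_iff₀ (by positivity)]; linarith
    · rw [Fintype.card_fin, hm, div_mul_eq_mul_div, le_div_iff₀ (by positivity)]
      push_cast
      linarith
  have h0 : cnt (fun g : Fin k → Θ × (Fin 3 → Bool) =>
      2 * (univ.biUnion fun i => cvars (cl tr (g i))).card ≤ 3 * k) ≤
      (M * (2 / 10 ^ 6 * y ^ 3)) ^ k := by
    have h1 := mgf (cl tr) (μ := (y / 100) ^ 2) (b := M * (2 / 10 ^ 6 * y ^ 3) * (y / 100) ^ 3)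
      (u := y ^ 3 * Fintype.card A) (by positivity) (by positivity) (fun S hS => by
        refine (one_step G hl0 (by positivity) (by omega) S hS).trans ?_
        rw [mul_assoc M]
        refine mul_le_mul_of_nonneg_left ?_ hM.le
        have h2 : y ^ 2 ≤ (1 / 10 ^ 5) ^ 2 := pow_le_pow_left₀ hy0.le hy1 _
        have h3 : y ^ 3 ≤ (1 / 10 ^ 5) ^ 3 := pow_le_pow_left₀ hy0.le hy1 _
        have h4 : 1 / 10 ^ 12 + 3 / 10 ^ 8 * y + 3 / 10 ^ 4 * y ^ 2 + (y ^ 3 + lam) ≤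
            2 / 10 ^ 12 := by linarith
        have h5 := mul_le_mul_of_nonneg_left h4 (show 0 ≤ y ^ 6 by positivity)
        refine le_trans (le_of_eq ?_) (h5.trans (le_of_eq ?_)) <;> ring) k ∅ (by simp [hy2])
    rw [mul_pow _ _ k, ← pow_mul] at h1
    refine le_of_mul_le_mul_right (le_trans ?_ h1) (by positivity)
    rw [cnt_eq_sum, sum_mul]
    refine sum_le_sum fun g _ => ?_
    split_ifs with h2
    · rw [one_mul, sdiff_empty, ← pow_mul]
      exact pow_le_pow_of_le_one (by positivity) (by linarith) h2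
    · rw [zero_mul]; positivity
  have h1 := cnt_exists_le (fun I : Finset (Fin m) => I.card = k)
    (fun I (f : Fin m → Θ × (Fin 3 → Bool)) =>
      2 * (I.biUnion fun i => cvars (cl tr (f i))).card ≤ 3 * k)
    (fun f => ∃ I : Finset (Fin m), I.card = k ∧
      2 * (I.biUnion fun i => cvars (cl tr (f i))).card ≤ 3 * k)
    (w := (M * (2 / 10 ^ 6 * y ^ 3)) ^ k * (M ^ m * (1 / M) ^ k))
    (fun f hf => hf) (by
      intro I hIk
      refine le_trans (cnt_mono fun f hf => ?_) ((cnt_comp (I.orderEmbOfFin hIk)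
        (I.orderEmbOfFin hIk).injective _).trans (mul_le_mul_of_nonneg_right h0 (by positivity)))
      refine le_trans (Nat.mul_le_mul_left _ (card_le_card fun v hv => ?_)) hf
      obtain ⟨i, -, hi⟩ := mem_biUnion.1 hv
      exact mem_biUnion.2 ⟨_, I.orderEmbOfFin_mem hIk i, hi⟩)
  refine h1.trans ((mul_le_mul_of_nonneg_right hI (by positivity)).trans ?_)
  rw [mul_left_comm _ (M ^ m), mul_left_comm, ← mul_pow, ← mul_pow]
  refine mul_le_mul_of_nonneg_left (pow_le_pow_left₀ (by positivity) ?_ _) (by positivity)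
  have : 3 * (54 / y ^ 3) * (M * (2 / 10 ^ 6 * y ^ 3) * (1 / M)) = 324 / 10 ^ 6 := by
    field_simp; ring
  rw [this]
  norm_num

theorem exp_count {T m : ℕ} [Nonempty Θ] {tr : Θ → Fin 3 → A} {lam : ℝ} (G : Good tr lam)
    (hl0 : 0 ≤ lam) (hl : lam ≤ 1 / 10 ^ 15) (hT : 1 ≤ T) (hA : 10 ^ 18 * T ≤ Fintype.card A)
    (hm : m = 18 * Fintype.card A) :
    cnt (fun f : Fin m → Θ × (Fin 3 → Bool) =>
      ¬ Exp (23 * T) (List.ofFn fun i => cl tr (f i)).toFinset) ≤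
      (Fintype.card (Θ × (Fin 3 → Bool)) : ℝ) ^ m * (1 / 10) := by
  have h1 := cnt_exists_sum (Ico 1 (46 * T + 1)) (fun k (f : Fin m → Θ × (Fin 3 → Bool)) =>
        ∃ I : Finset (Fin m), I.card = k ∧
          2 * (I.biUnion fun i => cvars (cl tr (f i))).card ≤ 3 * k)
    (fun f => ¬ Exp (23 * T) (List.ofFn fun i => cl tr (f i)).toFinset) (by
      intro f h2
      unfold Exp at h2
      push Not at h2
      obtain ⟨K, hK, h3, h4⟩ := h2
      have h5 : ∀ c : K, ∃ i, cl tr (f i) = c := by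
        intro c
        have := hK c.2
        simpa only [List.mem_toFinset, List.mem_ofFn] using this
      choose g hg using h5
      have hinj : Function.Injective g := fun c d e =>
        Subtype.ext ((hg c).symm.trans ((congrArg (fun i => cl tr (f i)) e).trans (hg d)))
      refine ⟨K.card, mem_Ico.2 ⟨by omega, by omega⟩, univ.image g, ?_, ?_⟩
      · rw [card_image_of_injective _ hinj, card_univ, Fintype.card_coe]
      · refine le_trans (Nat.mul_le_mul_left _ (card_le_card fun v hv => ?_)) h4.le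
        obtain ⟨i, hi, hv⟩ := mem_biUnion.1 hv
        obtain ⟨c, -, rfl⟩ := mem_image.1 hi
        rw [hg c] at hv
        exact mem_biUnion.2 ⟨c, c.2, hv⟩)
  refine h1.trans ((sum_le_sum fun k hk => exp_count_k G hl0 hl hT hA hm (mem_Ico.1 hk).1
    (Nat.lt_succ_iff.1 (mem_Ico.1 hk).2)).trans ?_)
  rw [← mul_sum]
  refine mul_le_mul_of_nonneg_left
    ((geom_sum_Ico_le_of_lt_one (by norm_num) (by norm_num)).trans (by norm_num)) (by positivity)

theorem sat_count {m : ℕ} [Nonempty Θ] (tr : Θ → Fin 3 → A) (hA : 4 ≤ Fintype.card A)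
    (hm : m = 18 * Fintype.card A) :
    cnt (fun f : Fin m → Θ × (Fin 3 → Bool) => ∃ y, ∀ i, Sat y (cl tr (f i))) ≤
      (Fintype.card (Θ × (Fin 3 → Bool)) : ℝ) ^ m * (3 / 10) := by
  have hn0 : (0 : ℝ) < Fintype.card Θ := by exact_mod_cast Fintype.card_pos
  have h1 := cnt_exists_sum univ (fun (y : Fin 3 × A → Bool) (f : Fin m → Θ × (Fin 3 → Bool)) =>
      ∀ i, Sat y (cl tr (f i)))
    (fun f => ∃ y, ∀ i, Sat y (cl tr (f i))) (fun f ⟨y, hy⟩ => ⟨y, mem_univ _, hy⟩)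
  have h2 : ∀ y : Fin 3 × A → Bool,
      cnt (fun f : Fin m → Θ × (Fin 3 → Bool) => ∀ i, Sat y (cl tr (f i))) ≤
      (Fintype.card (Θ × (Fin 3 → Bool)) : ℝ) ^ m * (7 / 8) ^ m := by
    intro y
    have h3 := card_pi_le (univ : Finset (Fin m)) (univ.filter fun θ => Sat y (cl tr θ))
      (fun f : Fin m → Θ × (Fin 3 → Bool) => ∀ i, Sat y (cl tr (f i)))
      fun f hf i _ => mem_filter.2 ⟨mem_univ _, hf i⟩
    rw [card_univ, Fintype.card_fin] at h3
    refine h3.trans (mul_le_mul_of_nonneg_left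
      (pow_le_pow_left₀ (by positivity) ?_ _) (by positivity))
    have h4 := cnt_add_not fun θ => Sat y (cl tr θ)
    have h5 := card_le_cnt (P := fun θ => ¬ Sat y (cl tr θ))
      (A := univ.image fun θ : Θ => (θ, fun j => !y (j, tr θ j))) (by
        rintro c hc ⟨j, hj⟩
        obtain ⟨v, -, rfl⟩ := mem_image.1 hc
        simp [cl] at hj)
    rw [card_image_of_injective _ (fun a b e => congrArg Prod.fst e), card_univ] at h5
    change cnt (fun θ => Sat y (cl tr θ)) / _ ≤ _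
    rw [card_par] at h4 ⊢
    rw [div_le_iff₀ (by positivity)]
    linarith
  refine h1.trans ((sum_le_sum fun y _ => h2 y).trans ?_)
  rw [sum_const, card_univ, nsmul_eq_mul, mul_left_comm]
  refine mul_le_mul_of_nonneg_left ?_ (by positivity)
  rw [Fintype.card_fun, Fintype.card_bool, Fintype.card_prod, Fintype.card_fin, hm,
    show 18 * Fintype.card A = 6 * (3 * Fintype.card A) by ring, pow_mul _ 6]
  push_cast
  rw [← mul_pow]
  calc ((2 : ℝ) * (7 / 8) ^ 6) ^ (3 * Fintype.card A) ≤ (2 * (7 / 8) ^ 6) ^ 12 :=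
        pow_le_pow_of_le_one (by norm_num) (by norm_num) (by omega)
    _ ≤ 3 / 10 := by norm_num

/-- the small world -/
theorem small_world {T : ℕ} [Nonempty Θ] {tr : Θ → Fin 3 → A} {lam : ℝ} (G : Good tr lam)
    (hl0 : 0 ≤ lam) (hl : lam ≤ 1 / 10 ^ 15) (hT : 1 ≤ T) (hA : 10 ^ 18 * T ≤ Fintype.card A)
    (hA' : Fintype.card A ≤ 2 * 10 ^ 18 * T) {ι : Type} [Fintype ι]
    (hι : Fintype.card ι ≤ 2 ^ T) (P B : ι → ℝ → Set (Fin 3 × A → Bool))
    (hP : ∀ k s s', s ≤ s' → P k s ⊆ P k s')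
    (hE : ∀ k s, ∀ τ : Finset ((Fin 3 × A) × Bool), τ.card ≤ T → (∃ y ∈ B k s, Ag y τ) →
      ∃ Z : Finset ((Fin 3 × A) × Bool), (Z.card ≤ 9 * T ∧ ∀ y, Ag y Z → y ∈ P k s) ∧
        ∃ y, Ag y (Z ∪ τ)) :
    ∃ φ : Finset (Cl (Fin 3 × A)), (∀ c ∈ φ, ∃ θ, cl tr θ = c) ∧ (∀ y, ∃ c ∈ φ, ¬ Sat y c) ∧
      (∀ k s, Q φ (2 * T) (P k s) → Q φ T (B k s)) ∧ ¬ Q φ (2 * T) Set.univ := by
  have : Nonempty A := Fintype.card_pos_iff.1 (by omega)
  obtain ⟨m, hm⟩ : ∃ m, m = 18 * Fintype.card A := ⟨_, rfl⟩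
  have hM : (0 : ℝ) < (Fintype.card (Θ × (Fin 3 → Bool)) : ℝ) ^ m :=
    pow_pos (by exact_mod_cast Fintype.card_pos) _
  have h1 := exp_count G hl0 hl hT hA hm
  have h2 := sat_count tr (by omega) hm
  have h3 := (cnt_exists_sum univ (fun k (f : Fin m → Θ × (Fin 3 → Bool)) =>
      Exp (23 * T) (List.ofFn fun i => cl tr (f i)).toFinset ∧ ∃ s,
      Q (List.ofFn fun i => cl tr (f i)).toFinset (2 * T) (P k s) ∧
        ¬ Q (List.ofFn fun i => cl tr (f i)).toFinset T (B k s))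
    (fun f => ∃ k, Exp (23 * T) (List.ofFn fun i => cl tr (f i)).toFinset ∧ ∃ s,
      Q (List.ofFn fun i => cl tr (f i)).toFinset (2 * T) (P k s) ∧
        ¬ Q (List.ofFn fun i => cl tr (f i)).toFinset T (B k s))
    (fun f ⟨k, hk⟩ => ⟨k, mem_univ _, hk⟩)).trans
    (sum_le_sum fun k _ => gap_count G hl0 hl hT hA hA' hm (P k) (B k) (hP k) (hE k))
  rw [sum_const, card_univ, nsmul_eq_mul, mul_left_comm] at h3
  have h4 : (Fintype.card ι : ℝ) * (1 / 10 ^ 7) ^ T ≤ 1 / 10 := by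
    have h5 : (Fintype.card ι : ℝ) ≤ 2 ^ T := by exact_mod_cast hι
    refine (mul_le_mul_of_nonneg_right h5 (by positivity)).trans ?_
    rw [← mul_pow]
    exact (pow_le_of_le_one (by norm_num) (by norm_num) (by omega)).trans (by norm_num)
  have h5 := mul_le_mul_of_nonneg_left h4 hM.le
  obtain ⟨f, hf⟩ := exists_not_of_cnt_lt (P := fun f : Fin m → Θ × (Fin 3 → Bool) =>
    (¬ Exp (23 * T) (List.ofFn fun i => cl tr (f i)).toFinset ∨
      ∃ y, ∀ i, Sat y (cl tr (f i))) ∨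
      ∃ k, Exp (23 * T) (List.ofFn fun i => cl tr (f i)).toFinset ∧ ∃ s,
        Q (List.ofFn fun i => cl tr (f i)).toFinset (2 * T) (P k s) ∧
          ¬ Q (List.ofFn fun i => cl tr (f i)).toFinset T (B k s)) (by
    refine ((cnt_or _ _).trans (add_le_add (cnt_or _ _) le_rfl)).trans_lt ?_
    rw [Fintype.card_fun, Fintype.card_fin]
    push_cast
    linarith)
  push Not at hf
  obtain ⟨⟨h6, h7⟩, h8⟩ := hf
  refine ⟨(List.ofFn fun i => cl tr (f i)).toFinset, fun c hc => ?_, fun y => ?_,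
    fun k => h8 k h6, ?_⟩
  · simp only [List.mem_toFinset, List.mem_ofFn] at hc
    obtain ⟨i, hi⟩ := hc
    exact ⟨_, hi⟩
  · obtain ⟨i, hi⟩ := h7 y
    exact ⟨_, by simp only [List.mem_toFinset, List.mem_ofFn]; exact ⟨i, rfl⟩, hi⟩
  · exact not_Q_of_al h6 (2 * T) ∅ _ (by simp; omega) (al_empty h6 (by omega))
      fun _ _ => trivial

end Pool.Agent.P.MP_b53add_lc.RealC
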