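import Pool.Agent.P.MP_b53add_lc.Switch

set_option autoImplicit false

namespace Pool.Agent.P.MP_b53add_lc

open Finset Classical

/-- every output coordinate depends on at most one input coordinate -/
def Proj {X Y : Type} (ρ : (X → Bool) → (Y → Bool)) : Prop :=
  ∀ q : Y, ∃ S : Finset X, S.card ≤ 1 ∧ ∀ y y', (∀ i ∈ S, y' i = y i) → ρ y' q = ρ y q

theorem proj_pull {X Y : Type} {ρ : (X → Bool) → (Y → Bool)} (hρ : Proj ρ) (S : Finset Y) :
    ∃ S' : Finset X, S'.card ≤ S.card ∧
      ∀ y y', (∀ i ∈ S', y' i = y i) → ∀ q ∈ S, ρ y' q = ρ y q := by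
  choose T hT hT' using hρ
  refine ⟨S.biUnion T, ?_, ?_⟩
  · refine card_biUnion_le.trans ?_
    have := Finset.sum_le_card_nsmul S (fun q => (T q).card) 1 (fun q _ => hT q)
    simpa using this
  · intro y y' h q hq
    exact hT' q y y' (fun i hi => h i (mem_biUnion.2 ⟨q, hq, hi⟩))

theorem Cert.comp {X Y : Type} {ρ : (X → Bool) → (Y → Bool)} (hρ : Proj ρ) {w : ℕ}
    {f : (Y → Bool) → Prop} (hf : Cert w f) : Cert w (fun y => f (ρ y)) := by
  intro y
  obtain ⟨S, hS, h⟩ := hf (ρ y)
  obtain ⟨S', hS', h'⟩ := proj_pull hρ S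
  exact ⟨S', hS'.trans hS, fun y' hy' => h _ (h' y y' hy')⟩

theorem Cert1.comp {X Y : Type} {ρ : (X → Bool) → (Y → Bool)} (hρ : Proj ρ) {w : ℕ}
    {f : (Y → Bool) → Prop} (hf : Cert1 w f) : Cert1 w (fun y => f (ρ y)) := by
  intro y hy
  obtain ⟨S, hS, h⟩ := hf (ρ y) hy
  obtain ⟨S', hS', h'⟩ := proj_pull hρ S
  exact ⟨S', hS'.trans hS, fun y' hy' => h _ (h' y y' hy')⟩

theorem Cert.mono {X : Type} {w w' : ℕ} (h : w ≤ w') {f : (X → Bool) → Prop} (hf : Cert w f) :
    Cert w' f := fun y => by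
  obtain ⟨S, hS, h'⟩ := hf y
  exact ⟨S, hS.trans h, h'⟩

theorem Cert.not {X : Type} {w : ℕ} {f : (X → Bool) → Prop} (hf : Cert w f) :
    Cert w (fun y => ¬ f y) := fun y => by
  obtain ⟨S, hS, h'⟩ := hf y
  exact ⟨S, hS, fun y' hy' => not_congr (h' y' hy')⟩

theorem Cert.congr {X : Type} {w : ℕ} {f g : (X → Bool) → Prop} (hf : Cert w f)
    (h : ∀ y, g y ↔ f y) : Cert w g := by
  have : g = f := funext fun y => propext (h y)
  rwa [this]

theorem Cert1.congr {X : Type} {w : ℕ} {f g : (X → Bool) → Prop} (hf : Cert1 w f)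
    (h : ∀ y, g y ↔ f y) : Cert1 w g := by
  have : g = f := funext fun y => propext (h y)
  rwa [this]

theorem Cert.cert1 {X : Type} {w : ℕ} {f : (X → Bool) → Prop} (hf : Cert w f) : Cert1 w f :=
  fun y hy => by
    obtain ⟨S, hS, h'⟩ := hf y
    exact ⟨S, hS, fun y' hy' => (h' y' hy').2 hy⟩

/-- a function that is a union of functions with small positive certificates -/
theorem cert1_of_cover {X : Type} {w : ℕ} {f : (X → Bool) → Prop}
    (h : ∀ y, f y → ∃ g : (X → Bool) → Prop, Cert1 w g ∧ g y ∧ ∀ y', g y' → f y') :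
    Cert1 w f := fun y hy => by
  obtain ⟨g, hg, hgy, hgf⟩ := h y hy
  obtain ⟨S, hS, h'⟩ := hg y hgy
  exact ⟨S, hS, fun y' hy' => hgf y' (h' y' hy')⟩

def b2z (b : Bool) : ZMod 2 := if b then 1 else 0

theorem b2z_xor (a b : Bool) : b2z (xor a b) = b2z a + b2z b := by
  cases a <;> cases b <;> decide

theorem b2z_surj (z : ZMod 2) : ∃ b, b2z b = z := by
  revert z; decide

theorem b2z_eq_one (b : Bool) : b2z b = 1 ↔ b = true := by
  cases b <;> decide

theorem round {G J : Type} [Fintype G] [Fintype J] {K w t : ℕ}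
    (f : J → (G × Fin K → Bool) → Prop)
    (hf : ∀ j, Cert1 w (f j) ∨ Cert1 w (fun y => ¬ f j y)) (hK : 16 * w ≤ K) (hK0 : 0 < K)
    (hJ : Fintype.card J < 2 ^ (t + 1)) :
    ∃ ρ : (G → Bool) → (G × Fin K → Bool), Proj ρ ∧
      (∀ y g, ∑ j, b2z (ρ y (g, j)) = b2z (y g)) ∧ ∀ j, Cert t (fun y => f j (ρ y)) := by
  let f' : J → (G × Fin K → Bool) → Prop := fun j =>
    if Cert1 w (f j) then f j else fun y => ¬ f j y
  have hf' : ∀ j, Cert1 w (f' j) := by
    intro j
    by_cases h : Cert1 w (f j)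
    · simpa [f', h] using h
    · simpa [f', h] using (hf j).resolve_left h
  obtain ⟨k, α, hk⟩ := switch_family f' hf' hK hK0 hJ
  choose c hc using fun g : G => b2z_surj (∑ j ∈ univ.erase (k g), b2z (α (g, j)))
  let ρ : (G → Bool) → (G × Fin K → Bool) := fun y p =>
    if k p.1 = p.2 then xor (y p.1) (c p.1) else α p
  have hsim : ∀ y, Sim k ∅ α (ρ y) := by
    intro y p hp
    have : k p.1 ≠ p.2 := by simpa using hp
    simp [ρ, this]
  refine ⟨ρ, ?_, ?_, ?_⟩
  · intro q
    refine ⟨{q.1}, by simp, fun y y' h => ?_⟩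
    have := h q.1 (by simp)
    simp [ρ, this]
  · intro y g
    rw [← Finset.add_sum_erase univ _ (mem_univ (k g))]
    have h1 : ∑ j ∈ univ.erase (k g), b2z (ρ y (g, j)) = ∑ j ∈ univ.erase (k g), b2z (α (g, j)) := by
      apply Finset.sum_congr rfl
      intro j hj
      have : k g ≠ j := fun h => (mem_erase.1 hj).1 h.symm
      simp [ρ, this]
    rw [h1, ← hc g]
    simp only [ρ, if_true, b2z_xor]
    rw [add_assoc, CharTwo.add_self_eq_zero, add_zero]
  · intro j
    have hc' : Cert t (fun y => f' j (ρ y)) := by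
      intro y
      have hb := hk j
      unfold Bad at hb
      push Not at hb
      obtain ⟨S, hS, h⟩ := hb (ρ y) (hsim y)
      refine ⟨S.image Prod.fst, card_image_le.trans (by omega), fun y' hy' => ?_⟩
      apply h (ρ y') (hsim y')
      intro p hp
      have := hy' p.1 (mem_image_of_mem _ hp)
      simp [ρ, this]
    by_cases h : Cert1 w (f j)
    · simpa [f', h] using hc'
    · have := hc'.not
      simpa [f', h] using this

/-! ### limits -/

/-- rejected inputs have small certificates valid for all larger inputs -/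
def UCert {X : Type} (w : ℕ) (h : (X → Bool) → Prop) : Prop :=
  ∀ y, ¬ h y → ∃ S : Finset X, S.card ≤ w ∧
    ∀ y', (∀ i, y i = true → y' i = true) → (∀ i ∈ S, y' i = y i) → ¬ h y'

theorem ucert_of_cert1 {X : Type} {w : ℕ} {h : (X → Bool) → Prop}
    (hh : Cert1 w (fun y => ¬ h y)) : UCert w h := fun y hy => by
  obtain ⟨S, hS, h'⟩ := hh y hy
  exact ⟨S, hS, fun y' _ hy' => h' y' hy'⟩

/-- `h` is a union of members of the pool that have property `Z` -/
def Sig {X Pl : Type} (Z : Pl → Prop) (pool : Pl → (X → Bool) → Prop)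
    (h : (X → Bool) → Prop) : Prop :=
  ∀ y, h y → ∃ q, Z q ∧ pool q y ∧ ∀ y', pool q y' → h y'

theorem limit_one {R T : Type} [Fintype R] [Fintype T] {w : ℕ} {g : (R × T → Bool) → Prop}
    (hg : UCert w g) (hle : ∀ y, g y → ∀ i, ∃ j, y (i, j) = true) (u : ℕ) :
    ∀ (Y : Finset (R × T)) (A : Finset (R → T)), Y.card + u = Fintype.card R →
      (∀ J ∈ A, g (fun p => decide (J p.1 = p.2)) ∧ ∀ p ∈ Y, J p.1 = p.2) → A.card ≤ w ^ u := by
  induction u with
  | zero =>
    intro Y A hY hA
    rw [pow_zero, card_le_one]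
    intro J hJ J' hJ'
    have hinj : Set.InjOn Prod.fst (Y : Set (R × T)) := by
      intro p hp q hq hpq
      have h1 := (hA J hJ).2 p hp
      have h2 := (hA J hJ).2 q hq
      ext
      · exact hpq
      · rw [← h1, ← h2, hpq]
    have hc : (Y.image Prod.fst).card = Fintype.card R := by
      rw [card_image_of_injOn hinj]; omega
    have hu : Y.image Prod.fst = univ := eq_univ_of_card _ hc
    funext i
    have : i ∈ Y.image Prod.fst := by rw [hu]; exact mem_univ _
    obtain ⟨p, hp, rfl⟩ := mem_image.1 this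
    rw [(hA J hJ).2 p hp, (hA J' hJ').2 p hp]
  | succ u ih =>
    intro Y A hY hA
    have hneg : ¬ g (fun p => decide (p ∈ Y)) := by
      intro hgy
      have h1 := hle _ hgy
      have hu : Y.image Prod.fst = univ := by
        apply eq_univ_of_forall
        intro i
        obtain ⟨j, hj⟩ := h1 i
        exact mem_image.2 ⟨(i, j), by simpa using hj, rfl⟩
      have h2 : (Y.image Prod.fst).card ≤ Y.card := card_image_le
      rw [hu, card_univ] at h2
      omega
    obtain ⟨S, hS, hS'⟩ := hg _ hneg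
    have hsub : A ⊆ (S.filter fun p => p ∉ Y).biUnion fun p => A.filter fun J => J p.1 = p.2 := by
      intro J hJ
      by_contra hcon
      simp only [mem_biUnion, mem_filter, not_exists, not_and, and_imp] at hcon
      apply hS' (fun p => decide (J p.1 = p.2)) _ _ (hA J hJ).1
      · intro p hp
        simpa using (hA J hJ).2 p (by simpa using hp)
      · intro p hp
        by_cases hpY : p ∈ Y
        · simpa [hpY] using (hA J hJ).2 p hpY
        · simpa [hpY] using hcon p hp hpY hJ
    refine (card_le_card hsub).trans (card_biUnion_le.trans ?_)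
    have h1 := Finset.sum_le_card_nsmul (S.filter fun p => p ∉ Y)
      (fun p => (A.filter fun J => J p.1 = p.2).card) (w ^ u) (by
        intro p hp
        have hpY : p ∉ Y := (mem_filter.1 hp).2
        apply ih (Y.cons p hpY)
        · rw [card_cons]; omega
        · intro J hJ
          obtain ⟨hJA, hJp⟩ := mem_filter.1 hJ
          refine ⟨(hA J hJA).1, fun q hq => ?_⟩
          rcases mem_cons.1 hq with rfl | hq
          · exact hJp
          · exact (hA J hJA).2 q hq)
    refine h1.trans ?_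
    rw [smul_eq_mul, pow_succ, mul_comm]
    exact Nat.mul_le_mul_left _ ((card_filter_le _ _).trans hS)

theorem limit {R T Pl : Type} [Fintype R] [Fintype T] [Fintype Pl] {w : ℕ}
    {pool : Pl → (R × T → Bool) → Prop}
    (h : Sig (fun q => UCert w (pool q)) pool (fun y => ∀ i, ∃ j, y (i, j) = true)) :
    Fintype.card T ^ Fintype.card R ≤ Fintype.card Pl * w ^ Fintype.card R := by
  let A : Pl → Finset (R → T) := fun q => univ.filter fun J =>
    (UCert w (pool q) ∧ ∀ y, pool q y → ∀ i, ∃ j, y (i, j) = true) ∧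
      pool q (fun p => decide (J p.1 = p.2))
  have hsub : (univ : Finset (R → T)) ⊆ univ.biUnion A := by
    intro J _
    obtain ⟨q, h1, h2, h3⟩ := h (fun p => decide (J p.1 = p.2)) (fun i => ⟨J i, by simp⟩)
    exact mem_biUnion.2 ⟨q, mem_univ _, by simp only [A, mem_filter, mem_univ, true_and]; exact ⟨⟨h1, h3⟩, h2⟩⟩
  have h1 := (card_le_card hsub).trans card_biUnion_le
  rw [card_univ, Fintype.card_fun] at h1
  refine h1.trans ?_
  have := Finset.sum_le_card_nsmul univ (fun q => (A q).card) (w ^ Fintype.card R) (by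
    intro q _
    rcases (A q).eq_empty_or_nonempty with he | ⟨J, hJ⟩
    · rw [he]; simp
    · have hq := (mem_filter.1 hJ).2.1
      apply limit_one hq.1 hq.2 _ ∅ (A q) (by simp)
      intro J' hJ'
      exact ⟨(mem_filter.1 hJ').2.2, by simp⟩)
  simpa using this

end Pool.Agent.P.MP_b53add_lc
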