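import Mathlib

/-! A decreasing chain of minimal solutions along a random removal order. -/

namespace Pool.Agent.P.MP_b53add_lc.S3

open Finset

variable {m : ℕ}

/-- A minimal subset of `Z` with property `R`. -/
noncomputable def mn (R : Finset (Fin m) → Prop) (Z : Finset (Fin m)) : Finset (Fin m) :=
  Classical.epsilon fun Z' => Z' ⊆ Z ∧ R Z' ∧ ∀ Z'' ⊂ Z', ¬R Z''

theorem mn_spec {R : Finset (Fin m) → Prop} {Z : Finset (Fin m)} (h : R Z) :
    mn R Z ⊆ Z ∧ R (mn R Z) ∧ ∀ Z'' ⊂ mn R Z, ¬R Z'' := by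
  classical
  refine Classical.epsilon_spec (p := fun Z' => Z' ⊆ Z ∧ R Z' ∧ ∀ Z'' ⊂ Z', ¬R Z'') ?_
  obtain ⟨Z', h1, h2⟩ := exists_min_image (Z.powerset.filter R) card
    ⟨Z, mem_filter.2 ⟨mem_powerset.2 Subset.rfl, h⟩⟩
  obtain ⟨h3, h4⟩ := mem_filter.1 h1
  refine ⟨Z', mem_powerset.1 h3, h4, fun Z'' h5 h6 => ?_⟩
  have := h2 Z'' (mem_filter.2 ⟨mem_powerset.2 (h5.1.trans (mem_powerset.1 h3)), h6⟩)
  have := card_lt_card h5
  omega

/-- The tags that are left after `j` removals; `ρ i` is the time at which `i` is removed. -/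
def vis (ρ : Equiv.Perm (Fin m)) (j : ℕ) : Finset (Fin m) := univ.filter fun i => j ≤ (ρ i : ℕ)

@[simp] theorem mem_vis {ρ : Equiv.Perm (Fin m)} {j : ℕ} {i : Fin m} :
    i ∈ vis ρ j ↔ j ≤ (ρ i : ℕ) := by simp [vis]

theorem card_vis (ρ : Equiv.Perm (Fin m)) (j : ℕ) : (vis ρ j).card = m - j := by
  have h : (vis ρ j).card = (univ.filter fun i : Fin m => j ≤ (i : ℕ)).card :=
    card_bij (fun i _ => ρ i) (fun i hi => by simpa using hi)
      (fun a _ b _ h => ρ.injective h) fun b hb => ⟨ρ.symm b, by simpa using hb, by simp⟩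
  rw [h, ← Nat.card_Ico]
  refine card_bij (fun i _ => (i : ℕ)) (fun i hi => by simpa using hi)
    (fun a _ b _ h => Fin.ext h) fun b hb => ?_
  obtain ⟨h1, h2⟩ := mem_Ico.1 hb
  exact ⟨⟨b, h2⟩, by simpa using h1, rfl⟩

/-- The chain. -/
noncomputable def ch (Sl : Finset (Fin m) → Finset (Fin m) → Prop) (τ : Finset (Fin m))
    (ρ : Equiv.Perm (Fin m)) : ℕ → Finset (Fin m)
  | 0 => mn (Sl (vis ρ 0 ∩ τ)) τ
  | j + 1 => mn (Sl (vis ρ (j + 1) ∩ τ)) (ch Sl τ ρ j)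

/-- The properties of solutions that the chain needs. -/
structure Ok (Sl : Finset (Fin m) → Finset (Fin m) → Prop) (τ : Finset (Fin m)) : Prop where
  top : Sl τ τ
  mono : ∀ X X' Z, Sl X Z → X' ⊆ X → Sl X' Z
  drop : ∀ X Z i, Sl X Z → i ∈ Z → Sl (X.erase i) (Z.erase i) → Sl X (Z.erase i)

variable {Sl : Finset (Fin m) → Finset (Fin m) → Prop} {τ : Finset (Fin m)}
  {ρ : Equiv.Perm (Fin m)}

theorem vis_anti (ρ : Equiv.Perm (Fin m)) {j j' : ℕ} (h : j ≤ j') : vis ρ j' ⊆ vis ρ j :=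
  fun _ hi => mem_vis.2 (h.trans (mem_vis.1 hi))

theorem ch_sol (h : Ok Sl τ) (ρ : Equiv.Perm (Fin m)) (j : ℕ) :
    Sl (vis ρ j ∩ τ) (ch Sl τ ρ j) := by
  induction j with
  | zero => exact (mn_spec (h.mono _ _ _ h.top inter_subset_right)).2.1
  | succ j ih =>
    exact (mn_spec (h.mono _ _ _ ih
      (inter_subset_inter (vis_anti ρ (Nat.le_succ j)) Subset.rfl))).2.1

theorem ch_succ (h : Ok Sl τ) (ρ : Equiv.Perm (Fin m)) (j : ℕ) :
    ch Sl τ ρ (j + 1) ⊆ ch Sl τ ρ j :=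
  (mn_spec (h.mono _ _ _ (ch_sol h ρ j)
    (inter_subset_inter (vis_anti ρ (Nat.le_succ j)) Subset.rfl))).1

theorem ch_anti (h : Ok Sl τ) (ρ : Equiv.Perm (Fin m)) : Antitone (ch Sl τ ρ) :=
  antitone_nat_of_succ_le (ch_succ h ρ)

theorem ch_min (h : Ok Sl τ) (ρ : Equiv.Perm (Fin m)) (j : ℕ) :
    ∀ B ⊂ ch Sl τ ρ j, ¬Sl (vis ρ j ∩ τ) B := by
  cases j with
  | zero => exact (mn_spec (h.mono _ _ _ h.top inter_subset_right)).2.2
  | succ j =>
    exact (mn_spec (h.mono _ _ _ (ch_sol h ρ j)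
      (inter_subset_inter (vis_anti ρ (Nat.le_succ j)) Subset.rfl))).2.2

/-- An element never leaves alone at its own removal. -/
theorem ch_second (h : Ok Sl τ) {j : ℕ} {i : Fin m} (hi : i ∈ ch Sl τ ρ j) (hr : (ρ i : ℕ) = j)
    (hn : i ∉ ch Sl τ ρ (j + 1)) : ∃ i' ≠ i, i' ∈ ch Sl τ ρ j ∧ i' ∉ ch Sl τ ρ (j + 1) := by
  by_contra hc
  push Not at hc
  have h1 : ch Sl τ ρ (j + 1) = (ch Sl τ ρ j).erase i := by
    ext x
    rw [mem_erase]
    exact ⟨fun hx => ⟨fun e => hn (e ▸ hx), ch_succ h ρ j hx⟩, fun hx => hc x hx.1 hx.2⟩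
  have h2 : (vis ρ j ∩ τ).erase i ⊆ vis ρ (j + 1) ∩ τ := by
    intro x hx
    simp only [mem_erase, mem_inter, mem_vis] at hx ⊢
    refine ⟨?_, hx.2.2⟩
    have : (ρ x : ℕ) ≠ ρ i := fun e => hx.1 (ρ.injective (Fin.ext e))
    omega
  have h3 := h.mono _ _ _ (ch_sol h ρ (j + 1)) h2
  rw [h1] at h3
  exact ch_min h ρ j _ (erase_ssubset hi) (h.drop _ _ _ (ch_sol h ρ j) hi h3)

theorem ch_congr {ρ ρ' : Equiv.Perm (Fin m)} {j : ℕ} (h : ∀ j' ≤ j, vis ρ j' = vis ρ' j') :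
    ch Sl τ ρ j = ch Sl τ ρ' j := by
  induction j with
  | zero => simp only [ch, h 0 le_rfl]
  | succ j ih => simp only [ch, h (j + 1) le_rfl, ih fun j' hj => h j' (hj.trans (Nat.le_succ j))]

variable (Sl τ ρ)

/-- Is the tag removed at time `j` in the solution? -/
noncomputable def NN (j : ℕ) : ℕ := #{i ∈ ch Sl τ ρ j | (ρ i : ℕ) = j}
/-- The visible part of the solution. -/
noncomputable def FF (j : ℕ) : ℕ := #{i ∈ ch Sl τ ρ j | j ≤ (ρ i : ℕ)}
/-- Visible tags that leave the solution. -/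
noncomputable def II (j : ℕ) : ℕ :=
  #{i ∈ ch Sl τ ρ j | i ∉ ch Sl τ ρ (j + 1) ∧ j + 1 ≤ (ρ i : ℕ)}
/-- Tags that are in the solution after their removal, at some time in `[j₁, j₂]`. -/
noncomputable def DD (j₁ j₂ : ℕ) : Finset (Fin m) :=
  univ.filter fun i => ∃ j ∈ Icc j₁ j₂, (ρ i : ℕ) < j ∧ i ∈ ch Sl τ ρ j

variable {Sl τ ρ}

theorem NN_le_one (j : ℕ) : NN Sl τ ρ j ≤ 1 :=
  card_le_one.2 fun _ ha _ hb =>
    ρ.injective (Fin.ext ((mem_filter.1 ha).2.trans (mem_filter.1 hb).2.symm))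

theorem FF_rec (h : Ok Sl τ) (ρ : Equiv.Perm (Fin m)) (j : ℕ) :
    FF Sl τ ρ j = FF Sl τ ρ (j + 1) + NN Sl τ ρ j + II Sl τ ρ j := by
  have hs := ch_succ h ρ j
  unfold FF NN II
  rw [← card_union_of_disjoint, ← card_union_of_disjoint]
  · congr 1
    ext x
    simp only [mem_filter, mem_union]
    constructor
    · rintro ⟨h1, h2⟩
      by_cases h3 : (ρ x : ℕ) = j
      · exact Or.inl (Or.inr ⟨h1, h3⟩)
      · by_cases h4 : x ∈ ch Sl τ ρ (j + 1)
        · exact Or.inl (Or.inl ⟨h4, by omega⟩)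
        · exact Or.inr ⟨h1, h4, by omega⟩
    · rintro ((⟨h1, h2⟩ | ⟨h1, h2⟩) | ⟨h1, -, h2⟩)
      · exact ⟨hs h1, by omega⟩
      · exact ⟨h1, by omega⟩
      · exact ⟨h1, by omega⟩
  · rw [disjoint_left]
    intro x h1 h2
    simp only [mem_filter, mem_union] at h1 h2
    rcases h1 with h1 | h1
    · exact h2.2.1 h1.1
    · omega
  · rw [disjoint_left]
    intro x h1 h2
    simp only [mem_filter] at h1 h2
    omega

theorem sum_FF (Sl : Finset (Fin m) → Finset (Fin m) → Prop) (τ : Finset (Fin m)) (j : ℕ) :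
    ∑ ρ, FF Sl τ ρ j = (m - j) * ∑ ρ, NN Sl τ ρ j := by
  have h1 : ∀ ρ, FF Sl τ ρ j = ∑ u ∈ Ico j m, #{i ∈ ch Sl τ ρ j | (ρ i : ℕ) = u} := by
    intro ρ
    unfold FF
    rw [card_eq_sum_card_fiberwise (f := fun i => (ρ i : ℕ)) (t := Ico j m)]
    · refine sum_congr rfl fun u hu => ?_
      rw [filter_filter]
      congr 1
      refine filter_congr fun x _ => ⟨fun h => h.2, fun h => ⟨?_, h⟩⟩
      rw [h]
      exact (mem_Ico.1 hu).1
    · intro x hx
      exact mem_coe.2 (mem_Ico.2 ⟨(mem_filter.1 (mem_coe.1 hx)).2, (ρ x).2⟩)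
  simp_rw [h1]
  rw [sum_comm, ← Nat.card_Ico, ← smul_eq_mul, ← sum_const]
  refine sum_congr rfl fun u hu => ?_
  obtain ⟨h2, h3⟩ := mem_Ico.1 hu
  have hj : j < m := by omega
  let s : Equiv.Perm (Fin m) := Equiv.swap ⟨u, h3⟩ ⟨j, hj⟩
  rw [← Equiv.sum_comp (Equiv.mulLeft s) fun ρ => NN Sl τ ρ j]
  refine sum_congr rfl fun ρ _ => ?_
  have h4 : ch Sl τ (s * ρ) j = ch Sl τ ρ j := by
    refine ch_congr fun j' hj' => ?_
    ext x
    simp only [mem_vis, Equiv.Perm.coe_mul, Function.comp, s, Equiv.swap_apply_def]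
    split_ifs with h5 h6
    · rw [h5]; simp only; omega
    · rw [h6]; simp only; omega
    · rfl
  simp only [Equiv.coe_mulLeft, NN, h4]
  congr 1
  refine filter_congr fun x _ => ?_
  simp only [Equiv.Perm.coe_mul, Function.comp, s, Equiv.swap_apply_def, Fin.ext_iff]
  split_ifs with h5 h6
  · simp [h5]
  · simp only; omega
  · omega

/-- Accounting over an epoch. -/
theorem sum_NN_le (h : Ok Sl τ) (ρ : Equiv.Perm (Fin m)) (j₁ j₂ : ℕ) :
    ∑ j ∈ Ico j₁ j₂, NN Sl τ ρ j ≤ 2 * (DD Sl τ ρ j₁ j₂).card + ∑ j ∈ Ico j₁ j₂, II Sl τ ρ j := by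
  let D := DD Sl τ ρ j₁ j₂
  have h1 : ∀ j ∈ Ico j₁ j₂, NN Sl τ ρ j ≤ #{i ∈ D | (ρ i : ℕ) = j} +
      #{i ∈ D | i ∈ ch Sl τ ρ j ∧ i ∉ ch Sl τ ρ (j + 1)} + II Sl τ ρ j := by
    intro j hj
    obtain ⟨hj1, hj2⟩ := mem_Ico.1 hj
    rcases Nat.eq_zero_or_pos (NN Sl τ ρ j) with h0 | h0
    · omega
    obtain ⟨i, hi⟩ := card_pos.1 h0
    obtain ⟨hi1, hi2⟩ := mem_filter.1 hi
    have hN := NN_le_one (Sl := Sl) (τ := τ) (ρ := ρ) j
    by_cases hs : i ∈ ch Sl τ ρ (j + 1)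
    · have : 0 < #{i ∈ D | (ρ i : ℕ) = j} := card_pos.2 ⟨i, mem_filter.2 ⟨mem_filter.2
        ⟨mem_univ _, j + 1, mem_Icc.2 ⟨by omega, by omega⟩, by omega, hs⟩, hi2⟩⟩
      omega
    · obtain ⟨i', h2, h3, h4⟩ := ch_second h hi1 hi2 hs
      have h5 : (ρ i' : ℕ) ≠ ρ i := fun e => h2 (ρ.injective (Fin.ext e))
      by_cases h6 : (ρ i' : ℕ) < j
      · have : 0 < #{i ∈ D | i ∈ ch Sl τ ρ j ∧ i ∉ ch Sl τ ρ (j + 1)} :=
          card_pos.2 ⟨i', mem_filter.2 ⟨mem_filter.2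
            ⟨mem_univ _, j, mem_Icc.2 ⟨by omega, by omega⟩, h6, h3⟩, h3, h4⟩⟩
        omega
      · have : 0 < II Sl τ ρ j := card_pos.2 ⟨i', mem_filter.2 ⟨h3, h4, by omega⟩⟩
        omega
  refine (sum_le_sum h1).trans ?_
  rw [sum_add_distrib, sum_add_distrib, two_mul]
  refine Nat.add_le_add_right (Nat.add_le_add ?_ ?_) _
  · rw [← card_biUnion]
    · exact card_le_card (biUnion_subset.2 fun j _ => filter_subset _ _)
    · intro a _ b _ hab
      rw [Function.onFun, disjoint_left]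
      intro x h2 h3
      exact hab ((mem_filter.1 h2).2.symm.trans (mem_filter.1 h3).2)
  · rw [← card_biUnion]
    · exact card_le_card (biUnion_subset.2 fun j _ => filter_subset _ _)
    · intro a _ b _ hab
      rw [Function.onFun, disjoint_left]
      intro x h2 h3
      obtain ⟨-, h4, h5⟩ := mem_filter.1 h2
      obtain ⟨-, h6, h7⟩ := mem_filter.1 h3
      rcases lt_or_gt_of_ne hab with h8 | h8
      · exact h5 (ch_anti h ρ (show a + 1 ≤ b by omega) h6)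
      · exact h7 (ch_anti h ρ (show b + 1 ≤ a by omega) h4)

/-- The dyadic epochs. -/
theorem dyadic {m L t : ℕ} (hm : m = t * 2 ^ L) (ht : 1 ≤ t) (n f i : ℕ → ℝ) {W s κ : ℝ}
    (hf : ∀ j ≤ m, f j = (m - j) * n j) (hrec : ∀ j, f j = f (j + 1) + n j + i j)
    (hi : ∀ j, 0 ≤ i j) (hn : ∀ j, 0 ≤ n j) (hW : n 0 ≤ W) (hκ : 0 ≤ κ)
    (hep : ∀ j₁ j₂, j₁ ≤ j₂ → j₂ ≤ m - t →
      ∑ j ∈ Ico j₁ j₂, n j ≤ (m - j₁ : ℕ) * s + κ * ∑ j ∈ Ico j₁ j₂, i j) :
    L * f (m - t) ≤ t * (2 * L * s + 2 * κ * W) := by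
  have h1 : ∀ j, j + 1 ≤ m → i j = (m - j - 1) * (n j - n (j + 1)) := by
    intro j hj
    have h2 := hrec j
    rw [hf j (by omega), hf (j + 1) hj] at h2
    push_cast at h2
    linarith
  have h2 : ∀ j, j + 2 ≤ m → n (j + 1) ≤ n j := by
    intro j hj
    have h3 := hi j
    rw [h1 j (by omega)] at h3
    have h4 : (j : ℝ) + 2 ≤ m := by exact_mod_cast hj
    have := nonneg_of_mul_nonneg_right h3 (by linarith)
    linarith
  have h3 : ∀ a b, a ≤ b → b + 1 ≤ m → n b ≤ n a := by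
    intro a b hab hb
    induction b, hab using Nat.le_induction with
    | base => exact le_rfl
    | succ b hab ih => exact (h2 b (by omega)).trans (ih (by omega))
  have ht' : (1 : ℝ) ≤ t := by exact_mod_cast ht
  have h4 : ∀ u, t ≤ u → 2 * u ≤ m →
      n (m - t) ≤ 2 * s + 2 * κ * (n (m - 2 * u) - n (m - u)) := by
    intro u hu hu2
    have h5 := hep (m - 2 * u) (m - u) (by omega) (by omega)
    have h6 : (u : ℝ) * n (m - t) ≤ ∑ j ∈ Ico (m - 2 * u) (m - u), n j := by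
      have := card_nsmul_le_sum (Ico (m - 2 * u) (m - u)) n (n (m - t)) fun j hj =>
        h3 j (m - t) (by have := (mem_Ico.1 hj).2; omega) (by omega)
      rwa [Nat.card_Ico, show m - u - (m - 2 * u) = u by omega, nsmul_eq_mul] at this
    have h7 : ∑ j ∈ Ico (m - 2 * u) (m - u), i j ≤ 2 * u * (n (m - 2 * u) - n (m - u)) := by
      have h8 : ∑ j ∈ Ico (m - 2 * u) (m - u), (n j - n (j + 1)) =
          n (m - 2 * u) - n (m - u) := by
        rw [sum_Ico_eq_sum_range]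
        have := sum_range_sub' (fun l => n (m - 2 * u + l)) (m - u - (m - 2 * u))
        simp only [add_zero] at this
        rw [show m - 2 * u + (m - u - (m - 2 * u)) = m - u by omega] at this
        exact this
      rw [← h8, mul_sum]
      refine sum_le_sum fun j hj => ?_
      obtain ⟨h9, h10⟩ := mem_Ico.1 hj
      rw [h1 j (by omega)]
      refine mul_le_mul_of_nonneg_right ?_ (sub_nonneg.2 (h2 j (by omega)))
      have : (m : ℝ) ≤ j + 2 * u := by exact_mod_cast (show m ≤ j + 2 * u by omega)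
      linarith
    rw [show m - (m - 2 * u) = 2 * u by omega] at h5
    push_cast at h5
    have hu' : (0 : ℝ) < u := by exact_mod_cast (show 0 < u by omega)
    refine le_of_mul_le_mul_left ?_ hu'
    have := mul_le_mul_of_nonneg_left h7 hκ
    nlinarith
  have h5 : ∀ l ≤ L, l * n (m - t) ≤ l * (2 * s) + 2 * κ * (n (m - t * 2 ^ l) - n (m - t)) := by
    intro l hl
    induction l with
    | zero => simp
    | succ l ih =>
      have h6 := h4 (t * 2 ^ l) (Nat.le_mul_of_pos_right _ (by positivity)) (by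
        rw [hm, show 2 * (t * 2 ^ l) = t * 2 ^ (l + 1) by ring]
        exact Nat.mul_le_mul_left _ (Nat.pow_le_pow_right (by norm_num) hl))
      rw [show 2 * (t * 2 ^ l) = t * 2 ^ (l + 1) by ring] at h6
      have h7 := ih (by omega)
      push_cast
      linarith
  have h6 := h5 L le_rfl
  have h7 : t ≤ m := hm ▸ Nat.le_mul_of_pos_right _ (by positivity)
  rw [← hm, Nat.sub_self] at h6
  rw [hf (m - t) (by omega), Nat.cast_sub h7, show (m : ℝ) - (m - t) = t by ring]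
  have h8 : 2 * κ * (n 0 - n (m - t)) ≤ 2 * κ * W :=
    mul_le_mul_of_nonneg_left (by linarith [hn (m - t)]) (by positivity)
  have h9 : (L : ℝ) * n (m - t) ≤ 2 * L * s + 2 * κ * W := by linarith
  have := mul_le_mul_of_nonneg_left h9 (show (0 : ℝ) ≤ t by positivity)
  linarith

end Pool.Agent.P.MP_b53add_lc.S3
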