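import Pool.Agent.P.MP_b53add_lc.S3Enc

/-! Small solutions exist for most worlds. -/

namespace Pool.Agent.P.MP_b53add_lc.S3

open Finset

set_option linter.unusedSectionVars false

variable {Ω Cl : Type*} [Fintype Ω] [DecidableEq Ω] [DecidableEq Cl] {m : ℕ}
  {ψ : Finset (Finset Cl × Finset Cl)} {κ : Ω → Cl} {ρ : Equiv.Perm (Fin m)}
  {τ : Finset (Fin m)} {c : Fin m → Ω}

theorem exists_list (h : Sol ψ (κ ∘ c) τ τ) {j₁ j₂ : ℕ} {E : Fin m → ℕ}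
    (hE : ∀ j, j₁ ≤ j → j ≤ j₂ → ∀ i, j ≤ (ρ i : ℕ) →
      (i ∈ ch (Sol ψ (κ ∘ c)) τ ρ j ↔ j < E i)) (d : ℕ)
    (hd : d ≤ (DD (Sol ψ (κ ∘ c)) τ ρ j₁ j₂).card) :
    ∃ Λ : List (ℕ × Fin m), Λ.length = d ∧ (tags Λ).card = d ∧
      Val ψ κ ρ (vis ρ j₁ ∩ τ) E c Λ ∧ ∀ p ∈ Λ, j₁ ≤ p.1 ∧ p.1 ≤ j₂ ∧
        p.2 ∈ ch (Sol ψ (κ ∘ c)) τ ρ p.1 ∧ ∀ j ∈ Icc j₁ j₂,
          (∃ i, (ρ i : ℕ) < j ∧ i ∈ ch (Sol ψ (κ ∘ c)) τ ρ j ∧ i ∉ tags Λ) → j ≤ p.1 := by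
  classical
  have hok := ok_sol h
  induction d with
  | zero => exact ⟨[], rfl, by simp [tags], trivial, by simp⟩
  | succ d ih =>
    obtain ⟨Λ, h1, h2, h3, h4⟩ := ih (by omega)
    set Z := ch (Sol ψ (κ ∘ c)) τ ρ with hZ
    obtain ⟨i₀, h5, h6⟩ := exists_mem_notMem_of_card_lt_card
      (show (tags Λ).card < (DD (Sol ψ (κ ∘ c)) τ ρ j₁ j₂).card by omega)
    obtain ⟨j₀, h7, h8, h9⟩ := (mem_filter.1 h5).2
    let T := (Icc j₁ j₂).filter fun j => ∃ i, (ρ i : ℕ) < j ∧ i ∈ Z j ∧ i ∉ tags Λ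
    have hT : T.Nonempty := ⟨j₀, mem_filter.2 ⟨h7, i₀, h8, h9, h6⟩⟩
    obtain ⟨j, hj, hmax⟩ := exists_max_image T id hT
    obtain ⟨hj1, i₁, a1, a2, a3⟩ := mem_filter.1 hj
    obtain ⟨hj2, hj3⟩ := mem_Icc.1 hj1
    have hle : ∀ p ∈ Λ, j ≤ p.1 := fun p hp => (h4 p hp).2.2.2 j hj1 ⟨i₁, a1, a2, a3⟩
    have hB : bs ρ E j Λ ⊆ Z j := by
      intro x hx
      rcases mem_union.1 hx with hx | hx
      · obtain ⟨b1, b2⟩ := mem_filter.1 hx
        exact (hE j hj2 hj3 x (mem_vis.1 b1)).2 b2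
      · obtain ⟨p, hp, rfl⟩ := mem_tags.1 hx
        exact ch_anti hok ρ (hle p hp) (h4 p hp).2.2.1
    have hX : vis ρ j ∩ (vis ρ j₁ ∩ τ) = vis ρ j ∩ τ := by
      rw [← inter_assoc, inter_eq_left.2 (vis_anti ρ hj2)]
    have hn := ch_min hok ρ j _ (ssubset_iff_of_subset hB |>.2
      ⟨i₁, a2, (notMem_bs (τ := τ) a1 a3).1⟩)
    have hv : ∃ r : Finset Cl × Finset Cl, r ∈ ψ ∧ Disjoint r.1 r.2 ∧
        r.1 ⊆ (vis ρ j ∩ τ ∪ bs ρ E j Λ).image (κ ∘ c) ∧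
        Disjoint ((bs ρ E j Λ).image (κ ∘ c)) r.2 := by
      unfold Sol at hn
      push Not at hn
      obtain ⟨r, b1, b2, b3, b4⟩ := hn
      refine ⟨r, b1, b2, b3, disjoint_left.2 fun C hC => ?_⟩
      obtain ⟨x, hx, rfl⟩ := mem_image.1 hC
      exact b4 x hx
    obtain ⟨b1, b2, b3, b4⟩ := Classical.epsilon_spec hv
    obtain ⟨i, b5, b6⟩ := ch_sol hok ρ j _ b1 b2
      (b3.trans (image_subset_image (union_subset_union Subset.rfl hB)))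
    have b7 : i ∉ bs ρ E j Λ := fun hi => disjoint_left.1 b4 (mem_image_of_mem _ hi) b6
    have b8 : i ∉ tags Λ := fun hi => b7 (mem_union_right _ hi)
    have b9 : (ρ i : ℕ) < j := by
      by_contra hc
      push Not at hc
      exact b7 (mem_union_left _ (mem_filter.2 ⟨mem_vis.2 hc, (hE j hj2 hj3 i hc).1 b5⟩))
    refine ⟨(j, i) :: Λ, by rw [List.length_cons, h1], by
      rw [tags_cons, card_insert_of_notMem b8, h2], ⟨h3, b9, b8, hle, ?_⟩, fun p hp => ?_⟩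
    · simp only [hX]
      exact mem_filter.2 ⟨mem_univ _, b1, b6⟩
    · have hw : ∀ j' ∈ Icc j₁ j₂, (∃ x, (ρ x : ℕ) < j' ∧ x ∈ Z j' ∧ x ∉ tags ((j, i) :: Λ)) →
          j' ≤ j := fun j' hj' ⟨x, c1, c2, c3⟩ => hmax j' (mem_filter.2
            ⟨hj', x, c1, c2, fun hx => c3 (by rw [tags_cons]; exact mem_insert_of_mem hx)⟩)
      rcases List.mem_cons.1 hp with rfl | hp
      · exact ⟨hj2, hj3, b5, hw⟩
      · exact ⟨(h4 p hp).1, (h4 p hp).2.1, (h4 p hp).2.2.1,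
          fun j' hj' hx => (hw j' hj' hx).trans (hle p hp)⟩

theorem DD_le (h : Sol ψ (κ ∘ c) τ τ) {M κ₀ j₁ j₂ : ℕ} (h12 : j₁ ≤ j₂) (h2 : j₂ ≤ m)
    (hb : ¬BadC ψ κ ρ M κ₀ j₁ j₂ c) : (DD (Sol ψ (κ ∘ c)) τ ρ j₁ j₂).card ≤
      (m - j₁) / M + κ₀ * ∑ j ∈ Ico j₁ j₂, II (Sol ψ (κ ∘ c)) τ ρ j := by
  classical
  have hok := ok_sol h
  set Z := ch (Sol ψ (κ ∘ c)) τ ρ with hZ
  let G : Fin m → ℕ := fun i => Nat.findGreatest (fun j => i ∈ Z j ∧ j ≤ (ρ i : ℕ)) j₂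
  let E : Fin m → ℕ := fun i => if i ∈ Z j₁ ∧ j₁ ≤ (ρ i : ℕ) then G i + 1 else 0
  have hG : ∀ i, i ∈ Z j₁ ∧ j₁ ≤ (ρ i : ℕ) →
      j₁ ≤ G i ∧ G i ≤ j₂ ∧ i ∈ Z (G i) ∧ G i ≤ (ρ i : ℕ) := fun i hi =>
    ⟨Nat.le_findGreatest h12 hi, Nat.findGreatest_le _,
      Nat.findGreatest_spec (P := fun j => i ∈ Z j ∧ j ≤ (ρ i : ℕ)) h12 hi⟩
  have hE : ∀ j, j₁ ≤ j → j ≤ j₂ → ∀ i, j ≤ (ρ i : ℕ) → (i ∈ Z j ↔ j < E i) := by
    intro j a1 a2 i a3
    constructor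
    · intro a4
      have a5 : j ≤ G i := Nat.le_findGreatest a2 ⟨a4, a3⟩
      simp only [E]
      rw [if_pos ⟨ch_anti hok ρ a1 a4, a1.trans a3⟩]
      omega
    · intro a4
      simp only [E] at a4
      split_ifs at a4 with a5
      · exact ch_anti hok ρ (show j ≤ G i by omega) (hG i a5).2.2.1
      · omega
  have hES : E ∈ ES ρ j₁ := by
    refine Fintype.mem_piFinset.2 fun i => ?_
    simp only [E]
    split_ifs with a1 a2 a2
    · have := (hG i a2).2.1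
      exact mem_range.2 (by omega)
    · simp
    · exact absurd a2.2 a1
    · simp
  have hoth : oth ρ j₂ E ≤ ∑ j ∈ Ico j₁ j₂, II (Sol ψ (κ ∘ c)) τ ρ j := by
    refine le_trans (card_le_card fun i hi => ?_) card_biUnion_le
    obtain ⟨a1, a2, a3⟩ := (mem_filter.1 hi).2
    simp only [E] at a1 a2 a3
    split_ifs at a1 a2 a3 with a4
    · obtain ⟨b1, b2, b3, b4⟩ := hG i a4
      refine mem_biUnion.2 ⟨G i, mem_Ico.2 ⟨b1, by omega⟩, mem_filter.2 ⟨b3, fun b5 => ?_, by omega⟩⟩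
      have : G i + 1 ≤ G i := Nat.le_findGreatest (by omega) ⟨b5, by omega⟩
      omega
    · exact absurd rfl a1
  by_contra hc
  have h3 := Nat.mul_le_mul_left κ₀ hoth
  obtain ⟨Λ, a1, -, a2, a3⟩ := exists_list h hE ((m - j₁) / M + 1 + κ₀ * oth ρ j₂ E) (by omega)
  exact hb ⟨_, mem_powerset.2 inter_subset_left, E, hES, Λ,
    a1 ▸ mem_LS a2 fun p hp => ⟨(a3 p hp).1, (a3 p hp).2.1.trans h2⟩, a2⟩

open Classical in
/-- The candidates for the final solution. -/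
noncomputable def ZS (S : Finset (Fin m)) (a b : ℝ) : Finset (Finset (Fin m)) :=
  univ.filter fun Z => ((Z ∩ S).card : ℝ) ≤ a ∧ ((Z \ S).card : ℝ) ≤ b

open Classical in
theorem core {Y : Type*} [Fintype Y] (tau : (Fin m → Ω) → Y → Finset (Fin m))
    (A : Finset ((Fin m → Ω) × Y))
    (hA : ∀ a ∈ A, Sol ψ (κ ∘ a.1) (tau a.1 a.2) (tau a.1 a.2))
    {L t M κ₀ : ℕ} (hm : m = t * 2 ^ L) (ht : 1 ≤ t) (hL : 1 ≤ L) (hM : 1 ≤ M)
    (Bad : Equiv.Perm (Fin m) → (Fin m → Ω) → Prop)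
    (hC : ∀ ρ c j₁ j₂, j₁ ≤ j₂ → j₂ ≤ m - t → BadC ψ κ ρ M κ₀ j₁ j₂ c → Bad ρ c)
    {β s Γ B : ℝ} (hβ : 0 < β) (hβ1 : β ≤ 1) (hB0 : 0 ≤ B)
    (hbad : ∀ ρ, (#{c | Bad ρ c} : ℝ) * Fintype.card Y ≤ s * A.card)
    (hnum : 2 * s + 4 / M + 2 * (2 * κ₀ + 1) / L ≤ β / 4)
    (hΓ : ∀ S : Finset (Fin m), S.card = t → ((ZS S (β * t) (t / M)).card : ℝ) ≤ Γ)
    (hB : ∀ ρ c Z, ¬Bad ρ c →
      (#{y | Sol ψ (κ ∘ c) (vis ρ (m - t) ∩ tau c y) Z} : ℝ) ≤ B) :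
    (A.card : ℝ) ≤ 2 * Γ * B * Fintype.card Ω ^ m := by
  set P : ℝ := (Fintype.card (Equiv.Perm (Fin m)) : ℝ) with hP
  have hP0 : 0 < P := by rw [hP]; exact_mod_cast Fintype.card_pos
  have htm : t ≤ m := hm ▸ Nat.le_mul_of_pos_right _ (by positivity)
  have ht0 : (0 : ℝ) < t := by exact_mod_cast ht
  have hL0 : (0 : ℝ) < L := by exact_mod_cast hL
  have hM0 : (0 : ℝ) < M := by exact_mod_cast hM
  set W : ℝ := A.card * P with hW
  have hW0 : 0 ≤ W := by positivity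
  let n : ℕ → ℝ := fun j => ∑ a ∈ A, ∑ ρ, (NN (Sol ψ (κ ∘ a.1)) (tau a.1 a.2) ρ j : ℝ)
  let f : ℕ → ℝ := fun j => ∑ a ∈ A, ∑ ρ, (FF (Sol ψ (κ ∘ a.1)) (tau a.1 a.2) ρ j : ℝ)
  let i : ℕ → ℝ := fun j => ∑ a ∈ A, ∑ ρ, (II (Sol ψ (κ ∘ a.1)) (tau a.1 a.2) ρ j : ℝ)
  have hconst : ∀ x : ℝ, ∑ _a ∈ A, ∑ _ρ : Equiv.Perm (Fin m), x = W * x := fun x => by
    simp only [sum_const, card_univ, nsmul_eq_mul, hW, hP]
    ring
  have hWb : ∑ a ∈ A, ∑ ρ, (if Bad ρ a.1 then (1 : ℝ) else 0) ≤ s * W := by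
    rw [sum_comm]
    have h1 : ∀ ρ, ∑ a ∈ A, (if Bad ρ a.1 then (1 : ℝ) else 0) ≤ s * A.card := fun ρ => by
      refine le_trans ?_ (hbad ρ)
      rw [sum_boole]
      have : (A.filter fun a => Bad ρ a.1) ⊆ (univ.filter fun c => Bad ρ c) ×ˢ univ :=
        fun a ha => mem_product.2 ⟨mem_filter.2 ⟨mem_univ _, (mem_filter.1 ha).2⟩, mem_univ _⟩
      have h2 := card_le_card this
      rw [card_product, card_univ] at h2
      exact_mod_cast h2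
    refine (sum_le_card_nsmul _ _ _ fun ρ _ => h1 ρ).trans (le_of_eq ?_)
    rw [nsmul_eq_mul, card_univ, hW, hP]
    ring
  have hdy := dyadic hm ht n f i (W := W) (s := s * W + W * (2 / M)) (κ := 2 * κ₀ + 1)
    (fun j hj => by
      simp only [f, n]
      rw [mul_sum]
      refine sum_congr rfl fun a _ => ?_
      rw [← Nat.cast_sub hj]
      exact_mod_cast sum_FF _ _ j)
    (fun j => by
      simp only [f, n, i]
      rw [← sum_add_distrib, ← sum_add_distrib]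
      refine sum_congr rfl fun a ha => ?_
      rw [← sum_add_distrib, ← sum_add_distrib]
      exact sum_congr rfl fun ρ _ => by exact_mod_cast FF_rec (ok_sol (hA a ha)) ρ j)
    (fun j => by positivity) (fun j => by positivity)
    (by
      refine le_trans (sum_le_sum fun a _ => sum_le_sum fun ρ _ => ?_) (hconst 1).le |>.trans
        (mul_one W).le
      exact_mod_cast NN_le_one 0)
    (by positivity)
    (fun j₁ j₂ h1 h2 => by
      have key : ∀ a ∈ A, ∀ ρ, ∑ j ∈ Ico j₁ j₂, (NN (Sol ψ (κ ∘ a.1)) (tau a.1 a.2) ρ j : ℝ) ≤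
          (m - j₁ : ℕ) * ((if Bad ρ a.1 then (1 : ℝ) else 0) + 2 / M) + (2 * κ₀ + 1) *
            ∑ j ∈ Ico j₁ j₂, (II (Sol ψ (κ ∘ a.1)) (tau a.1 a.2) ρ j : ℝ) := by
        intro a ha ρ
        have h3 : 0 ≤ ∑ j ∈ Ico j₁ j₂, (II (Sol ψ (κ ∘ a.1)) (tau a.1 a.2) ρ j : ℝ) := by
          positivity
        split_ifs with hb
        · have h4 : ∑ j ∈ Ico j₁ j₂, NN (Sol ψ (κ ∘ a.1)) (tau a.1 a.2) ρ j ≤ m - j₁ := by
            refine (sum_le_card_nsmul _ _ _ fun j _ => NN_le_one j).trans ?_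
            rw [Nat.card_Ico, smul_eq_mul]
            omega
          have h5 : ∑ j ∈ Ico j₁ j₂, (NN (Sol ψ (κ ∘ a.1)) (tau a.1 a.2) ρ j : ℝ) ≤
              (m - j₁ : ℕ) := by exact_mod_cast h4
          have h6 : (0 : ℝ) ≤ (m - j₁ : ℕ) * (2 / M) := by positivity
          have h7 := mul_nonneg (show (0 : ℝ) ≤ 2 * κ₀ + 1 by positivity) h3
          linarith
        · have h4 := sum_NN_le (ok_sol (hA a ha)) ρ j₁ j₂
          have h5 := DD_le (hA a ha) h1 (by omega) fun h => hb (hC ρ a.1 j₁ j₂ h1 h2 h)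
          have h6 : ∑ j ∈ Ico j₁ j₂, (NN (Sol ψ (κ ∘ a.1)) (tau a.1 a.2) ρ j : ℝ) ≤
              2 * (((m - j₁) / M : ℕ) + κ₀ *
                ∑ j ∈ Ico j₁ j₂, (II (Sol ψ (κ ∘ a.1)) (tau a.1 a.2) ρ j : ℝ)) +
              ∑ j ∈ Ico j₁ j₂, (II (Sol ψ (κ ∘ a.1)) (tau a.1 a.2) ρ j : ℝ) := by
            exact_mod_cast h4.trans (Nat.add_le_add_right (Nat.mul_le_mul_left 2 h5) _)
          have h7 : (((m - j₁) / M : ℕ) : ℝ) ≤ (m - j₁ : ℕ) / M := Nat.cast_div_le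
          have h8 : ((m - j₁ : ℕ) : ℝ) * (0 + 2 / M) = 2 * ((m - j₁ : ℕ) / M) := by ring
          linarith
      simp only [n, i]
      rw [sum_comm, sum_comm (s := Ico j₁ j₂)]
      simp only [sum_comm (s := Ico j₁ j₂)]
      refine (sum_le_sum fun a ha => sum_le_sum fun ρ _ => key a ha ρ).trans ?_
      simp only [sum_add_distrib, ← mul_sum, hconst]
      have := mul_le_mul_of_nonneg_left hWb (show (0 : ℝ) ≤ (m - j₁ : ℕ) by positivity)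
      linarith)
  have hf : f (m - t) / (β * t) ≤ W / 4 := by
    rw [div_le_iff₀ (by positivity)]
    refine le_of_mul_le_mul_left (hdy.trans ?_) hL0
    have h1 : t * (2 * L * (s * W + W * (2 / M)) + 2 * (2 * κ₀ + 1) * W) =
        L * (W * t * (2 * s + 4 / M + 2 * (2 * κ₀ + 1) / L)) := by
      field_simp
      ring
    rw [h1]
    refine mul_le_mul_of_nonneg_left ?_ hL0.le
    have := mul_le_mul_of_nonneg_left hnum (mul_nonneg hW0 ht0.le)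
    linarith
  have hs : s ≤ 1 / 4 := by
    have h1 : (0 : ℝ) ≤ 4 / M := by positivity
    have h2 : (0 : ℝ) ≤ 2 * (2 * κ₀ + 1) / L := by positivity
    linarith
  have key : ∀ a ∈ A, ∀ ρ, (1 : ℝ) ≤ (if Bad ρ a.1 then (1 : ℝ) else 0) +
      (FF (Sol ψ (κ ∘ a.1)) (tau a.1 a.2) ρ (m - t) : ℝ) / (β * t) +
      ∑ Z ∈ ZS (vis ρ (m - t)) (β * t) (t / M), if ¬Bad ρ a.1 ∧
        Sol ψ (κ ∘ a.1) (vis ρ (m - t) ∩ tau a.1 a.2) Z then (1 : ℝ) else 0 := by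
    intro a ha ρ
    have h1 : 0 ≤ (FF (Sol ψ (κ ∘ a.1)) (tau a.1 a.2) ρ (m - t) : ℝ) / (β * t) := by positivity
    have h2 : 0 ≤ ∑ Z ∈ ZS (vis ρ (m - t)) (β * t) (t / M), if ¬Bad ρ a.1 ∧
        Sol ψ (κ ∘ a.1) (vis ρ (m - t) ∩ tau a.1 a.2) Z then (1 : ℝ) else 0 :=
      sum_nonneg fun Z _ => by split_ifs <;> norm_num
    by_cases hb : Bad ρ a.1
    · rw [if_pos hb]; linarith
    rw [if_neg hb]
    by_cases hF : β * t ≤ (FF (Sol ψ (κ ∘ a.1)) (tau a.1 a.2) ρ (m - t) : ℝ)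
    · have := (one_le_div (by positivity)).2 hF
      linarith
    have h3 : ch (Sol ψ (κ ∘ a.1)) (tau a.1 a.2) ρ (m - t) ∈
        ZS (vis ρ (m - t)) (β * t) (t / M) := by
      refine mem_filter.2 ⟨mem_univ _, le_trans (le_of_eq ?_) (not_le.1 hF).le, ?_⟩
      · unfold FF
        congr 2
        ext x
        simp
      · have h4 := DD_le (hA a ha) (le_refl (m - t)) (by omega)
          fun h => hb (hC ρ a.1 _ _ le_rfl le_rfl h)
        rw [Ico_self, sum_empty, mul_zero, add_zero, Nat.sub_sub_self htm] at h4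
        refine le_trans ?_ (Nat.cast_div_le (α := ℝ) (m := t) (n := M))
        refine Nat.cast_le.2 ((card_le_card fun x hx => ?_).trans h4)
        obtain ⟨h5, h6⟩ := mem_sdiff.1 hx
        exact mem_filter.2 ⟨mem_univ _, m - t, mem_Icc.2 ⟨le_rfl, le_rfl⟩, not_le.1 fun h => h6 (mem_vis.2 h), h5⟩
    have h4 := single_le_sum (f := fun Z => if ¬Bad ρ a.1 ∧
        Sol ψ (κ ∘ a.1) (vis ρ (m - t) ∩ tau a.1 a.2) Z then (1 : ℝ) else 0)
      (fun Z _ => by split_ifs <;> norm_num) h3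
    rw [if_pos ⟨hb, ch_sol (ok_sol (hA a ha)) ρ _⟩] at h4
    linarith
  have h1 := sum_le_sum fun a ha => sum_le_sum fun ρ (_ : ρ ∈ univ) => key a ha ρ
  simp only [sum_add_distrib, ← sum_div, hconst] at h1
  have h2 : ∑ a ∈ A, ∑ ρ, ∑ Z ∈ ZS (vis ρ (m - t)) (β * t) (t / M), (if ¬Bad ρ a.1 ∧
      Sol ψ (κ ∘ a.1) (vis ρ (m - t) ∩ tau a.1 a.2) Z then (1 : ℝ) else 0) ≤
      Fintype.card Ω ^ m * (P * (Γ * B)) := by
    refine (sum_le_sum_of_subset_of_nonneg (subset_univ A) fun a _ _ =>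
      sum_nonneg fun ρ _ => sum_nonneg fun Z _ => by split_ifs <;> norm_num).trans ?_
    rw [Fintype.sum_prod_type]
    refine (sum_le_card_nsmul _ _ (P * (Γ * B)) fun c _ => ?_).trans (by simp)
    rw [sum_comm]
    refine (sum_le_card_nsmul _ _ (Γ * B) fun ρ _ => ?_).trans (by simp [hP])
    rw [sum_comm]
    refine (sum_le_card_nsmul _ _ B fun Z _ => ?_).trans ?_
    · by_cases hb : Bad ρ c
      · simpa [hb] using hB0
      · simpa [hb] using hB ρ c Z hb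
    · rw [nsmul_eq_mul]
      exact mul_le_mul_of_nonneg_right (hΓ _ (by rw [card_vis, Nat.sub_sub_self htm])) hB0
  have h3 := mul_le_mul_of_nonneg_right hs hW0
  refine le_of_mul_le_mul_right ?_ hP0
  have h4 : f (m - t) = ∑ a ∈ A, ∑ ρ,
      (FF (Sol ψ (κ ∘ a.1)) (tau a.1 a.2) ρ (m - t) : ℝ) := rfl
  rw [← h4] at h1
  rw [← hW]
  nlinarith

end Pool.Agent.P.MP_b53add_lc.S3
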