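import Pool.Agent.P.MP_b53add_lc.S3Chain

/-! Hidden members of the chain are rare: an encoding argument. -/

namespace Pool.Agent.P.MP_b53add_lc.S3

open Finset

set_option linter.unusedSectionVars false

variable {Ω Cl : Type*} [Fintype Ω] [DecidableEq Ω] [DecidableEq Cl] {m : ℕ}

/-- `Z` satisfies every clause whose negated inputs are switched on by `X ∪ Z`. -/
def Sol (ψ : Finset (Finset Cl × Finset Cl)) (g : Fin m → Cl) (X Z : Finset (Fin m)) : Prop :=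
  ∀ r ∈ ψ, Disjoint r.1 r.2 → r.1 ⊆ (X ∪ Z).image g → ∃ i ∈ Z, g i ∈ r.2

theorem ok_sol {ψ : Finset (Finset Cl × Finset Cl)} {g : Fin m → Cl} {τ : Finset (Fin m)}
    (h : Sol ψ g τ τ) : Ok (Sol ψ g) τ where
  top := h
  mono := fun _ _ _ h1 h2 r hr hd hs =>
    h1 r hr hd (hs.trans (image_subset_image (union_subset_union h2 Subset.rfl)))
  drop := fun X Z i h1 _ h2 r hr hd hs => by
    by_cases hi : g i ∈ r.1
    · obtain ⟨i', h3, h4⟩ := h1 r hr hd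
        (hs.trans (image_subset_image (union_subset_union Subset.rfl (erase_subset _ _))))
      refine ⟨i', mem_erase.2 ⟨fun e => ?_, h3⟩, h4⟩
      rw [e] at h4
      exact disjoint_left.1 hd hi h4
    · refine h2 r hr hd fun C hC => ?_
      obtain ⟨x, hx, rfl⟩ := mem_image.1 (hs hC)
      have hxi : x ≠ i := fun e => hi (e ▸ hC)
      refine mem_image_of_mem _ ?_
      simp only [mem_union, mem_erase] at hx ⊢
      tauto

/-- A violated clause, if there is one. -/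
noncomputable def viol (ψ : Finset (Finset Cl × Finset Cl)) (U W : Finset Cl) :
    Finset Cl × Finset Cl :=
  Classical.epsilon fun r => r ∈ ψ ∧ Disjoint r.1 r.2 ∧ r.1 ⊆ U ∧ Disjoint W r.2

/-- The values that repair the violated clause. -/
noncomputable def pick (ψ : Finset (Finset Cl × Finset Cl)) (κ : Ω → Cl) (U W : Finset Cl) :
    Finset Ω := univ.filter fun ω => viol ψ U W ∈ ψ ∧ κ ω ∈ (viol ψ U W).2

def tags (Λ : List (ℕ × Fin m)) : Finset (Fin m) := (Λ.map Prod.snd).toFinset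

/-- The known part of the solution. -/
def bs (ρ : Equiv.Perm (Fin m)) (E : Fin m → ℕ) (j : ℕ) (Λ : List (ℕ × Fin m)) :
    Finset (Fin m) := ((vis ρ j).filter fun i => j < E i) ∪ tags Λ

/-- A valid list of picks; the head is the last pick. -/
def Val (ψ : Finset (Finset Cl × Finset Cl)) (κ : Ω → Cl) (ρ : Equiv.Perm (Fin m))
    (τ : Finset (Fin m)) (E : Fin m → ℕ) (c : Fin m → Ω) : List (ℕ × Fin m) → Prop
  | [] => True
  | p :: Λ => Val ψ κ ρ τ E c Λ ∧ (ρ p.2 : ℕ) < p.1 ∧ p.2 ∉ tags Λ ∧ (∀ q ∈ Λ, p.1 ≤ q.1) ∧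
      c p.2 ∈ pick ψ κ ((vis ρ p.1 ∩ τ ∪ bs ρ E p.1 Λ).image (κ ∘ c))
        ((bs ρ E p.1 Λ).image (κ ∘ c))

variable {ψ : Finset (Finset Cl × Finset Cl)} {κ : Ω → Cl} {ρ : Equiv.Perm (Fin m)}
  {τ : Finset (Fin m)} {E : Fin m → ℕ}

theorem tags_cons (p : ℕ × Fin m) (Λ : List (ℕ × Fin m)) :
    tags (p :: Λ) = insert p.2 (tags Λ) := by simp [tags]

theorem mem_tags {Λ : List (ℕ × Fin m)} {i : Fin m} : i ∈ tags Λ ↔ ∃ p ∈ Λ, p.2 = i := by
  simp only [tags, List.mem_toFinset, List.mem_map]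

theorem image_update {T : Finset (Fin m)} {i : Fin m} (h : i ∉ T) (c : Fin m → Ω) (ω : Ω) :
    T.image (κ ∘ Function.update c i ω) = T.image (κ ∘ c) :=
  image_congr fun x hx => by
    have : x ≠ i := fun e => h (e ▸ mem_coe.1 hx)
    simp [Function.update_of_ne this]

theorem notMem_bs {i : Fin m} {j : ℕ} {Λ : List (ℕ × Fin m)} (h1 : (ρ i : ℕ) < j)
    (h2 : i ∉ tags Λ) : i ∉ bs ρ E j Λ ∧ i ∉ vis ρ j ∩ τ ∪ bs ρ E j Λ := by
  simp only [bs, mem_union, mem_filter, mem_inter, mem_vis, h2, or_false]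
  omega

theorem val_update {i : Fin m} (c : Fin m → Ω) (ω : Ω) (Λ : List (ℕ × Fin m))
    (h1 : ∀ q ∈ Λ, (ρ i : ℕ) < q.1) (h2 : i ∉ tags Λ) :
    Val ψ κ ρ τ E (Function.update c i ω) Λ ↔ Val ψ κ ρ τ E c Λ := by
  induction Λ with
  | nil => simp [Val]
  | cons p Λ ih =>
    rw [tags_cons, mem_insert, not_or] at h2
    have h3 := notMem_bs (τ := τ) (E := E) (h1 p List.mem_cons_self) h2.2
    simp only [Val]
    rw [ih (fun q hq => h1 q (List.mem_cons_of_mem _ hq)) h2.2, image_update h3.1,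
      image_update h3.2, Function.update_of_ne (Ne.symm h2.1)]

open Classical in
theorem count_step (Q : (Fin m → Ω) → Prop) (A : (Fin m → Ω) → Finset Ω) (i : Fin m) {K : ℕ}
    (hQ : ∀ c ω, Q c → Q (Function.update c i ω)) (hA : ∀ c ω, A (Function.update c i ω) = A c)
    (hK : ∀ c, (A c).card ≤ K) :
    #{c | Q c ∧ c i ∈ A c} * Fintype.card Ω ≤ K * #{c | Q c} := by
  rw [← card_univ, ← card_product]
  refine le_trans (card_le_card_of_injOn
    (t := (univ.filter Q).sigma A) (fun p => ⟨Function.update p.1 i p.2, p.1 i⟩) ?_ ?_) ?_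
  · intro p hp
    obtain ⟨h1, h2⟩ := (mem_filter.1 (mem_product.1 (mem_coe.1 hp)).1).2
    exact mem_coe.2 (mem_sigma.2 ⟨mem_filter.2 ⟨mem_univ _, hQ _ _ h1⟩, by rwa [hA]⟩)
  · intro p _ p' _ h
    simp only [Sigma.mk.injEq, heq_eq_eq] at h
    have h2 : p.2 = p'.2 := by simpa using congrFun h.1 i
    refine Prod.ext (funext fun x => ?_) h2
    by_cases hx : x = i
    · rw [hx]; exact h.2
    · simpa [Function.update_of_ne hx] using congrFun h.1 x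
  · rw [card_sigma, mul_comm, ← smul_eq_mul]
    exact sum_le_card_nsmul _ _ _ fun c _ => hK c

open Classical in
theorem count_val {K : ℕ} (hK : ∀ r ∈ ψ, #{ω | κ ω ∈ r.2} ≤ K) (Λ : List (ℕ × Fin m)) :
    #{c | Val ψ κ ρ τ E c Λ} * Fintype.card Ω ^ Λ.length ≤ K ^ Λ.length * Fintype.card Ω ^ m := by
  induction Λ with
  | nil => simpa using (card_filter_le univ fun c => Val ψ κ ρ τ E c [])
  | cons p Λ ih =>
    by_cases hs : (ρ p.2 : ℕ) < p.1 ∧ p.2 ∉ tags Λ ∧ ∀ q ∈ Λ, p.1 ≤ q.1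
    · obtain ⟨h1, h2, h3⟩ := hs
      have h4 := notMem_bs (τ := τ) (E := E) h1 h2
      have h5 := count_step (fun c => Val ψ κ ρ τ E c Λ)
        (fun c => pick ψ κ ((vis ρ p.1 ∩ τ ∪ bs ρ E p.1 Λ).image (κ ∘ c))
          ((bs ρ E p.1 Λ).image (κ ∘ c))) p.2 (K := K)
        (fun c ω h => (val_update c ω Λ (fun q hq => h1.trans_le (h3 q hq)) h2).2 h)
        (fun c ω => by rw [image_update h4.1, image_update h4.2]) fun c => by
          unfold pick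
          generalize viol ψ _ _ = r
          by_cases hr : r ∈ ψ
          · simpa [hr] using hK r hr
          · simp [hr]
      have h6 : #{c | Val ψ κ ρ τ E c (p :: Λ)} ≤ #{c | Val ψ κ ρ τ E c Λ ∧
          c p.2 ∈ pick ψ κ ((vis ρ p.1 ∩ τ ∪ bs ρ E p.1 Λ).image (κ ∘ c))
            ((bs ρ E p.1 Λ).image (κ ∘ c))} := card_le_card fun c hc => by
        have := (mem_filter.1 hc).2
        exact mem_filter.2 ⟨mem_univ _, this.1, this.2.2.2.2⟩
      have h7 := (Nat.mul_le_mul_right (Fintype.card Ω) h6).trans (by simpa using h5)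
      rw [List.length_cons, pow_succ', pow_succ', ← mul_assoc, mul_assoc K]
      refine (Nat.mul_le_mul_right _ h7).trans ?_
      rw [mul_assoc]
      exact Nat.mul_le_mul_left _ (by simpa using ih)
    · rw [filter_eq_empty_iff.2 fun c _ h => hs ⟨h.2.1, h.2.2.1, h.2.2.2.1⟩]
      simp

/-- Lists of picks with sorted levels. -/
def LS (m : ℕ) : ℕ → ℕ → Finset (List (ℕ × Fin m))
  | 0, _ => {[]}
  | d + 1, j => (Icc j m ×ˢ univ).biUnion fun p => (LS m d p.1).image (List.cons p)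

theorem len_LS {d j : ℕ} {Λ : List (ℕ × Fin m)} (h : Λ ∈ LS m d j) : Λ.length = d := by
  induction d generalizing j Λ with
  | zero => simpa [LS] using h
  | succ d ih =>
    simp only [LS, mem_biUnion, mem_image] at h
    obtain ⟨p, -, Λ', h1, rfl⟩ := h
    rw [List.length_cons, ih h1]

theorem mem_LS {c : Fin m → Ω} {Λ : List (ℕ × Fin m)} (h : Val ψ κ ρ τ E c Λ) {j : ℕ}
    (h1 : ∀ p ∈ Λ, j ≤ p.1 ∧ p.1 ≤ m) : Λ ∈ LS m Λ.length j := by
  induction Λ generalizing j with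
  | nil => simp [LS]
  | cons p Λ ih =>
    simp only [LS, List.length_cons, mem_biUnion, mem_image]
    exact ⟨p, mem_product.2 ⟨mem_Icc.2 (h1 p List.mem_cons_self), mem_univ _⟩, Λ,
      ih h.1 fun q hq => ⟨h.2.2.2.1 q hq, (h1 q (List.mem_cons_of_mem _ hq)).2⟩, rfl⟩

theorem card_LS (m d j : ℕ) : (LS m d j).card ≤ (2 * m) ^ d * 2 ^ (m - j) := by
  induction d generalizing j with
  | zero => simpa [LS] using Nat.one_le_two_pow
  | succ d ih =>
    refine card_biUnion_le.trans ((sum_le_sum fun p _ => card_image_le.trans (ih p.1)).trans ?_)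
    rw [sum_product]
    simp only [sum_const, card_univ, Fintype.card_fin, smul_eq_mul]
    rw [← mul_sum, ← mul_sum]
    have h1 : ∑ a ∈ Icc j m, 2 ^ (m - a) ≤ 2 * 2 ^ (m - j) := by
      rw [← sum_image (s := Icc j m) (g := fun a => m - a) (f := fun l => 2 ^ l)
        (fun a ha b hb h => by
          have := (mem_Icc.1 (mem_coe.1 ha)).2
          have := (mem_Icc.1 (mem_coe.1 hb)).2
          simp only at h
          omega), ← pow_succ']
      refine (Nat.geomSum_lt le_rfl fun l hl => ?_).le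
      obtain ⟨a, ha, rfl⟩ := mem_image.1 hl
      have := (mem_Icc.1 ha).1
      omega
    calc m * ((2 * m) ^ d * ∑ a ∈ Icc j m, 2 ^ (m - a)) ≤ m * ((2 * m) ^ d * (2 * 2 ^ (m - j))) :=
          Nat.mul_le_mul_left _ (Nat.mul_le_mul_left _ h1)
      _ = (2 * m) ^ (d + 1) * 2 ^ (m - j) := by ring

/-- The number of expensive entries of the side information. -/
def oth (ρ : Equiv.Perm (Fin m)) (j₂ : ℕ) (E : Fin m → ℕ) : ℕ :=
  #{i | E i ≠ 0 ∧ E i ≠ j₂ + 1 ∧ E i ≠ ρ i + 1}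

def ES (ρ : Equiv.Perm (Fin m)) (j₁ : ℕ) : Finset (Fin m → ℕ) :=
  Fintype.piFinset fun i => if j₁ ≤ (ρ i : ℕ) then range (m + 2) else {0}

theorem sum_ES (ρ : Equiv.Perm (Fin m)) (j₁ j₂ : ℕ) {x : ℝ} (hx : 0 ≤ x) (h : (m + 2) * x ≤ 1) :
    ∑ E ∈ ES ρ j₁, x ^ oth ρ j₂ E ≤ 4 ^ (m - j₁) := by
  have h1 : ∀ E, x ^ oth ρ j₂ E =
      ∏ i, if E i ≠ 0 ∧ E i ≠ j₂ + 1 ∧ E i ≠ ρ i + 1 then x else 1 := by
    intro E
    rw [prod_ite, prod_const, prod_const_one, mul_one, oth]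
  simp_rw [h1]
  rw [ES, ← prod_univ_sum (fun i => if j₁ ≤ (ρ i : ℕ) then range (m + 2) else {0})
    fun i v => if v ≠ 0 ∧ v ≠ j₂ + 1 ∧ v ≠ ρ i + 1 then x else 1]
  have h2 : (4 : ℝ) ^ (m - j₁) = ∏ i, if j₁ ≤ (ρ i : ℕ) then (4 : ℝ) else 1 := by
    rw [prod_ite, prod_const, prod_const_one, mul_one, ← card_vis ρ j₁, vis]
  rw [h2]
  refine prod_le_prod (fun i _ => sum_nonneg fun v _ => by split_ifs <;> positivity) fun i _ => ?_
  split_ifs with h3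
  · rw [sum_ite, sum_const, sum_const, nsmul_eq_mul, nsmul_eq_mul, mul_one]
    have h4 : (#{v ∈ range (m + 2) | v ≠ 0 ∧ v ≠ j₂ + 1 ∧ v ≠ ρ i + 1} : ℝ) ≤ m + 2 := by
      exact_mod_cast (card_filter_le _ _).trans (card_range _).le
    have h5 : (#{v ∈ range (m + 2) | ¬(v ≠ 0 ∧ v ≠ j₂ + 1 ∧ v ≠ ρ i + 1)} : ℝ) ≤ 3 := by
      have : ({v ∈ range (m + 2) | ¬(v ≠ 0 ∧ v ≠ j₂ + 1 ∧ v ≠ ρ i + 1)} : Finset ℕ) ⊆
          {0, j₂ + 1, (ρ i : ℕ) + 1} := by
        intro v hv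
        have := (mem_filter.1 hv).2
        simp only [mem_insert, mem_singleton]
        omega
      exact_mod_cast (card_le_card this).trans card_le_three
    have := mul_le_mul_of_nonneg_right h4 hx
    linarith
  · simp

/-- A long valid list of picks exists. -/
def BadC (ψ : Finset (Finset Cl × Finset Cl)) (κ : Ω → Cl) (ρ : Equiv.Perm (Fin m))
    (M κ₀ j₁ j₂ : ℕ) (c : Fin m → Ω) : Prop :=
  ∃ τ ∈ (vis ρ j₁).powerset, ∃ E ∈ ES ρ j₁,
    ∃ Λ ∈ LS m ((m - j₁) / M + 1 + κ₀ * oth ρ j₂ E) j₁, Val ψ κ ρ τ E c Λ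

open Classical in
theorem count_badC {K M κ₀ : ℕ} (hK : ∀ r ∈ ψ, #{ω | κ ω ∈ r.2} ≤ K) (hM : 1 ≤ M)
    (hΩ : 0 < Fintype.card Ω) (hq : 2 * m * K * 2 ^ (5 * M) ≤ Fintype.card Ω)
    (hκ : m + 2 ≤ 2 ^ (5 * M * κ₀)) (j₁ j₂ : ℕ) :
    (#{c | BadC ψ κ ρ M κ₀ j₁ j₂ c} : ℝ) ≤ (1 / 2) ^ (m - j₁) * Fintype.card Ω ^ m := by
  set N : ℝ := (Fintype.card Ω : ℝ) with hN
  have hN0 : 0 < N := by rw [hN]; exact_mod_cast hΩ
  set u := m - j₁ with hu
  set p : ℝ := (1 / 2) ^ (5 * M) with hp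
  have hp0 : 0 ≤ p := by positivity
  have h1 : 2 * m * K ≤ p * N := by
    have : (2 * m * K * 2 ^ (5 * M) : ℝ) ≤ N := by rw [hN]; exact_mod_cast hq
    rw [hp, one_div, inv_pow, ← div_eq_inv_mul, le_div_iff₀ (by positivity)]
    exact this
  have h2 : ∀ τ E d, ∑ Λ ∈ LS m d j₁, (#{c | Val ψ κ ρ τ E c Λ} : ℝ) ≤ 2 ^ u * p ^ d * N ^ m := by
    intro τ E d
    have h3 : ∀ Λ ∈ LS m d j₁, (#{c | Val ψ κ ρ τ E c Λ} : ℝ) ≤ K ^ d * N ^ m / N ^ d := by
      intro Λ hΛ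
      rw [le_div_iff₀ (by positivity), hN]
      have := count_val (ρ := ρ) (τ := τ) (E := E) hK Λ
      rw [len_LS hΛ] at this
      exact_mod_cast this
    refine (sum_le_card_nsmul _ _ _ h3).trans ?_
    rw [nsmul_eq_mul]
    have h4 : ((LS m d j₁).card : ℝ) ≤ (2 * m) ^ d * 2 ^ u := by exact_mod_cast card_LS m d j₁
    refine (mul_le_mul_of_nonneg_right h4 (by positivity)).trans ?_
    rw [← mul_div_assoc, div_le_iff₀ (by positivity)]
    calc (2 * m : ℝ) ^ d * 2 ^ u * (K ^ d * N ^ m) = (2 * m * K) ^ d * (2 ^ u * N ^ m) := by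
          rw [mul_pow (2 * m : ℝ)]; ring
      _ ≤ (p * N) ^ d * (2 ^ u * N ^ m) :=
          mul_le_mul_of_nonneg_right (pow_le_pow_left₀ (by positivity) h1 d) (by positivity)
      _ = 2 ^ u * p ^ d * N ^ m * N ^ d := by rw [mul_pow]; ring
  have h3 : (univ.filter fun c => BadC ψ κ ρ M κ₀ j₁ j₂ c) ⊆
      (vis ρ j₁).powerset.biUnion fun τ => (ES ρ j₁).biUnion fun E =>
        (LS m (u / M + 1 + κ₀ * oth ρ j₂ E) j₁).biUnion fun Λ =>
          univ.filter fun c => Val ψ κ ρ τ E c Λ := by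
    intro c hc
    obtain ⟨τ, h4, E, h5, Λ, h6, h7⟩ := (mem_filter.1 hc).2
    exact mem_biUnion.2 ⟨τ, h4, mem_biUnion.2 ⟨E, h5, mem_biUnion.2
      ⟨Λ, h6, mem_filter.2 ⟨mem_univ _, h7⟩⟩⟩⟩
  have h4 : (#{c | BadC ψ κ ρ M κ₀ j₁ j₂ c} : ℝ) ≤ ∑ τ ∈ (vis ρ j₁).powerset, ∑ E ∈ ES ρ j₁,
      ∑ Λ ∈ LS m (u / M + 1 + κ₀ * oth ρ j₂ E) j₁, (#{c | Val ψ κ ρ τ E c Λ} : ℝ) := by
    exact_mod_cast (card_le_card h3).trans (card_biUnion_le.trans (sum_le_sum fun τ _ =>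
      card_biUnion_le.trans (sum_le_sum fun E _ => card_biUnion_le)))
  have h5 : p ^ (u / M + 1) ≤ (1 / 2) ^ (5 * u) := by
    rw [hp, ← pow_mul]
    refine pow_le_pow_of_le_one (by norm_num) (by norm_num) ?_
    have := Nat.lt_mul_div_succ u (show 0 < M by omega)
    rw [mul_assoc]
    omega
  have h6 : ((m : ℝ) + 2) * p ^ κ₀ ≤ 1 := by
    have : ((m : ℝ) + 2) ≤ 2 ^ (5 * M * κ₀) := by exact_mod_cast hκ
    rw [hp, ← pow_mul, one_div, inv_pow, ← div_eq_mul_inv, div_le_one (by positivity)]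
    exact this
  have h7 := sum_ES ρ j₁ j₂ (pow_nonneg hp0 κ₀) h6
  have h8 : ∀ τ ∈ (vis ρ j₁).powerset, ∑ E ∈ ES ρ j₁,
      ∑ Λ ∈ LS m (u / M + 1 + κ₀ * oth ρ j₂ E) j₁, (#{c | Val ψ κ ρ τ E c Λ} : ℝ) ≤
      2 ^ u * (1 / 2) ^ (5 * u) * N ^ m * 4 ^ u := by
    intro τ _
    refine (sum_le_sum fun E _ => h2 τ E _).trans ?_
    calc ∑ E ∈ ES ρ j₁, 2 ^ u * p ^ (u / M + 1 + κ₀ * oth ρ j₂ E) * N ^ m
        = 2 ^ u * p ^ (u / M + 1) * N ^ m * ∑ E ∈ ES ρ j₁, (p ^ κ₀) ^ oth ρ j₂ E := by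
          rw [mul_sum]
          exact sum_congr rfl fun E _ => by rw [pow_add p (u / M + 1), pow_mul]; ring
      _ ≤ 2 ^ u * (1 / 2) ^ (5 * u) * N ^ m * 4 ^ u := by gcongr
  refine h4.trans ((sum_le_card_nsmul _ _ _ h8).trans (le_of_eq ?_))
  rw [card_powerset, card_vis, nsmul_eq_mul, ← hu]
  push_cast
  have h9 : (2 : ℝ) ^ u * (2 ^ u * (1 / 2) ^ (5 * u) * 4 ^ u) = (1 / 2) ^ u := by
    rw [pow_mul, ← mul_pow, ← mul_pow, ← mul_pow]
    norm_num
  rw [← h9]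
  ring

end Pool.Agent.P.MP_b53add_lc.S3
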