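import Pool.Agent.P.MP_b53add_lc.S3Core

/-! Tail bounds and the structure of random formulas. -/

namespace Pool.Agent.P.MP_b53add_lc.S3

open Finset

theorem moment {Ω : Type*} [Fintype Ω] [DecidableEq Ω] {m : ℕ} (hΩ : 0 < Fintype.card Ω)
    (S : Finset (Fin m)) (A : Finset Ω) {x : ℝ} (hx : 0 ≤ x) :
    ∑ c : Fin m → Ω, x ^ #{i ∈ S | c i ∈ A} ≤
      Real.exp (S.card * ((x - 1) * A.card / Fintype.card Ω)) * Fintype.card Ω ^ m := by
  have hN : (0 : ℝ) < Fintype.card Ω := by exact_mod_cast hΩ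
  have h1 : ∀ c : Fin m → Ω, x ^ #{i ∈ S | c i ∈ A} =
      ∏ i, if i ∈ S ∧ c i ∈ A then x else 1 := by
    intro c
    rw [prod_ite, prod_const, prod_const_one, mul_one]
    congr 2
    ext i
    simp
  simp_rw [h1]
  rw [← Fintype.piFinset_univ, ← prod_univ_sum (fun _ => (univ : Finset Ω))
    fun i ω => if i ∈ S ∧ ω ∈ A then x else 1]
  set y : ℝ := (x - 1) * A.card / Fintype.card Ω with hy
  have h2 : Real.exp (S.card * y) * Fintype.card Ω ^ m =
      ∏ i : Fin m, (if i ∈ S then Real.exp y else 1) * Fintype.card Ω := by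
    rw [prod_mul_distrib, prod_ite_mem, univ_inter, prod_const, prod_const, card_univ,
      Fintype.card_fin, Real.exp_nat_mul]
  rw [h2]
  refine prod_le_prod (fun i _ => sum_nonneg fun ω _ => by split_ifs <;> positivity)
    fun i _ => ?_
  by_cases hi : i ∈ S
  · have h3 : ∑ ω, (if i ∈ S ∧ ω ∈ A then x else 1) = (y + 1) * Fintype.card Ω := by
      have : ∀ ω, (if i ∈ S ∧ ω ∈ A then x else 1) = (if ω ∈ A then x - 1 else 0) + 1 := by
        intro ω
        by_cases h : ω ∈ A <;> simp [h, hi]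
      simp_rw [this]
      rw [sum_add_distrib, sum_ite_mem, univ_inter, sum_const, sum_const, card_univ, hy]
      simp only [nsmul_eq_mul]
      field_simp
    rw [h3, if_pos hi]
    exact mul_le_mul_of_nonneg_right (Real.add_one_le_exp y) hN.le
  · simp [hi]

open Classical in
/-- The number of points with a property. -/
noncomputable def cnt {α : Type*} [Fintype α] (Q : α → Prop) : ℝ := #{c | Q c}

theorem cnt_or {α : Type*} [Fintype α] (Q R : α → Prop) :
    cnt (fun c => Q c ∨ R c) ≤ cnt Q + cnt R := by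
  unfold cnt
  classical
  exact_mod_cast (card_le_card fun c hc => by simpa using hc).trans (card_union_le _ _)

theorem cnt_zero {α : Type*} [Fintype α] {Q : α → Prop} (h : ∀ c, ¬Q c) : cnt Q = 0 := by
  simp [cnt, h]

theorem tail {Ω : Type*} [Fintype Ω] [DecidableEq Ω] {m : ℕ} (hΩ : 0 < Fintype.card Ω)
    (S : Finset (Fin m)) (A : Finset Ω) {x v e : ℝ} (hx : 0 ≤ x) (hv : 0 < v)
    (Q : (Fin m → Ω) → Prop) (hQ : ∀ c, Q c → v ≤ x ^ #{i ∈ S | c i ∈ A})
    (he : S.card * ((x - 1) * A.card / Fintype.card Ω) ≤ e) :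
    cnt Q ≤ Real.exp e / v * Fintype.card Ω ^ m := by
  classical
  have h1 : cnt Q * v ≤ ∑ c : Fin m → Ω, x ^ #{i ∈ S | c i ∈ A} := by
    rw [cnt, ← nsmul_eq_mul]
    exact (card_nsmul_le_sum _ _ _ fun c hc => hQ c (mem_filter.1 hc).2).trans
      (sum_le_sum_of_subset_of_nonneg (subset_univ _) fun _ _ _ => by positivity)
  rw [div_mul_eq_mul_div, le_div_iff₀ hv]
  exact h1.trans ((moment hΩ S A hx).trans
    (mul_le_mul_of_nonneg_right (Real.exp_le_exp.2 he) (by positivity)))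

theorem union_le {α κ : Type*} [Fintype α] (I : Finset κ) (Q : κ → α → Prop) {b : ℝ}
    (h : ∀ i ∈ I, cnt (Q i) ≤ b) : cnt (fun c => ∃ i ∈ I, Q i c) ≤ I.card * b := by
  refine le_trans ?_ ((sum_le_card_nsmul _ _ _ h).trans (nsmul_eq_mul _ _).le)
  unfold cnt
  classical
  exact_mod_cast (card_le_card fun c hc => by simpa using hc).trans card_biUnion_le

theorem wcount {α : Type*} [Fintype α] (w : α → ℝ) (hw : ∀ a, 0 ≤ w a) (𝒜 : Finset (Finset α))
    {v : ℝ} (hv : ∀ Z ∈ 𝒜, v ≤ ∏ a ∈ Z, w a) : 𝒜.card * v ≤ Real.exp (∑ a, w a) := by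
  rw [← nsmul_eq_mul]
  refine (card_nsmul_le_sum _ _ _ hv).trans ((sum_le_sum_of_subset_of_nonneg
    (show 𝒜 ⊆ univ.powerset by simp) fun Z _ _ => prod_nonneg fun a _ => hw a).trans ?_)
  rw [← prod_one_add, Real.exp_sum]
  exact prod_le_prod (fun a _ => by linarith [hw a]) fun a _ => by
    linarith [Real.add_one_le_exp (w a)]

theorem small_sets (n a : ℕ) {z : ℝ} (h0 : 0 < z) (h1 : z ≤ 1) :
    (#{V : Finset (Fin n) | V.card ≤ a} : ℝ) ≤ Real.exp (n * z) / z ^ a := by
  rw [le_div_iff₀ (by positivity)]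
  refine (wcount (fun _ => z) (fun _ => h0.le) _ fun Z hZ => ?_).trans (by simp)
  rw [prod_const]
  exact pow_le_pow_of_le_one h0.le h1 (mem_filter.1 hZ).2

theorem card_ZS {m : ℕ} (S : Finset (Fin m)) (a b : ℝ) {l l' : ℝ} (hl : 0 ≤ l) (hl' : 0 ≤ l') :
    ((ZS S a b).card : ℝ) ≤
      Real.exp (l * a + l' * b + S.card * Real.exp (-l) + m * Real.exp (-l')) := by
  have h := wcount (fun i => if i ∈ S then Real.exp (-l) else Real.exp (-l'))
    (fun i => by split_ifs <;> positivity) (ZS S a b) (v := Real.exp (-(l * a + l' * b)))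
    fun Z hZ => by
      obtain ⟨h1, h2⟩ := (mem_filter.1 hZ).2
      rw [prod_ite, prod_const, prod_const, filter_mem_eq_inter, ← sdiff_eq_filter,
        ← Real.exp_nat_mul, ← Real.exp_nat_mul, ← Real.exp_add, Real.exp_le_exp]
      have := mul_le_mul_of_nonneg_left h1 hl
      have := mul_le_mul_of_nonneg_left h2 hl'
      linarith
  rw [Real.exp_neg, ← div_eq_mul_inv, div_le_iff₀ (Real.exp_pos _), ← Real.exp_add] at h
  refine h.trans (Real.exp_le_exp.2 ?_)
  rw [sum_ite, sum_const, sum_const, filter_mem_eq_inter, univ_inter, nsmul_eq_mul, nsmul_eq_mul]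
  have h1 : (#{i | i ∉ S} : ℝ) ≤ m := by
    exact_mod_cast (card_filter_le _ _).trans (by simp)
  have := mul_le_mul_of_nonneg_right h1 (Real.exp_pos (-l')).le
  linarith

/-- Triples of literals. -/
abbrev Om (n : ℕ) := Fin 3 → Fin n × Bool
/-- Clauses with at most three literals. -/
abbrev Cls (n : ℕ) := {c : Finset (Fin n × Bool) // c.card ≤ 3}

variable {n m : ℕ}

def kap (ω : Om n) : Cls n := ⟨univ.image ω, card_image_le.trans (by simp)⟩

def sat (y : Finset (Fin n)) (ω : Om n) : Prop := ∃ r, decide ((ω r).1 ∈ y) = (ω r).2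

instance (y : Finset (Fin n)) : DecidablePred (sat y) := fun _ => by unfold sat; infer_instance

def vars (ω : Om n) : Finset (Fin n) := univ.image fun r => (ω r).1

/-- Triples inside `V` that are false under `y`. -/
def AU (V y : Finset (Fin n)) : Finset (Om n) :=
  Fintype.piFinset fun _ => V.image fun v => (v, !decide (v ∈ y))

/-- Triples inside `V`. -/
def AX (V : Finset (Fin n)) : Finset (Om n) := Fintype.piFinset fun _ => V ×ˢ univ

def tau (c : Fin m → Om n) (y : Finset (Fin n)) : Finset (Fin m) :=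
  univ.filter fun i => sat y (c i)

theorem card_Om (n : ℕ) : Fintype.card (Om n) = 8 * n ^ 3 := by
  simp [Om]
  ring

theorem card_AU (V y : Finset (Fin n)) : (AU V y).card = V.card ^ 3 := by
  rw [AU, Fintype.card_piFinset, prod_const, card_image_of_injective _
    fun a b h => (Prod.ext_iff.1 h).1]
  simp

theorem card_AX (V : Finset (Fin n)) : (AX V).card = 8 * V.card ^ 3 := by
  rw [AX, Fintype.card_piFinset, prod_const, card_product]
  simp
  ring

theorem mem_AX {V : Finset (Fin n)} {ω : Om n} : ω ∈ AX V ↔ vars ω ⊆ V := by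
  simp [AX, vars, image_subset_iff]

theorem mem_AU {V y : Finset (Fin n)} {ω : Om n} (h : ω ∈ AU V y) : vars ω ⊆ V ∧ ¬sat y ω := by
  have h1 : ∀ r, (ω r).1 ∈ V ∧ (ω r).2 = !decide ((ω r).1 ∈ y) := fun r => by
    obtain ⟨v, h1, h2⟩ := mem_image.1 (Fintype.mem_piFinset.1 h r)
    rw [← h2]
    exact ⟨h1, rfl⟩
  refine ⟨image_subset_iff.2 fun r _ => (h1 r).1, fun ⟨r, hr⟩ => ?_⟩
  rw [(h1 r).2] at hr
  simp at hr

theorem card_fib (P : Finset (Cls n)) : #{ω : Om n | kap ω ∈ P} ≤ 27 * P.card := by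
  have h : (univ.filter fun ω : Om n => kap ω ∈ P) ⊆
      P.biUnion fun C => Fintype.piFinset fun _ => C.1 := fun ω hω =>
    mem_biUnion.2 ⟨_, (mem_filter.1 hω).2, Fintype.mem_piFinset.2 fun r =>
      mem_image_of_mem _ (mem_univ r)⟩
  refine (card_le_card h).trans (card_biUnion_le.trans ?_)
  rw [mul_comm, ← smul_eq_mul]
  refine sum_le_card_nsmul _ _ _ fun C _ => ?_
  rw [Fintype.card_piFinset, prod_const, card_univ, Fintype.card_fin]
  exact Nat.pow_le_pow_left C.2 3

theorem hall_sat (c : Fin m → Om n) (J : Finset (Fin m))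
    (h : ∀ J' ⊆ J, J'.card ≤ (J'.biUnion fun i => vars (c i)).card) :
    ∃ y, ∀ i ∈ J, sat y (c i) := by
  obtain ⟨f, hf, h1⟩ := (all_card_le_biUnion_card_iff_existsInjective'
    fun i : J => vars (c i)).1 fun s => by
      have := h (s.image Subtype.val) (image_subset_iff.2 fun i _ => i.2)
      rwa [card_image_of_injective _ Subtype.val_injective, image_biUnion] at this
  choose r hr using fun i : J => mem_image.1 (h1 i)
  refine ⟨(univ.filter fun i : J => (c i (r i)).2 = true).image f, fun i hi => ⟨r ⟨i, hi⟩, ?_⟩⟩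
  have h2 := (hr ⟨i, hi⟩).2
  simp only at h2
  rw [h2]
  simp only [hf.mem_finset_image, mem_filter, mem_univ, true_and]
  simp

/-- Small sets of clauses outside a small exceptional set are satisfiable. -/
theorem exists_exc (c : Fin m → Om n) (S : Finset (Fin m)) {w : ℕ}
    (hX : ∀ V : Finset (Fin n), V.card ≤ 3 * w → #{i ∈ S | c i ∈ AX V} < 2 * w) :
    ∃ E : Finset (Fin m), E.card ≤ 2 * w ∧
      ∀ J ⊆ S \ E, J.card ≤ w → ∃ y, ∀ i ∈ J, sat y (c i) := by
  obtain ⟨E, h1, h2⟩ := exists_max_image (S.powerset.filter fun E =>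
    (E.biUnion fun i => vars (c i)).card ≤ E.card ∧ E.card ≤ 2 * w) card ⟨∅, by simp⟩
  obtain ⟨h3, h4, h5⟩ := mem_filter.1 h1
  rw [mem_powerset] at h3
  refine ⟨E, h5, fun J hJ hw => hall_sat c J fun J' hJ' => ?_⟩
  by_contra hc
  push Not at hc
  have h6 : Disjoint E J' := disjoint_left.2 fun i h6 h7 => (mem_sdiff.1 (hJ (hJ' h7))).2 h6
  have h7 := card_union_of_disjoint h6
  have h8 : ((E ∪ J').biUnion fun i => vars (c i)).card ≤ E.card + J'.card := by
    rw [union_biUnion]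
    exact (card_union_le _ _).trans (by omega)
  have h9 : E ∪ J' ⊆ S := union_subset h3 (hJ'.trans (hJ.trans sdiff_subset))
  have h10 := card_le_card hJ'
  by_cases h11 : (E ∪ J').card ≤ 2 * w
  · have := h2 _ (mem_filter.2 ⟨mem_powerset.2 h9, by omega, h11⟩)
    omega
  · have h12 := hX ((E ∪ J').biUnion fun i => vars (c i)) (by omega)
    have h13 : E ∪ J' ⊆ {i ∈ S | c i ∈ AX ((E ∪ J').biUnion fun i => vars (c i))} :=
      fun i hi => mem_filter.2 ⟨h9 hi, mem_AX.2 (subset_biUnion_of_mem (fun i => vars (c i)) hi)⟩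
    have := card_le_card h13
    omega

/-- A solution that serves many assignments gives an accepted unsatisfiable formula. -/
theorem few_sol {ψ : Finset (Finset (Cls n) × Finset (Cls n))} (c : Fin m → Om n)
    (S Z : Finset (Fin m)) {w : ℕ}
    (hU : ∀ V y : Finset (Fin n), n ≤ 4 * V.card → 2 * w < #{i ∈ S | c i ∈ AU V y})
    (hX : ∀ V : Finset (Fin n), V.card ≤ 3 * w → #{i ∈ S | c i ∈ AX V} < 2 * w)
    (hW : ∀ r ∈ ψ, r.1 ⊆ univ.image (kap ∘ c) → r.1.card ≤ w)
    (hs : ∀ T, Sol ψ (kap ∘ c) T T → ∃ y, ∀ i ∈ T, sat y (c i))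
    (𝒴 : Finset (Finset (Fin n))) (h𝒴 : ∀ y ∈ 𝒴, Sol ψ (kap ∘ c) (S ∩ tau c y) Z) :
    𝒴.card ≤ #{V : Finset (Fin n) | V.card ≤ n / 4} := by
  refine (card_le_card_shatterer 𝒴).trans (card_le_card fun V hV => ?_)
  rw [mem_shatterer] at hV
  refine mem_filter.2 ⟨mem_univ _, ?_⟩
  by_contra hc
  obtain ⟨E, hE, hJ⟩ := exists_exc c S hX
  let K := (S \ E).filter fun i => vars (c i) ⊆ V
  obtain ⟨y, hy⟩ := hs (K ∪ Z) fun r hr hd hN => by
    rw [union_self] at hN
    have h1 : r.1 \ Z.image (kap ∘ c) ⊆ K.image (kap ∘ c) := by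
      intro C hC
      obtain ⟨h2, h3⟩ := mem_sdiff.1 hC
      have := hN h2
      rw [image_union, mem_union] at this
      exact this.resolve_right h3
    obtain ⟨J, h2, h3, h4⟩ := exists_subset_injOn_image_eq_of_surjOn (f := kap ∘ c)
      (K : Set (Fin m)) (r.1 \ Z.image (kap ∘ c)) fun C hC => by simpa using h1 hC
    have h5 : J.card ≤ w := by
      rw [← card_image_of_injOn h3, h4]
      exact (card_le_card sdiff_subset).trans
        (hW r hr (hN.trans (image_subset_image (subset_univ _))))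
    have h6 : ∀ i ∈ J, i ∈ S \ E ∧ vars (c i) ⊆ V := fun i hi => mem_filter.1 (h2 hi)
    obtain ⟨y₀, h7⟩ := hJ J (fun i hi => (h6 i hi).1) h5
    obtain ⟨y, h8, h9⟩ := hV (show V ∩ y₀ ⊆ V from inter_subset_left)
    have h10 : J ⊆ S ∩ tau c y := by
      intro i hi
      obtain ⟨a, ha⟩ := h7 i hi
      refine mem_inter.2 ⟨(mem_sdiff.1 (h6 i hi).1).1, mem_filter.2 ⟨mem_univ _, a, ?_⟩⟩
      have h11 : (c i a).1 ∈ V := (h6 i hi).2 (mem_image_of_mem _ (mem_univ a))
      have h12 := Finset.ext_iff.1 h9 (c i a).1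
      simp only [mem_inter, h11, true_and] at h12
      rw [← ha]
      exact decide_eq_decide.2 h12
    obtain ⟨i, h11, h12⟩ := h𝒴 y h8 r hr hd fun C hC => by
      rw [image_union, mem_union]
      by_cases h11 : C ∈ Z.image (kap ∘ c)
      · exact Or.inr h11
      · exact Or.inl (image_subset_image h10 (h4 ▸ mem_sdiff.2 ⟨hC, h11⟩))
    exact ⟨i, mem_union_right _ h11, h12⟩
  obtain ⟨i, h1, h2⟩ := exists_mem_notMem_of_card_lt_card (hE.trans_lt (hU V y (by omega)))
  obtain ⟨h3, h4⟩ := mem_filter.1 h1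
  exact (mem_AU h4).2 (hy i (mem_union_left _
    (mem_filter.2 ⟨mem_sdiff.2 ⟨h3, h2⟩, (mem_AU h4).1⟩)))

end Pool.Agent.P.MP_b53add_lc.S3
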