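import Pool.Agent.P.MP_b53add_lc.S3Good

/-! The lower bound for explicit parameters. -/

namespace Pool.Agent.P.MP_b53add_lc.S3

open Finset

variable {n m w : ℕ}

theorem two_le_exp : (2 : ℝ) ≤ Real.exp 1 := by linarith [Real.add_one_le_exp (1 : ℝ)]

theorem two_pow_le_exp (a : ℕ) : (2 : ℝ) ^ a ≤ Real.exp a := by
  rw [← mul_one (a : ℝ), Real.exp_nat_mul]
  exact pow_le_pow_left₀ (by norm_num) two_le_exp a

theorem Om_pos (hn : 0 < n) : 0 < Fintype.card (Om n) := by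
  rw [card_Om]; positivity

theorem count_U (hn : 0 < n) (hw : 10 ^ 13 * w ≤ n) (S : Finset (Fin m)) (hS : S.card = 5000 * n) :
    cnt (fun c : Fin m → Om n => ∃ p ∈ (univ : Finset (Finset (Fin n) × Finset (Fin n))),
      n ≤ 4 * p.1.card ∧ #{i ∈ S | c i ∈ AU p.1 p.2} ≤ 2 * w) ≤
      (1 / 4) ^ w * Fintype.card (Om n) ^ m := by
  have hn' : (0 : ℝ) < n := by exact_mod_cast hn
  refine (union_le _ _ (b := Real.exp (-(4 * n)) / (1 / 2) ^ (2 * w) * Fintype.card (Om n) ^ m)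
    fun p _ => ?_).trans ?_
  · by_cases hp : n ≤ 4 * p.1.card
    · refine tail (Om_pos hn) S (AU p.1 p.2) (x := 1 / 2) (by norm_num) (by positivity) _
        (fun c h => pow_le_pow_of_le_one (by norm_num) (by norm_num) h.2) ?_
      rw [hS, card_AU, card_Om]
      push_cast
      have h1 : (n : ℝ) ^ 3 ≤ (4 * p.1.card) ^ 3 :=
        pow_le_pow_left₀ hn'.le (by exact_mod_cast hp) 3
      have h2 : (1 / 2 - 1) * (p.1.card : ℝ) ^ 3 / (8 * n ^ 3) ≤ -(1 / 1024) := by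
        rw [div_le_iff₀ (by positivity)]
        nlinarith
      nlinarith
    · rw [cnt_zero fun c h => hp h.1]
      positivity
  · rw [← mul_assoc]
    refine mul_le_mul_of_nonneg_right ?_ (by positivity)
    rw [card_univ, Fintype.card_prod, Fintype.card_finset, Fintype.card_fin, ← pow_add]
    have h1 := two_pow_le_exp (4 * n)
    have h2 : (2 : ℝ) ^ (n + n + 2 * w + 2 * w) ≤ 2 ^ (4 * n) :=
      pow_le_pow_right₀ (by norm_num) (by omega)
    have h3 : (1 / 4 : ℝ) ^ w = (2 ^ (2 * w))⁻¹ := by rw [pow_mul, ← inv_pow]; norm_num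
    have h4 : (1 / 2 : ℝ) ^ (2 * w) = (2 ^ (2 * w))⁻¹ := by rw [one_div, inv_pow]
    rw [h3, h4, Real.exp_neg]
    push_cast at h1 ⊢
    rw [pow_add, pow_add] at h2
    field_simp
    nlinarith

theorem count_X (hw0 : 0 < w) (hw : 10 ^ 13 * w ≤ n) (S : Finset (Fin m))
    (hS : S.card = 5000 * n) :
    cnt (fun c : Fin m → Om n => ∃ V ∈ (univ.filter fun V : Finset (Fin n) => V.card ≤ 3 * w),
      2 * w ≤ #{i ∈ S | c i ∈ AX V}) ≤ (1 / 4) ^ w * Fintype.card (Om n) ^ m := by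
  have hn : 0 < n := by omega
  have hn' : (0 : ℝ) < n := by exact_mod_cast hn
  have hw' : (0 : ℝ) < w := by exact_mod_cast hw0
  set z : ℝ := w / n with hz
  have hz0 : 0 < z := by positivity
  have hz1 : z ≤ 1 / 10 ^ 13 := by
    rw [hz, div_le_div_iff₀ hn' (by positivity), one_mul, mul_comm]
    exact_mod_cast hw
  have hwz : (w : ℝ) = n * z := by rw [hz]; field_simp
  set x : ℝ := 1 / (135000 * z ^ 2) with hx
  have hx1 : 1 ≤ x := by
    rw [hx, one_le_div (by positivity)]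
    nlinarith
  refine (union_le _ _ (b := Real.exp w / x ^ (2 * w) * Fintype.card (Om n) ^ m)
    fun V hV => ?_).trans ?_
  · refine tail (Om_pos hn) S (AX V) (x := x) (by positivity) (by positivity) _
      (fun c h => pow_le_pow_right₀ hx1 h) ?_
    rw [hS, card_AX, card_Om]
    push_cast
    have h1 : (V.card : ℝ) ^ 3 ≤ (3 * w) ^ 3 :=
      pow_le_pow_left₀ (Nat.cast_nonneg _) (by exact_mod_cast (mem_filter.1 hV).2) 3
    have h2 : (0 : ℝ) ≤ (V.card : ℝ) ^ 3 := pow_nonneg (Nat.cast_nonneg _) 3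
    calc 5000 * (n : ℝ) * ((x - 1) * (8 * V.card ^ 3) / (8 * n ^ 3))
        ≤ 5000 * n * (x * (8 * (3 * w) ^ 3) / (8 * n ^ 3)) :=
          mul_le_mul_of_nonneg_left (div_le_div_of_nonneg_right (mul_le_mul (by linarith)
            (by linarith) (by linarith) (by linarith)) (by positivity)) (by positivity)
      _ = (w : ℝ) := by rw [hx, hz]; field_simp; norm_num
  · rw [← mul_assoc]
    refine mul_le_mul_of_nonneg_right ?_ (by positivity)
    refine (mul_le_mul_of_nonneg_right (small_sets n (3 * w) hz0 (by linarith))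
      (by positivity)).trans ?_
    rw [← hwz, ← mul_one (w : ℝ), Real.exp_nat_mul, pow_mul, pow_mul, ← div_pow, ← div_pow,
      ← mul_pow]
    refine pow_le_pow_left₀ (by positivity) ?_ w
    have h1 : Real.exp 1 ≤ 3 := by linarith [Real.exp_one_lt_d9]
    have h2 : Real.exp 1 / z ^ 3 * (Real.exp 1 / x ^ 2) =
        Real.exp 1 * Real.exp 1 * (135000 ^ 2 * z) := by rw [hx]; field_simp
    rw [h2]
    have h3 : Real.exp 1 * Real.exp 1 ≤ 3 * 3 :=
      mul_le_mul h1 h1 (Real.exp_pos 1).le (by norm_num)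
    calc Real.exp 1 * Real.exp 1 * (135000 ^ 2 * z) ≤ 3 * 3 * (135000 ^ 2 * (1 / 10 ^ 13)) := by
          gcongr
      _ ≤ 1 / 4 := by norm_num

theorem count_T {ι : Type*} (hn : 0 < n) (I : Finset ι) (hI : I.card ≤ 2 ^ w)
    (T : ι → Finset (Cls n)) (hT : ∀ r ∈ I, 1000 * m * (T r).card ≤ 8 * n ^ 3 * w) :
    cnt (fun c : Fin m → Om n => ∃ r ∈ I, w ≤ (T r ∩ univ.image (kap ∘ c)).card) ≤
      (1 / 4) ^ w * Fintype.card (Om n) ^ m := by
  have hn' : (0 : ℝ) < n := by exact_mod_cast hn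
  refine (union_le _ _ (b := Real.exp (w * (1 / 2)) / 16 ^ w * Fintype.card (Om n) ^ m)
    fun r hr => ?_).trans ?_
  · refine tail (Om_pos hn) univ (univ.filter fun ω => kap ω ∈ T r) (x := 16) (by norm_num)
      (by positivity) _ (fun c h => pow_le_pow_right₀ (by norm_num) (h.trans ?_)) ?_
    · refine le_trans (card_le_card fun C hC => ?_) (card_image_le (f := kap ∘ c))
      obtain ⟨i, -, rfl⟩ := mem_image.1 (mem_inter.1 hC).2
      exact mem_image_of_mem _ (mem_filter.2 ⟨mem_univ _,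
        mem_filter.2 ⟨mem_univ _, (mem_inter.1 hC).1⟩⟩)
    · have h3 : (#{ω : Om n | kap ω ∈ T r} : ℝ) ≤ 27 * (T r).card := by
        exact_mod_cast card_fib (T r)
      have h4 : (1000 * m * (T r).card : ℝ) ≤ 8 * n ^ 3 * w := by exact_mod_cast hT r hr
      rw [card_univ, Fintype.card_fin, card_Om, ← mul_div_assoc, div_le_iff₀ (by positivity)]
      push_cast
      have h5 := mul_le_mul_of_nonneg_left h3 (show (0 : ℝ) ≤ m by positivity)
      have h7 : (0 : ℝ) ≤ m * (T r).card := by positivity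
      nlinarith
  · rw [← mul_assoc]
    refine mul_le_mul_of_nonneg_right ?_ (by positivity)
    have h1 : (I.card : ℝ) ≤ 2 ^ w := by exact_mod_cast hI
    refine (mul_le_mul_of_nonneg_right h1 (by positivity)).trans ?_
    rw [Real.exp_nat_mul, ← div_pow, ← mul_pow]
    refine pow_le_pow_left₀ (by positivity) ?_ w
    have h2 : Real.exp (1 / 2) ≤ 2 := by
      have h3 : Real.exp (1 / 2) * Real.exp (1 / 2) = Real.exp 1 := by
        rw [← Real.exp_add]; norm_num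
      nlinarith [Real.exp_one_lt_d9, Real.exp_pos (1 / 2 : ℝ)]
    linarith

theorem count_C {K M κ₀ : ℕ} (hn : 0 < n) (hw : 10 ^ 13 * w ≤ n) (hm : m ≤ n ^ 3)
    (htm : 5000 * n ≤ m) {ψ : Finset (Finset (Cls n) × Finset (Cls n))}
    (hK : ∀ r ∈ ψ, #{ω : Om n | kap ω ∈ r.2} ≤ K) (hM : 1 ≤ M)
    (hq : 2 * m * K * 2 ^ (5 * M) ≤ Fintype.card (Om n)) (hκ : m + 2 ≤ 2 ^ (5 * M * κ₀))
    (ρ : Equiv.Perm (Fin m)) :
    cnt (fun c : Fin m → Om n => ∃ p ∈ range (m - 5000 * n + 1) ×ˢ range (m + 1),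
      BadC ψ kap ρ M κ₀ p.1 p.2 c) ≤ (1 / 4) ^ w * Fintype.card (Om n) ^ m := by
  refine (union_le _ _ (b := (1 / 2) ^ (5000 * n) * Fintype.card (Om n) ^ m)
    fun p hp => ?_).trans ?_
  · refine (count_badC hK hM (Om_pos hn) hq hκ p.1 p.2).trans
      (mul_le_mul_of_nonneg_right (pow_le_pow_of_le_one (by norm_num) (by norm_num) ?_)
        (by positivity))
    have := mem_range.1 (mem_product.1 hp).1
    omega
  · rw [← mul_assoc]
    refine mul_le_mul_of_nonneg_right ?_ (by positivity)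
    have h1 : m + 1 ≤ 2 ^ (3 * n) := by
      rw [mul_comm, pow_mul]
      exact (Nat.lt_succ_of_le hm).trans_le (Nat.pow_lt_pow_left Nat.lt_two_pow_self (by norm_num))
    have h2 : (range (m - 5000 * n + 1) ×ˢ range (m + 1)).card * 2 ^ (2 * w) ≤ 2 ^ (5000 * n) := by
      rw [card_product, card_range, card_range]
      calc (m - 5000 * n + 1) * (m + 1) * 2 ^ (2 * w) ≤ 2 ^ (3 * n) * 2 ^ (3 * n) * 2 ^ (2 * w) := by
            gcongr
            omega
        _ ≤ 2 ^ (5000 * n) := by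
            rw [← pow_add, ← pow_add]
            exact Nat.pow_le_pow_right (by norm_num) (by omega)
    have h3 : (1 / 4 : ℝ) ^ w = (2 ^ (2 * w))⁻¹ := by rw [pow_mul, ← inv_pow]; norm_num
    rw [h3, one_div, inv_pow, ← div_eq_mul_inv, ← one_div, div_le_div_iff₀ (by positivity)
      (by positivity), one_mul]
    exact_mod_cast h2

theorem exp_neg_le (a : ℕ) : Real.exp (-(a : ℝ)) ≤ 1 / 2 ^ a := by
  rw [Real.exp_neg, one_div]
  exact inv_anti₀ (by positivity) (two_pow_le_exp a)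

theorem finite {n w L M κ₀ k : ℕ} (hw0 : 31 ≤ w) (hw : 10 ^ 13 * (2 * w) ≤ n) (hκ0 : 1 ≤ κ₀)
    (hL : 10 ^ 9 * κ₀ ≤ L) (hM : 10 ^ 6 * (L + 20) ≤ M) (hk : 1 ≤ k)
    (hq : k * 2 ^ (L + 5 * M + 16) ≤ n ^ 2) (hκ : 5000 * n * 2 ^ L + 2 ≤ 2 ^ (5 * M * κ₀))
    (𝓕 : Finset (Finset (Finset (Cls n) × Finset (Cls n)))) (h1 : 𝓕.card ≤ 2 ^ w)
    (h2 : ∀ ψ ∈ 𝓕, ∃ 𝓖 : Finset (Finset (Cls n) × Finset (Cls n)), 𝓖.card ≤ 2 ^ w ∧
      (∀ g ∈ 𝓖, g.2.card ≤ k) ∧ ∀ r ∈ ψ, ∃ g ∈ 𝓖, g.1 ⊆ r.1 ∧ r.1 ⊆ g.1 ∪ g.2)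
    (h3 : ∀ ψ ∈ 𝓕, ∀ r ∈ ψ, r.2.card ≤ k)
    (H : ∀ x : Cls n → Bool,
      (∃ ψ ∈ 𝓕, ∀ r ∈ ψ, (∃ C ∈ r.1, x C = false) ∨ ∃ C ∈ r.2, x C = true) ↔
        ∃ a : Fin n → Bool, ∀ C, x C = true → ∃ l ∈ C.1, a l.1 = l.2) : False := by
  classical
  have hn : 0 < n := by omega
  have hn' : (0 : ℝ) < n := by exact_mod_cast hn
  obtain ⟨m, hm⟩ : ∃ m, m = 5000 * n * 2 ^ L := ⟨_, rfl⟩
  have htm : 5000 * n ≤ m := hm ▸ Nat.le_mul_of_pos_right _ (by positivity)
  have hq' : 2 * m * (27 * k) * 2 ^ (5 * M) ≤ 8 * n ^ 3 := by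
    calc 2 * m * (27 * k) * 2 ^ (5 * M) = 270000 * n * (k * (2 ^ L * 2 ^ (5 * M))) := by
          rw [hm]; ring
      _ ≤ 8 * 2 ^ 16 * n * (k * (2 ^ L * 2 ^ (5 * M))) := by gcongr; norm_num
      _ = 8 * n * (k * 2 ^ (L + 5 * M + 16)) := by rw [pow_add, pow_add]; ring
      _ ≤ 8 * n * n ^ 2 := Nat.mul_le_mul_left _ hq
      _ = 8 * n ^ 3 := by ring
  have hmk : 1000 * m * k ≤ 8 * n ^ 3 := by
    refine le_trans ?_ hq'
    have : 2 ^ 5 ≤ 2 ^ (5 * M) := Nat.pow_le_pow_right (by norm_num) (by omega)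
    calc 1000 * m * k ≤ 1728 * m * k := by gcongr; norm_num
      _ = 2 * m * (27 * k) * 2 ^ 5 := by ring
      _ ≤ 2 * m * (27 * k) * 2 ^ (5 * M) := by gcongr
  have hm3 : 1000 * m ≤ 8 * n ^ 3 := (Nat.le_mul_of_pos_right _ hk).trans hmk
  set N : ℝ := (Fintype.card (Om n) : ℝ) ^ m with hN
  have hN0 : 0 < N := by have := Om_pos hn; positivity
  have key : ∀ (c : Fin m → Om n) (T : Finset (Fin m)),
      (∃ ψ ∈ 𝓕, Sol ψ (kap ∘ c) T T) ↔ ∃ y, ∀ i ∈ T, sat y (c i) := by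
    intro c T
    have h4 := H fun C => decide (C ∈ T.image (kap ∘ c))
    simp only [decide_eq_false_iff_not, decide_eq_true_eq] at h4
    refine Iff.trans ?_ (h4.trans ?_)
    · refine exists_congr fun ψ => and_congr_right fun _ => forall₂_congr fun r _ => ?_
      rw [union_self]
      constructor
      · intro h5
        by_cases h6 : r.1 ⊆ T.image (kap ∘ c)
        · by_cases h7 : Disjoint r.1 r.2
          · obtain ⟨i, h8, h9⟩ := h5 h7 h6
            exact Or.inr ⟨_, h9, mem_image_of_mem _ h8⟩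
          · obtain ⟨C, h8, h9⟩ := not_disjoint_iff.1 h7
            exact Or.inr ⟨C, h9, h6 h8⟩
        · exact Or.inl (not_subset.1 h6)
      · rintro (⟨C, h5, h6⟩ | ⟨C, h5, h6⟩) _ h7
        · exact absurd (h7 h5) h6
        · obtain ⟨i, h8, rfl⟩ := mem_image.1 h6
          exact ⟨i, h8, h5⟩
    · constructor
      · rintro ⟨a, ha⟩
        refine ⟨univ.filter fun v => a v = true, fun i hi => ?_⟩
        obtain ⟨l, h5, h6⟩ := ha _ (mem_image_of_mem _ hi)
        obtain ⟨r, -, rfl⟩ := mem_image.1 h5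
        exact ⟨r, by simp [h6]⟩
      · rintro ⟨y, hy⟩
        refine ⟨fun v => decide (v ∈ y), fun C hC => ?_⟩
        obtain ⟨i, hi, rfl⟩ := mem_image.1 hC
        obtain ⟨r, hr⟩ := hy i hi
        exact ⟨c i r, mem_image_of_mem _ (mem_univ r), hr⟩
  let A : Finset (Finset (Cls n) × Finset (Cls n)) → Finset ((Fin m → Om n) × Finset (Fin n)) :=
    fun ψ => univ.filter fun a => Sol ψ (kap ∘ a.1) (tau a.1 a.2) (tau a.1 a.2)
  obtain ⟨ψ, hψ, hA⟩ : ∃ ψ ∈ 𝓕, N * 2 ^ n ≤ 2 ^ w * (A ψ).card := by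
    have h4 : (univ : Finset ((Fin m → Om n) × Finset (Fin n))) ⊆ 𝓕.biUnion A := by
      intro a _
      obtain ⟨ψ, h5, h6⟩ := (key a.1 (tau a.1 a.2)).2 ⟨a.2, fun i hi => (mem_filter.1 hi).2⟩
      exact mem_biUnion.2 ⟨ψ, h5, mem_filter.2 ⟨mem_univ _, h6⟩⟩
    obtain ⟨ψ₀, h5, -⟩ := (key (fun _ _ => (⟨0, hn⟩, true)) ∅).2 ⟨∅, by simp⟩
    obtain ⟨ψ, h6, h7⟩ := exists_max_image 𝓕 (fun ψ => (A ψ).card) ⟨ψ₀, h5⟩
    refine ⟨ψ, h6, ?_⟩
    have h8 := (card_le_card h4).trans (card_biUnion_le.trans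
      ((sum_le_card_nsmul _ _ _ h7).trans (Nat.mul_le_mul_right _ h1)))
    rw [card_univ, Fintype.card_prod, Fintype.card_fun, Fintype.card_finset, Fintype.card_fin,
      Fintype.card_fin] at h8
    rw [hN]
    exact_mod_cast h8
  obtain ⟨𝓖, g1, g2, g3⟩ := h2 ψ hψ
  have hsub : ∀ g : Finset (Cls n) × Finset (Cls n), ∃ T ⊆ g.1, T.card = min w g.1.card :=
    fun g => exists_subset_card_eq (min_le_right _ _)
  choose T hT1 hT2 using hsub
  let Bad : Equiv.Perm (Fin m) → (Fin m → Om n) → Prop := fun ρ c =>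
    (∃ p ∈ (univ : Finset (Finset (Fin n) × Finset (Fin n))),
      n ≤ 4 * p.1.card ∧ #{i ∈ vis ρ (m - 5000 * n) | c i ∈ AU p.1 p.2} ≤ 2 * (2 * w)) ∨
    (∃ V ∈ (univ.filter fun V : Finset (Fin n) => V.card ≤ 3 * (2 * w)),
      2 * (2 * w) ≤ #{i ∈ vis ρ (m - 5000 * n) | c i ∈ AX V}) ∨
    (∃ g ∈ 𝓖, w ≤ (T g ∩ univ.image (kap ∘ c)).card) ∨
    (∃ g ∈ 𝓖, w ≤ (g.2 ∩ univ.image (kap ∘ c)).card) ∨
    ∃ p ∈ range (m - 5000 * n + 1) ×ˢ range (m + 1), BadC ψ kap ρ M κ₀ p.1 p.2 c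
  have hBad : ∀ ρ, cnt (Bad ρ) ≤ 5 * (1 / 4) ^ w * N := by
    intro ρ
    have hS : (vis ρ (m - 5000 * n)).card = 5000 * n := by rw [card_vis, Nat.sub_sub_self htm]
    have a0 : (1 / 4 : ℝ) ^ (2 * w) * N ≤ (1 / 4) ^ w * N := mul_le_mul_of_nonneg_right
      (pow_le_pow_of_le_one (by norm_num) (by norm_num) (by omega)) hN0.le
    have a1 := (count_U hn hw _ hS).trans a0
    have a2 := (count_X (by omega) hw _ hS).trans a0
    have a3 := count_T (m := m) hn 𝓖 g1 T fun g _ =>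
      Nat.mul_le_mul hm3 ((hT2 g).le.trans (min_le_left _ _))
    have a5 := count_T (m := m) hn 𝓖 g1 Prod.snd fun g hg =>
      ((Nat.mul_le_mul_left _ (g2 g hg)).trans hmk).trans (Nat.le_mul_of_pos_right _ (by omega))
    have a4 := count_C (w := w) hn (by omega) (by omega) htm
      (fun r hr => (card_fib r.2).trans (Nat.mul_le_mul_left 27 (h3 ψ hψ r hr))) (by omega)
      (by rw [card_Om]; exact hq') (hm ▸ hκ) ρ
    refine ((cnt_or _ _).trans (add_le_add a1 ((cnt_or _ _).trans (add_le_add a2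
      ((cnt_or _ _).trans (add_le_add a3 ((cnt_or _ _).trans (add_le_add a5 a4)))))))).trans
      (le_of_eq ?_)
    rw [hN]
    ring
  have hM0 : (0 : ℝ) < M := by exact_mod_cast (show 0 < M by omega)
  have hmain := core (ψ := ψ) (κ := kap) tau (A ψ) (fun a ha => (mem_filter.1 ha).2)
    (L := L) (t := 5000 * n) (M := M) (κ₀ := κ₀) hm (by omega) (by omega) (by omega) Bad
    (fun ρ c j₁ j₂ a1 a2 a3 => Or.inr (Or.inr (Or.inr (Or.inr ⟨(j₁, j₂), mem_product.2
      ⟨mem_range.2 (by omega), mem_range.2 (by omega)⟩, a3⟩))))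
    (β := 1 / 10 ^ 7) (s := 5 * (1 / 2) ^ w) (Γ := Real.exp (n / 40))
    (B := Real.exp (n * (1 / 4)) / (1 / 4) ^ (n / 4)) (by norm_num) (by norm_num) (by positivity)
    (fun ρ => by
      rw [Fintype.card_finset, Fintype.card_fin]
      push_cast
      refine (mul_le_mul_of_nonneg_right (hBad ρ) (show (0 : ℝ) ≤ 2 ^ n by positivity)).trans ?_
      have h4 : (1 / 2 : ℝ) ^ w = (1 / 4) ^ w * 2 ^ w := by rw [← mul_pow]; norm_num
      have h5 := mul_le_mul_of_nonneg_left hA (show (0 : ℝ) ≤ 5 * (1 / 4) ^ w by positivity)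
      rw [h4]
      linarith)
    (by
      have a1 : (1 / 2 : ℝ) ^ w ≤ (1 / 2) ^ 31 :=
        pow_le_pow_of_le_one (by norm_num) (by norm_num) hw0
      have a2 : (4 : ℝ) / M ≤ 4 / 10 ^ 9 := by
        gcongr
        exact_mod_cast (show 10 ^ 9 ≤ M by omega)
      have a3 : 2 * (2 * (κ₀ : ℝ) + 1) / L ≤ 6 / 10 ^ 9 := by
        have b1 : (10 : ℝ) ^ 9 * κ₀ ≤ L := by exact_mod_cast hL
        have b2 : (1 : ℝ) ≤ κ₀ := by exact_mod_cast hκ0
        rw [div_le_div_iff₀ (by linarith) (by positivity)]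
        linarith
      have a4 : (1 / 2 : ℝ) ^ 31 ≤ 1 / 10 ^ 9 := by norm_num
      linarith)
    (fun S hS => by
      refine (card_ZS S _ _ (l := (20 : ℕ)) (l' := (L + 20 : ℕ)) (by positivity)
        (by positivity)).trans (Real.exp_le_exp.2 ?_)
      have a1 := mul_le_mul_of_nonneg_left (exp_neg_le 20) (show (0 : ℝ) ≤ S.card by positivity)
      have a2 := mul_le_mul_of_nonneg_left (exp_neg_le (L + 20)) (show (0 : ℝ) ≤ m by positivity)
      have a3 : (m : ℝ) * (1 / 2 ^ (L + 20)) = 5000 * n / 2 ^ 20 := by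
        rw [hm, pow_add]
        push_cast
        field_simp
      have a4 : ((L + 20 : ℕ) : ℝ) * ((5000 * n : ℕ) / M) ≤ n / 200 := by
        rw [← mul_div_assoc, div_le_div_iff₀ hM0 (by norm_num)]
        have : 10 ^ 6 * ((L + 20 : ℕ) : ℝ) ≤ M := by exact_mod_cast hM
        have := mul_le_mul_of_nonneg_left this hn'.le
        push_cast at this ⊢
        linarith
      rw [a3] at a2
      rw [hS] at a1 ⊢
      push_cast at a1 a2 a4 ⊢
      linarith)
    (fun ρ c Z hb => by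
      simp only [Bad, not_or] at hb
      obtain ⟨b1, b2, b3, b4, -⟩ := hb
      push Not at b1 b2 b3 b4
      have b5 : ∀ r ∈ ψ, r.1 ⊆ univ.image (kap ∘ c) → r.1.card ≤ 2 * w := by
        intro r hr hs
        obtain ⟨g, c1, c2, c3⟩ := g3 r hr
        have c4 := b3 g c1
        rw [inter_eq_left.2 ((hT1 g).trans (c2.trans hs)), hT2] at c4
        have c5 := b4 g c1
        have c6 : r.1 ⊆ g.1 ∪ g.2 ∩ univ.image (kap ∘ c) := fun C hC =>
          (mem_union.1 (c3 hC)).elim (mem_union_left _)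
            fun h => mem_union_right _ (mem_inter.2 ⟨h, hs hC⟩)
        have c7 := (card_le_card c6).trans (card_union_le _ _)
        omega
      refine le_trans (Nat.cast_le.2 (few_sol c _ Z (fun V y => b1 (V, y) (mem_univ _))
        (fun V hV => b2 V (mem_filter.2 ⟨mem_univ _, hV⟩)) b5
        (fun T hT => (key c T).1 ⟨ψ, hψ, hT⟩) _ fun y hy => (mem_filter.1 hy).2))
        (small_sets n (n / 4) (by norm_num) (by norm_num)))
  have h5 := hA.trans (mul_le_mul_of_nonneg_left hmain (by positivity))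
  have h6 : (2 : ℝ) ^ n ≤ 2 ^ (w + 1 + 2 * (n / 4)) * Real.exp (n / 40 + n * (1 / 4)) := by
    refine le_of_mul_le_mul_left (h5.trans (le_of_eq ?_)) hN0
    rw [Real.exp_add, pow_add, pow_add, pow_mul, ← hN, one_div (4 : ℝ), inv_pow]
    norm_num
    ring
  rw [← Real.exp_log (show (0 : ℝ) < 2 by norm_num), ← Real.exp_nat_mul, ← Real.exp_nat_mul,
    ← Real.exp_add, Real.exp_le_exp] at h6
  have h7 : 100 * ((w + 1 + 2 * (n / 4) : ℕ) : ℝ) ≤ 51 * n := by
    exact_mod_cast (show 100 * (w + 1 + 2 * (n / 4)) ≤ 51 * n by omega)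
  nlinarith [Real.log_two_gt_d9]

/-- Gates that are an OR of negated inputs and of a function of few inputs. -/
theorem finite_junta {n w L M κ₀ k : ℕ} (hw0 : 31 ≤ w) (hw : 10 ^ 13 * (2 * w) ≤ n)
    (hκ0 : 1 ≤ κ₀) (hL : 10 ^ 9 * κ₀ ≤ L) (hM : 10 ^ 6 * (L + 20) ≤ M) (hk : 1 ≤ k)
    (hq : k * 2 ^ (L + 5 * M + 16) ≤ n ^ 2) (hκ : 5000 * n * 2 ^ L + 2 ≤ 2 ^ (5 * M * κ₀))
    {s t : ℕ} (hs : s ≤ 2 ^ w) (ht : t ≤ 2 ^ w) (N P : Fin s → Fin t → Finset (Cls n))
    (h : Fin s → Fin t → (Cls n → Bool) → Bool) (hP : ∀ i j, (P i j).card ≤ k)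
    (hh : ∀ i j x x', (∀ c ∈ P i j, x c = x' c) → h i j x = h i j x')
    (H : ∀ x : Cls n → Bool, (∃ i, ∀ j, (∃ c ∈ N i j, x c = false) ∨ h i j x = true) ↔
      ∃ a : Fin n → Bool, ∀ C, x C = true → ∃ l ∈ C.1, a l.1 = l.2) : False := by
  classical
  let ψ : Fin s → Finset (Finset (Cls n) × Finset (Cls n)) := fun i => univ.biUnion fun j =>
    ((P i j).powerset.filter fun A => h i j (fun c => decide (c ∈ A)) = false).image
      fun A => (N i j ∪ A, P i j \ A)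
  have hψ : ∀ i r, r ∈ ψ i ↔ ∃ j A, A ⊆ P i j ∧ h i j (fun c => decide (c ∈ A)) = false ∧
      (N i j ∪ A, P i j \ A) = r := by
    intro i r
    simp only [ψ, mem_biUnion, mem_univ, true_and, mem_image, mem_filter, mem_powerset, and_assoc]
  refine finite hw0 hw hκ0 hL hM hk hq hκ (univ.image ψ)
    (card_image_le.trans (by simpa using hs)) (fun φ hφ => ?_) (fun φ hφ r hr => ?_)
    fun x => Iff.trans ?_ (H x)
  · obtain ⟨i, -, rfl⟩ := mem_image.1 hφ
    refine ⟨univ.image fun j => (N i j, P i j), card_image_le.trans (by simpa using ht),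
      fun g hg => ?_, fun r hr => ?_⟩
    · obtain ⟨j, -, rfl⟩ := mem_image.1 hg
      exact hP i j
    · obtain ⟨j, A, a1, -, rfl⟩ := (hψ i r).1 hr
      exact ⟨_, mem_image_of_mem _ (mem_univ j), subset_union_left,
        union_subset_union Subset.rfl a1⟩
  · obtain ⟨i, -, rfl⟩ := mem_image.1 hφ
    obtain ⟨j, A, -, -, rfl⟩ := (hψ i r).1 hr
    exact (card_le_card sdiff_subset).trans (hP i j)
  · simp only [mem_image, mem_univ, true_and, exists_exists_eq_and]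
    refine exists_congr fun i => ⟨fun a j => ?_, fun a r hr => ?_⟩
    · by_cases b : h i j x = true
      · exact Or.inr b
      have b1 : h i j (fun c => decide (c ∈ (P i j).filter fun c => x c = true)) = false := by
        rw [hh i j _ x fun c hc => by simp [hc]]
        simpa using b
      rcases a _ ((hψ i _).2 ⟨j, _, filter_subset _ _, b1, rfl⟩) with ⟨c, b2, b3⟩ | ⟨c, b2, b3⟩
      · rcases mem_union.1 b2 with b4 | b4
        · exact Or.inl ⟨c, b4, b3⟩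
        · rw [(mem_filter.1 b4).2] at b3
          exact absurd b3 (by simp)
      · exact absurd (mem_filter.2 ⟨(mem_sdiff.1 b2).1, b3⟩) (mem_sdiff.1 b2).2
    · obtain ⟨j, A, a1, a2, rfl⟩ := (hψ i r).1 hr
      rcases a j with ⟨c, b1, b2⟩ | b
      · exact Or.inl ⟨c, mem_union_left _ b1, b2⟩
      by_contra hc
      push Not at hc
      rw [hh i j x (fun c => decide (c ∈ A)) fun c hc' => ?_, a2] at b
      · exact absurd b (by simp)
      by_cases b1 : c ∈ A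
      · simpa [b1] using hc.1 c (mem_union_right _ b1)
      · simpa [b1] using hc.2 c (mem_sdiff.2 ⟨hc', b1⟩)

end Pool.Agent.P.MP_b53add_lc.S3
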