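import Pool.Agent.P.MP_b53add_lc.RealGap

set_option autoImplicit false
set_option linter.unusedSectionVars false

namespace Pool.Agent.P.MP_b53add_lc.Sp

open Finset Classical Mono

variable {α : Type} [DecidableEq α]

/-- the points satisfying a literal -/
def lit (u : α × Bool) : Set (α → Bool) := {y | y u.1 = u.2}

/-- the game with clause moves and moves on large sets of literals -/
def G (w : ℕ) (φ : Finset (Cl α)) : ℕ → Set (α → Bool) → Prop
  | 0, B => B = ∅
  | k + 1, B => B = ∅ ∨ (∃ c ∈ φ, ∀ j, G w φ k (B ∩ lit (c j))) ∨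
      ∃ X : Finset (α × Bool), w < X.card ∧ ∀ u ∈ X, G w φ k (B ∩ lit u)

theorem G_realize : True := by have := @G.eq_def; trivial

variable {w : ℕ} {φ : Finset (Cl α)}

omit [DecidableEq α] in
theorem G_empty (k : ℕ) : G w φ k ∅ := by
  cases k with
  | zero => rfl
  | succ k => exact Or.inl rfl

omit [DecidableEq α] in
theorem G.mono2 {ψ : Finset (Cl α)} (hψ : φ ⊆ ψ) : ∀ {k : ℕ} {B B' : Set (α → Bool)},
    G w φ k B → B' ⊆ B → G w ψ k B'
  | 0, _, _, h, hs => Set.subset_eq_empty hs h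
  | _ + 1, _, _, h, hs => by
    rcases h with h | ⟨c, hc, h⟩ | ⟨X, hX, h⟩
    · exact Or.inl (Set.subset_eq_empty hs h)
    · exact Or.inr (Or.inl ⟨c, hψ hc, fun j =>
        (h j).mono2 hψ (Set.inter_subset_inter_left _ hs)⟩)
    · exact Or.inr (Or.inr ⟨X, hX, fun u hu =>
        (h u hu).mono2 hψ (Set.inter_subset_inter_left _ hs)⟩)

omit [DecidableEq α] in
theorem G.mono {k : ℕ} {B B' : Set (α → Bool)} (h : G w φ k B) (hs : B' ⊆ B) : G w φ k B' :=
  h.mono2 subset_rfl hs

omit [DecidableEq α] in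
theorem G.succ : ∀ {k : ℕ} {B : Set (α → Bool)}, G w φ k B → G w φ (k + 1) B
  | 0, _, h => Or.inl h
  | _ + 1, _, h => by
    rcases h with h | ⟨c, hc, h⟩ | ⟨X, hX, h⟩
    · exact Or.inl h
    · exact Or.inr (Or.inl ⟨c, hc, fun j => (h j).succ⟩)
    · exact Or.inr (Or.inr ⟨X, hX, fun u hu => (h u hu).succ⟩)

omit [DecidableEq α] in
theorem G.le {k k' : ℕ} {B : Set (α → Bool)} (h : G w φ k B) (hk : k ≤ k') : G w φ k' B := by
  induction hk with
  | refl => exact h
  | step _ ih => exact ih.succ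

omit [DecidableEq α] in
theorem G.union {b : ℕ} : ∀ {a : ℕ} {X Y : Set (α → Bool)}, G w φ a X →
    G w φ b Y → G w φ (a + b) (X ∪ Y)
  | 0, X, Y, h, h' => by
    have : X = ∅ := h
    simpa [this] using h'
  | a + 1, X, Y, h, h' => by
    rcases h with h | ⟨c, hc, h⟩ | ⟨D, hD, h⟩
    · rw [h, Set.empty_union]; exact h'.le (by omega)
    · rw [show a + 1 + b = (a + b) + 1 by omega]
      refine Or.inr (Or.inl ⟨c, hc, fun j => ?_⟩)
      rw [Set.union_inter_distrib_right]
      exact (h j).union (h'.mono Set.inter_subset_left)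
    · rw [show a + 1 + b = (a + b) + 1 by omega]
      refine Or.inr (Or.inr ⟨D, hD, fun u hu => ?_⟩)
      rw [Set.union_inter_distrib_right]
      exact (h u hu).union (h'.mono Set.inter_subset_left)

omit [DecidableEq α] in
theorem G_fals {c : Cl α} (hc : c ∈ φ) : G w φ 1 {y | ¬ Sat y c} := by
  refine Or.inr (Or.inl ⟨c, hc, fun j => ?_⟩)
  change _ = ∅
  ext y
  simp only [lit, Set.mem_inter_iff, Set.mem_ofPred_eq, Set.mem_empty_iff_false, iff_false, not_and]
  exact fun h h' => h ⟨j, h'⟩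

/-- a literal that kills an alive set has its variable in a small set -/
theorem kill_lit {r : ℕ} {p : Finset (Cl α)} (hp : Exp r p) (W : Finset (α × Bool))
    (hW : 2 * W.card < r) (h : Al r p W) :
    ∃ U : Finset α, U.card ≤ 3 * W.card ∧ ∀ l, ¬ Al r p (insert l W) → l.1 ∈ U := by
  obtain ⟨S, U, hSp, hSr, hU, hWU, hSU, hext⟩ := closure hp W hW
  refine ⟨U, hU, fun l hl => ?_⟩
  by_contra hz
  apply hl
  obtain ⟨y0, hy0, hs⟩ := h S hSp hSr.le
  intro K hK hKr
  have hne : ∀ v ∈ U, Function.update y0 l.1 l.2 v = y0 v := fun v hv =>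
    Function.update_of_ne (fun e : v = l.1 => hz (e ▸ hv)) _ _
  obtain ⟨y, hy, hK'⟩ := hext (Function.update y0 l.1 l.2) l.1
    (fun d hd => (hs d hd).congr fun v hv => hne v (hSU d hd hv)) K hK hKr
  refine ⟨y, fun u hu => ?_, hK'⟩
  rcases mem_insert.1 hu with rfl | hu
  · exact (hy _ (mem_insert_self _ _)).trans (Function.update_self _ _ _)
  · exact (hy _ (mem_insert_of_mem (hWU u hu))).trans ((hne _ (hWU u hu)).trans (hy0 u hu))

theorem card_lits {X : Finset (α × Bool)} {U : Finset α} (h : ∀ l ∈ X, l.1 ∈ U) :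
    X.card ≤ 2 * U.card := by
  have h1 : X ⊆ U ×ˢ univ := fun l hl => mem_product.2 ⟨h l hl, mem_univ _⟩
  have h2 := card_le_card h1
  rw [card_product, card_univ, Fintype.card_bool] at h2
  omega

theorem not_G_of_al {r : ℕ} (hφ : Exp r φ) : ∀ (k : ℕ)
    (W : Finset (α × Bool)) (B : Set (α → Bool)), 2 * (W.card + k) < r →
    6 * (W.card + k) ≤ w → Al r φ W → (∀ y, Ag y W → y ∈ B) → ¬ G w φ k B := by
  intro k
  have hne : ∀ (W : Finset (α × Bool)) (B : Set (α → Bool)), Al r φ W →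
      (∀ y, Ag y W → y ∈ B) → B ≠ ∅ := by
    intro W B h hB
    obtain ⟨y, hy, -⟩ := h ∅ (empty_subset _) (by simp)
    exact Set.Nonempty.ne_empty ⟨y, hB y hy⟩
  induction k with
  | zero => exact fun W B _ _ h hB => hne W B h hB
  | succ k ih =>
    intro W B hW hw h hB hG
    have key : ∀ u, Al r φ (insert u W) → ¬ G w φ k (B ∩ lit u) := by
      intro u hu
      have := card_insert_le u W
      exact ih (insert u W) _ (by omega) (by omega) hu
        (fun y hy => ⟨hB y fun l hl => hy l (mem_insert_of_mem hl), hy _ (mem_insert_self _ _)⟩)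
    rcases hG with h0 | ⟨c, hc, hq⟩ | ⟨X, hX, hq⟩
    · exact hne W B h hB h0
    · obtain ⟨j, hj⟩ := h.step hφ (by omega) hc
      exact key _ hj (hq j)
    · obtain ⟨U, hU, hk⟩ := kill_lit hφ W (by omega) h
      have := card_lits (X := X) (U := U) fun l hl => hk l fun hal => key l hal (hq l hl)
      omega

end Pool.Agent.P.MP_b53add_lc.Sp
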