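import Pool.Agent.P.MP_b53add_lc.SpGame

set_option autoImplicit false
set_option linter.unusedSectionVars false

namespace Pool.Agent.P.MP_b53add_lc.Sp

open Finset Classical Mono

variable {α : Type} [DecidableEq α] [Fintype α]

/-- a subcube -/
def cyl (R : Finset (α × Bool)) : Set (α → Bool) := {y | Ag y R}

theorem cyl_insert (B : Set (α → Bool)) (R : Finset (α × Bool)) (u : α × Bool) :
    B ∩ cyl R ∩ lit u = B ∩ cyl (insert u R) := by
  ext y
  simp only [cyl, lit, Ag, Set.mem_inter_iff, Set.mem_ofPred_eq, mem_insert, forall_eq_or_imp]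
  tauto

theorem cyl_anti {R R' : Finset (α × Bool)} (h : R ⊆ R') : cyl R' ⊆ cyl R :=
  fun _ hy l hl => hy l (h hl)

/-- a chain of sets with its cores -/
structure Fam (T : ℕ) (core : ℝ → Finset (α × Bool) → Prop) (B : ℝ → Set (α → Bool)) : Prop where
  card : ∀ s Z, core s Z → Z.card ≤ 9 * T
  cm : ∀ s s' Z, s ≤ s' → core s Z → core s' Z
  bm : ∀ s s', s ≤ s' → B s ⊆ B s'
  base : ∀ s τ, τ.card ≤ T → (∃ y ∈ B s, Ag y τ) → ∃ Z, core s Z ∧ ∃ y, Ag y (Z ∪ τ)

/-- dead and still hard -/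
def E (T : ℕ) (core : ℝ → Finset (α × Bool) → Prop) (B : ℝ → Set (α → Bool)) (j : ℕ)
    (p : Finset (Cl α)) (R : Finset (α × Bool)) : Prop :=
  Exp (23 * T) p ∧ R.card + j ≤ T ∧
    ∃ s, Mono.Inv (23 * T) (core s) p R ∧ ¬ G (66 * T) p j (B s ∩ cyl R)

/-- the valuable literals -/
noncomputable def Yv (T : ℕ) (B : ℝ → Set (α → Bool)) (j : ℕ) (p : Finset (Cl α))
    (R : Finset (α × Bool)) : Finset (α × Bool) :=
  univ.filter fun u => ∃ s, ¬ G (66 * T) p (j + 1) (B s ∩ cyl R) ∧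
    G (66 * T) p j (B s ∩ cyl (insert u R))

variable {T : ℕ} {core : ℝ → Finset (α × Bool) → Prop} {B : ℝ → Set (α → Bool)}

theorem E.pred {j : ℕ} {p : Finset (Cl α)} {R : Finset (α × Bool)} (h : E T core B (j + 1) p R) :
    E T core B j p R := by
  obtain ⟨h1, h2, s, h3, h4⟩ := h
  exact ⟨h1, by omega, s, h3, fun h => h4 h.succ⟩

theorem not_E_empty (hF : Fam T core B) (j : ℕ) (R : Finset (α × Bool)) :
    ¬ E T core B j ∅ R := by
  rintro ⟨-, h2, s, h3, h4⟩
  apply h4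
  have : B s ∩ cyl R = ∅ := by
    by_contra hne
    obtain ⟨y, hy1, hy2⟩ := Set.nonempty_iff_ne_empty.2 hne
    obtain ⟨Z, hZ, y', hy'⟩ := hF.base s R (by omega) ⟨y, hy1, hy2⟩
    refine h3 Z hZ fun K hK _ => ⟨y', hy', fun c hc => ?_⟩
    simpa using hK hc
  rw [this]
  exact G_empty j

theorem Yv_card (hF : Fam T core B) (j : ℕ) (p : Finset (Cl α)) (R : Finset (α × Bool)) :
    (Yv T B j p R).card ≤ 66 * T := by
  by_contra hc
  push Not at hc
  have h1 : ∀ u : Yv T B j p R, ∃ s, ¬ G (66 * T) p (j + 1) (B s ∩ cyl R) ∧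
      G (66 * T) p j (B s ∩ cyl (insert u.1 R)) := fun u => (mem_filter.1 u.2).2
  choose f hf hf' using h1
  obtain ⟨u0, hu0⟩ := card_pos.1 (show 0 < (Yv T B j p R).card by omega)
  obtain ⟨u1, -, hu1⟩ := exists_min_image univ f ⟨⟨u0, hu0⟩, mem_univ _⟩
  refine hf u1 (Or.inr (Or.inr ⟨_, hc, fun u hu => ?_⟩))
  rw [cyl_insert]
  exact (hf' ⟨u, hu⟩).mono (Set.inter_subset_inter_left _ (hF.bm _ _ (hu1 _ (mem_univ _))))

theorem exists_U (hF : Fam T core B) (hT : 1 ≤ T) (p : Finset (Cl α)) {R : Finset (α × Bool)}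
    (hR : R.card ≤ T) : ∃ U : Finset α, U.card ≤ 30 * T ∧ ∀ l s, Exp (23 * T) p →
      ¬ Mono.Inv (23 * T) (core s) p R → Mono.Inv (23 * T) (core s) p (insert l R) → l.1 ∈ U := by
  by_cases hp : Exp (23 * T) p ∧ ∃ s, ¬ Mono.Inv (23 * T) (core s) p R
  swap
  · exact ⟨∅, by simp, fun l s h1 h2 _ => absurd ⟨h1, s, h2⟩ hp⟩
  obtain ⟨s0, h1, h2⟩ := RealC.chain_inf core hF.cm
    (fun s => ¬ Mono.Inv (23 * T) (core s) p R) hp.2
  unfold Mono.Inv at h1
  push Not at h1
  obtain ⟨Z, hZ, hal⟩ := h1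
  have hc : (Z ∪ R).card ≤ 10 * T :=
    (card_union_le _ _).trans (by have := hF.card _ Z hZ; omega)
  obtain ⟨U, hU, hkill⟩ := kill_lit hp.1 (Z ∪ R) (by omega) hal
  refine ⟨U, by omega, fun l s _ h3 h4 => hkill l ?_⟩
  rw [← union_insert]
  exact h4 Z (h2 s Z h3 hZ)

theorem trich {p : Finset (Cl α)} {R : Finset (α × Bool)} {U : Finset α}
    (hU : ∀ l s, Exp (23 * T) p → ¬ Mono.Inv (23 * T) (core s) p R →
      Mono.Inv (23 * T) (core s) p (insert l R) → l.1 ∈ U) {j : ℕ} {c : Cl α}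
    (h : E T core B (j + 2) (insert c p) R) : E T core B (j + 2) p R ∨
      ((∀ i, (c i).1 ∈ U) ∧ ∃ i i', i ≠ i' ∧ (c i ∉ R ∧ E T core B j p (insert (c i) R)) ∧
        (c i' ∉ R ∧ E T core B j p (insert (c i') R))) ∨
      ∃ i, (c i ∉ R ∧ E T core B (j + 1) p (insert (c i) R)) ∧
        ∀ i', c i' ∈ insert (c i) R ∪ Yv T B j p (insert (c i) R) := by
  obtain ⟨h1, h2, s, h3, h4⟩ := h
  have hp : Exp (23 * T) p := h1.mono (subset_insert _ _)
  by_cases hd : Mono.Inv (23 * T) (core s) p R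
  · exact Or.inl ⟨hp, h2, s, hd, fun h => h4 (h.mono2 (subset_insert _ _) subset_rfl)⟩
  right
  have hn : ∀ i, c i ∉ R := fun i hi => hd (by
    have := h3.step i
    rwa [insert_eq_of_mem hi] at this)
  have hc : ∀ i, (insert (c i) R).card = R.card + 1 := fun i => card_insert_of_notMem (hn i)
  have h5 : ∃ i, ¬ G (66 * T) p (j + 1) (B s ∩ cyl (insert (c i) R)) := by
    by_contra h5
    push Not at h5
    refine h4 (Or.inr (Or.inl ⟨c, mem_insert_self _ _, fun i => ?_⟩))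
    rw [cyl_insert]
    exact (h5 i).mono2 (subset_insert _ _) subset_rfl
  obtain ⟨i, hi⟩ := h5
  have hE : E T core B (j + 1) p (insert (c i) R) := ⟨hp, by rw [hc]; omega, s, h3.step i, hi⟩
  by_cases hb : ∃ i', i ≠ i' ∧ ¬ G (66 * T) p j (B s ∩ cyl (insert (c i') R))
  · obtain ⟨i', h6, h7⟩ := hb
    exact Or.inl ⟨fun k => hU _ s hp hd (h3.step k), i, i', h6, ⟨hn i, hE.pred⟩, hn i', hp,
      by rw [hc]; omega, s, h3.step i', h7⟩
  · push Not at hb
    refine Or.inr ⟨i, ⟨hn i, hE⟩, fun i' => ?_⟩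
    by_cases e : i = i'
    · rw [← e]; exact mem_union_left _ (mem_insert_self _ _)
    · exact mem_union_right _ (mem_filter.2 ⟨mem_univ _, s, hi, (hb i' e).mono
        (Set.inter_subset_inter_right _ (cyl_anti (insert_subset_insert _ (subset_insert _ _))))⟩)

/-- indicator -/
noncomputable def ind (P : Prop) : ℝ := if P then 1 else 0

theorem ind_nonneg (P : Prop) : 0 ≤ ind P := by unfold ind; split_ifs <;> norm_num

theorem ind_mono {P Q : Prop} (h : P → Q) : ind P ≤ ind Q := by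
  unfold ind
  by_cases h1 : P
  · simp [h1, h h1]
  · simp only [h1, if_false]; split_ifs <;> norm_num

theorem cnt_ind {β : Type} [Fintype β] (P : β → Prop) : cnt P = ∑ b, ind (P b) := by
  rw [cnt_eq_sum]; rfl

theorem transfer {β : Type} [Fintype β] [DecidableEq β] (z : ℝ) (g : Finset β → β → ℝ) :
    z * ∑ R : Finset β, z ^ R.card * ∑ l, ind (l ∉ R) * g (insert l R) l =
      ∑ R : Finset β, z ^ R.card * ∑ l ∈ R, g R l := by
  have h1 : ∀ R : Finset β, ∑ l ∈ R, g R l = ∑ l, if l ∈ R then g R l else 0 := by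
    intro R
    rw [← sum_filter, filter_mem_eq_inter, univ_inter]
  simp only [h1, mul_sum]
  rw [sum_comm, sum_comm (f := fun (R : Finset β) l => z ^ R.card * if l ∈ R then g R l else 0)]
  refine sum_congr rfl fun l _ => ?_
  have h2 : ∀ R : Finset β, z * (z ^ R.card * (ind (l ∉ R) * g (insert l R) l)) =
      if l ∉ R then z ^ (R.card + 1) * g (insert l R) l else 0 := by
    intro R
    unfold ind
    split_ifs <;> ring
  simp only [h2, mul_ite, mul_zero]
  rw [← sum_filter, ← sum_filter]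
  refine sum_nbij' (fun R => insert l R) (fun R => R.erase l) ?_ ?_ ?_ ?_ ?_
  · intro R _; simp
  · intro R _; simp
  · intro R hR; exact erase_insert (by simpa using hR)
  · intro R hR; exact insert_erase (by simpa using hR)
  · intro R hR
    rw [card_insert_of_notMem (by simpa using hR)]

/-- sparsity of a pool of clauses -/
structure Pl {Θ : Type} [Fintype Θ] (cl : Θ → Cl α) (T : ℕ) (x e : ℝ) : Prop where
  bal : ∀ (U : Finset α) (S : Finset (α × Bool)), U.card ≤ 30 * T →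
    cnt (fun θ => (∀ i, (cl θ i).1 ∈ U) ∧ ∃ i i', i ≠ i' ∧ cl θ i ∈ S ∧ cl θ i' ∈ S) ≤ x * S.card
  ins : ∀ X : Finset (α × Bool), X.card ≤ 67 * T → cnt (fun θ => ∀ i, cl θ i ∈ X) ≤ e

variable {Θ : Type} [Fintype Θ] {cl : Θ → Cl α} {x e : ℝ}

theorem step_R (hF : Fam T core B) (hT : 1 ≤ T) (hP : Pl cl T x e) (hx : 0 ≤ x) (j : ℕ)
    (p : Finset (Cl α)) (R : Finset (α × Bool)) :
    ∑ θ, ind (E T core B (j + 2) (insert (cl θ) p) R) ≤
      Fintype.card Θ * ind (E T core B (j + 2) p R) +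
      x * ∑ l, ind (l ∉ R) * ind (E T core B j p (insert l R)) +
      ∑ l, ind (l ∉ R) * (ind (E T core B (j + 1) p (insert l R)) *
        cnt fun θ => (∃ i, cl θ i = l) ∧ ∀ i, cl θ i ∈ insert l R ∪ Yv T B j p (insert l R)) := by
  have n1 : (0 : ℝ) ≤ Fintype.card Θ * ind (E T core B (j + 2) p R) :=
    mul_nonneg (Nat.cast_nonneg _) (ind_nonneg _)
  have n2 : 0 ≤ x * ∑ l, ind (l ∉ R) * ind (E T core B j p (insert l R)) :=
    mul_nonneg hx (sum_nonneg fun _ _ => mul_nonneg (ind_nonneg _) (ind_nonneg _))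
  have n3 : 0 ≤ ∑ l, ind (l ∉ R) * (ind (E T core B (j + 1) p (insert l R)) *
        cnt fun θ => (∃ i, cl θ i = l) ∧ ∀ i, cl θ i ∈ insert l R ∪ Yv T B j p (insert l R)) :=
    sum_nonneg fun _ _ => mul_nonneg (ind_nonneg _) (mul_nonneg (ind_nonneg _) (cnt_nonneg _))
  rw [← cnt_ind]
  by_cases hR : R.card ≤ T
  swap
  · refine (cnt_le_card (A := ∅) fun θ h => absurd (by have := h.2.1; omega) hR).trans ?_
    rw [card_empty, Nat.cast_zero]
    linarith
  by_cases h0 : E T core B (j + 2) p R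
  · refine (cnt_le_card (A := univ) fun θ _ => mem_univ _).trans ?_
    rw [card_univ]
    have : ind (E T core B (j + 2) p R) = 1 := if_pos h0
    rw [this] at n1 ⊢
    linarith
  obtain ⟨U, hU, hU'⟩ := exists_U hF hT p hR
  set S : Finset (α × Bool) := univ.filter fun l => l ∉ R ∧ E T core B j p (insert l R) with hS
  have h1 := hP.bal U S hU
  have h2 : (S.card : ℝ) = ∑ l, ind (l ∉ R) * ind (E T core B j p (insert l R)) := by
    rw [hS, card_filter]
    push_cast
    refine sum_congr rfl fun l _ => ?_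
    unfold ind
    by_cases a1 : l ∈ R <;> by_cases a2 : E T core B j p (insert l R) <;> simp [a1, a2]
  have h3 := cnt_exists_sum univ (fun (l : α × Bool) θ =>
      (l ∉ R ∧ E T core B (j + 1) p (insert l R)) ∧
      (∃ i, cl θ i = l) ∧ ∀ i, cl θ i ∈ insert l R ∪ Yv T B j p (insert l R))
    (fun θ => ∃ i, (cl θ i ∉ R ∧ E T core B (j + 1) p (insert (cl θ i) R)) ∧
        ∀ i', cl θ i' ∈ insert (cl θ i) R ∪ Yv T B j p (insert (cl θ i) R))
    (fun θ ⟨i, a1, a2⟩ => ⟨cl θ i, mem_univ _, a1, ⟨i, rfl⟩, a2⟩)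
  have h4 := h3.trans (sum_le_sum (g := fun l => ind (l ∉ R) *
      (ind (E T core B (j + 1) p (insert l R)) *
        cnt fun θ => (∃ i, cl θ i = l) ∧ ∀ i, cl θ i ∈ insert l R ∪ Yv T B j p (insert l R)))
    fun l _ => by
      by_cases a : l ∉ R ∧ E T core B (j + 1) p (insert l R)
      · have b1 : ind (l ∉ R) = 1 := if_pos a.1
        have b2 : ind (E T core B (j + 1) p (insert l R)) = 1 := if_pos a.2
        rw [b1, b2, one_mul, one_mul]
        exact cnt_mono fun θ h => h.2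
      · refine (cnt_le_card (A := ∅) fun θ h => absurd h.1 a).trans ?_
        rw [card_empty, Nat.cast_zero]
        exact mul_nonneg (ind_nonneg _) (mul_nonneg (ind_nonneg _) (cnt_nonneg _)))
  rw [h2] at h1
  refine ((cnt_mono fun θ h => ?_).trans (cnt_or _ _)).trans
    ((add_le_add h1 h4).trans (by linarith))
  rcases trich hU' h with a | ⟨a1, i, i', a2, a3, a4⟩ | a
  · exact absurd a h0
  · exact Or.inl ⟨a1, i, i', a2, mem_filter.2 ⟨mem_univ _, a3⟩, mem_filter.2 ⟨mem_univ _, a4⟩⟩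
  · exact Or.inr a

theorem sum_deg (hF : Fam T core B) (hP : Pl cl T x e) (j : ℕ) (p : Finset (Cl α))
    {R : Finset (α × Bool)} (hR : R.card ≤ T) :
    ∑ l ∈ R, cnt (fun θ => (∃ i, cl θ i = l) ∧ ∀ i, cl θ i ∈ R ∪ Yv T B j p R) ≤ 3 * e := by
  have h1 := hP.ins (R ∪ Yv T B j p R) ((card_union_le _ _).trans (by
    have := Yv_card hF j p R; omega))
  refine le_trans ?_ (mul_le_mul_of_nonneg_left h1 (by norm_num))
  simp only [cnt_ind]
  rw [sum_comm, mul_sum]
  refine sum_le_sum fun θ _ => ?_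
  by_cases h : ∀ i, cl θ i ∈ R ∪ Yv T B j p R
  · have b1 : ind (∀ i, cl θ i ∈ R ∪ Yv T B j p R) = 1 := if_pos h
    rw [b1]
    refine (sum_le_sum_of_subset_of_nonneg (subset_univ R) fun _ _ _ => ind_nonneg _).trans ?_
    rw [← cnt_ind]
    refine (cnt_le_card (A := univ.image (cl θ)) fun l hl => ?_).trans ?_
    · obtain ⟨i, hi⟩ := hl.1
      exact mem_image.2 ⟨i, mem_univ _, hi⟩
    · have : (univ.image (cl θ)).card ≤ 3 := card_image_le.trans (by simp)
      exact_mod_cast this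
  · refine le_trans (le_of_eq (sum_eq_zero fun l _ => if_neg fun a => h a.2))
      (mul_nonneg (by norm_num) (ind_nonneg _))

end Pool.Agent.P.MP_b53add_lc.Sp
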