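import Pool.Agent.P.MP_b53add_lc.SpGap

set_option autoImplicit false
set_option linter.unusedSectionVars false

namespace Pool.Agent.P.MP_b53add_lc.Sp

open Finset Classical Mono

variable {α : Type} [DecidableEq α] [Fintype α]

/-- the level functions, with trivial levels zero and one -/
noncomputable def lv (T : ℕ) (core : ℝ → Finset (α × Bool) → Prop) (B : ℝ → Set (α → Bool))
    (j : ℕ) (p : Finset (Cl α)) (R : Finset (α × Bool)) : ℝ := ind (j ≤ 1 ∨ E T core B j p R)

/-- the generating function -/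
noncomputable def Psi (T : ℕ) (core : ℝ → Finset (α × Bool) → Prop) (B : ℝ → Set (α → Bool))
    (p : Finset (Cl α)) (z : ℝ) : ℝ :=
  ∑ j ∈ range (T + 2), 4 ^ j * ∑ R : Finset (α × Bool), z ^ R.card * lv T core B j p R

variable {T : ℕ} {core : ℝ → Finset (α × Bool) → Prop} {B : ℝ → Set (α → Bool)}
variable {Θ : Type} [Fintype Θ] {cl : Θ → Cl α} {x e : ℝ}

theorem lv_nonneg (j : ℕ) (p : Finset (Cl α)) (R : Finset (α × Bool)) :
    0 ≤ lv T core B j p R := ind_nonneg _

theorem lv_two (j : ℕ) (p : Finset (Cl α)) (R : Finset (α × Bool)) :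
    lv T core B (j + 2) p R = ind (E T core B (j + 2) p R) := by
  unfold lv
  congr 1
  exact propext ⟨fun h => h.resolve_left (by omega), Or.inr⟩

theorem step_j (hF : Fam T core B) (hT : 1 ≤ T) (hP : Pl cl T x e) (hx : 0 ≤ x) (he : 0 ≤ e)
    (j : ℕ) (p : Finset (Cl α)) {z : ℝ} (hz : 0 < z) :
    ∑ θ, ∑ R : Finset (α × Bool), z ^ R.card * lv T core B (j + 2) (insert (cl θ) p) R ≤
      Fintype.card Θ * ∑ R : Finset (α × Bool), z ^ R.card * lv T core B (j + 2) p R +
      x / z * ∑ R : Finset (α × Bool), z ^ R.card * (R.card * lv T core B j p R) +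
      3 * e / z * ∑ R : Finset (α × Bool), z ^ R.card * lv T core B (j + 1) p R := by
  have h1 := transfer z fun (R : Finset (α × Bool)) _ => ind (E T core B j p R)
  have h2 := transfer z fun (R : Finset (α × Bool)) l => ind (E T core B (j + 1) p R) *
    cnt fun θ => (∃ i, cl θ i = l) ∧ ∀ i, cl θ i ∈ R ∪ Yv T B j p R
  have h3 : ∑ R : Finset (α × Bool), z ^ R.card * ∑ _l ∈ R, ind (E T core B j p R) ≤
      ∑ R : Finset (α × Bool), z ^ R.card * (R.card * lv T core B j p R) := by
    refine sum_le_sum fun R _ => mul_le_mul_of_nonneg_left ?_ (by positivity)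
    rw [sum_const, nsmul_eq_mul]
    exact mul_le_mul_of_nonneg_left (ind_mono Or.inr) (Nat.cast_nonneg _)
  have h4 : ∑ R : Finset (α × Bool), z ^ R.card * ∑ l ∈ R, ind (E T core B (j + 1) p R) *
      cnt (fun θ => (∃ i, cl θ i = l) ∧ ∀ i, cl θ i ∈ R ∪ Yv T B j p R) ≤
      3 * e * ∑ R : Finset (α × Bool), z ^ R.card * lv T core B (j + 1) p R := by
    rw [mul_sum]
    refine sum_le_sum fun R _ => ?_
    rw [mul_left_comm, ← mul_sum]
    refine mul_le_mul_of_nonneg_left ?_ (by positivity)
    by_cases h : E T core B (j + 1) p R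
    · rw [mul_comm]
      exact mul_le_mul (sum_deg hF hP j p (by have := h.2.1; omega)) (ind_mono Or.inr)
        (ind_nonneg _) (by positivity)
    · have : ind (E T core B (j + 1) p R) = 0 := if_neg h
      rw [this, zero_mul]
      exact mul_nonneg (by positivity) (lv_nonneg _ _ _)
  rw [← h1] at h3
  rw [← h2] at h4
  have h5 := (le_div_iff₀' hz).2 h3
  have h6 := (le_div_iff₀' hz).2 h4
  have h7 := mul_le_mul_of_nonneg_left h5 hx
  rw [sum_comm]
  simp only [← mul_sum, lv_two]
  refine (sum_le_sum fun R _ => mul_le_mul_of_nonneg_left (step_R hF hT hP hx j p R)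
    (by positivity)).trans ?_
  simp only [mul_add, sum_add_distrib]
  refine add_le_add (add_le_add (le_of_eq ?_) ?_) (h6.trans (le_of_eq (by ring)))
  · rw [mul_sum]
    exact sum_congr rfl fun R _ => by ring
  · refine le_trans (le_of_eq ?_) (h7.trans (le_of_eq (by ring)))
    rw [mul_sum]
    exact sum_congr rfl fun R _ => by ring

theorem level_sum {a b d : ℕ → ℝ} {M u v : ℝ} (hb : ∀ j, 0 ≤ b j) (hv : 0 ≤ v)
    (h0 : a 0 ≤ M * b 0) (h1 : a 1 ≤ M * b 1)
    (h2 : ∀ j, a (j + 2) ≤ M * b (j + 2) + u * d j + v * b (j + 1)) (n : ℕ) :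
    ∑ j ∈ range (n + 2), 4 ^ j * a j ≤ M * ∑ j ∈ range (n + 2), 4 ^ j * b j +
      16 * u * ∑ j ∈ range n, 4 ^ j * d j + 4 * v * ∑ j ∈ range (n + 1), 4 ^ j * b j := by
  induction n with
  | zero =>
    have := mul_nonneg hv (hb 0)
    simp only [zero_add, sum_range_succ, range_zero, sum_empty]
    nlinarith
  | succ n ih =>
    rw [sum_range_succ (fun j => 4 ^ j * a j) (n + 2), sum_range_succ (fun j => 4 ^ j * b j) (n + 2),
      sum_range_succ (fun j => 4 ^ j * d j) n]
    conv_rhs => rw [add_comm, sum_range_succ (fun j => 4 ^ j * b j) (n + 1)]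
    have h3 := mul_le_mul_of_nonneg_left (h2 n) (show (0 : ℝ) ≤ 4 ^ (n + 2) by positivity)
    have e1 : (4 : ℝ) ^ (n + 2) = 16 * 4 ^ n := by ring
    have e2 : (4 : ℝ) ^ (n + 1) = 4 * 4 ^ n := by ring
    rw [sum_range_succ (fun j => 4 ^ j * b j) (n + 1), e2] at ih
    rw [e1] at h3 ⊢
    rw [e2]
    linarith

theorem Psi_nonneg (p : Finset (Cl α)) {z : ℝ} (hz : 0 ≤ z) : 0 ≤ Psi T core B p z :=
  sum_nonneg fun _ _ => mul_nonneg (by positivity)
    (sum_nonneg fun _ _ => mul_nonneg (by positivity) (lv_nonneg _ _ _))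

theorem Psi_shift (p : Finset (Cl α)) {z η : ℝ} (hz : 0 < z) (hη : 0 ≤ η) :
    Psi T core B p z + η / z * ∑ j ∈ range (T + 2), 4 ^ j *
      ∑ R : Finset (α × Bool), z ^ R.card * (R.card * lv T core B j p R) ≤
      Psi T core B p (z + η) := by
  unfold Psi
  rw [mul_sum, ← sum_add_distrib]
  refine sum_le_sum fun j _ => ?_
  rw [mul_left_comm, ← mul_add, mul_sum, ← sum_add_distrib]
  refine mul_le_mul_of_nonneg_left (sum_le_sum fun R _ => ?_) (by positivity)
  have h1 := one_add_mul_le_pow (a := η / z) (by have : 0 ≤ η / z := by positivity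
                                                 linarith) R.card
  have h2 : (z + η) ^ R.card = z ^ R.card * (1 + η / z) ^ R.card := by
    rw [← mul_pow]; congr 1; field_simp
  have h3 := mul_le_mul_of_nonneg_right (mul_le_mul_of_nonneg_left h1
    (show 0 ≤ z ^ R.card by positivity)) (lv_nonneg (T := T) (core := core) (B := B) j p R)
  rw [h2]
  linarith

theorem step_Psi (hF : Fam T core B) (hT : 1 ≤ T) (hP : Pl cl T x e) (hx : 0 ≤ x) (he : 0 ≤ e)
    {η χ z0 : ℝ} (hη : 0 ≤ η) (hχ : 0 ≤ χ) (hz0 : 0 < z0) (h1 : 16 * x ≤ Fintype.card Θ * η)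
    (h2 : 12 * e ≤ Fintype.card Θ * χ * z0) (p : Finset (Cl α)) {z : ℝ} (hz : z0 ≤ z) :
    ∑ θ, Psi T core B (insert (cl θ) p) z ≤
      Fintype.card Θ * (1 + χ) * Psi T core B p (z + η) := by
  have hz' : 0 < z := hz0.trans_le hz
  have hM : (0 : ℝ) ≤ Fintype.card Θ := Nat.cast_nonneg _
  have htriv : ∀ j ≤ 1, ∑ θ, ∑ R : Finset (α × Bool), z ^ R.card *
      lv T core B j (insert (cl θ) p) R ≤
      Fintype.card Θ * ∑ R : Finset (α × Bool), z ^ R.card * lv T core B j p R := by
    intro j hj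
    have : ∀ q R, lv T core B j q R = 1 := fun q R => if_pos (Or.inl hj)
    simp only [this]
    rw [sum_const, card_univ, nsmul_eq_mul]
  have h3 := level_sum (M := Fintype.card Θ) (u := x / z) (v := 3 * e / z)
    (a := fun j => ∑ θ, ∑ R : Finset (α × Bool), z ^ R.card * lv T core B j (insert (cl θ) p) R)
    (b := fun j => ∑ R : Finset (α × Bool), z ^ R.card * lv T core B j p R)
    (d := fun j => ∑ R : Finset (α × Bool), z ^ R.card * (R.card * lv T core B j p R))
    (fun j => sum_nonneg fun _ _ => mul_nonneg (by positivity) (lv_nonneg _ _ _)) (by positivity)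
    (htriv 0 (by omega)) (htriv 1 le_rfl) (fun j => step_j hF hT hP hx he j p hz') T
  have h4 := Psi_shift (T := T) (core := core) (B := B) p hz' hη
  have h5 : ∑ j ∈ range T, 4 ^ j *
      ∑ R : Finset (α × Bool), z ^ R.card * (R.card * lv T core B j p R) ≤
      ∑ j ∈ range (T + 2), 4 ^ j *
      ∑ R : Finset (α × Bool), z ^ R.card * (R.card * lv T core B j p R) :=
    sum_le_sum_of_subset_of_nonneg (range_mono (by omega)) fun _ _ _ => mul_nonneg (by positivity)
      (sum_nonneg fun _ _ => mul_nonneg (by positivity)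
        (mul_nonneg (Nat.cast_nonneg _) (lv_nonneg _ _ _)))
  have h6 : ∑ j ∈ range (T + 1), 4 ^ j *
      ∑ R : Finset (α × Bool), z ^ R.card * lv T core B j p R ≤ Psi T core B p z :=
    sum_le_sum_of_subset_of_nonneg (range_mono (by omega)) fun _ _ _ => mul_nonneg (by positivity)
      (sum_nonneg fun _ _ => mul_nonneg (by positivity) (lv_nonneg _ _ _))
  have h7 : ∑ θ, Psi T core B (insert (cl θ) p) z = ∑ j ∈ range (T + 2), 4 ^ j *
      ∑ θ, ∑ R : Finset (α × Bool), z ^ R.card * lv T core B j (insert (cl θ) p) R := by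
    unfold Psi
    rw [sum_comm]
    simp only [← mul_sum]
  have n1 : 0 ≤ ∑ j ∈ range (T + 2), 4 ^ j *
      ∑ R : Finset (α × Bool), z ^ R.card * (R.card * lv T core B j p R) :=
    sum_nonneg fun _ _ => mul_nonneg (by positivity)
      (sum_nonneg fun _ _ => mul_nonneg (by positivity)
        (mul_nonneg (Nat.cast_nonneg _) (lv_nonneg _ _ _)))
  have n2 := Psi_nonneg (T := T) (core := core) (B := B) p hz'.le
  have a1 : 16 * (x / z) ≤ Fintype.card Θ * (η / z) := by
    rw [← mul_div_assoc, ← mul_div_assoc]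
    exact div_le_div_of_nonneg_right h1 hz'.le
  have a2 : 4 * (3 * e / z) ≤ Fintype.card Θ * χ := by
    rw [← mul_div_assoc, div_le_iff₀ hz']
    have := mul_le_mul_of_nonneg_left hz (mul_nonneg hM hχ)
    linarith
  have a3 := (mul_le_mul_of_nonneg_left h5 (show 0 ≤ 16 * (x / z) by positivity)).trans
    (mul_le_mul_of_nonneg_right a1 n1)
  have a4 := (mul_le_mul_of_nonneg_left h6 (show 0 ≤ 4 * (3 * e / z) by positivity)).trans
    (mul_le_mul_of_nonneg_right a2 n2)
  have a5 := mul_le_mul_of_nonneg_left h4 hM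
  have a6 : Psi T core B p z ≤ Psi T core B p (z + η) :=
    le_trans (le_add_of_nonneg_right (mul_nonneg (by positivity) n1)) h4
  have a7 := mul_le_mul_of_nonneg_left a6 (mul_nonneg hM hχ)
  rw [h7]
  refine h3.trans ?_
  change Fintype.card Θ * Psi T core B p z + _ + _ ≤ _
  linarith

/-- the formula made of the kept slots -/
noncomputable def build {m : ℕ} (cl : Θ → Cl α) (p : Finset (Cl α)) (k : Fin m → Prop)
    (f : Fin m → Θ) : Finset (Cl α) := p ∪ (univ.filter k).image fun i => cl (f i)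

theorem mem_build {m : ℕ} {p : Finset (Cl α)} {k : Fin m → Prop} {f : Fin m → Θ} {c : Cl α} :
    c ∈ build cl p k f ↔ c ∈ p ∨ ∃ i, k i ∧ cl (f i) = c := by
  simp [build]

theorem iter (hF : Fam T core B) (hT : 1 ≤ T) (hP : Pl cl T x e) (hx : 0 ≤ x) (he : 0 ≤ e)
    {η χ z0 : ℝ} (hη : 0 ≤ η) (hχ : 0 ≤ χ) (hz0 : 0 < z0) (h1 : 16 * x ≤ Fintype.card Θ * η)
    (h2 : 12 * e ≤ Fintype.card Θ * χ * z0) (m : ℕ) : ∀ (k : Fin m → Prop) (p : Finset (Cl α)),
    ∑ f : Fin m → Θ, Psi T core B (build cl p k f) z0 ≤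
      (Fintype.card Θ * (1 + χ)) ^ m * Psi T core B p (z0 + m * η) := by
  have hM : (0 : ℝ) ≤ Fintype.card Θ := Nat.cast_nonneg _
  induction m with
  | zero =>
    intro k p
    have : ∀ f : Fin 0 → Θ, build cl p k f = p := fun f => by
      ext c; simp [mem_build]
    simp [this]
  | succ m ih =>
    intro k p
    have hz : z0 ≤ z0 + m * η := le_add_of_nonneg_right (by positivity)
    have e1 : z0 + ((m + 1 : ℕ) : ℝ) * η = z0 + m * η + η := by push_cast; ring
    rw [Mono.sum_cons, e1, pow_succ, mul_assoc]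
    by_cases h0 : k 0
    · have hb : ∀ θ (f : Fin m → Θ), build cl p k (Fin.cons θ f : Fin (m + 1) → Θ) =
          build cl (insert (cl θ) p) (fun i => k i.succ) f := by
        intro θ f
        ext c
        simp only [mem_build, Fin.exists_fin_succ, Fin.cons_zero, Fin.cons_succ, mem_insert, h0,
          true_and, eq_comm (a := c)]
        tauto
      simp only [hb]
      refine (sum_le_sum fun θ _ => ih _ _).trans ?_
      rw [← mul_sum]
      exact mul_le_mul_of_nonneg_left (step_Psi hF hT hP hx he hη hχ hz0 h1 h2 p hz)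
        (by positivity)
    · have hb : ∀ θ (f : Fin m → Θ), build cl p k (Fin.cons θ f : Fin (m + 1) → Θ) =
          build cl p (fun i => k i.succ) f := by
        intro θ f
        ext c
        simp only [mem_build, Fin.exists_fin_succ, Fin.cons_succ, h0, false_and, false_or]
      simp only [hb]
      refine (sum_le_sum fun θ _ => ih _ _).trans ?_
      rw [sum_const, card_univ, nsmul_eq_mul, mul_left_comm]
      refine mul_le_mul_of_nonneg_left ?_ (by positivity)
      have hz' : 0 < z0 + m * η := hz0.trans_le hz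
      have a1 := Psi_shift (T := T) (core := core) (B := B) p hz' hη
      have n1 : 0 ≤ ∑ j ∈ range (T + 2), 4 ^ j * ∑ R : Finset (α × Bool),
          (z0 + m * η) ^ R.card * (R.card * lv T core B j p R) :=
        sum_nonneg fun _ _ => mul_nonneg (by positivity)
          (sum_nonneg fun _ _ => mul_nonneg (by positivity)
            (mul_nonneg (Nat.cast_nonneg _) (lv_nonneg _ _ _)))
      have a2 := le_trans (le_add_of_nonneg_right (mul_nonneg (by positivity) n1)) a1
      refine mul_le_mul (le_mul_of_one_le_right hM (by linarith)) a2 (Psi_nonneg _ hz'.le)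
        (by positivity)

theorem Psi_empty (hF : Fam T core B) {z : ℝ} (hz : 0 ≤ z) :
    Psi T core B ∅ z ≤ 5 * Real.exp (z * Fintype.card (α × Bool)) := by
  have h1 : ∑ S : Finset (α × Bool), z ^ S.card = (1 + z) ^ Fintype.card (α × Bool) := by
    have := prod_one_add (f := fun _ : α × Bool => z) univ
    simp only [prod_const, card_univ, powerset_univ] at this
    exact this.symm
  have h2 : (1 + z) ^ Fintype.card (α × Bool) ≤ Real.exp (z * Fintype.card (α × Bool)) := by
    rw [mul_comm, Real.exp_nat_mul]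
    exact pow_le_pow_left₀ (by positivity) (by linarith [Real.add_one_le_exp z]) _
  have h3 : ∀ j R, lv T core B (j + 1 + 1) ∅ R = 0 := fun j R =>
    (lv_two j ∅ R).trans (if_neg (not_E_empty hF _ _))
  have h4 : ∀ j ≤ 1, ∀ R, lv T core B j ∅ R = 1 := fun j hj R => if_pos (Or.inl hj)
  unfold Psi
  rw [sum_range_succ', sum_range_succ']
  simp only [h3, h4 0 (by omega), h4 (0 + 1) le_rfl, mul_zero, sum_const_zero, mul_one, h1]
  norm_num only
  linarith

theorem gap (hF : Fam T core B) (hT : 1 ≤ T) (hP : Pl cl T x e) (hx : 0 ≤ x) (he : 0 ≤ e)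
    {η χ z0 : ℝ} (hη : 0 ≤ η) (hχ : 0 ≤ χ) (hz0 : 0 < z0) (h1 : 16 * x ≤ Fintype.card Θ * η)
    (h2 : 12 * e ≤ Fintype.card Θ * χ * z0) (m : ℕ) (k : Fin m → Prop) :
    cnt (fun f : Fin m → Θ => E T core B T (build cl ∅ k f) ∅) * 4 ^ T ≤
      (Fintype.card Θ : ℝ) ^ m *
        (5 * Real.exp (m * χ + (z0 + m * η) * Fintype.card (α × Bool))) := by
  have h3 := iter hF hT hP hx he hη hχ hz0 h1 h2 m k ∅
  have h4 := Psi_empty hF (z := z0 + m * η) (by positivity)
  have h5 : (1 + χ) ^ m ≤ Real.exp (m * χ) := by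
    rw [Real.exp_nat_mul]
    exact pow_le_pow_left₀ (by positivity) (by linarith [Real.add_one_le_exp χ]) _
  refine le_trans ?_ (h3.trans ?_)
  · rw [cnt_ind, sum_mul]
    refine sum_le_sum fun f _ => ?_
    refine le_trans ?_ (single_le_sum (f := fun j => 4 ^ j * ∑ R : Finset (α × Bool),
      z0 ^ R.card * lv T core B j (build cl ∅ k f) R) (fun _ _ => mul_nonneg (by positivity)
        (sum_nonneg fun _ _ => mul_nonneg (by positivity) (lv_nonneg _ _ _)))
      (mem_range.2 (show T < T + 2 by omega)))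
    rw [mul_comm]
    refine mul_le_mul_of_nonneg_left (le_trans ?_ (single_le_sum (f := fun R : Finset (α × Bool) =>
      z0 ^ R.card * lv T core B T (build cl ∅ k f) R)
      (fun _ _ => mul_nonneg (by positivity) (lv_nonneg _ _ _)) (mem_univ ∅))) (by positivity)
    simp only [card_empty, pow_zero, one_mul]
    exact ind_mono Or.inr
  · rw [mul_pow, mul_assoc, Real.exp_add, mul_left_comm 5]
    exact mul_le_mul_of_nonneg_left (mul_le_mul h5 h4 (Psi_nonneg _ (by positivity))
      (by positivity)) (by positivity)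

end Pool.Agent.P.MP_b53add_lc.Sp
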