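import Pool.Agent.P.MP_b53add_lc.SpWorld
import Pool.Agent.P.MP_b53add_lc.RealMgg

set_option autoImplicit false
set_option linter.unusedSectionVars false

namespace Pool.Agent.P.MP_b53add_lc.Sp

open Finset Classical Mono RealC

section Abstract

variable {A W : Type} [Fintype A] [DecidableEq A] [Fintype W]

/-- a vertex and two of its neighbours -/
def cherry (g : W → A → A) (θ : A × (W × W)) : Fin 3 → A := ![θ.1, g θ.2.1 θ.1, g θ.2.2 θ.1]

theorem cherry_cnt (g : W → A → A) (U0 U1 U2 : Finset A) :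
    cnt (fun θ : A × (W × W) => θ.1 ∈ U0 ∧ g θ.2.1 θ.1 ∈ U1 ∧ g θ.2.2 θ.1 ∈ U2) =
      ∑ u ∈ U0, cnt (fun w => g w u ∈ U1) * cnt (fun w => g w u ∈ U2) := by
  simp only [cnt_ind]
  rw [Fintype.sum_prod_type]
  refine (sum_subset (subset_univ U0) fun u _ hu =>
    sum_eq_zero fun q _ => if_neg fun h => hu h.1).symm.trans (sum_congr rfl fun u hu => ?_)
  rw [Fintype.sum_prod_type, sum_mul_sum]
  refine sum_congr rfl fun w _ => sum_congr rfl fun w' _ => ?_
  unfold ind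
  by_cases h1 : g w u ∈ U1 <;> by_cases h2 : g w' u ∈ U2 <;> simp [hu, h1, h2]

theorem slice_le (S : Finset (Fin 3 × A)) (j : Fin 3) :
    ((univ.filter fun a => (j, a) ∈ S).card : ℝ) ≤ S.card := by
  exact_mod_cast card_le_card_of_injOn (fun a => (j, a))
    (fun a ha => by simpa using ha) (fun a _ b _ e => congrArg Prod.snd e)

theorem good_cherry [Nonempty A] {g : W → A → A} {lam : ℝ} (h0 : 0 ≤ lam) (h1 : lam ≤ 1)
    (hL : ∀ (U0 U : Finset A) (x : ℝ), (U.card : ℝ) ≤ x * Fintype.card A →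
      ∑ u ∈ U0, cnt (fun w => g w u ∈ U) ^ 2 ≤
        2 * (Fintype.card W : ℝ) ^ 2 * (lam ^ 2 * x * Fintype.card A + U0.card * x ^ 2)) :
    Good (cherry g) lam := by
  have hn0 : (0 : ℝ) < Fintype.card A := by exact_mod_cast Fintype.card_pos
  have hd : (0 : ℝ) ≤ Fintype.card W := Nat.cast_nonneg _
  have hc : (Fintype.card (A × (W × W)) : ℝ) = Fintype.card A * (Fintype.card W : ℝ) ^ 2 := by
    simp [sq]
  have k2 : ∀ (U0 U1 U2 : Finset A) (x : ℝ), (U1.card : ℝ) ≤ x * Fintype.card A →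
      (U2.card : ℝ) ≤ x * Fintype.card A →
      ∑ u ∈ U0, cnt (fun w => g w u ∈ U1) * cnt (fun w => g w u ∈ U2) ≤
        2 * (Fintype.card W : ℝ) ^ 2 * (lam ^ 2 * x * Fintype.card A + U0.card * x ^ 2) := by
    intro U0 U1 U2 x a1 a2
    have a3 : ∑ u ∈ U0, 2 * (cnt (fun w => g w u ∈ U1) * cnt (fun w => g w u ∈ U2)) ≤
        ∑ u ∈ U0, (cnt (fun w => g w u ∈ U1) ^ 2 + cnt (fun w => g w u ∈ U2) ^ 2) :=
      sum_le_sum fun u _ => by nlinarith [sq_nonneg (cnt (fun w => g w u ∈ U1) -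
        cnt (fun w => g w u ∈ U2))]
    rw [← mul_sum, sum_add_distrib] at a3
    linarith [hL U0 U1 x a1, hL U0 U2 x a2]
  have k1 : ∀ (U0 U : Finset A) (x : ℝ), (U0.card : ℝ) ≤ x * Fintype.card A →
      (U.card : ℝ) ≤ x * Fintype.card A → (∑ u ∈ U0, cnt (fun w => g w u ∈ U)) * Fintype.card W ≤
        Fintype.card (A × (W × W)) * (2 * x * (x + lam)) := by
    intro U0 U x a1 a2
    have hx : 0 ≤ x := nonneg_of_mul_nonneg_left (le_trans (Nat.cast_nonneg _) a1) hn0
    have a3 := sq_sum_le_card_mul_sum_sq (s := U0) (f := fun u => cnt fun w => g w u ∈ U)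
    have a4 : lam ^ 2 * x * Fintype.card A + U0.card * x ^ 2 ≤
        2 * (x * Fintype.card A * (x + lam) ^ 2) := by
      have b1 := mul_le_mul_of_nonneg_right a1 (sq_nonneg x)
      have b2 : 0 ≤ x * Fintype.card A * (x ^ 2 + 4 * x * lam + lam ^ 2) := by positivity
      nlinarith
    have a5 := a3.trans (mul_le_mul a1 ((hL U0 U x a2).trans (mul_le_mul_of_nonneg_left a4
      (by positivity))) (sum_nonneg fun _ _ => sq_nonneg _) (by positivity))
    have a6 := (abs_le_of_sq_le_sq' (b := 2 * Fintype.card W * (x * Fintype.card A) * (x + lam))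
      (a5.trans (le_of_eq (by ring))) (by positivity)).2
    refine (mul_le_mul_of_nonneg_right a6 hd).trans (le_of_eq ?_)
    rw [hc]; ring
  have hu : ∀ u, cnt (fun w => g w u ∈ (univ : Finset A)) = Fintype.card W := fun u => by
    simp [cnt]
  refine ⟨fun S x hS => ?_, fun S x hS => ?_⟩
  · have hx : 0 ≤ x := nonneg_of_mul_nonneg_left (le_trans (Nat.cast_nonneg _) hS) hn0
    have hsl := fun j => (slice_le S j).trans hS
    have p01 : cnt (fun θ => ((0 : Fin 3), cherry g θ 0) ∈ S ∧ ((1 : Fin 3), cherry g θ 1) ∈ S) ≤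
        Fintype.card (A × (W × W)) * (2 * x * (x + lam)) := by
      refine le_trans ((cnt_mono fun θ h => ?_).trans (cherry_cnt g (univ.filter fun a => ((0 : Fin 3), a) ∈ S)
        (univ.filter fun a => ((1 : Fin 3), a) ∈ S) univ).le)
        (le_trans (le_of_eq ?_) (k1 _ _ x (hsl 0) (hsl 1)))
      · exact ⟨mem_filter.2 ⟨mem_univ _, h.1⟩, mem_filter.2 ⟨mem_univ _, h.2⟩, mem_univ _⟩
      · simp only [hu, sum_mul]
    have p02 : cnt (fun θ => ((0 : Fin 3), cherry g θ 0) ∈ S ∧ ((2 : Fin 3), cherry g θ 2) ∈ S) ≤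
        Fintype.card (A × (W × W)) * (2 * x * (x + lam)) := by
      refine le_trans ((cnt_mono fun θ h => ?_).trans (cherry_cnt g (univ.filter fun a => ((0 : Fin 3), a) ∈ S)
        univ (univ.filter fun a => ((2 : Fin 3), a) ∈ S)).le)
        (le_trans (le_of_eq ?_) (k1 _ _ x (hsl 0) (hsl 2)))
      · exact ⟨mem_filter.2 ⟨mem_univ _, h.1⟩, mem_univ _, mem_filter.2 ⟨mem_univ _, h.2⟩⟩
      · simp only [hu, sum_mul, mul_comm (Fintype.card W : ℝ)]
    have p12 : cnt (fun θ => ((1 : Fin 3), cherry g θ 1) ∈ S ∧ ((2 : Fin 3), cherry g θ 2) ∈ S) ≤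
        Fintype.card (A × (W × W)) * (2 * x * (x + lam)) := by
      refine le_trans ((cnt_mono fun θ h => ?_).trans (cherry_cnt g univ _ _).le)
        ((k2 _ _ _ x (hsl 1) (hsl 2)).trans ?_)
      · exact ⟨mem_univ _, mem_filter.2 ⟨mem_univ _, h.1⟩, mem_filter.2 ⟨mem_univ _, h.2⟩⟩
      · rw [hc, card_univ]
        have b1 : 0 ≤ Fintype.card A * (Fintype.card W : ℝ) ^ 2 * x * (lam * (1 - lam)) := by
          have : 0 ≤ 1 - lam := by linarith
          positivity
        nlinarith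
    intro i j hij
    fin_cases i <;> fin_cases j
    · exact absurd rfl hij
    · exact p01
    · exact p02
    · exact (cnt_mono fun _ h => h.symm).trans p01
    · exact absurd rfl hij
    · exact p12
    · exact (cnt_mono fun _ h => h.symm).trans p02
    · exact (cnt_mono fun _ h => h.symm).trans p12
    · exact absurd rfl hij
  · have hsl := fun j => (slice_le S j).trans hS
    refine le_trans ((cnt_mono fun θ h => ?_).trans (cherry_cnt g _ _ _).le)
      ((k2 (univ.filter fun a => ((0 : Fin 3), a) ∈ S) _ _ x (hsl 1) (hsl 2)).trans ?_)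
    · exact ⟨mem_filter.2 ⟨mem_univ _, h 0⟩, mem_filter.2 ⟨mem_univ _, h 1⟩,
        mem_filter.2 ⟨mem_univ _, h 2⟩⟩
    · rw [hc]
      have b1 := mul_le_mul_of_nonneg_left (mul_le_mul_of_nonneg_right (hsl 0) (sq_nonneg x))
        (show 0 ≤ 2 * (Fintype.card W : ℝ) ^ 2 by positivity)
      nlinarith

end Abstract

theorem walk_deg {m : ℕ} [NeZero m] {t : ℕ} {lam x : ℝ} (ht : (60 / 64 : ℝ) ^ t ≤ lam ^ 2)
    (U0 U : Finset (ZMod m × ZMod m)) (hU : (U.card : ℝ) ≤ x * Fintype.card (ZMod m × ZMod m)) :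
    ∑ u ∈ U0, cnt (fun w : Fin t → Bool × Bool × Bool => walk w u ∈ U) ^ 2 ≤
      2 * (Fintype.card (Fin t → Bool × Bool × Bool) : ℝ) ^ 2 *
        (lam ^ 2 * x * Fintype.card (ZMod m × ZMod m) + U0.card * x ^ 2) := by
  have hm : (0 : ℝ) < Fintype.card (ZMod m × ZMod m) := by exact_mod_cast Fintype.card_pos
  obtain ⟨μ, hμ⟩ : ∃ μ : ℝ, μ = U.card / Fintype.card (ZMod m × ZMod m) := ⟨_, rfl⟩
  have hμ0 : 0 ≤ μ := by rw [hμ]; positivity
  have hμ1 : μ * Fintype.card (ZMod m × ZMod m) = U.card := by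
    rw [hμ]; exact div_mul_cancel₀ _ hm.ne'
  have hμ2 : μ ≤ x := le_of_mul_le_mul_right (hμ1.le.trans hU) hm
  let f : ZMod m × ZMod m → ℝ := fun p => ind (p ∈ U) - μ
  have hs : ∑ p, ind (p ∈ U) = U.card := by
    rw [← cnt_ind]; simp [cnt]
  have hf : ∑ p, f p = 0 := by
    simp only [f, sum_sub_distrib, hs, sum_const, card_univ, nsmul_eq_mul]
    linarith
  have hf2 : ∑ p, f p ^ 2 ≤ x * Fintype.card (ZMod m × ZMod m) := by
    have h1 : ∀ p, f p ^ 2 = (1 - 2 * μ) * ind (p ∈ U) + μ ^ 2 := by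
      intro p; simp only [f, ind]; split_ifs <;> ring
    simp only [h1, sum_add_distrib, ← mul_sum, hs, sum_const, card_univ, nsmul_eq_mul]
    have : (0 : ℝ) ≤ μ * U.card := by positivity
    nlinarith
  have hd : (Fintype.card (Fin t → Bool × Bool × Bool) : ℝ) = 8 ^ t := by simp
  have h1 : ∀ u, cnt (fun w : Fin t → Bool × Bool × Bool => walk w u ∈ U) ^ 2 ≤
      2 * (∑ w : Fin t → Bool × Bool × Bool, f (walk w u)) ^ 2 + 2 * (8 ^ t * x) ^ 2 := by
    intro u
    have e1 : cnt (fun w : Fin t → Bool × Bool × Bool => walk w u ∈ U) =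
        ∑ w : Fin t → Bool × Bool × Bool, f (walk w u) + 8 ^ t * μ := by
      simp only [cnt_ind, f, sum_sub_distrib, sum_const, card_univ, nsmul_eq_mul, hd,
        sub_add_cancel]
    have a1 : (8 ^ t * μ) ^ 2 ≤ (8 ^ t * x) ^ 2 := by gcongr
    rw [e1]
    nlinarith [sq_nonneg (∑ w : Fin t → Bool × Bool × Bool, f (walk w u) - 8 ^ t * μ)]
  have h4 : (60 : ℝ) ^ t ≤ (8 ^ t * lam) ^ 2 := by
    rw [div_pow, div_le_iff₀ (by positivity)] at ht
    rw [mul_pow, ← pow_mul, mul_comm t 2, pow_mul, mul_comm]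
    norm_num
    exact ht
  have h3 : ∑ p ∈ U0, (∑ w : Fin t → Bool × Bool × Bool, f (walk w p)) ^ 2 ≤
      (8 ^ t * lam) ^ 2 * (x * Fintype.card (ZMod m × ZMod m)) :=
    (sum_le_sum_of_subset_of_nonneg (subset_univ U0) fun _ _ _ => sq_nonneg _).trans
      ((walk_sq t f hf).trans (mul_le_mul h4 hf2 (sum_nonneg fun _ _ => sq_nonneg _)
        (sq_nonneg _)))
  refine (sum_le_sum fun u _ => h1 u).trans ?_
  rw [sum_add_distrib, ← mul_sum, sum_const, nsmul_eq_mul, hd]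
  linarith

theorem good_mgg : ∃ t : ℕ, ∀ (m : ℕ) [NeZero m],
    Good (cherry (walk (m := m) (t := t))) (1 / 10 ^ 25) := by
  obtain ⟨t, ht⟩ := exists_pow_lt_of_lt_one (x := (1 / 10 ^ 25 : ℝ) ^ 2) (y := 60 / 64)
    (by norm_num) (by norm_num)
  exact ⟨t, fun m _ => good_cherry (by norm_num) (by norm_num) fun U0 U x h =>
    walk_deg ht.le U0 U h⟩

end Pool.Agent.P.MP_b53add_lc.Sp
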