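import Pool.Agent.P.MP_b53add_lc.RealProj
import Pool.Agent.P.MP_b53add_lc.SpPool
import Pool.Agent.P.MP_b53add_lc.SpDefs

set_option autoImplicit false
set_option linter.unusedSectionVars false

namespace Pool.Agent.P.MP_b53add_lc.Sp

open Finset Classical Mono
open RealC hiding InPool Good small_world

theorem lines {A Θ : Type} [Fintype A] [DecidableEq A] [Fintype Θ] [Nonempty Θ]
    {tr : Θ → Fin 3 → A} (H : Good tr (1 / 10 ^ 25)) {n k T c : ℕ} (hk : 1 ≤ k)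
    (hTk : T = 1000 * k)
    (hA : 10 ^ 18 * T ≤ Fintype.card A) (hA' : Fintype.card A ≤ 2 * 10 ^ 18 * T)
    (hn : n ≤ 24 * 10 ^ 27 * T) (hc : c = 10 ^ 9) (e : (Fin 3 × A) × Fin c → Fin n)
    (he : Function.Injective e) (Ok : Cl (Fin n) → Prop)
    (hOk : ∀ θ (g : Fin 3 × A → Fin c),
      Ok fun j => (e ((cl tr θ j).1, g (cl tr θ j).1), (cl tr θ j).2))
    {ι : Type} [Fintype ι] (rk : ι → ℕ) (B : ι → ℝ → (Fin n → Bool) → Prop)
    (hB : ∀ k s s' x, s ≤ s' → B k s x → B k s' x)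
    (h : ∀ Φ : Finset (Cl (Fin n)), (∀ c ∈ Φ, Ok c) → (∀ y, ∃ c ∈ Φ, ¬ Sat y c) → ∃ a : ι → ℝ,
      (∀ k, ∃ X : Bool → (Fin n → Bool) → Prop, (∀ x, B k (a k) x → ∃ b, X b x) ∧ ∀ b,
        (∃ i, rk i < rk k ∧ ∀ x, X b x → B i (a i) x) ∨ (∃ c ∈ Φ, ∀ x, X b x → ¬ Sat x c) ∨
          ∀ x, ¬ X b x) ∧ ∃ k, ∀ x, B k (a k) x) :
    2 ^ T < Fintype.card ι := by
  by_contra hcon
  push Not at hcon
  have hT : 1 ≤ T := by omega
  have hι : (Fintype.card ι : ℝ) ≤ 2 ^ T := by exact_mod_cast hcon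
  obtain ⟨E, hE1, hE2, hE3⟩ := RealC.removal rk B (Thin T)
  let B' : ι → ℝ → (Fin n → Bool) → Prop := fun k s x => B k s x ∧ ¬ E (rk k) x
  have hB' : ∀ k s s' x, s ≤ s' → B' k s x → B' k s' x :=
    fun k s s' x h1 h2 => ⟨hB k s s' x h1 h2.1, h2.2⟩
  obtain ⟨g, hS, hS0⟩ := choose_g hT hn hc (α := Fin 3 × A)
    (by rw [Fintype.card_prod, Fintype.card_fin]; omega) e he hι B' hB'
  obtain ⟨φ, hφ0, hφ, hgap, hfin⟩ := small_world H hk hTk hA hA' hcon
    (fun k s => {y | ∃ x, B' k s x ∧ ∀ i, x (e (i, g i)) = y i})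
    (fun k s => {y | ∃ x, (B' k s x ∧ ¬ Thin T (B' k s) x) ∧ ∀ i, x (e (i, g i)) = y i})
    (fun k s s' hs y ⟨x, h1, h2⟩ => ⟨x, hB' k s s' x hs h1, h2⟩) (by
      rintro k s τ hτ ⟨y, ⟨x, ⟨hx1, hx2⟩, hx3⟩, hy⟩
      have hc : (τ.image fun l => (e (l.1, g l.1), l.2)).card ≤ T := card_image_le.trans hτ
      have hag : Ag x (τ.image fun l => (e (l.1, g l.1), l.2)) := by
        intro l hl
        obtain ⟨l', hl', rfl⟩ := mem_image.1 hl
        exact (hx3 _).trans (hy l' hl')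
      obtain ⟨Z, hZ, ⟨y0, hy0⟩, hZ'⟩ := hS k s _ x hc hx1 hag hx2
      refine ⟨Z, ⟨hZ, fun y' hy' => ?_⟩, y0, fun l hl => ?_⟩
      · obtain ⟨x', h1, h2⟩ := hZ' y' hy'
        exact ⟨x', h1.1, h2⟩
      · rcases mem_union.1 hl with h1 | h1
        · exact hy0 l h1
        · obtain ⟨x', h2, h3⟩ := hZ' y0 hy0
          exact (h3 _).symm.trans (h2.2 (e (l.1, g l.1), l.2) (mem_image.2 ⟨l, h1, rfl⟩)))
  obtain ⟨a, hA, k0, hk0⟩ := h (φ.image fun c j => (e ((c j).1, g (c j).1), (c j).2)) (by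
    intro d hd
    obtain ⟨d', hd', rfl⟩ := mem_image.1 hd
    obtain ⟨θ, rfl⟩ := hφ0 d' hd'
    exact hOk θ g) (by
    intro x
    obtain ⟨c, hc, hs⟩ := hφ fun i => x (e (i, g i))
    exact ⟨_, mem_image.2 ⟨c, hc, rfl⟩, hs⟩)
  have main : ∀ t k, rk k < t →
      G (66 * T) φ (2 * T) {y | ∃ x, B' k (a k) x ∧ ∀ i, x (e (i, g i)) = y i} := by
    intro t
    induction t with
    | zero => intro k hk; omega
    | succ t ih =>
      intro k hk
      obtain ⟨X, hX, hp⟩ := hA k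
      have h1 : ∀ b, G (66 * T) φ T {y | ∃ x, (B' k (a k) x ∧ X b x) ∧ ∀ i, x (e (i, g i)) = y i} := by
        intro b
        rcases hp b with ⟨i, h2, h3⟩ | ⟨c, hc, h3⟩ | h3
        · refine (hgap i (a i) (ih i (by omega))).mono ?_
          rintro y ⟨x, ⟨h4, h5⟩, h6⟩
          exact ⟨x, ⟨⟨h3 x h5, fun h7 => h4.2 (hE1 _ _ x h2.le h7)⟩,
            fun h7 => h4.2 (hE1 _ _ x h2 (hE2 i (a i) x h7))⟩, h6⟩
        · obtain ⟨d, hd, rfl⟩ := mem_image.1 hc
          refine ((G_fals hd).le hT).mono ?_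
          rintro y ⟨x, ⟨-, h5⟩, h6⟩ ⟨j, hj⟩
          exact h3 x h5 ⟨j, (h6 _).trans hj⟩
        · refine (G_empty T).mono ?_
          rintro y ⟨x, ⟨-, h5⟩, -⟩
          exact h3 x h5
      rw [two_mul]
      refine ((h1 false).union (h1 true)).mono ?_
      rintro y ⟨x, h2, h3⟩
      obtain ⟨b, hb⟩ := hX x h2.1
      cases b
      · exact Or.inl ⟨x, ⟨h2, hb⟩, h3⟩
      · exact Or.inr ⟨x, ⟨h2, hb⟩, h3⟩
  refine hfin ((main _ k0 (Nat.lt_succ_self _)).mono fun y _ => ?_)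
  obtain ⟨x, h1, h2⟩ := hS0 y
  exact ⟨x, ⟨hk0 x, fun h3 => h1 (hE3 _ x h3)⟩, h2⟩

theorem blk_ext {m v w : ℕ} (h : blk m v = blk m w) (h' : v / (m * m) = w / (m * m)) :
    v = w := by
  have h1 : v % m = w % m := (ZMod.natCast_eq_natCast_iff' _ _ _).1 (congrArg Prod.fst h)
  have h2 : v / m % m = w / m % m := (ZMod.natCast_eq_natCast_iff' _ _ _).1 (congrArg Prod.snd h)
  rw [← Nat.div_div_eq_div_mul, ← Nat.div_div_eq_div_mul] at h'
  have h3 : v / m = w / m := by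
    rw [← Nat.div_add_mod (v / m) m, ← Nat.div_add_mod (w / m) m, h', h2]
  rw [← Nat.div_add_mod v m, ← Nat.div_add_mod w m, h3, h1]

theorem blk_emb {m : ℕ} [NeZero m] (p : ZMod m × ZMod m) (i : ℕ) :
    blk m (p.1.val + m * (p.2.val + m * i)) = p := by
  have hm : 0 < m := Nat.pos_of_ne_zero (NeZero.ne m)
  unfold blk
  rw [Nat.add_mul_div_left _ _ hm, Nat.div_eq_of_lt (ZMod.val_lt _), zero_add]
  simp

theorem sqrt_bounds {c n : ℕ} (hc : 0 < c) (hn : c ≤ n) :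
    0 < Nat.sqrt (n / c) ∧ c * (Nat.sqrt (n / c) * Nat.sqrt (n / c)) ≤ n ∧
      n < 4 * c * (Nat.sqrt (n / c) * Nat.sqrt (n / c)) := by
  have h1 : 0 < Nat.sqrt (n / c) := Nat.sqrt_pos.2 (Nat.div_pos hn hc)
  have h2 := Nat.sqrt_le (n / c)
  have h3 := Nat.lt_succ_sqrt (n / c)
  have h4 := Nat.mul_div_le n c
  have h5 := Nat.lt_mul_div_succ n hc
  generalize Nat.sqrt (n / c) = m at *
  generalize n / c = q at *
  refine ⟨h1, (Nat.mul_le_mul_left c h2).trans h4, h5.trans_le ?_⟩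
  have h6 : q + 1 ≤ 4 * (m * m) := by
    simp only [Nat.succ_eq_add_one] at h3
    nlinarith
  calc c * (q + 1) ≤ c * (4 * (m * m)) := Nat.mul_le_mul_left c h6
    _ = _ := by ring

theorem pool_card {c t n : ℕ} (hc : 0 < c) (hn : c ≤ n) :
    Nat.card {C : Finset (Fin n × Bool) // InPool c t n C} ≤ 128 * c ^ 2 * 64 ^ t * n := by
  obtain ⟨h1, -, h3⟩ := sqrt_bounds hc hn
  obtain ⟨m, hm⟩ : ∃ m, m = Nat.sqrt (n / c) := ⟨_, rfl⟩
  have h4 : ∀ C : {C : Finset (Fin n × Bool) // InPool c t n C},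
      ∃ (u v w : Fin n × Bool) (g g' : Fin t → Bool × Bool × Bool), C.1 = {u, v, w} ∧
        blk m v.1 = walk g (blk m u.1) ∧ blk m w.1 = walk g' (blk m u.1) := fun C => hm ▸ C.2
  rw [← hm] at h1 h3
  choose u v w g g' h5 h6 h6' using h4
  have h7 : ∀ x : Fin n × Bool, x.1.val / (m * m) < 4 * c := fun x =>
    (Nat.div_lt_iff_lt_mul (Nat.mul_pos h1 h1)).2 (x.1.2.trans h3)
  refine (Nat.card_le_card_of_injective (fun C => (u C, (g C, g' C),
    ((⟨_, h7 (v C)⟩ : Fin (4 * c)), (v C).2), ((⟨_, h7 (w C)⟩ : Fin (4 * c)), (w C).2)))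
    fun C D e => ?_).trans (le_of_eq ?_)
  · simp only [Prod.mk.injEq, Fin.mk.injEq] at e
    obtain ⟨e1, ⟨e3, e4⟩, ⟨e5, e6⟩, e7, e8⟩ := e
    have a1 : v C = v D := Prod.ext (Fin.ext (blk_ext (by rw [h6, h6, e1, e3]) e5)) e6
    have a2 : w C = w D := Prod.ext (Fin.ext (blk_ext (by rw [h6', h6', e1, e4]) e7)) e8
    exact Subtype.ext (by rw [h5 C, h5 D, e1, a1, a2])
  · simp only [Nat.card_eq_fintype_card, Fintype.card_prod, Fintype.card_fin, Fintype.card_bool,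
      Fintype.card_fun]
    rw [show 64 = 2 * (2 * 2) * (2 * (2 * 2)) by norm_num, mul_pow (2 * (2 * 2))]
    generalize (2 * (2 * 2)) ^ t = d
    ring

theorem main : ∃ (c t K n₁ : ℕ) (δ : ℝ), 0 < δ ∧ ∀ n, n₁ ≤ n →
    Nat.card {C : Finset (Fin n × Bool) // InPool c t n C} ≤ K * n ∧
    ∀ (s : ℕ) (a b : Fin s → {C : Finset (Fin n × Bool) // InPool c t n C} ⊕ Fin s)
      (F : Fin s → ℝ → ℝ → ℝ) (o : Fin s)
      (v : ({C : Finset (Fin n × Bool) // InPool c t n C} → Bool) →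
        {C : Finset (Fin n × Bool) // InPool c t n C} ⊕ Fin s → ℝ),
      (∀ j k, a j = Sum.inr k ∨ b j = Sum.inr k → k < j) →
      (∀ j p p' q q', p ≤ p' → q ≤ q' → F j p q ≤ F j p' q') →
      (∀ x C, v x (Sum.inl C) = if x C = true then 1 else 0) →
      (∀ x j, v x (Sum.inr j) = F j (v x (a j)) (v x (b j))) →
      (∀ x, 0 < v x (Sum.inr o) ↔
        ¬ ∃ y : Fin n → Bool, ∀ C, x C = true → ∃ l ∈ C.1, y l.1 = l.2) →
      (2 : ℝ) ^ (δ * n) ≤ s := by
  obtain ⟨t, ht⟩ := good_mgg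
  obtain ⟨c, hc⟩ : ∃ c : ℕ, c = 10 ^ 9 := ⟨_, rfl⟩
  refine ⟨3 * c, t, 128 * (3 * c) ^ 2 * 64 ^ t, 12 * 10 ^ 30, 1 / (24 * 10 ^ 27), by norm_num,
    fun n hn => ⟨pool_card (by omega) (by omega), ?_⟩⟩
  intro s a b F o v h1 h2 h3 h4 h5
  obtain ⟨m1, m2, m3⟩ := sqrt_bounds (c := 3 * c) (n := n) (by omega) (by omega)
  obtain ⟨m, hm⟩ : ∃ m, m = Nat.sqrt (n / (3 * c)) := ⟨_, rfl⟩
  rw [← hm] at m1 m2 m3
  have : NeZero m := ⟨m1.ne'⟩
  obtain ⟨k, hk⟩ : ∃ k, k = m * m / 10 ^ 21 := ⟨_, rfl⟩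
  obtain ⟨T, hT⟩ : ∃ T, T = 1000 * k := ⟨_, rfl⟩
  have hcard : Fintype.card (ZMod m × ZMod m) = m * m := by simp [ZMod.card]
  have hlt : ∀ q : (Fin 3 × (ZMod m × ZMod m)) × Fin c,
      q.1.2.1.val + m * (q.1.2.2.val + m * (q.1.1.val + 3 * q.2.val)) < n := by
    intro q
    have a1 := ZMod.val_lt q.1.2.1
    have a2 := ZMod.val_lt q.1.2.2
    have a3 : q.1.1.val + 3 * q.2.val + 1 ≤ 3 * c := by have := q.1.1.2; have := q.2.2; omega
    have a4 := Nat.mul_le_mul_left m a3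
    have a5 : q.1.2.2.val + m * (q.1.1.val + 3 * q.2.val) + 1 ≤ m * (3 * c) := by nlinarith
    have a6 := Nat.mul_le_mul_left m a5
    nlinarith
  let tru : (Fin n → Bool) → {C : Finset (Fin n × Bool) // InPool (3 * c) t n C} → Bool :=
    fun y C => decide (∃ l ∈ C.1, y l.1 = l.2)
  have hmm : 12 * 10 ^ 30 < 4 * (3 * 10 ^ 9) * (m * m) := by rw [← hc]; omega
  have hn' : n < 4 * (3 * 10 ^ 9) * (m * m) := by rw [← hc]; exact m3
  have hl := lines (ht m) (n := n) (k := k) (T := T) (c := c) (by omega) hT (by rw [hcard]; omega)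
    (by rw [hcard]; omega) (by omega) hc (fun q => ⟨_, hlt q⟩) (by
      rintro ⟨⟨j, p⟩, i⟩ ⟨⟨j', p'⟩, i'⟩ e
      have e1 := congrArg Fin.val e
      simp only at e1
      have e2 : p = p' := by rw [← blk_emb p (j.val + 3 * i.val), e1, blk_emb]
      subst e2
      have e3 := Nat.eq_of_mul_eq_mul_left m1
        (Nat.add_left_cancel (Nat.eq_of_mul_eq_mul_left m1 (Nat.add_left_cancel e1)))
      have := j.2
      have := j'.2
      exact Prod.ext (Prod.ext (Fin.ext (by simp only; omega)) rfl) (Fin.ext (by simp only; omega)))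
    (fun d => InPool (3 * c) t n (univ.image d)) (by
      intro θ g
      refine ⟨_, _, _, θ.1.2.1, θ.1.2.2, by
        rw [show (univ : Finset (Fin 3)) = {0, 1, 2} from rfl, image_insert, image_insert,
          image_singleton], ?_⟩
      rw [← hm]
      simp only [blk_emb]
      exact ⟨rfl, rfl⟩)
    (fun j : Fin s => j.val) (fun j r y => v (tru y) (Sum.inr j) < r)
    (fun k r r' x h h' => h'.trans_le h) (by
      intro Φ hΦ0 hΦ
      let x : {C : Finset (Fin n × Bool) // InPool (3 * c) t n C} → Bool :=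
        fun C => decide (∃ d ∈ Φ, C.1 = univ.image d)
      refine ⟨fun j => v x (Sum.inr j), fun k => ⟨fun β y =>
        v (tru y) (if β = true then a k else b k) < v x (if β = true then a k else b k),
        fun y hy => ?_, fun β => ?_⟩, o, fun y => ?_⟩
      · by_contra hc
        push Not at hc
        have c1 := hc true
        have c2 := hc false
        simp only [if_true, Bool.false_eq_true, if_false] at c1 c2
        have := h2 k _ _ _ _ c1 c2
        rw [← h4, ← h4] at this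
        exact absurd hy (not_lt.2 this)
      · have c1 : ∀ i, (if β = true then a k else b k) = Sum.inr i → i < k := by
          intro i hi
          cases β
          · exact h1 k i (Or.inr hi)
          · exact h1 k i (Or.inl hi)
        beta_reduce
        generalize (if β = true then a k else b k) = u at c1 ⊢
        rcases u with C | i
        · by_cases hx : x C = true
          · obtain ⟨d, hd, hC⟩ := of_decide_eq_true hx
            refine Or.inr (Or.inl ⟨d, hd, fun y hy ⟨j, hj⟩ => ?_⟩)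
            rw [h3, h3, if_pos hx, if_pos (decide_eq_true
              ⟨d j, hC ▸ mem_image_of_mem _ (mem_univ _), hj⟩)] at hy
            exact lt_irrefl _ hy
          · refine Or.inr (Or.inr fun y hy => ?_)
            rw [h3, h3, if_neg hx] at hy
            split_ifs at hy <;> linarith
        · exact Or.inl ⟨i, c1 i rfl, fun y hy => hy⟩
      · refine lt_of_le_of_lt (not_lt.1 fun h => (h5 _).1 h
          ⟨y, fun C hC => of_decide_eq_true hC⟩) ((h5 x).2 ?_)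
        rintro ⟨z, hz⟩
        obtain ⟨d, hd, hs⟩ := hΦ z
        obtain ⟨l, hl, hl'⟩ := hz ⟨univ.image d, hΦ0 d hd⟩ (decide_eq_true ⟨d, hd, rfl⟩)
        obtain ⟨j, -, rfl⟩ := mem_image.1 hl
        exact hs ⟨j, hl'⟩)
  rw [Fintype.card_fin] at hl
  have h6 : (2 : ℝ) ^ (T : ℝ) ≤ s := by
    rw [Real.rpow_natCast]
    exact_mod_cast hl.le
  refine le_trans (Real.rpow_le_rpow_of_exponent_le (by norm_num) ?_) h6
  have h7 : (n : ℝ) ≤ 24 * 10 ^ 27 * T := by
    exact_mod_cast (by omega : n ≤ 24 * 10 ^ 27 * T)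
  linarith

end Pool.Agent.P.MP_b53add_lc.Sp
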