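import Pool.Agent.P.MP_b53add_lc.Calc

set_option autoImplicit false

namespace Pool.Agent.P.MP_b53add_lc

open Finset Classical

abbrev Cl (L : Type) := {c : Finset L // c.card ≤ 3}

variable {L : Type} [DecidableEq L]

def shr (G : Finset L) (φ : Finset L → Prop) (c : Finset L) : Prop :=
  ∃ c' : Cl L, φ c'.1 ∧ c = c'.1 \ G

def hp (θ : ℕ) (φ : Finset L → Prop) (h : Finset L) : Prop :=
  h.card = 2 ∧ AtLeast θ (fun t => t ∉ h ∧ (¬ φ {t} ∧ φ (insert t h)))

def add2 (θ : ℕ) (φ : Finset L → Prop) (c : Finset L) : Prop := φ c ∨ hp θ φ c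

def hv (θ : ℕ) (φ : Finset L → Prop) (l : L) : Prop :=
  ¬ φ {l} ∧ AtLeast θ (fun t => t ≠ l ∧ (¬ φ {t} ∧ φ {l, t}))

def live (θ : ℕ) (φ : Finset L → Prop) (c : Finset L) : Prop :=
  c.card = 3 ∧ (φ c ∧ ∀ l, l ∈ c → ((¬ φ {l} ∧ ¬ hv θ φ l) ∧ ¬ φ (c.erase l)))

def hv3 (θ : ℕ) (φ : Finset L → Prop) (l : L) : Prop :=
  AtLeast (2 * θ ^ 2) (fun c : Cl L => l ∈ c.1 ∧ live θ φ c.1)

def fin3 (θ : ℕ) (φ : Finset L → Prop) (c : Finset L) : Prop :=
  ((c = ∅ ∧ φ c) ∨ (∃ l, c = {l} ∧ (φ {l} ∨ (hv θ φ l ∨ hv3 θ φ l)))) ∨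
    ((c.card = 2 ∧ (φ c ∧ ∀ l, l ∈ c → (¬ φ {l} ∧ ¬ hv θ φ l))) ∨
      (live θ φ c ∧ ∀ l, l ∈ c → ¬ hv3 θ φ l))

def Hits (T : L → Prop) (φ : Finset L → Prop) : Prop := ∀ c, φ c → ∃ l ∈ c, T l

def Small3 (φ : Finset L → Prop) : Prop := ∀ c, φ c → c.card ≤ 3

theorem shr_small (G : Finset L) (φ : Finset L → Prop) : Small3 (shr G φ) := by
  rintro c ⟨c', -, rfl⟩
  exact (card_le_card sdiff_subset).trans c'.2

theorem add2_small {θ : ℕ} {φ : Finset L → Prop} (h : Small3 φ) : Small3 (add2 θ φ) := by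
  rintro c (hc | hc)
  · exact h c hc
  · have := hc.1; omega

theorem hits_of_shr {T : L → Prop} {G : Finset L} {φ : Finset L → Prop} (hs : Small3 φ)
    (h : Hits T (shr G φ)) : Hits T φ := by
  intro c hc
  obtain ⟨l, hl, hT⟩ := h (c \ G) ⟨⟨c, hs c hc⟩, hc, rfl⟩
  exact ⟨l, (mem_sdiff.1 hl).1, hT⟩

theorem hits_shr {T : L → Prop} {G : Finset L} {φ : Finset L → Prop} (hG : ∀ l ∈ G, ¬ T l)
    (h : Hits T φ) : Hits T (shr G φ) := by
  rintro c ⟨c', hc', rfl⟩
  obtain ⟨l, hl, hT⟩ := h _ hc'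
  exact ⟨l, mem_sdiff.2 ⟨hl, fun h => hG l h hT⟩, hT⟩

theorem hits_of_fin3 {T : L → Prop} {θ : ℕ} {φ : Finset L → Prop} (hs : Small3 φ)
    (h : Hits T (fin3 θ φ)) : Hits T φ := by
  have hu : ∀ l, (φ {l} ∨ (hv θ φ l ∨ hv3 θ φ l)) → T l := by
    intro l hl
    obtain ⟨l', hl', hT⟩ := h {l} (Or.inl (Or.inr ⟨l, rfl, hl⟩))
    rwa [mem_singleton.1 hl'] at hT
  have h2 : ∀ c, c.card = 2 → φ c → ∃ l ∈ c, T l := by
    intro c hc hφ
    by_cases hb : ∀ l, l ∈ c → (¬ φ {l} ∧ ¬ hv θ φ l)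
    · exact h c (Or.inr (Or.inl ⟨hc, hφ, hb⟩))
    · push Not at hb
      obtain ⟨l, hl, hb⟩ := hb
      refine ⟨l, hl, hu l ?_⟩
      by_cases h1 : φ {l}
      · exact Or.inl h1
      · exact Or.inr (Or.inl (hb h1))
  intro c hc
  have := hs c hc
  have h4 : c.card = 0 ∨ c.card = 1 ∨ c.card = 2 ∨ c.card = 3 := by omega
  rcases h4 with h0 | h1 | h2' | h3
  · exact h c (Or.inl (Or.inl ⟨card_eq_zero.1 h0, hc⟩))
  · obtain ⟨l, rfl⟩ := card_eq_one.1 h1
    exact ⟨l, mem_singleton_self l, hu l (Or.inl hc)⟩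
  · exact h2 c h2' hc
  · by_cases hl : live θ φ c
    · by_cases hb : ∀ l, l ∈ c → ¬ hv3 θ φ l
      · exact h c (Or.inr (Or.inr ⟨hl, hb⟩))
      · push Not at hb
        obtain ⟨l, hl, hb⟩ := hb
        exact ⟨l, hl, hu l (Or.inr (Or.inr hb))⟩
    · have : ∃ l, l ∈ c ∧ ¬ ((¬ φ {l} ∧ ¬ hv θ φ l) ∧ ¬ φ (c.erase l)) := by
        by_contra hcon
        push Not at hcon
        exact hl ⟨h3, hc, fun l h => by have := hcon l h; tauto⟩
      obtain ⟨l, hl, hb⟩ := this
      by_cases a1 : φ {l}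
      · exact ⟨l, hl, hu l (Or.inl a1)⟩
      by_cases a2 : hv θ φ l
      · exact ⟨l, hl, hu l (Or.inr (Or.inl a2))⟩
      have a3 : φ (c.erase l) := by tauto
      obtain ⟨l', hl', hT⟩ := h2 _ (by rw [card_erase_of_mem hl, h3]) a3
      exact ⟨l', mem_of_mem_erase hl', hT⟩

theorem exists_other {c : Finset L} {l : L} (hc : c.card = 2) (hl : l ∈ c) :
    ∃ t, t ≠ l ∧ c = {l, t} := by
  obtain ⟨x, y, hxy, rfl⟩ := card_eq_two.1 hc
  rcases mem_insert.1 hl with rfl | hl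
  · exact ⟨y, hxy.symm, rfl⟩
  · rw [mem_singleton.1 hl]; exact ⟨x, hxy, pair_comm _ _⟩

theorem deg_lt {θ : ℕ} {φ : Finset L → Prop} {l : L} (h1 : ¬ φ {l}) (h2 : ¬ hv θ φ l)
    (S : Finset (Finset L)) (hS : ∀ c ∈ S, l ∈ c ∧ c.card = 2 ∧ φ c ∧ ∀ t ∈ c, ¬ φ {t}) :
    S.card < θ := by
  have hna : ¬ AtLeast θ (fun t => t ≠ l ∧ (¬ φ {t} ∧ φ {l, t})) := fun h => h2 ⟨h1, h⟩
  choose t ht ht' using fun c : S => exists_other (hS c.1 c.2).2.1 (hS c.1 c.2).1
  have hinj : Function.Injective t := by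
    intro c c' h
    apply Subtype.ext
    rw [ht' c, ht' c', h]
  have := card_lt_of_not_atLeast hna (univ.map ⟨t, hinj⟩) (by
    intro a ha
    obtain ⟨c, -, rfl⟩ := mem_map.1 ha
    refine ⟨ht c, (hS c.1 c.2).2.2.2 _ ?_, ?_⟩
    · rw [ht' c]; simp
    · have := (hS c.1 c.2).2.2.1
      rwa [ht' c] at this)
  simpa using this

theorem occ_fin3 {θ : ℕ} (hθ : 1 ≤ θ) {φ : Finset L → Prop} (l : L) (S : Finset (Finset L))
    (hS : ∀ c ∈ S, l ∈ c ∧ fin3 θ φ c) : S.card ≤ 1 + θ + 2 * θ ^ 2 := by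
  let S1 := S.filter fun c => c = {l}
  let S2 := S.filter fun c => c.card = 2 ∧ (φ c ∧ ∀ l, l ∈ c → (¬ φ {l} ∧ ¬ hv θ φ l))
  let S3 := S.filter fun c => live θ φ c ∧ ∀ l, l ∈ c → ¬ hv3 θ φ l
  have hsub : S ⊆ S1 ∪ S2 ∪ S3 := by
    intro c hc
    obtain ⟨hl, (⟨rfl, -⟩ | ⟨l', rfl, -⟩) | h | h⟩ := hS c hc
    · simp at hl
    · rw [← mem_singleton.1 hl] at hc ⊢
      exact mem_union_left _ (mem_union_left _ (mem_filter.2 ⟨hc, rfl⟩))
    · exact mem_union_left _ (mem_union_right _ (mem_filter.2 ⟨hc, h⟩))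
    · exact mem_union_right _ (mem_filter.2 ⟨hc, h⟩)
  have h1 : S1.card ≤ 1 := card_le_one.2 fun a ha b hb =>
    (mem_filter.1 ha).2.trans (mem_filter.1 hb).2.symm
  have h2 : S2.card ≤ θ := by
    rcases S2.eq_empty_or_nonempty with h | ⟨c, hc⟩
    · rw [h]; simp
    · obtain ⟨hcS, -, -, hc'⟩ := mem_filter.1 hc
      have := hc' l (hS c hcS).1
      refine (deg_lt this.1 this.2 S2 fun c hc => ?_).le
      obtain ⟨a, b, d, e⟩ := mem_filter.1 hc
      exact ⟨(hS c a).1, b, d, fun t ht => (e t ht).1⟩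
  have h3 : S3.card ≤ 2 * θ ^ 2 := by
    rcases S3.eq_empty_or_nonempty with h | ⟨c, hc⟩
    · rw [h]; simp
    · obtain ⟨hcS, -, hc'⟩ := mem_filter.1 hc
      have hna := hc' l (hS c hcS).1
      have := card_lt_of_not_atLeast hna (S3.subtype fun c => c.card ≤ 3) (by
        intro c hc
        obtain ⟨a, b, -⟩ := mem_filter.1 (mem_subtype.1 hc)
        exact ⟨(hS _ a).1, b⟩)
      rw [card_subtype, filter_true_of_mem (fun c hc => (mem_filter.1 hc).2.1.1.le)] at this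
      exact this.le
  have := (card_le_card hsub).trans ((card_union_le _ _).trans
    (Nat.add_le_add_right (card_union_le _ _) _))
  omega

theorem shr_unit_mono {T : L → Prop} {φ : Finset L → Prop} (h : Hits T φ) {G G' : Finset L}
    (hGG : G ⊆ G') (hG : ∀ l ∈ G', ¬ T l) {l : L} (hl : shr G φ {l}) : shr G' φ {l} := by
  obtain ⟨c', hc', e⟩ := hl
  refine ⟨c', hc', ?_⟩
  obtain ⟨t, ht, hT⟩ := h _ hc'
  have htl : t = l := by
    have : t ∈ c'.1 \ G := mem_sdiff.2 ⟨ht, fun h => hG t (hGG h) hT⟩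
    rw [← e] at this; exact mem_singleton.1 this
  ext x
  simp only [mem_singleton, mem_sdiff]
  constructor
  · rintro rfl
    exact ⟨htl ▸ ht, fun h => hG _ h (htl ▸ hT)⟩
  · rintro ⟨a, b⟩
    have : x ∈ c'.1 \ G := mem_sdiff.2 ⟨a, fun h => b (hGG h)⟩
    rw [← e] at this; exact mem_singleton.1 this

theorem shr_union {φ : Finset L → Prop} {G : Finset L} (h : Finset L) {c : Finset L}
    (hc : shr G φ c) : shr (G ∪ h) φ (c \ h) := by
  obtain ⟨c', hc', rfl⟩ := hc
  exact ⟨c', hc', by rw [sdiff_sdiff_left]; rfl⟩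

variable [Fintype L]

theorem round1 {T : L → Prop} {φ : Finset L → Prop} (h : Hits T φ) {θ : ℕ} (hθ : 1 ≤ θ) :
    ∃ G : Finset L, (∀ l ∈ G, ¬ T l) ∧ θ * G.card ≤ 2 * Fintype.card L ∧
      Hits T (add2 θ (shr G φ)) := by
  let U : Finset L → Finset L := fun G => univ.filter fun l => shr G φ {l}
  obtain ⟨G, hG, hmax⟩ := (univ.filter fun G : Finset L =>
      (∀ l ∈ G, ¬ T l) ∧ θ * G.card ≤ 2 * (U G).card).exists_max_image (fun G => (U G).card)
    ⟨∅, by simp⟩
  obtain ⟨hG1, hG2⟩ := (mem_filter.1 hG).2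
  refine ⟨G, hG1, hG2.trans (Nat.mul_le_mul_left _ (card_le_univ _)), ?_⟩
  rintro c (hc | ⟨hc2, hc⟩)
  · exact hits_shr hG1 h c hc
  by_contra hno
  push Not at hno
  obtain ⟨S, hS, hS'⟩ := atLeast_iff.1 hc
  have hG' : ∀ l ∈ G ∪ c, ¬ T l := by
    intro l hl
    rcases mem_union.1 hl with hl | hl
    · exact hG1 l hl
    · exact hno l hl
  have hsub : U G ∪ S ⊆ U (G ∪ c) := by
    intro l hl
    simp only [U, mem_union, mem_filter, mem_univ, true_and] at hl ⊢
    rcases hl with hl | hl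
    · exact shr_unit_mono h subset_union_left hG' hl
    · obtain ⟨a, -, b⟩ := hS' l hl
      have := shr_union c b
      rwa [insert_sdiff_of_notMem _ a, sdiff_self, bot_eq_empty, insert_empty_eq] at this
  have hdis : Disjoint (U G) S := by
    rw [Finset.disjoint_right]
    intro l hl hl'
    exact (hS' l hl).2.1 (mem_filter.1 hl').2
  have h1 := card_le_card hsub
  rw [card_union_of_disjoint hdis, hS] at h1
  have h2 : (G ∪ c).card ≤ G.card + 2 := hc2 ▸ card_union_le G c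
  have := hmax (G ∪ c) (mem_filter.2 ⟨mem_univ _, hG', by nlinarith⟩)
  omega

def PairLight (θ : ℕ) (φ : Finset L → Prop) : Prop :=
  ∀ h : Finset L, h.card = 2 → ¬ φ h → ¬ AtLeast θ (fun t => t ∉ h ∧ (¬ φ {t} ∧ φ (insert t h)))

omit [Fintype L] in
theorem pairLight_add2 (θ : ℕ) (φ : Finset L → Prop) : PairLight θ (add2 θ φ) := by
  rintro h h2 hn ⟨f, hf, hf'⟩
  apply hn
  refine Or.inr ⟨h2, f, hf, fun i => ?_⟩
  obtain ⟨a, b, c⟩ := hf' i
  refine ⟨a, fun e => b (Or.inl e), c.resolve_right fun e => ?_⟩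
  have := e.1
  rw [card_insert_of_notMem a] at this
  omega

omit [Fintype L] in
theorem pairLight_shr {θ : ℕ} (hθ : 1 ≤ θ) {φ : Finset L → Prop} (hs : Small3 φ)
    (h : PairLight θ φ) (G : Finset L) : PairLight θ (shr G φ) := by
  rintro p h2 hn ⟨f, hf, hf'⟩
  have key : ∀ t, t ∉ p → shr G φ (insert t p) → φ (insert t p) ∧ Disjoint (insert t p) G := by
    rintro t ht ⟨c', hc', e⟩
    have h3 : (insert t p).card = 3 := by rw [card_insert_of_notMem ht, h2]
    have : c'.1 \ G = c'.1 := eq_of_subset_of_card_le sdiff_subset (by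
      rw [← e, h3]; exact c'.2)
    refine ⟨by rw [e, this]; exact hc', by rw [e]; exact sdiff_disjoint⟩
  have up : ∀ c, φ c → Disjoint c G → shr G φ c := fun c hc hd =>
    ⟨⟨c, hs c hc⟩, hc, (Finset.sdiff_eq_self_iff_disjoint.2 hd).symm⟩
  have i0 : Fin θ := ⟨0, hθ⟩
  have hd := (key _ (hf' i0).1 (hf' i0).2.2).2
  refine h p h2 (fun e => hn (up p e (disjoint_of_subset_left (subset_insert _ _) hd)))
    ⟨f, hf, fun i => ?_⟩
  obtain ⟨a, b, c⟩ := hf' i
  refine ⟨a, fun e => b (up _ e ?_), (key _ a c).1⟩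
  exact disjoint_of_subset_left (by simp) (key _ a c).2

theorem edge_drop (E : Finset (Finset L)) (W : Finset L) {M : ℕ}
    (hdeg : ∀ l, (E.filter fun e => l ∈ e).card ≤ M) :
    E.card ≤ (E.filter fun e => ∀ l ∈ e, l ∉ W).card + M * W.card := by
  have hsub : E ⊆ (E.filter fun e => ∀ l ∈ e, l ∉ W) ∪ W.biUnion fun l => E.filter fun e => l ∈ e := by
    intro e he
    by_cases h : ∀ l ∈ e, l ∉ W
    · exact mem_union_left _ (mem_filter.2 ⟨he, h⟩)
    · push Not at h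
      obtain ⟨l, h1, h2⟩ := h
      exact mem_union_right _ (mem_biUnion.2 ⟨l, h2, mem_filter.2 ⟨he, h1⟩⟩)
  refine (card_le_card hsub).trans ((card_union_le _ _).trans (Nat.add_le_add_left ?_ _))
  refine card_biUnion_le.trans ?_
  have := Finset.sum_le_card_nsmul W (fun l => (E.filter fun e => l ∈ e).card) M (fun l _ => hdeg l)
  rwa [smul_eq_mul, mul_comm] at this

theorem round2 {T : L → Prop} {φ : Finset L → Prop} (hs : Small3 φ) (h : Hits T φ) {θ : ℕ}
    (hθ : 1 ≤ θ) (hpl : PairLight θ φ) :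
    ∃ G : Finset L, θ * G.card ≤ 3 * Fintype.card L ∧ Hits T (fin3 θ (shr G φ)) := by
  let U : Finset L → Finset L := fun G => univ.filter fun l => shr G φ {l}
  have memU : ∀ G l, l ∈ U G ↔ shr G φ {l} := by intro G l; simp [U]
  let Φ : Finset L × Finset (Finset L) → ℕ := fun p => 4 * θ * (U p.1).card + p.2.card
  let Ok : Finset L × Finset (Finset L) → Prop := fun p =>
    (∀ l ∈ p.1, ¬ T l) ∧ (∀ e ∈ p.2, e.card = 2 ∧ shr p.1 φ e ∧ ∀ l ∈ e, l ∉ U p.1) ∧
      (∀ l, (p.2.filter fun e => l ∈ e).card ≤ 2 * θ) ∧ 2 * θ ^ 2 * p.1.card ≤ Φ p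
  obtain ⟨⟨G, E⟩, hG, hmax⟩ := (univ.filter Ok).exists_max_image Φ ⟨(∅, ∅), by simp [Ok]⟩
  obtain ⟨hG1, hE, hdeg, hΦ⟩ := (mem_filter.1 hG).2
  dsimp only at hG1 hE hdeg
  -- the general step
  have step : ∀ f, ¬ T f → ∀ E' : Finset (Finset L),
      (∀ e ∈ E', e.card = 2 ∧ (∀ l ∈ e, l ∉ U G) ∧
        (shr (G ∪ {f}) φ e ∨ ∃ l ∈ e, l ∈ U (G ∪ {f}))) →
      (∀ l, (E'.filter fun e => l ∈ e).card ≤ 2 * θ) →
      E.card + 2 * θ ^ 2 ≤ E'.card + 2 * θ * (U (G ∪ {f}) \ U G).card → False := by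
    intro f hf E' h1 h2 h3
    have hG' : ∀ l ∈ G ∪ {f}, ¬ T l := by
      intro l hl
      rcases mem_union.1 hl with hl | hl
      · exact hG1 l hl
      · rw [mem_singleton.1 hl]; exact hf
    have hUU : U G ⊆ U (G ∪ {f}) := fun l hl =>
      (memU _ _).2 (shr_unit_mono h subset_union_left hG' ((memU _ _).1 hl))
    set W := U (G ∪ {f}) \ U G with hW
    have hc : (U (G ∪ {f})).card = (U G).card + W.card := by
      rw [hW, card_sdiff_of_subset hUU]; have := card_le_card hUU; omega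
    have h4 := edge_drop E' W h2
    set E'' := E'.filter fun e => ∀ l ∈ e, l ∉ W with hE''
    have hout : ∀ e ∈ E'', ∀ l ∈ e, l ∉ U (G ∪ {f}) := by
      intro e he l hl hl'
      obtain ⟨a, b⟩ := mem_filter.1 he
      exact b l hl (mem_sdiff.2 ⟨hl', (h1 e a).2.1 l hl⟩)
    have hgain : Φ (G, E) + 2 * θ ^ 2 ≤ Φ (G ∪ {f}, E'') := by
      simp only [Φ]; rw [hc]; nlinarith
    have hok : Ok (G ∪ {f}, E'') := by
      refine ⟨hG', fun e he => ⟨(h1 e (mem_filter.1 he).1).1, ?_, hout e he⟩, fun l => ?_, ?_⟩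
      · rcases (h1 e (mem_filter.1 he).1).2.2 with a | ⟨l, a, b⟩
        · exact a
        · exact absurd b (hout e he l a)
      · exact (card_le_card (filter_subset_filter _ (filter_subset _ _))).trans (h2 l)
      · have : (G ∪ {f}).card ≤ G.card + 1 := by simpa using card_union_le G {f}
        dsimp only at hΦ ⊢
        nlinarith
    have := hmax _ (mem_filter.2 ⟨mem_univ _, hok⟩)
    have : 0 < θ ^ 2 := by positivity
    omega
  have oldE : ∀ f, ∀ e ∈ E, e.card = 2 ∧ (∀ l ∈ e, l ∉ U G) ∧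
      (shr (G ∪ {f}) φ e ∨ ∃ l ∈ e, l ∈ U (G ∪ {f})) := by
    intro f e he
    obtain ⟨a, b, c⟩ := hE e he
    refine ⟨a, c, ?_⟩
    have := shr_union {f} b
    by_cases hf : f ∈ e
    · obtain ⟨t, ht, rfl⟩ := exists_other a hf
      right
      refine ⟨t, by simp, (memU _ _).2 ?_⟩
      have e1 : ({f, t} : Finset L) \ {f} = {t} := by
        ext x; simp only [mem_sdiff, mem_insert, mem_singleton]
        constructor
        · rintro ⟨a | a, b⟩
          · exact absurd a b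
          · exact a
        · rintro rfl; exact ⟨Or.inr rfl, ht⟩
      rwa [e1] at this
    · left
      rwa [Finset.sdiff_eq_self_iff_disjoint.2 (by simpa using hf)] at this
  have hhits : Hits T (shr G φ) := hits_shr hG1 h
  have hvT : ∀ f, hv θ (shr G φ) f → T f := by
    intro f ⟨_, hf⟩
    by_contra hT
    apply step f hT E (oldE f) hdeg
    obtain ⟨S, hS, hS'⟩ := atLeast_iff.1 hf
    have hsub : S ⊆ U (G ∪ {f}) \ U G := by
      intro t ht
      obtain ⟨a, b, c⟩ := hS' t ht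
      refine mem_sdiff.2 ⟨(memU _ _).2 ?_, fun e => b ((memU _ _).1 e)⟩
      have := shr_union {f} c
      have e1 : ({f, t} : Finset L) \ {f} = {t} := by
        ext x; simp only [mem_sdiff, mem_insert, mem_singleton]
        constructor
        · rintro ⟨a | a, b⟩
          · exact absurd a b
          · exact a
        · rintro rfl; exact ⟨Or.inr rfl, a⟩
      rwa [e1] at this
    have := card_le_card hsub
    nlinarith
  have hv3T : ∀ f, hv3 θ (shr G φ) f → T f := by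
    intro f hf
    by_contra hT
    obtain ⟨S, hS, hS'⟩ := atLeast_iff.1 hf
    let N : Finset (Finset L) := S.image fun c => c.1.erase f
    have hN : N.card = 2 * θ ^ 2 := by
      rw [card_image_of_injOn, hS]
      intro c hc c' hc' e
      apply Subtype.ext
      have e' : c.1.erase f = c'.1.erase f := e
      rw [← insert_erase (hS' c hc).1, e', insert_erase (hS' c' hc').1]
    have hNp : ∀ e ∈ N, ∃ c, f ∈ c ∧ live θ (shr G φ) c ∧ e = c.erase f := by
      intro e he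
      obtain ⟨c, hc, rfl⟩ := mem_image.1 he
      exact ⟨c.1, (hS' c hc).1, (hS' c hc).2, rfl⟩
    have hdis : Disjoint E N := by
      rw [Finset.disjoint_right]
      intro e he he'
      obtain ⟨c, a, b, rfl⟩ := hNp e he
      exact (b.2.2 f a).2 (hE _ he').2.1
    apply step f hT (E ∪ N)
    · intro e he
      rcases mem_union.1 he with he | he
      · exact oldE f e he
      · obtain ⟨c, a, b, rfl⟩ := hNp e he
        refine ⟨by rw [card_erase_of_mem a, b.1], fun l hl hl' =>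
          (b.2.2 l (mem_of_mem_erase hl)).1.1 ((memU _ _).1 hl'), Or.inl ?_⟩
        have := shr_union {f} b.2.1
        rwa [sdiff_singleton_eq_erase] at this
    · intro l
      rw [filter_union]
      rcases (N.filter fun e => l ∈ e).eq_empty_or_nonempty with h0 | ⟨e0, he0⟩
      · rw [h0, union_empty]; exact hdeg l
      obtain ⟨he0, hl0⟩ := mem_filter.1 he0
      obtain ⟨c0, a0, b0, rfl⟩ := hNp e0 he0
      have hlc := b0.2.2 l (mem_of_mem_erase hl0)
      have hlf : l ≠ f := ne_of_mem_erase hl0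
      have d1 : (E.filter fun e => l ∈ e).card < θ := by
        apply deg_lt hlc.1.1 hlc.1.2
        intro e he
        obtain ⟨a, b⟩ := mem_filter.1 he
        exact ⟨b, (hE e a).1, (hE e a).2.1, fun t ht e' => (hE e a).2.2 t ht ((memU _ _).2 e')⟩
      have third : ∀ e ∈ N.filter (fun e => l ∈ e), ∃ t, e = {l, t} ∧ t ∉ ({f, l} : Finset L) ∧
          ¬ shr G φ {t} ∧ shr G φ (insert t {f, l}) ∧ ¬ shr G φ {f, l} := by
        intro e he
        obtain ⟨he, hl⟩ := mem_filter.1 he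
        obtain ⟨c, a, b, rfl⟩ := hNp e he
        obtain ⟨t, ht, e1⟩ := exists_other (by rw [card_erase_of_mem a, b.1]) hl
        have htm : t ∈ c.erase f := by rw [e1]; simp
        have htf : t ≠ f := ne_of_mem_erase htm
        have hc : c = insert t {f, l} := by
          rw [← insert_erase a, e1]
          ext x; simp only [mem_insert, mem_singleton]; tauto
        have hnt : t ∉ ({f, l} : Finset L) := by simp [htf, ht]
        refine ⟨t, e1, hnt, (b.2.2 t (mem_of_mem_erase htm)).1.1, hc ▸ b.2.1, ?_⟩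
        have := (b.2.2 t (mem_of_mem_erase htm)).2
        rwa [hc, erase_insert hnt] at this
      have d2 : (N.filter fun e => l ∈ e).card < θ := by
        obtain ⟨-, -, -, -, -, hn⟩ := third _ (mem_filter.2 ⟨he0, hl0⟩)
        have hna := pairLight_shr hθ hs hpl G {f, l} (card_pair hlf.symm) hn
        choose t ht using fun e : (N.filter fun e => l ∈ e) => third e.1 e.2
        have hinj : Function.Injective t := by
          intro c c' e
          apply Subtype.ext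
          rw [(ht c).1, (ht c').1, e]
        have := card_lt_of_not_atLeast hna (univ.map ⟨t, hinj⟩) (by
          intro a ha
          obtain ⟨c, -, rfl⟩ := mem_map.1 ha
          exact ⟨(ht c).2.1, (ht c).2.2.1, (ht c).2.2.2.1⟩)
        simpa using this
      have := card_union_le (E.filter fun e => l ∈ e) (N.filter fun e => l ∈ e)
      omega
    · rw [card_union_of_disjoint hdis, hN]; omega
  refine ⟨G, ?_, ?_⟩
  · have h1 := edge_drop E univ hdeg
    have h2 : (E.filter fun e => ∀ l ∈ e, l ∉ (univ : Finset L)) = ∅ := by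
      apply filter_eq_empty_iff.2
      intro e he hc
      obtain ⟨l, hl⟩ : e.Nonempty := card_pos.1 (by rw [(hE e he).1]; norm_num)
      exact hc l hl (mem_univ l)
    rw [h2, card_empty, card_univ] at h1
    have h3 : (U G).card ≤ Fintype.card L := card_le_univ _
    simp only [Φ] at hΦ
    have h4 : 2 * θ * (θ * G.card) ≤ 2 * θ * (3 * Fintype.card L) := by nlinarith
    exact Nat.le_of_mul_le_mul_left h4 (by omega)
  · rintro c ((⟨-, hc⟩ | ⟨l, rfl, hc | hc | hc⟩) | ⟨-, hc, -⟩ | ⟨⟨-, hc, -⟩, -⟩)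
    · exact hhits c hc
    · exact hhits _ hc
    · exact ⟨l, mem_singleton_self l, hvT l hc⟩
    · exact ⟨l, mem_singleton_self l, hv3T l hc⟩
    · exact hhits c hc
    · exact hhits c hc

/-- the sparsified formula for the guesses `G0`, `G` -/
def sp (θ : ℕ) (G0 G : Finset L) (φ : Finset L → Prop) : Finset L → Prop :=
  fin3 θ (shr G (add2 θ (shr G0 φ)))

omit [Fintype L] in
theorem sp_sound {T : L → Prop} {θ : ℕ} {G0 G : Finset L} {φ : Finset L → Prop} (hs : Small3 φ)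
    (h : Hits T (sp θ G0 G φ)) : Hits T φ := by
  have h1 := hits_of_shr (add2_small (shr_small _ _)) (hits_of_fin3 (shr_small _ _) h)
  exact hits_of_shr hs (fun c hc => h1 c (Or.inl hc))

theorem sp_complete {T : L → Prop} {θ : ℕ} (hθ : 1 ≤ θ) {φ : Finset L → Prop} (h : Hits T φ) :
    ∃ G0 G : Finset L, θ * G0.card ≤ 3 * Fintype.card L ∧ θ * G.card ≤ 3 * Fintype.card L ∧
      Hits T (sp θ G0 G φ) := by
  obtain ⟨G0, -, h1, h2⟩ := round1 h hθ
  obtain ⟨G, h3, h4⟩ := round2 (add2_small (shr_small _ _)) h2 hθ (pairLight_add2 _ _)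
  exact ⟨G0, G, by omega, h3, h4⟩

end Pool.Agent.P.MP_b53add_lc
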