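import Pool.Agent.P.MP_b53add_lc.Sparse
import Pool.Agent.P.MP_b53add_lc.Defs

set_option autoImplicit false

namespace Pool.Agent.P.MP_b53add_lc

open Finset Classical

section AC

variable {I L : Type} [Nonempty I] [DecidableEq L] [Fintype L] {B θ : ℕ}

/-- the size parameter dominates all index sets -/
structure Big (L : Type) [Fintype L] [DecidableEq L] (B θ : ℕ) : Prop where
  h4 : 4 ≤ B
  hL : Fintype.card L + 2 ≤ B
  hC : Fintype.card (Cl L) + 2 ≤ B
  hLθ : Fintype.card L ^ θ + 2 ≤ B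
  hθ : θ + 2 ≤ B
  hCθ : Fintype.card (Cl L) ^ (2 * θ ^ 2) + 2 ≤ B
  hθ2 : 2 * θ ^ 2 + 2 ≤ B

theorem sm_shr (hB : Big L B θ) {k : ℕ} {F : (I → Prop) → Finset L → Prop}
    (hF : ∀ c, Sm B k (fun ξ => F ξ c)) (G c : Finset L) :
    Sm B (k + 1) (fun ξ => shr G (F ξ) c) :=
  (sm_ex hB.h4 (J := Cl L) hB.hC fun c' => Sm.guard hB.h4 (c = c'.1 \ G) (hF c'.1)).congr
    fun ξ => by simp only [shr, and_comm]

theorem sm_add2 (hB : Big L B θ) {k : ℕ} {F : (I → Prop) → Finset L → Prop}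
    (hF : ∀ c, Sm B k (fun ξ => F ξ c)) (c : Finset L) :
    Sm B (k + 5) (fun ξ => add2 θ (F ξ) c) :=
  Sm.or hB.h4 ((hF c).mono hB.h4 (by omega)) (Sm.guard hB.h4 _
    (sm_atLeast hB.h4 hB.hLθ hB.hθ fun t => Sm.guard hB.h4 _
      (Sm.and hB.h4 ((hF {t}).not hB.h4) ((hF (insert t c)).mono hB.h4 (by omega)))))

theorem sm_hv (hB : Big L B θ) {k : ℕ} {F : (I → Prop) → Finset L → Prop}
    (hF : ∀ c, Sm B k (fun ξ => F ξ c)) (l : L) :
    Sm B (k + 5) (fun ξ => hv θ (F ξ) l) :=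
  Sm.and hB.h4 (((hF {l}).not hB.h4).mono hB.h4 (by omega))
    (sm_atLeast hB.h4 hB.hLθ hB.hθ fun t => Sm.guard hB.h4 _
      (Sm.and hB.h4 ((hF {t}).not hB.h4) ((hF {l, t}).mono hB.h4 (by omega))))

theorem sm_free (hB : Big L B θ) {k : ℕ} {F : (I → Prop) → Finset L → Prop}
    (hF : ∀ c, Sm B k (fun ξ => F ξ c)) (l : L) :
    Sm B (k + 7) (fun ξ => ¬ F ξ {l} ∧ ¬ hv θ (F ξ) l) :=
  Sm.and hB.h4 (((hF {l}).not hB.h4).mono hB.h4 (by omega)) ((sm_hv hB hF l).not hB.h4)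

theorem sm_live (hB : Big L B θ) {k : ℕ} {F : (I → Prop) → Finset L → Prop}
    (hF : ∀ c, Sm B k (fun ξ => F ξ c)) (c : Finset L) :
    Sm B (k + 10) (fun ξ => live θ (F ξ) c) :=
  Sm.guard hB.h4 _ (Sm.and hB.h4 ((hF c).mono hB.h4 (by omega))
    (sm_all hB.h4 hB.hL fun l => Sm.guard_imp hB.h4 _
      (Sm.and hB.h4 (sm_free hB hF l) (((hF (c.erase l)).not hB.h4).mono hB.h4 (by omega)))))

theorem sm_hv3 (hB : Big L B θ) {k : ℕ} {F : (I → Prop) → Finset L → Prop}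
    (hF : ∀ c, Sm B k (fun ξ => F ξ c)) (l : L) :
    Sm B (k + 12) (fun ξ => hv3 θ (F ξ) l) :=
  sm_atLeast hB.h4 hB.hCθ hB.hθ2 fun c : Cl L => Sm.guard hB.h4 _ (sm_live hB hF c.1)

theorem sm_fin3 (hB : Big L B θ) {k : ℕ} {F : (I → Prop) → Finset L → Prop}
    (hF : ∀ c, Sm B k (fun ξ => F ξ c)) (c : Finset L) :
    Sm B (k + 17) (fun ξ => fin3 θ (F ξ) c) :=
  Sm.or hB.h4
    (Sm.or hB.h4 (Sm.guard hB.h4 _ ((hF c).mono hB.h4 (by omega)))
      (sm_ex hB.h4 hB.hL fun l => Sm.guard hB.h4 _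
        (Sm.or hB.h4 ((hF {l}).mono hB.h4 (by omega))
          (Sm.or hB.h4 ((sm_hv hB hF l).mono hB.h4 (by omega)) (sm_hv3 hB hF l)))))
    (Sm.or hB.h4
      (Sm.guard hB.h4 _ (Sm.and hB.h4 ((hF c).mono hB.h4 (by omega))
        ((sm_all hB.h4 hB.hL fun l => Sm.guard_imp hB.h4 _ (sm_free hB hF l)).mono hB.h4
          (by omega : k + 7 + 1 ≤ k + 14))))
      (Sm.and hB.h4 ((sm_live hB hF c).mono hB.h4 (by omega))
        (sm_all hB.h4 hB.hL fun l => Sm.guard_imp hB.h4 _ ((sm_hv3 hB hF l).not hB.h4))))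

theorem sm_sp (hB : Big L B θ) {F : (I → Prop) → Finset L → Prop}
    (hF : ∀ c, Sm B 0 (fun ξ => F ξ c)) (G0 G c : Finset L) :
    Sm B 24 (fun ξ => sp θ G0 G (F ξ) c) :=
  sm_fin3 hB (sm_shr hB (sm_add2 hB (sm_shr hB hF G0)) G) c

end AC

/-- the formula given by an indicator vector -/
def form {L : Type} (ξ : Cl L → Prop) (c : Finset L) : Prop := ∃ h : c.card ≤ 3, ξ ⟨c, h⟩

theorem sem_bool {I : Type} (C : Circ I) (o : Fin C.m) (x : I → Bool) :
    (∃ v : Fin C.m → Bool,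
      (∀ j : Fin C.m,
        (C.kind j = 0 → (v j = true ↔
          ((∃ i ∈ C.inp j, x i = true) ∨ ∃ k ∈ C.prd j, v k = true))) ∧
        (C.kind j = 1 → (v j = true ↔
          ((∀ i ∈ C.inp j, x i = true) ∧ ∀ k ∈ C.prd j, v k = true))) ∧
        (C.kind j = 2 → (v j = true ↔
          ¬ ((∀ i ∈ C.inp j, x i = true) ∧ ∀ k ∈ C.prd j, v k = true)))) ∧
      v o = true) ↔ ∃ g, C.Sem (fun i => x i = true) g ∧ g o := by
  constructor
  · rintro ⟨v, hv, ho⟩
    exact ⟨fun j => v j = true, hv, ho⟩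
  · rintro ⟨g, hg, ho⟩
    refine ⟨fun j => decide (g j), fun j => ?_, by simpa using ho⟩
    simp only [decide_eq_true_eq]
    exact hg j

def Occ (n c : ℕ) (x : Cl (Fin n × Bool) → Bool) : Prop :=
  ∀ v : Fin n, (univ.filter fun cl : Cl (Fin n × Bool) =>
    x cl = true ∧ ((v, true) ∈ cl.1 ∨ (v, false) ∈ cl.1)).card ≤ c

def guesses (n θ : ℕ) : Finset (Finset (Fin n × Bool)) :=
  univ.filter fun G => θ * G.card ≤ 6 * n

theorem lift_solve {n d θ B : ℕ} (hθ : 1 ≤ θ) (hB : Big (Fin n × Bool) B θ) {s : ℝ}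
    (h : Solves n d s (Occ n (2 * (1 + θ + 2 * θ ^ 2)))) :
    Solves n (d + 28) (((guesses n θ).card : ℝ) ^ 2 * s *
      ((Fintype.card (Cl (Fin n × Bool)) + 2 + Fintype.card (Cl (Fin n × Bool)) * B ^ 27 : ℕ) : ℝ))
      (fun _ => True) := by
  obtain ⟨m, kind, predIn, predG, o, h1, h2, h3, ⟨lvl, h4, h5, h6⟩, h7, h8⟩ := h
  let C : Circ (Cl (Fin n × Bool)) := ⟨m, kind, predIn, predG, h1, h2⟩
  have hne : Nonempty (Cl (Fin n × Bool)) := ⟨⟨∅, by simp⟩⟩
  have hC := (C.comp o lvl h3 h4 h5).mono h6 le_rfl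
  have hform : ∀ c, Sm B 0 (fun ξ : Cl (Fin n × Bool) → Prop => form ξ c) := by
    intro c
    by_cases hc : c.card ≤ 3
    · exact (sm_inp hB.h4 0 (⟨c, hc⟩ : Cl (Fin n × Bool))).congr fun ξ => by simp [form, hc]
    · exact (sm_const hB.h4 0 False).congr fun ξ => by simp [form, hc]
  have hg0 : ∅ ∈ guesses n θ := by simp [guesses]
  have hJ : Nonempty (guesses n θ × guesses n θ) := ⟨(⟨∅, hg0⟩, ⟨∅, hg0⟩)⟩
  have hall := comp_ex (J := guesses n θ × guesses n θ) fun p =>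
    comp_subst hC fun c : Cl (Fin n × Bool) => sm_sp hB hform p.1.1 p.2.1 c.1
  obtain ⟨D, o', lvl', k1, k2, k3, k4, k5, k6⟩ := hall.toCirc
  refine ⟨D.m, D.kind, D.inp, D.prd, o', D.acyc, D.fan, k1, ⟨lvl', k2, k3, by omega⟩, ?_,
    fun x _ => ?_⟩
  · set N := Fintype.card (Cl (Fin n × Bool))
    set g := (guesses n θ).card
    have hg : 1 ≤ g := card_pos.2 ⟨∅, hg0⟩
    have hN : 1 ≤ N := Fintype.card_pos
    have k5' : D.m ≤ 1 + g * g * (m + N * B ^ 27) := by simpa [g] using k5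
    have k7 : N + D.m ≤ g ^ 2 * (N + m) * (N + 2 + N * B ^ 27) := by
      set Q := N * B ^ 27
      have hgg : 1 ≤ g * g := Nat.mul_le_mul hg hg
      have e1 : m + (N + 1 + Q) ≤ (N + m) * (N + 2 + Q) := by nlinarith
      calc N + D.m ≤ g * g * (m + (N + 1 + Q)) := by nlinarith
        _ ≤ g * g * ((N + m) * (N + 2 + Q)) := Nat.mul_le_mul_left _ e1
        _ = _ := by ring
    calc (N : ℝ) + D.m = ((N + D.m : ℕ) : ℝ) := by push_cast; rfl
      _ ≤ ((g ^ 2 * (N + m) * (N + 2 + N * B ^ 27) : ℕ) : ℝ) := by exact_mod_cast k7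
      _ = (g : ℝ) ^ 2 * ((N : ℝ) + m) * ((N + 2 + N * B ^ 27 : ℕ) : ℝ) := by push_cast; ring
      _ ≤ _ := by gcongr
  · rw [sem_bool D o' x]
    have hsat : ∀ (y : Cl (Fin n × Bool) → Bool) (φ : Finset (Fin n × Bool) → Prop), Small3 φ →
        (∀ c, y c = true ↔ φ c.1) → ((∃ a : Fin n → Bool, ∀ c : Cl (Fin n × Bool),
          y c = true → ∃ l ∈ c.1, a l.1 = l.2) ↔ ∃ a : Fin n → Bool, Hits (fun l => a l.1 = l.2) φ) := by
      intro y φ hs hy
      refine exists_congr fun a => ⟨fun h c hc => h ⟨c, hs c hc⟩ ((hy _).2 hc),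
        fun h c hc => h c.1 ((hy c).1 hc)⟩
    have hsm : Small3 (form fun i => x i = true) := fun c hc => hc.1
    rw [hsat x (form fun i => x i = true) hsm (fun c => by simp [form, c.2])]
    have hval : ∀ G0 G : Finset (Fin n × Bool),
        (∃ g, C.Sem (fun c => sp θ G0 G (form fun i => x i = true) c.1) g ∧ g o) ↔
          ∃ a : Fin n → Bool, Hits (fun l => a l.1 = l.2) (sp θ G0 G (form fun i => x i = true)) := by
      intro G0 G
      set ψ := sp θ G0 G (form fun i => x i = true) with hψ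
      let y : Cl (Fin n × Bool) → Bool := fun c => decide (ψ c.1)
      have hψs : Small3 ψ := by
        rintro c ((⟨rfl, -⟩ | ⟨l, rfl, -⟩) | ⟨h, -⟩ | ⟨⟨h, -⟩, -⟩)
        · simp
        · simp
        · omega
        · omega
      have hocc : Occ n (2 * (1 + θ + 2 * θ ^ 2)) y := by
        intro v
        have one : ∀ b, (univ.filter fun cl : Cl (Fin n × Bool) =>
            y cl = true ∧ (v, b) ∈ cl.1).card ≤ 1 + θ + 2 * θ ^ 2 := by
          intro b
          rw [← card_map (Function.Embedding.subtype _)]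
          apply occ_fin3 hθ (v, b)
          intro c hc
          obtain ⟨c', hc', rfl⟩ := mem_map.1 hc
          have := (mem_filter.1 hc').2
          exact ⟨this.2, (of_decide_eq_true this.1 : ψ c'.1)⟩
        have hsub : (univ.filter fun cl : Cl (Fin n × Bool) =>
            y cl = true ∧ ((v, true) ∈ cl.1 ∨ (v, false) ∈ cl.1)) ⊆
            (univ.filter fun cl : Cl (Fin n × Bool) => y cl = true ∧ (v, true) ∈ cl.1) ∪
            (univ.filter fun cl : Cl (Fin n × Bool) => y cl = true ∧ (v, false) ∈ cl.1) := by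
          intro c hc
          simp only [mem_filter, mem_univ, true_and, mem_union] at hc ⊢
          tauto
        have := (card_le_card hsub).trans (card_union_le _ _)
        have := one true
        have := one false
        omega
      rw [← hsat y ψ hψs (fun c => by simp [y]), ← h8 y hocc, sem_bool C o y]
      simp only [y, decide_eq_true_eq]
    obtain ⟨g, hg⟩ := D.exists_sem (fun i => x i = true)
    have e1 : (∃ g, D.Sem (fun i => x i = true) g ∧ g o') ↔ g o' :=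
      ⟨fun ⟨g', hg', h⟩ => (Circ.sem_unique hg' hg o').2 h, fun h => ⟨g, hg, h⟩⟩
    rw [e1, k6 _ g hg]
    constructor
    · rintro ⟨p, hp⟩
      obtain ⟨a, ha⟩ := (hval _ _).1 hp
      exact ⟨a, sp_sound hsm ha⟩
    · rintro ⟨a, ha⟩
      obtain ⟨G0, G, a1, a2, a3⟩ := sp_complete hθ ha
      simp only [Fintype.card_prod, Fintype.card_fin, Fintype.card_bool] at a1 a2
      exact ⟨(⟨G0, by simp only [guesses, mem_filter, mem_univ, true_and]; omega⟩,
        ⟨G, by simp only [guesses, mem_filter, mem_univ, true_and]; omega⟩),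
        (hval _ _).2 ⟨a, a3⟩⟩

theorem guesses_bound {ε : ℝ} (hε : 0 < ε) :
    ∃ θ : ℕ, 1 ≤ θ ∧ ∀ n, ((guesses n θ).card : ℝ) ≤ (2 : ℝ) ^ (ε * n) := by
  have hl2 : 0 < Real.log 2 := Real.log_pos (by norm_num)
  set lam : ℝ := min 1 (ε * Real.log 2 / 4) with hlam
  have hl0 : 0 < lam := lt_min one_pos (by positivity)
  have hl1 : lam ≤ 1 := min_le_left _ _
  have hl3 : lam ≤ ε * Real.log 2 / 4 := min_le_right _ _
  have hlog : 0 ≤ - Real.log lam := by have := Real.log_nonpos hl0.le hl1; linarith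
  obtain ⟨θ, hθ⟩ := exists_nat_ge (12 * (- Real.log lam) / (ε * Real.log 2) + 1)
  have hq : 0 ≤ 12 * (- Real.log lam) / (ε * Real.log 2) := by positivity
  have hθ1 : (1 : ℝ) ≤ θ := by linarith
  refine ⟨θ, by exact_mod_cast hθ1, fun n => ?_⟩
  have key : ∀ G ∈ guesses n θ, (1 : ℝ) ≤ Real.exp (ε * Real.log 2 / 2 * n) * lam ^ G.card := by
    intro G hG
    have h1 : θ * G.card ≤ 6 * n := (mem_filter.1 hG).2
    have h1' : (θ : ℝ) * G.card ≤ 6 * n := by exact_mod_cast h1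
    rw [← Real.exp_log (pow_pos hl0 G.card), ← Real.exp_add, Real.log_pow]
    apply Real.one_le_exp
    have h2 : 12 * (- Real.log lam) ≤ θ * (ε * Real.log 2) := by
      have : 12 * (- Real.log lam) / (ε * Real.log 2) ≤ θ := by linarith
      rwa [div_le_iff₀ (by positivity)] at this
    have h3 : (G.card : ℝ) * (12 * (- Real.log lam)) ≤ 6 * n * (ε * Real.log 2) := by
      calc (G.card : ℝ) * (12 * (- Real.log lam)) ≤ G.card * (θ * (ε * Real.log 2)) := by gcongr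
        _ = (θ * G.card) * (ε * Real.log 2) := by ring
        _ ≤ _ := by gcongr
    linarith
  have hsum : ∑ G : Finset (Fin n × Bool), lam ^ G.card = (lam + 1) ^ (n * 2) := by
    have := Finset.sum_pow_mul_eq_add_pow lam 1 (univ : Finset (Fin n × Bool))
    simpa using this
  calc ((guesses n θ).card : ℝ) = ∑ _G ∈ guesses n θ, (1 : ℝ) := by simp
    _ ≤ ∑ G ∈ guesses n θ, Real.exp (ε * Real.log 2 / 2 * n) * lam ^ G.card := sum_le_sum key
    _ ≤ ∑ G : Finset (Fin n × Bool), Real.exp (ε * Real.log 2 / 2 * n) * lam ^ G.card :=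
        sum_le_sum_of_subset_of_nonneg (subset_univ _) (fun _ _ _ => by positivity)
    _ = Real.exp (ε * Real.log 2 / 2 * n) * (lam + 1) ^ (n * 2) := by rw [← mul_sum, hsum]
    _ ≤ Real.exp (ε * Real.log 2 / 2 * n) * Real.exp lam ^ (n * 2) := by
        gcongr; exact Real.add_one_le_exp _
    _ = Real.exp (ε * Real.log 2 / 2 * n + (n * 2 : ℕ) * lam) := by
        rw [← Real.exp_nat_mul, ← Real.exp_add]
    _ ≤ Real.exp (Real.log 2 * (ε * n)) := by
        apply Real.exp_le_exp.2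
        push_cast
        have : (0 : ℝ) ≤ n := by positivity
        nlinarith
    _ = _ := by rw [Real.rpow_def_of_pos (by norm_num)]

def SubExp (a : ℕ → ℕ) : Prop :=
  ∀ ε : ℝ, 0 < ε → ∃ N, ∀ n, N ≤ n → (a n : ℝ) ≤ (2 : ℝ) ^ (ε * n)

theorem SubExp.mul {a b : ℕ → ℕ} (ha : SubExp a) (hb : SubExp b) : SubExp (fun n => a n * b n) := by
  intro ε hε
  obtain ⟨N, h⟩ := ha (ε / 2) (by positivity)
  obtain ⟨N', h'⟩ := hb (ε / 2) (by positivity)
  refine ⟨max N N', fun n hn => ?_⟩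
  push_cast
  calc (a n : ℝ) * b n ≤ (2 : ℝ) ^ (ε / 2 * n) * (2 : ℝ) ^ (ε / 2 * n) :=
        mul_le_mul (h n (le_of_max_le_left hn)) (h' n (le_of_max_le_right hn)) (by positivity)
          (by positivity)
    _ = _ := by rw [← Real.rpow_add (by norm_num)]; congr 1; ring

theorem subExp_const (c : ℕ) : SubExp (fun _ => c) := by
  intro ε hε
  obtain ⟨N, hN⟩ := exists_nat_ge (c / ε)
  refine ⟨N, fun n hn => ?_⟩
  have h1 : (c : ℝ) ≤ ε * n := by
    rw [div_le_iff₀ hε] at hN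
    have : (N : ℝ) ≤ n := by exact_mod_cast hn
    nlinarith
  calc (c : ℝ) ≤ (2 : ℝ) ^ (c : ℝ) := by
        rw [Real.rpow_natCast]; exact_mod_cast (Nat.lt_two_pow_self).le
    _ ≤ _ := Real.rpow_le_rpow_of_exponent_le (by norm_num) h1

theorem SubExp.add {a b : ℕ → ℕ} (ha : SubExp a) (hb : SubExp b) : SubExp (fun n => a n + b n) := by
  intro ε hε
  obtain ⟨N, h⟩ := ha (ε / 2) (by positivity)
  obtain ⟨N', h'⟩ := hb (ε / 2) (by positivity)
  obtain ⟨N'', h''⟩ := subExp_const 2 (ε / 2) (by positivity)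
  refine ⟨max (max N N') N'', fun n hn => ?_⟩
  have a1 := h n (le_of_max_le_left (le_of_max_le_left hn))
  have a2 := h' n (le_of_max_le_right (le_of_max_le_left hn))
  have a3 := h'' n (le_of_max_le_right hn)
  push_cast at a3 ⊢
  calc (a n : ℝ) + b n ≤ 2 * (2 : ℝ) ^ (ε / 2 * n) := by linarith
    _ ≤ (2 : ℝ) ^ (ε / 2 * n) * (2 : ℝ) ^ (ε / 2 * n) := by gcongr
    _ = _ := by rw [← Real.rpow_add (by norm_num)]; congr 1; ring

theorem SubExp.pow {a : ℕ → ℕ} (ha : SubExp a) (k : ℕ) : SubExp (fun n => a n ^ k) := by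
  induction k with
  | zero => simpa using subExp_const 1
  | succ k ih => simpa [pow_succ] using ih.mul ha

theorem subExp_cl : SubExp (fun n => Fintype.card (Cl (Fin n × Bool))) := by
  intro ε hε
  obtain ⟨θ, -, h⟩ := guesses_bound hε
  refine ⟨θ, fun n hn => le_trans ?_ (h n)⟩
  have : Fintype.card (Cl (Fin n × Bool)) ≤ (guesses n θ).card := by
    rw [← card_univ, ← card_map (Function.Embedding.subtype _)]
    apply card_le_card
    intro c hc
    obtain ⟨c', -, rfl⟩ := mem_map.1 hc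
    simp only [guesses, mem_filter, mem_univ, true_and, Function.Embedding.subtype_apply]
    have := c'.2
    nlinarith
  exact_mod_cast this

theorem big_ok (L : Type) [Fintype L] [DecidableEq L] {θ : ℕ} (hθ : 1 ≤ θ) :
    Big L ((Fintype.card (Cl L) + 2 * θ ^ 2) ^ (2 * θ ^ 2) + 2) θ := by
  have hL : Fintype.card L ≤ Fintype.card (Cl L) :=
    Fintype.card_le_of_injective (fun l => ⟨{l}, by simp⟩) (fun a b h => by simpa using h)
  set N := Fintype.card (Cl L)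
  have h1 : θ ≤ θ ^ 2 := Nat.le_self_pow (by norm_num) _
  set K := 2 * θ ^ 2 with hK
  have hK2 : 2 ≤ K := by omega
  have h2 : N + K ≤ (N + K) ^ K := Nat.le_self_pow (by omega) _
  refine ⟨by omega, by omega, by omega, ?_, by omega, ?_, by omega⟩
  · have : Fintype.card L ^ θ ≤ (N + K) ^ K :=
      (Nat.pow_le_pow_left (by omega) _).trans (Nat.pow_le_pow_right (by omega) (by omega))
    omega
  · have : N ^ K ≤ (N + K) ^ K := Nat.pow_le_pow_left (by omega) _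
    exact Nat.add_le_add_right this 2

theorem Solves.mono {n d : ℕ} {s s' : ℝ} {P P' : (Cl (Fin n × Bool) → Bool) → Prop}
    (h : Solves n d s P) (hs : s ≤ s') (hP : ∀ x, P' x → P x) : Solves n d s' P' := by
  obtain ⟨m, kind, predIn, predG, o, h1, h2, h3, h4, h7, h8⟩ := h
  exact ⟨m, kind, predIn, predG, o, h1, h2, h3, h4, h7.trans hs, fun x hx => h8 x (hP x hx)⟩

/-- constant-depth sparsification lemma -/
theorem sparsify {ε : ℝ} (hε : 0 < ε) : ∃ c N₀ : ℕ, ∀ n, N₀ ≤ n → ∀ (d : ℕ) (s : ℝ),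
    Solves n d s (Occ n c) → Solves n (d + 28) ((2 : ℝ) ^ (ε * n) * s) (fun _ => True) := by
  obtain ⟨θ, hθ, hg⟩ := guesses_bound (ε := ε / 3) (by positivity)
  obtain ⟨N₀, hN⟩ := ((subExp_cl.add (subExp_const 2)).add (subExp_cl.mul
    ((((subExp_cl.add (subExp_const (2 * θ ^ 2))).pow (2 * θ ^ 2)).add (subExp_const 2)).pow 27)))
    (ε / 3) (by positivity)
  refine ⟨2 * (1 + θ + 2 * θ ^ 2), N₀, fun n hn d s h => ?_⟩
  have hs : 0 ≤ s := by
    obtain ⟨m, -, -, -, -, -, -, -, -, h7, -⟩ := h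
    exact le_trans (by positivity) h7
  refine (lift_solve hθ (big_ok _ hθ) h).mono ?_ (fun _ h => h)
  have h1 := hN n hn
  have h2 := hg n
  calc _ ≤ ((2 : ℝ) ^ (ε / 3 * n)) ^ 2 * s * (2 : ℝ) ^ (ε / 3 * n) :=
        mul_le_mul (mul_le_mul_of_nonneg_right (pow_le_pow_left₀ (Nat.cast_nonneg _) h2 2) hs) h1
          (Nat.cast_nonneg _) (by positivity)
    _ = ((2 : ℝ) ^ (ε / 3 * n) * (2 : ℝ) ^ (ε / 3 * n) * (2 : ℝ) ^ (ε / 3 * n)) * s := by ring
    _ = _ := by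
      rw [← Real.rpow_add (by norm_num), ← Real.rpow_add (by norm_num)]; congr 2; ring

theorem sparse_equiv :
    (∃ δ : ℝ, 0 < δ ∧ ∀ d : ℕ, ∀ N₀ : ℕ, ∃ n : ℕ, N₀ ≤ n ∧ 1 ≤ n ∧
      ¬ Solves n d ((2 : ℝ) ^ (δ * (n : ℝ))) (fun _ => True)) ↔
    (∃ δ : ℝ, 0 < δ ∧ ∃ c : ℕ, ∀ d : ℕ, ∀ N₀ : ℕ, ∃ n : ℕ, N₀ ≤ n ∧ 1 ≤ n ∧
      ¬ Solves n d ((2 : ℝ) ^ (δ * (n : ℝ))) (Occ n c)) := by
  constructor
  · rintro ⟨δ, hδ, h⟩
    obtain ⟨c, N₁, hc⟩ := sparsify (ε := δ / 2) (by positivity)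
    refine ⟨δ / 2, by positivity, c, fun d N₀ => ?_⟩
    obtain ⟨n, h1, h2, h3⟩ := h (d + 28) (max N₀ N₁)
    refine ⟨n, le_of_max_le_left h1, h2, fun h4 => h3 ?_⟩
    refine (hc n (le_of_max_le_right h1) d _ h4).mono (le_of_eq ?_) (fun _ h => h)
    rw [← Real.rpow_add (by norm_num)]; congr 1; ring
  · rintro ⟨δ, hδ, c, h⟩
    refine ⟨δ, hδ, fun d N₀ => ?_⟩
    obtain ⟨n, h1, h2, h3⟩ := h d N₀
    exact ⟨n, h1, h2, fun h4 => h3 (h4.mono le_rfl fun _ _ => trivial)⟩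

end Pool.Agent.P.MP_b53add_lc
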