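import Mathlib

set_option autoImplicit false

namespace Pool.Agent.P.MP_b53add_lc

open Finset Classical

/-- every input has a certificate of size at most `w` for its value -/
def Cert {X : Type} (w : ℕ) (f : (X → Bool) → Prop) : Prop :=
  ∀ y, ∃ S : Finset X, S.card ≤ w ∧ ∀ y', (∀ i ∈ S, y' i = y i) → (f y' ↔ f y)

/-- every accepted input has a certificate of size at most `w` -/
def Cert1 {X : Type} (w : ℕ) (f : (X → Bool) → Prop) : Prop :=
  ∀ y, f y → ∃ S : Finset X, S.card ≤ w ∧ ∀ y', (∀ i ∈ S, y' i = y i) → f y'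

theorem agree_card {A B : Type} [Fintype A] [Fintype B] (D : Finset A) (a' : A → B)
    (F : Finset (A → B)) (hF : ∀ a ∈ F, ∀ p, p ∉ D → a p = a' p) :
    F.card ≤ Fintype.card B ^ D.card := by
  have : F.card ≤ (univ : Finset (D → B)).card := by
    apply Finset.card_le_card_of_injOn (fun a => fun p : D => a p.1)
    · intro a _; simp
    · intro a ha b hb hab
      funext p
      by_cases hp : p ∈ D
      · exact congrFun hab ⟨p, hp⟩
      · rw [hF a ha p hp, hF b hb p hp]
  simpa [Fintype.card_fun] using this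

theorem near_card {A C : Type} [Fintype A] [Fintype C] (D : Finset A)
    (B : Finset (C × (A → Bool))) :
    (univ.filter fun ca : C × (A → Bool) =>
      ∃ a', (ca.1, a') ∈ B ∧ ∀ p, p ∉ D → ca.2 p = a' p).card ≤ 2 ^ D.card * B.card := by
  have hsub : (univ.filter fun ca : C × (A → Bool) =>
      ∃ a', (ca.1, a') ∈ B ∧ ∀ p, p ∉ D → ca.2 p = a' p) ⊆
      B.biUnion fun b => (univ.filter fun a : A → Bool => ∀ p, p ∉ D → a p = b.2 p).image
        fun a => (b.1, a) := by
    intro ca hca
    simp only [mem_filter, mem_univ, true_and] at hca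
    obtain ⟨a', hB, h⟩ := hca
    simp only [mem_biUnion, mem_image, mem_filter, mem_univ, true_and]
    exact ⟨(ca.1, a'), hB, ca.2, h, rfl⟩
  refine (card_le_card hsub).trans ((card_biUnion_le).trans ?_)
  rw [mul_comm, ← smul_eq_mul]
  apply Finset.sum_le_card_nsmul
  intro b _
  refine card_image_le.trans ?_
  simpa using agree_card D b.2 _ (fun a ha => (mem_filter.1 ha).2)

theorem near_card' {A : Type} [Fintype A] (D : Finset A) (B : Finset (A → Bool)) :
    (univ.filter fun a : A → Bool =>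
      ∃ a', a' ∈ B ∧ ∀ p, p ∉ D → a p = a' p).card ≤ 2 ^ D.card * B.card := by
  have hsub : (univ.filter fun a : A → Bool => ∃ a', a' ∈ B ∧ ∀ p, p ∉ D → a p = a' p) ⊆
      B.biUnion fun b => (univ.filter fun a : A → Bool => ∀ p, p ∉ D → a p = b p) := by
    intro a ha
    simp only [mem_filter, mem_univ, true_and] at ha
    obtain ⟨a', hB, h⟩ := ha
    simp only [mem_biUnion, mem_filter, mem_univ, true_and]
    exact ⟨a', hB, h⟩
  refine (card_le_card hsub).trans ((card_biUnion_le).trans ?_)
  rw [mul_comm, ← smul_eq_mul]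
  apply Finset.sum_le_card_nsmul
  intro b _
  simpa using agree_card D b _ (fun a ha => (mem_filter.1 ha).2)

theorem kcount {G : Type} [Fintype G] {K : ℕ} (P : Finset (G × Fin K)) :
    (univ.filter fun k : G → Fin K => ∀ p ∈ P, k p.1 = p.2).card * K ^ P.card
      ≤ K ^ Fintype.card G := by
  rcases (univ.filter fun k : G → Fin K => ∀ p ∈ P, k p.1 = p.2).eq_empty_or_nonempty with h | h
  · rw [h]; simp
  obtain ⟨k0, hk0⟩ := h
  simp only [mem_filter, mem_univ, true_and] at hk0
  set Q := P.image Prod.fst with hQ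
  have hQc : Q.card = P.card := by
    apply card_image_of_injOn
    intro p hp q hq hpq
    have h1 := hk0 p hp
    have h2 := hk0 q hq
    ext
    · exact hpq
    · rw [← h1, ← h2, hpq]
  have hsub : (univ.filter fun k : G → Fin K => ∀ p ∈ P, k p.1 = p.2) ⊆
      (univ.filter fun k : G → Fin K => ∀ g, g ∉ Qᶜ → k g = k0 g) := by
    intro k hk
    simp only [mem_filter, mem_univ, true_and] at hk ⊢
    intro g hg
    simp only [mem_compl, not_not, hQ, mem_image] at hg
    obtain ⟨p, hp, rfl⟩ := hg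
    rw [hk p hp, hk0 p hp]
  have h1 := (card_le_card hsub).trans (agree_card Qᶜ k0 _ (fun a ha => (mem_filter.1 ha).2))
  rw [Fintype.card_fin, card_compl] at h1
  have h2 : Q.card ≤ Fintype.card G := card_le_univ Q
  calc _ ≤ K ^ (Fintype.card G - Q.card) * K ^ P.card := Nat.mul_le_mul_right _ h1
    _ = K ^ Fintype.card G := by rw [← pow_add, ← hQc]; congr 1; omega

section Switching

variable {G : Type} [Fintype G] {K : ℕ}

/-- `β` agrees with `α` outside the free starred positions -/
def Sim (k : G → Fin K) (P : Finset (G × Fin K)) (α β : G × Fin K → Bool) : Prop :=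
  ∀ p, (k p.1 ≠ p.2 ∨ p ∈ P) → β p = α p

def Bad (f : (G × Fin K → Bool) → Prop) (s : ℕ) (P : Finset (G × Fin K)) (k : G → Fin K)
    (α : G × Fin K → Bool) : Prop :=
  ∃ β0, Sim k P α β0 ∧ ∀ S : Finset (G × Fin K), S.card < s →
    ∃ β, Sim k P α β ∧ (∀ p ∈ S, β p = β0 p) ∧ ¬ (f β ↔ f β0)

def IsTerm (f : (G × Fin K → Bool) → Prop) (w : ℕ)
    (T : Finset (G × Fin K) × (G × Fin K → Bool)) : Prop :=
  T.1.card ≤ w ∧ ∀ x, (∀ p ∈ T.1, x p = T.2 p) → f x

noncomputable def rank (T : Finset (G × Fin K) × (G × Fin K → Bool)) : ℕ :=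
  (Fintype.equivFin _ T : ℕ)

theorem rank_inj {T T' : Finset (G × Fin K) × (G × Fin K → Bool)} (h : rank T = rank T') :
    T = T' := by
  unfold rank at h
  exact (Fintype.equivFin _).injective (Fin.ext h)

def First (f : (G × Fin K → Bool) → Prop) (w : ℕ)
    (T : Finset (G × Fin K) × (G × Fin K → Bool)) (β : G × Fin K → Bool) : Prop :=
  IsTerm f w T ∧ (∀ p ∈ T.1, β p = T.2 p) ∧
    ∀ T', IsTerm f w T' → (∀ p ∈ T'.1, β p = T'.2 p) → rank T ≤ rank T'

noncomputable def ov {A : Type} (D : Finset A) (τ β : A → Bool) : A → Bool :=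
  fun p => if p ∈ D then τ p else β p

noncomputable def badSet (f : (G × Fin K → Bool) → Prop) (s : ℕ) (P : Finset (G × Fin K))
    (R : (G × Fin K → Bool) → Prop) : Finset ((G → Fin K) × (G × Fin K → Bool)) :=
  univ.filter fun ka => (∀ p ∈ P, ka.1 p.1 = p.2) ∧ Bad f s P ka.1 ka.2 ∧
    ∀ β, Sim ka.1 P ka.2 β → R β

theorem step_cover {f : (G × Fin K → Bool) → Prop} {w : ℕ} (hf : Cert1 w f) {s : ℕ}
    (hs : 0 < s) (P : Finset (G × Fin K)) (R : (G × Fin K → Bool) → Prop)
    (ka : (G → Fin K) × (G × Fin K → Bool)) (h : ka ∈ badSet f s P R) :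
    ∃ T : Finset (G × Fin K) × (G × Fin K → Bool), ∃ D : Finset (G × Fin K),
      D ⊆ T.1 ∧ D.Nonempty ∧ Disjoint P D ∧ ∃ α', (ka.1, α') ∈ badSet f (s - D.card) (P ∪ D)
        (fun β => R (ov D T.2 β) ∧ First f w T (ov D T.2 β)) ∧ ∀ p, p ∉ D → ka.2 p = α' p := by
  obtain ⟨k, α⟩ := ka
  simp only [badSet, mem_filter, mem_univ, true_and] at h
  obtain ⟨hP, ⟨β0, hβ0, hbad⟩, hR⟩ := h
  dsimp only
  -- alive terms
  let Alive : Finset (G × Fin K) × (G × Fin K → Bool) → Prop := fun T =>
    IsTerm f w T ∧ ∀ p ∈ T.1, (k p.1 ≠ p.2 ∨ p ∈ P) → α p = T.2 p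
  have alive_of : ∀ β, Sim k P α β → f β → ∃ T, Alive T := by
    intro β hβ hfβ
    obtain ⟨S, hS, hS'⟩ := hf β hfβ
    refine ⟨(S, β), ⟨hS, fun x hx => hS' x hx⟩, fun p _ hp => (hβ p hp).symm⟩
  have hex : ∃ T, Alive T := by
    obtain ⟨β, hβ, -, hne⟩ := hbad ∅ (by simpa using hs)
    by_cases h1 : f β
    · exact alive_of β hβ h1
    · have h2 : f β0 := by tauto
      exact alive_of β0 hβ0 h2
  obtain ⟨T, hT, hmin⟩ : ∃ T, Alive T ∧ ∀ T', Alive T' → rank T ≤ rank T' := by
    obtain ⟨T, hT, hmin⟩ := (univ.filter Alive).exists_min_image rank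
      (by obtain ⟨T, hT⟩ := hex; exact ⟨T, by simpa using hT⟩)
    exact ⟨T, by simpa using hT, fun T' h' => hmin T' (by simpa using h')⟩
  set D := T.1.filter fun p => k p.1 = p.2 ∧ p ∉ P with hD
  have memD : ∀ p, p ∈ D ↔ p ∈ T.1 ∧ k p.1 = p.2 ∧ p ∉ P := by intro p; simp [hD]
  have hDne : D.Nonempty := by
    by_contra hne
    have hall : ∀ β, Sim k P α β → f β := by
      intro β hβ
      apply hT.1.2
      intro p hp
      have : k p.1 ≠ p.2 ∨ p ∈ P := by
        by_contra hc
        push Not at hc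
        exact hne ⟨p, (memD p).2 ⟨hp, hc.1, hc.2⟩⟩
      rw [hβ p this, hT.2 p hp this]
    obtain ⟨β, hβ, -, hne'⟩ := hbad ∅ (by simpa using hs)
    exact hne' ⟨fun _ => hall β0 hβ0, fun _ => hall β hβ⟩
  refine ⟨T, D, filter_subset _ _, hDne, ?_, ov D β0 α, ?_, ?_⟩
  · rw [Finset.disjoint_right]; intro p hp; exact ((memD p).1 hp).2.2
  · simp only [badSet, mem_filter, mem_univ, true_and]
    have simdown : ∀ β, Sim k (P ∪ D) (ov D β0 α) β → ∀ τ, Sim k P α (ov D τ β) := by
      intro β hβ τ p hp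
      have hpD : p ∉ D := by
        rw [memD]; rintro ⟨-, h1, h2⟩; rcases hp with hp | hp
        · exact hp h1
        · exact h2 hp
      have := hβ p (by rcases hp with hp | hp; exact Or.inl hp; exact Or.inr (mem_union_left _ hp))
      simpa [ov, hpD] using this
    refine ⟨?_, ⟨β0, ?_, ?_⟩, ?_⟩
    · intro p hp
      rcases mem_union.1 hp with hp | hp
      · exact hP p hp
      · exact ((memD p).1 hp).2.1
    · intro p hp
      by_cases hpD : p ∈ D
      · simp [ov, hpD]
      · simp only [ov, hpD, if_false]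
        apply hβ0 p
        rcases hp with hp | hp
        · exact Or.inl hp
        · exact Or.inr ((mem_union.1 hp).resolve_right hpD)
    · intro S hS
      obtain ⟨β, hβ, hag, hne⟩ := hbad (S ∪ D) (by
        have := card_union_le S D; omega)
      refine ⟨β, ?_, fun p hp => hag p (mem_union_left _ hp), hne⟩
      intro p hp
      by_cases hpD : p ∈ D
      · simp only [ov, hpD, if_true]; exact hag p (mem_union_right _ hpD)
      · simp only [ov, hpD, if_false]
        apply hβ p
        rcases hp with hp | hp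
        · exact Or.inl hp
        · exact Or.inr ((mem_union.1 hp).resolve_right hpD)
    · intro β hβ
      have hs' := simdown β hβ T.2
      refine ⟨hR _ hs', hT.1, ?_, ?_⟩
      · intro p hp
        by_cases hpD : p ∈ D
        · simp [ov, hpD]
        · have : k p.1 ≠ p.2 ∨ p ∈ P := by
            by_contra hc
            push Not at hc
            exact hpD ((memD p).2 ⟨hp, hc.1, hc.2⟩)
          rw [hs' p this, hT.2 p hp this]
      · intro T' hT' hsat
        apply hmin T'
        refine ⟨hT', fun p hp hp' => ?_⟩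
        rw [← hs' p hp', hsat p hp]
  · intro p hp; simp [ov, hp]

theorem pow_sum_le {A : Type} (S : Finset A) {w K : ℕ} (hS : S.card ≤ w) (hK : 16 * w ≤ K)
    (hK0 : 0 < K) :
    ∑ D ∈ S.powerset.filter (fun D => D.Nonempty), (8 / (K : ℝ)) ^ D.card ≤ 1 := by
  have hKr : (0 : ℝ) < K := by exact_mod_cast hK0
  have h1 : ∑ D ∈ S.powerset, (8 / (K : ℝ)) ^ D.card = (8 / (K : ℝ) + 1) ^ S.card := by
    have := Finset.sum_pow_mul_eq_add_pow (8 / (K : ℝ)) 1 S
    simpa using this
  have h2 : ∑ D ∈ S.powerset, (8 / (K : ℝ)) ^ D.card =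
      ∑ D ∈ S.powerset.filter (fun D => D.Nonempty), (8 / (K : ℝ)) ^ D.card + 1 := by
    rw [← Finset.sum_filter_add_sum_filter_not S.powerset (fun D => D.Nonempty)]
    congr 1
    have : S.powerset.filter (fun D => ¬ D.Nonempty) = {∅} := by
      ext D; simp only [mem_filter, mem_powerset, not_nonempty_iff_eq_empty, mem_singleton]
      constructor
      · exact fun h => h.2
      · rintro rfl; simp
    rw [this]; simp
  have h3 : (8 / (K : ℝ) + 1) ^ S.card ≤ 2 := by
    have ha : (0 : ℝ) ≤ 8 / K := by positivity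
    have h4 : (8 / (K : ℝ) + 1) ^ S.card ≤ Real.exp (8 / K) ^ S.card :=
      pow_le_pow_left₀ (by positivity) (Real.add_one_le_exp _) _
    rw [← Real.exp_nat_mul] at h4
    have h5 : (S.card : ℝ) * (8 / K) ≤ 1 / 2 := by
      have : (16 : ℝ) * S.card ≤ K := by
        have : 16 * S.card ≤ K := by omega
        exact_mod_cast this
      rw [mul_div_assoc', div_le_iff₀ hKr]; linarith
    have h6 : Real.exp (1 / 2) ≤ 2 := by
      have h7 : Real.exp (1 / 2) ^ 2 = Real.exp 1 := by rw [← Real.exp_nat_mul]; norm_num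
      have h8 := Real.exp_one_lt_d9
      nlinarith [Real.exp_pos (1 / 2)]
    exact h4.trans ((Real.exp_le_exp.2 h5).trans h6)
  linarith

theorem switch_aux {f : (G × Fin K → Bool) → Prop} {w : ℕ} (hf : Cert1 w f)
    (hK : 16 * w ≤ K) (hK0 : 0 < K) (s : ℕ) :
    ∀ (P : Finset (G × Fin K)) (R : (G × Fin K → Bool) → Prop),
      ((badSet f s P R).card : ℝ) * (K : ℝ) ^ P.card * 2 ^ s
        ≤ (K : ℝ) ^ Fintype.card G * (univ.filter R).card := by
  induction s using Nat.strong_induction_on with
  | _ s ih =>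
  intro P R
  have hKr : (0 : ℝ) < K := by exact_mod_cast hK0
  rcases Nat.eq_zero_or_pos s with rfl | hs
  · have hsub : badSet f 0 P R ⊆
        (univ.filter fun k : G → Fin K => ∀ p ∈ P, k p.1 = p.2) ×ˢ (univ.filter R) := by
      intro ka h
      simp only [badSet, mem_filter, mem_univ, true_and] at h
      simp only [mem_product, mem_filter, mem_univ, true_and]
      exact ⟨h.1, h.2.2 _ (fun _ _ => rfl)⟩
    have h1 := card_le_card hsub
    rw [card_product] at h1
    have h2 := kcount P
    have h3 : (badSet f 0 P R).card * K ^ P.card ≤ K ^ Fintype.card G * (univ.filter R).card := by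
      calc _ ≤ ((univ.filter fun k : G → Fin K => ∀ p ∈ P, k p.1 = p.2).card *
            (univ.filter R).card) * K ^ P.card := Nat.mul_le_mul_right _ h1
        _ = ((univ.filter fun k : G → Fin K => ∀ p ∈ P, k p.1 = p.2).card * K ^ P.card) *
            (univ.filter R).card := by ring
        _ ≤ _ := Nat.mul_le_mul_right _ h2
    simp only [pow_zero, mul_one]
    exact_mod_cast h3
  -- inductive step
  let piece : Finset (G × Fin K) × (G × Fin K → Bool) → Finset (G × Fin K) →
      Finset ((G → Fin K) × (G × Fin K → Bool)) := fun T D =>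
    univ.filter fun ka => Disjoint P D ∧ ∃ α', (ka.1, α') ∈ badSet f (s - D.card) (P ∪ D)
        (fun β => R (ov D T.2 β) ∧ First f w T (ov D T.2 β)) ∧ ∀ p, p ∉ D → ka.2 p = α' p
  let r : Finset (G × Fin K) × (G × Fin K → Bool) → ℕ := fun T =>
    (univ.filter fun β => R β ∧ First f w T β).card
  have hsub : badSet f s P R ⊆ univ.biUnion fun T : Finset (G × Fin K) × (G × Fin K → Bool) =>
      (T.1.powerset.filter (fun D => D.Nonempty)).biUnion fun D => piece T D := by
    intro ka h
    obtain ⟨T, D, h1, h2, h3, h4⟩ := step_cover hf hs P R ka h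
    simp only [mem_biUnion, mem_univ, true_and, mem_filter, mem_powerset]
    exact ⟨T, D, ⟨h1, h2⟩, by simp only [piece, mem_filter, mem_univ, true_and]; exact ⟨h3, h4⟩⟩
  have hpiece : ∀ T D, D.Nonempty → ((piece T D).card : ℝ) * (K : ℝ) ^ P.card * 2 ^ s ≤
      (K : ℝ) ^ Fintype.card G * r T * (8 / K) ^ D.card := by
    intro T D hD
    by_cases hdis : Disjoint P D
    swap
    · have : piece T D = ∅ := by simp [piece, hdis]
      rw [this]; simp only [card_empty, Nat.cast_zero, zero_mul]; positivity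
    have hDc : 0 < D.card := card_pos.2 hD
    have h1 : (piece T D).card ≤ 2 ^ D.card * (badSet f (s - D.card) (P ∪ D)
        (fun β => R (ov D T.2 β) ∧ First f w T (ov D T.2 β))).card := by
      refine le_trans (card_le_card ?_) (near_card D _)
      intro ka h
      simp only [piece, mem_filter, mem_univ, true_and] at h ⊢
      exact h.2
    have h2 := ih (s - D.card) (by omega) (P ∪ D)
      (fun β => R (ov D T.2 β) ∧ First f w T (ov D T.2 β))
    rw [card_union_of_disjoint hdis] at h2
    have h3 : (univ.filter fun β => R (ov D T.2 β) ∧ First f w T (ov D T.2 β)).card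
        ≤ 2 ^ D.card * r T := by
      refine le_trans (card_le_card ?_) (near_card' D _)
      intro β h
      simp only [mem_filter, mem_univ, true_and] at h ⊢
      exact ⟨ov D T.2 β, h, fun p hp => by simp [ov, hp]⟩
    have h4 : (2 : ℝ) ^ s ≤ 2 ^ (s - D.card) * 2 ^ D.card := by
      rw [← pow_add]; exact pow_le_pow_right₀ (by norm_num) (by omega)
    set B := (badSet f (s - D.card) (P ∪ D)
        (fun β => R (ov D T.2 β) ∧ First f w T (ov D T.2 β))).card
    have h1' : ((piece T D).card : ℝ) ≤ 2 ^ D.card * B := by exact_mod_cast h1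
    have h3' : ((univ.filter fun β => R (ov D T.2 β) ∧ First f w T (ov D T.2 β)).card : ℝ)
        ≤ 2 ^ D.card * r T := by exact_mod_cast h3
    have h5 : (B : ℝ) * K ^ (P.card + D.card) * 2 ^ (s - D.card) ≤
        (K : ℝ) ^ Fintype.card G * (2 ^ D.card * r T) := by
      refine h2.trans (mul_le_mul_of_nonneg_left (le_trans (le_of_eq ?_) h3') (by positivity))
      congr 2
      ext β; simp
    have hKD : (0 : ℝ) < (K : ℝ) ^ D.card := by positivity
    rw [div_pow, mul_div_assoc', le_div_iff₀ hKD]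
    have h8 : (8 : ℝ) ^ D.card = 2 ^ D.card * 2 ^ D.card * 2 ^ D.card := by
      rw [← mul_pow, ← mul_pow]; norm_num
    calc ((piece T D).card : ℝ) * (K : ℝ) ^ P.card * 2 ^ s * (K : ℝ) ^ D.card
        ≤ (2 ^ D.card * B) * (K : ℝ) ^ P.card * (2 ^ (s - D.card) * 2 ^ D.card) *
          (K : ℝ) ^ D.card := by gcongr
      _ = (2 ^ D.card * 2 ^ D.card) * ((B : ℝ) * K ^ (P.card + D.card) * 2 ^ (s - D.card)) := by
          rw [pow_add]; ring
      _ ≤ (2 ^ D.card * 2 ^ D.card) * ((K : ℝ) ^ Fintype.card G * (2 ^ D.card * r T)) := by gcongr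
      _ = _ := by rw [h8]; ring
  have hsumr : ∑ T, r T ≤ (univ.filter R).card := by
    rw [← card_biUnion]
    · apply card_le_card
      intro β h
      simp only [mem_biUnion, mem_univ, true_and, mem_filter] at h ⊢
      obtain ⟨T, h, -⟩ := h
      exact h
    · intro T _ T' _ hne
      rw [Function.onFun, Finset.disjoint_left]
      intro β h h'
      simp only [mem_filter, mem_univ, true_and] at h h'
      apply hne
      apply rank_inj
      exact le_antisymm (h.2.2.2 T' h'.2.1 h'.2.2.1) (h'.2.2.2 T h.2.1 h.2.2.1)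
  have hcard : ((badSet f s P R).card : ℝ) ≤ ∑ T : Finset (G × Fin K) × (G × Fin K → Bool),
      ∑ D ∈ T.1.powerset.filter (fun D => D.Nonempty), ((piece T D).card : ℝ) := by
    have := (card_le_card hsub).trans (card_biUnion_le.trans
      (Finset.sum_le_sum fun T _ => card_biUnion_le))
    exact_mod_cast this
  have hT : ∀ T : Finset (G × Fin K) × (G × Fin K → Bool),
      (∑ D ∈ T.1.powerset.filter (fun D => D.Nonempty), ((piece T D).card : ℝ)) *
        (K : ℝ) ^ P.card * 2 ^ s ≤ (K : ℝ) ^ Fintype.card G * r T := by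
    intro T
    by_cases hterm : T.1.card ≤ w
    · rw [Finset.sum_mul, Finset.sum_mul]
      calc _ ≤ ∑ D ∈ T.1.powerset.filter (fun D => D.Nonempty),
            (K : ℝ) ^ Fintype.card G * r T * (8 / K) ^ D.card :=
            Finset.sum_le_sum fun D hD => hpiece T D (mem_filter.1 hD).2
        _ = (K : ℝ) ^ Fintype.card G * r T *
            ∑ D ∈ T.1.powerset.filter (fun D => D.Nonempty), (8 / (K : ℝ)) ^ D.card := by
            rw [Finset.mul_sum]
        _ ≤ (K : ℝ) ^ Fintype.card G * r T * 1 := by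
            gcongr; exact pow_sum_le _ hterm hK hK0
        _ = _ := by ring
    · have hr : r T = 0 := by
        simp only [r, card_eq_zero, filter_eq_empty_iff, mem_univ, true_implies]
        intro β h; exact hterm h.2.1.1
      rw [Finset.sum_mul, Finset.sum_mul]
      calc _ ≤ ∑ D ∈ T.1.powerset.filter (fun D => D.Nonempty),
            (K : ℝ) ^ Fintype.card G * r T * (8 / K) ^ D.card :=
            Finset.sum_le_sum fun D hD => hpiece T D (mem_filter.1 hD).2
        _ = _ := by simp [hr]
  calc ((badSet f s P R).card : ℝ) * (K : ℝ) ^ P.card * 2 ^ s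
      ≤ (∑ T : Finset (G × Fin K) × (G × Fin K → Bool),
        ∑ D ∈ T.1.powerset.filter (fun D => D.Nonempty), ((piece T D).card : ℝ)) *
        (K : ℝ) ^ P.card * 2 ^ s := by gcongr
    _ = ∑ T : Finset (G × Fin K) × (G × Fin K → Bool),
        (∑ D ∈ T.1.powerset.filter (fun D => D.Nonempty), ((piece T D).card : ℝ)) *
        (K : ℝ) ^ P.card * 2 ^ s := by rw [Finset.sum_mul, Finset.sum_mul]
    _ ≤ ∑ T : Finset (G × Fin K) × (G × Fin K → Bool), (K : ℝ) ^ Fintype.card G * r T :=
        Finset.sum_le_sum fun T _ => hT T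
    _ = (K : ℝ) ^ Fintype.card G * ((∑ T, r T : ℕ) : ℝ) := by
        rw [← Finset.mul_sum]; push_cast; rfl
    _ ≤ _ := by gcongr

/-- The switching lemma for one star per block, with a union bound. -/
theorem switch_family {J : Type} [Fintype J] (f : J → (G × Fin K → Bool) → Prop) {w s : ℕ}
    (hf : ∀ j, Cert1 w (f j)) (hK : 16 * w ≤ K) (hK0 : 0 < K) (hJ : Fintype.card J < 2 ^ s) :
    ∃ (k : G → Fin K) (α : G × Fin K → Bool), ∀ j, ¬ Bad (f j) s ∅ k α := by
  by_contra hcon
  push Not at hcon
  have hKr : (0 : ℝ) < K := by exact_mod_cast hK0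
  have hsub : (univ : Finset ((G → Fin K) × (G × Fin K → Bool))) ⊆
      univ.biUnion fun j => badSet (f j) s ∅ (fun _ => True) := by
    intro ka _
    obtain ⟨j, hj⟩ := hcon ka.1 ka.2
    simp only [mem_biUnion, mem_univ, true_and, badSet, mem_filter]
    exact ⟨j, by simp, hj, by simp⟩
  have h1 := (card_le_card hsub).trans card_biUnion_le
  set tot : ℝ := (K : ℝ) ^ Fintype.card G * (univ : Finset (G × Fin K → Bool)).card with htot
  have h2 : ∀ j, ((badSet (f j) s ∅ (fun _ => True)).card : ℝ) * 2 ^ s ≤ tot := by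
    intro j
    have := switch_aux (hf j) hK hK0 s ∅ (fun _ => True)
    simpa [htot] using this
  have h3 : ((univ : Finset ((G → Fin K) × (G × Fin K → Bool))).card : ℝ) = tot := by
    simp [htot, Fintype.card_prod]
  have hpos : 0 < tot := by
    rw [htot]; have : 0 < (univ : Finset (G × Fin K → Bool)).card := card_pos.2 univ_nonempty
    positivity
  have h4 : tot * 2 ^ s ≤ Fintype.card J * tot := by
    calc tot * 2 ^ s ≤ (∑ j, ((badSet (f j) s ∅ (fun _ => True)).card : ℝ)) * 2 ^ s := by
          rw [← h3]; gcongr; exact_mod_cast h1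
      _ = ∑ j, ((badSet (f j) s ∅ (fun _ => True)).card : ℝ) * 2 ^ s := by rw [Finset.sum_mul]
      _ ≤ ∑ _j : J, tot := Finset.sum_le_sum fun j _ => h2 j
      _ = _ := by simp
  have h5 : (Fintype.card J : ℝ) < 2 ^ s := by exact_mod_cast hJ
  nlinarith

end Switching

end Pool.Agent.P.MP_b53add_lc
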