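import Pool.Agent.P.MP_b53add_lc.SpDefs

set_option autoImplicit false

/-! Monotone real gates of fan-in two simulate AND / OR gates of any fan-in. -/

namespace Pool.Agent.P.MP_b53add_lc.Tn

open Finset

theorem simulate {I : Type} [Fintype I] (C0 : I) {m : ℕ} (kind : Fin m → Bool)
    (P : Fin m → I ⊕ Fin m → Prop) (o : Fin m) (h1 : ∀ j i, P j (Sum.inr i) → i < j)
    (w : (I → Bool) → Fin m → Bool)
    (hw : ∀ x j, w x j = true ↔ if kind j = true then ∀ z, P j z → Sum.elim x (w x) z = true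
      else ∃ z, P j z ∧ Sum.elim x (w x) z = true) :
    ∃ (s : ℕ) (a b : Fin s → I ⊕ Fin s) (F : Fin s → ℝ → ℝ → ℝ) (o' : Fin s)
      (v : (I → Bool) → I ⊕ Fin s → ℝ),
      (∀ j k, a j = Sum.inr k ∨ b j = Sum.inr k → k < j) ∧
      (∀ j p p' q q', p ≤ p' → q ≤ q' → F j p q ≤ F j p' q') ∧
      (∀ x C, v x (Sum.inl C) = if x C = true then 1 else 0) ∧
      (∀ x j, v x (Sum.inr j) = F j (v x (a j)) (v x (b j))) ∧
      (∀ x, 0 < v x (Sum.inr o') ↔ w x o = true) ∧ s = m * (Fintype.card I + m + 1) := by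
  classical
  set M := Fintype.card I + m with hM
  have e : Fin M ≃ I ⊕ Fin m := (Fintype.equivFinOfCardEq (by simp [hM])).symm
  let E : Fin m × Fin (M + 1) ≃ Fin (m * (M + 1)) := finProdFinEquiv
  have hE : ∀ p : Fin m × Fin (M + 1), (E p).val = p.2.val + (M + 1) * p.1.val := fun p => rfl
  let u : (I → Bool) → Fin m × Fin (M + 1) → Prop := fun x g =>
    if kind g.1 = true then ∀ q : Fin M, q.val < g.2.val → P g.1 (e q) → Sum.elim x (w x) (e q) = true
    else ∃ q : Fin M, q.val < g.2.val ∧ P g.1 (e q) ∧ Sum.elim x (w x) (e q) = true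
  have hu : ∀ x j, u x (j, Fin.last M) ↔ w x j = true := by
    intro x j
    rw [hw]
    simp only [u, Fin.val_last, Fin.is_lt, true_and, forall_const]
    split_ifs
    · exact ⟨fun h z => by simpa using h (e.symm z), fun h q => h _⟩
    · exact ⟨fun ⟨q, h⟩ => ⟨_, h⟩, fun ⟨z, h⟩ => ⟨e.symm z, by simpa using h⟩⟩
  let src : I ⊕ Fin m → I ⊕ Fin (m * (M + 1)) := Sum.map id fun i => E (i, Fin.last M)
  let v : (I → Bool) → I ⊕ Fin (m * (M + 1)) → ℝ := fun x =>
    Sum.elim (fun C => if x C = true then 1 else 0) fun g => if u x (E.symm g) then 1 else 0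
  have hv : ∀ x g, v x (Sum.inr (E g)) = if u x g then 1 else 0 := fun x g => by simp [v]
  have hsrc : ∀ x z, v x (src z) = if Sum.elim x (w x) z = true then 1 else 0 := by
    rintro x (C | i)
    · rfl
    · simp only [src, Sum.map_inr, hv, hu, Sum.elim_inr]
      congr
  let a : Fin m → Fin (M + 1) → I ⊕ Fin (m * (M + 1)) := fun j =>
    Fin.cases (Sum.inl C0) fun q => Sum.inr (E (j, q.castSucc))
  let b : Fin m → Fin (M + 1) → I ⊕ Fin (m * (M + 1)) := fun j =>
    Fin.cases (Sum.inl C0) fun q => if P j (e q) then src (e q) else Sum.inl C0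
  let F : Fin m → Fin (M + 1) → ℝ → ℝ → ℝ := fun j =>
    Fin.cases (fun _ _ => if kind j = true then 1 else 0) fun q p r =>
      if P j (e q) then (if kind j = true then min p r else max p r) else p
  refine ⟨m * (M + 1), fun g => a (E.symm g).1 (E.symm g).2, fun g => b (E.symm g).1 (E.symm g).2,
    fun g => F (E.symm g).1 (E.symm g).2, E (o, Fin.last M), v, ?_, ?_, fun x C => rfl, ?_, ?_, rfl⟩
  · intro g k
    obtain ⟨⟨j, r⟩, rfl⟩ := E.surjective g
    simp only [Equiv.symm_apply_apply]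
    refine Fin.cases ?_ (fun q => ?_) r
    · simp [a, b]
    · simp only [a, b, Fin.cases_succ]
      rintro (h | h)
      · rw [← Sum.inr.inj h, Fin.lt_def, hE, hE]
        simp
      · split_ifs at h with hP
        rcases hz : e q with C | i
        · simp [hz, src] at h
        · rw [hz] at h hP
          have hi : i.val + 1 ≤ j.val := h1 j i hP
          simp only [src, Sum.map_inr] at h
          rw [← Sum.inr.inj h, Fin.lt_def, hE, hE]
          have := Nat.mul_le_mul_left (M + 1) hi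
          simp only [Fin.val_last, Fin.val_succ]
          nlinarith
  · intro g p p' r r' hp hr
    obtain ⟨⟨j, r⟩, rfl⟩ := E.surjective g
    simp only [Equiv.symm_apply_apply]
    refine Fin.cases ?_ (fun q => ?_) r
    · simp [F]
    · simp only [F, Fin.cases_succ]
      split_ifs
      · exact min_le_min hp hr
      · exact max_le_max hp hr
      · exact hp
  · intro x g
    obtain ⟨⟨j, r⟩, rfl⟩ := E.surjective g
    simp only [Equiv.symm_apply_apply, hv]
    refine Fin.cases ?_ (fun q => ?_) r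
    · simp only [F, u, Fin.cases_zero, Fin.val_zero, Nat.not_lt_zero]
      by_cases hk : kind j = true <;> simp [hk]
    · simp only [F, a, b, Fin.cases_succ, hv]
      have hs : u x (j, q.succ) ↔ if kind j = true then
          u x (j, q.castSucc) ∧ (P j (e q) → Sum.elim x (w x) (e q) = true)
          else u x (j, q.castSucc) ∨ (P j (e q) ∧ Sum.elim x (w x) (e q) = true) := by
        simp only [u, Fin.val_succ, Fin.val_castSucc]
        split_ifs
        · refine ⟨fun h => ⟨fun t ht => h t (by omega), h q (by omega)⟩, fun h t ht => ?_⟩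
          rcases (by omega : t.val < q.val ∨ t.val = q.val) with h' | h'
          · exact h.1 t h'
          · rw [Fin.ext h']
            exact h.2
        · refine ⟨fun ⟨t, ht, h⟩ => ?_, ?_⟩
          · rcases (by omega : t.val < q.val ∨ t.val = q.val) with h' | h'
            · exact Or.inl ⟨t, h', h⟩
            · rw [Fin.ext h'] at h
              exact Or.inr h
          · rintro (⟨t, ht, h⟩ | h)
            · exact ⟨t, by omega, h⟩
            · exact ⟨q, by omega, h⟩
      by_cases hP : P j (e q)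
      · simp only [hP, if_true, hsrc, hs]
        by_cases hk : kind j = true <;> by_cases h2 : u x (j, q.castSucc) <;>
          by_cases h3 : Sum.elim x (w x) (e q) = true <;> simp [hk, h2, h3]
      · simp only [hP, if_false, hs]
        by_cases hk : kind j = true <;> simp [hk]
  · intro x
    rw [hv, ← hu]
    split_ifs with h <;> simp [h]

open RealC in
theorem walk_zero {m t : ℕ} :
    walk (m := m) (fun _ : Fin t => (false, false, false)) (0, 0) = (0, 0) := by
  unfold walk
  rw [List.ofFn_const]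
  induction t with
  | zero => rfl
  | succ t ih =>
    rw [List.replicate_succ, List.foldr_cons, ih]
    simp [step]

theorem pool_nonempty (c t : ℕ) {n : ℕ} (hn : 0 < n) :
    Nonempty {C : Finset (Fin n × Bool) // Sp.InPool c t n C} := by
  refine ⟨⟨_, (⟨0, hn⟩, true), (⟨0, hn⟩, true), (⟨0, hn⟩, true), fun _ => (false, false, false),
    fun _ => (false, false, false), rfl, ?_, ?_⟩⟩ <;>
  simp [RealC.blk, walk_zero]

theorem size_bound {δ : ℝ} (hδ : 0 < δ) : ∃ n₁ : ℕ, ∀ n : ℕ, n₁ ≤ n → ∀ N m : ℕ,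
    (2 : ℝ) ^ (δ * n) ≤ ((m * (N + m + 1) : ℕ) : ℝ) → (2 : ℝ) ^ (δ / 4 * n) ≤ (N : ℝ) + m := by
  obtain ⟨n₁, h⟩ := exists_nat_ge (4 / δ)
  refine ⟨n₁, fun n hn N m hs => ?_⟩
  have h1 : (1 : ℝ) ≤ δ / 4 * n := by
    rw [div_le_iff₀ hδ] at h
    have : (n₁ : ℝ) ≤ n := by exact_mod_cast hn
    nlinarith
  set y : ℝ := 2 ^ (δ / 4 * n) with hy
  have h2 : 2 ≤ y := by
    simpa using Real.rpow_le_rpow_of_exponent_le (by norm_num : (1 : ℝ) ≤ 2) h1
  have h3 : (2 : ℝ) ^ (δ * n) = y ^ 4 := by
    rw [hy, ← Real.rpow_natCast, ← Real.rpow_mul (by norm_num)]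
    congr 1
    push_cast
    ring
  rw [h3] at hs
  push_cast at hs
  by_contra hc
  have h4 : (N : ℝ) + m < y := not_le.1 hc
  have h5 : (0 : ℝ) ≤ N := Nat.cast_nonneg _
  have h6 : (0 : ℝ) ≤ m := Nat.cast_nonneg _
  have h7 : (m : ℝ) * (N + m + 1) ≤ y * (y + 1) :=
    mul_le_mul (by linarith) (by linarith) (by linarith) (by linarith)
  have h8 : 4 ≤ y ^ 2 := by nlinarith
  nlinarith

/-- from monotone real gates to AND / OR gates of any fan-in -/
theorem any_fan_in {I : Type} (hI : Nonempty I) (hfin : Finite I) (U : (I → Bool) → Prop) (B : ℝ)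
    (R : ∀ (s : ℕ) (a b : Fin s → I ⊕ Fin s) (F : Fin s → ℝ → ℝ → ℝ) (o : Fin s)
      (v : (I → Bool) → I ⊕ Fin s → ℝ),
      (∀ j k, a j = Sum.inr k ∨ b j = Sum.inr k → k < j) →
      (∀ j p p' q q', p ≤ p' → q ≤ q' → F j p q ≤ F j p' q') →
      (∀ x C, v x (Sum.inl C) = if x C = true then 1 else 0) →
      (∀ x j, v x (Sum.inr j) = F j (v x (a j)) (v x (b j))) →
      (∀ x, 0 < v x (Sum.inr o) ↔ U x) → B ≤ s)
    {m : ℕ} (kind : Fin m → Bool) (predIn : Fin m → Finset I) (predG : Fin m → Finset (Fin m))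
    (o : Fin m) (w : (I → Bool) → Fin m → Bool) (h1 : ∀ j, ∀ i ∈ predG j, i < j)
    (h2 : ∀ x j, ¬ kind j = true → (w x j = true ↔
      (∃ i ∈ predIn j, x i = true) ∨ ∃ i ∈ predG j, w x i = true))
    (h3 : ∀ x j, kind j = true → (w x j = true ↔
      (∀ i ∈ predIn j, x i = true) ∧ ∀ i ∈ predG j, w x i = true))
    (h4 : ∀ x, w x o = true ↔ U x) : B ≤ ((m * (Nat.card I + m + 1) : ℕ) : ℝ) := by
  obtain ⟨C0⟩ := hI
  have := Fintype.ofFinite I
  obtain ⟨s, a, b, F, o', v, g1, g2, g3, g4, g5, g6⟩ := simulate C0 kind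
    (fun j => Sum.elim (fun C => C ∈ predIn j) fun i => i ∈ predG j) o (fun j i h => h1 j i h) w
    (fun x j => by
      by_cases hk : kind j = true
      · rw [if_pos hk, h3 x j hk]
        simp [Sum.forall]
      · rw [if_neg hk, h2 x j hk]
        simp [Sum.exists])
  rw [Nat.card_eq_fintype_card, ← g6]
  exact R s a b F o' v g1 g2 g3 g4 fun x => (g5 x).trans (h4 x)

end Pool.Agent.P.MP_b53add_lc.Tn
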