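import Mathlib

set_option autoImplicit false

/-! Consequences of the bound for circuits with few NOT gates. -/

namespace Pool.Agent.P.MP_b53add_lc.Tn

open Finset

/-- clauses of at most three literals -/
abbrev Cl (n : ℕ) := {c : Finset (Fin n × Bool) // c.card ≤ 3}

/-- the circuit answers satisfiability correctly on `x` -/
def Right {n m : ℕ} (kind : Fin m → Fin 3) (predIn : Fin m → Finset (Cl n))
    (predG : Fin m → Finset (Fin m)) (o : Fin m) (x : Cl n → Bool) : Prop :=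
  (∃ v : Fin m → Bool,
    (∀ j : Fin m,
      (kind j = 0 → (v j = true ↔
        ((∃ i ∈ predIn j, x i = true) ∨ ∃ i ∈ predG j, v i = true))) ∧
      (kind j = 1 → (v j = true ↔
        ((∀ i ∈ predIn j, x i = true) ∧ ∀ i ∈ predG j, v i = true))) ∧
      (kind j = 2 → (v j = true ↔
        ¬ ((∀ i ∈ predIn j, x i = true) ∧ ∀ i ∈ predG j, v i = true)))) ∧
    v o = true) ↔
  ∃ a : Fin n → Bool, ∀ c : Cl n, x c = true → ∃ l ∈ c.1, a l.1 = l.2

/-- the statement of the main theorem at `δ` -/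
def Main (δ : ℝ) : Prop := ∀ n k : ℕ,
  ¬ ∃ (m : ℕ) (kind : Fin m → Fin 3) (predIn : Fin m → Finset (Cl n))
      (predG : Fin m → Finset (Fin m)) (o : Fin m),
    (∀ j : Fin m, ∀ i ∈ predG j, i < j) ∧
    (∀ j : Fin m, kind j = 2 → (predIn j).card + (predG j).card = 1) ∧
    (∃ lvl : Fin m → ℕ,
      (∀ j : Fin m, ∀ i ∈ predG j, lvl i + (if kind j = 2 then 1 else 0) ≤ lvl j) ∧
      (∏ e ∈ Finset.range (lvl o + 1),
        ((Finset.univ.filter fun j : Fin m => kind j = 2 ∧ lvl j = e).card + 1)) * k ≤ n) ∧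
    ((Fintype.card (Cl n) : ℝ) + (m : ℝ) ≤ (2 : ℝ) ^ (δ * (k : ℝ))) ∧
    ∀ x : Cl n → Bool,
      (∀ c, x c = true → ∀ l ∈ c.1, ∀ l' ∈ c.1, l.1.val / k = l'.1.val / k) →
      Right kind predIn predG o x

theorem prod_le_two_pow {m : ℕ} (kind : Fin m → Fin 3) (lvl : Fin m → ℕ) (r : ℕ) {t : ℕ}
    (ht : (univ.filter fun j : Fin m => kind j = 2).card ≤ t) :
    (∏ e ∈ range r, ((univ.filter fun j : Fin m => kind j = 2 ∧ lvl j = e).card + 1)) ≤ 2 ^ t := by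
  have h1 : (∏ e ∈ range r, ((univ.filter fun j : Fin m => kind j = 2 ∧ lvl j = e).card + 1)) ≤
      ∏ e ∈ range r, 2 ^ (univ.filter fun j : Fin m => kind j = 2 ∧ lvl j = e).card :=
    prod_le_prod' fun e _ => Nat.lt_two_pow_self
  rw [prod_pow_eq_pow_sum] at h1
  refine h1.trans (Nat.pow_le_pow_right (by norm_num) (le_trans ?_ ht))
  have h2 := sum_card_fiberwise_eq_card_filter
    (univ.filter fun j : Fin m => kind j = 2) (range r) lvl
  simp only [filter_filter] at h2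
  rw [h2]
  exact card_le_card fun j hj => by
    simp only [mem_filter, mem_univ, true_and] at hj ⊢
    exact hj.1

theorem idx_lvl {m : ℕ} (kind : Fin m → Fin 3) (predG : Fin m → Finset (Fin m))
    (lvl : Fin m → ℕ) (h : ∀ j : Fin m, ∀ i ∈ predG j, lvl i + 1 ≤ lvl j) :
    ∀ j : Fin m, ∀ i ∈ predG j, lvl i + (if kind j = 2 then 1 else 0) ≤ lvl j := by
  intro j i hi
  have := h j i hi
  split_ifs <;> omega

theorem prod_le_depth {m : ℕ} (kind : Fin m → Fin 3) (lvl : Fin m → ℕ) (h : ∀ j, 1 ≤ lvl j)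
    {r d t : ℕ} (hr : r ≤ d) (ht : (univ.filter fun j : Fin m => kind j = 2).card ≤ t) :
    (∏ e ∈ range (r + 1), ((univ.filter fun j : Fin m => kind j = 2 ∧ lvl j = e).card + 1)) ≤
      (t + 1) ^ d := by
  rw [prod_range_succ']
  have h0 : (univ.filter fun j : Fin m => kind j = 2 ∧ lvl j = 0) = ∅ := by
    refine filter_eq_empty_iff.2 fun j _ hj => ?_
    have := h j
    omega
  rw [h0, card_empty, zero_add, mul_one]
  refine le_trans (prod_le_pow_card _ _ (t + 1) fun e _ => ?_) ?_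
  · refine Nat.succ_le_succ (le_trans (card_le_card fun j hj => ?_) ht)
    simp only [mem_filter, mem_univ, true_and] at hj ⊢
    exact hj.1
  · rw [card_range]
    exact Nat.pow_le_pow_right (Nat.succ_pos t) hr

/-- `t` NOT gates, any depth, block length `k` with `2 ^ t * k ≤ n` -/
theorem any_depth {δ : ℝ} (R : Main δ) {n k t : ℕ} (hk : 2 ^ t * k ≤ n) :
    ¬ ∃ (m : ℕ) (kind : Fin m → Fin 3) (predIn : Fin m → Finset (Cl n))
      (predG : Fin m → Finset (Fin m)) (o : Fin m),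
    (∀ j : Fin m, ∀ i ∈ predG j, i < j) ∧
    (∀ j : Fin m, kind j = 2 → (predIn j).card + (predG j).card = 1) ∧
    (univ.filter fun j : Fin m => kind j = 2).card ≤ t ∧
    ((Fintype.card (Cl n) : ℝ) + (m : ℝ) ≤ (2 : ℝ) ^ (δ * (k : ℝ))) ∧
    ∀ x : Cl n → Bool,
      (∀ c, x c = true → ∀ l ∈ c.1, ∀ l' ∈ c.1, l.1.val / k = l'.1.val / k) →
      Right kind predIn predG o x := by
  rintro ⟨m, kind, predIn, predG, o, h1, h2, h3, h4, h5⟩
  refine R n k ⟨m, kind, predIn, predG, o, h1, h2,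
    ⟨fun j => j.val, idx_lvl kind predG _ fun j i hi => h1 j i hi, ?_⟩, h4, h5⟩
  exact (Nat.mul_le_mul_right k (prod_le_two_pow kind _ _ h3)).trans hk

theorem bounded (R : ∃ δ : ℝ, 0 < δ ∧ Main δ) (t : ℕ) :
    ∃ δ : ℝ, 0 < δ ∧ ∃ N₀ : ℕ, ∀ n : ℕ, N₀ ≤ n →
    ¬ ∃ (m : ℕ) (kind : Fin m → Fin 3) (predIn : Fin m → Finset (Cl n))
      (predG : Fin m → Finset (Fin m)) (o : Fin m),
    (∀ j : Fin m, ∀ i ∈ predG j, i < j) ∧
    (∀ j : Fin m, kind j = 2 → (predIn j).card + (predG j).card = 1) ∧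
    (univ.filter fun j : Fin m => kind j = 2).card ≤ t ∧
    ((Fintype.card (Cl n) : ℝ) + (m : ℝ) ≤ (2 : ℝ) ^ (δ * (n : ℝ))) ∧
    ∀ x : Cl n → Bool, Right kind predIn predG o x := by
  obtain ⟨δ, hδ, R⟩ := R
  refine ⟨δ / (2 * 2 ^ t), by positivity, 2 ^ t, fun n hn => ?_⟩
  rintro ⟨m, kind, predIn, predG, o, h1, h2, h3, h4, h5⟩
  refine any_depth R (k := n / 2 ^ t) (t := t) (Nat.mul_div_le n _)
    ⟨m, kind, predIn, predG, o, h1, h2, h3, h4.trans ?_, fun x _ => h5 x⟩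
  refine Real.rpow_le_rpow_of_exponent_le (by norm_num) ?_
  have hp : 0 < 2 ^ t := by positivity
  have hq : 1 ≤ n / 2 ^ t := (Nat.le_div_iff_mul_le hp).2 (by omega)
  have hn2 : n ≤ 2 * 2 ^ t * (n / 2 ^ t) := by
    have := Nat.div_add_mod n (2 ^ t)
    have := Nat.mod_lt n hp
    nlinarith
  have hn3 : (n : ℝ) ≤ 2 * 2 ^ t * ((n / 2 ^ t : ℕ) : ℝ) := by exact_mod_cast hn2
  rw [div_mul_eq_mul_div, div_le_iff₀ (by positivity)]
  nlinarith

theorem depth (R : ∃ δ : ℝ, 0 < δ ∧ Main δ) :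
    ∃ δ : ℝ, 0 < δ ∧ ∀ d t n : ℕ,
    ¬ ∃ (m : ℕ) (kind : Fin m → Fin 3) (predIn : Fin m → Finset (Cl n))
      (predG : Fin m → Finset (Fin m)) (o : Fin m),
    (∀ j : Fin m, ∀ i ∈ predG j, i < j) ∧
    (∀ j : Fin m, kind j = 2 → (predIn j).card + (predG j).card = 1) ∧
    (∃ lvl : Fin m → ℕ, (∀ j : Fin m, 1 ≤ lvl j) ∧
      (∀ j : Fin m, ∀ i ∈ predG j, lvl i + 1 ≤ lvl j) ∧ lvl o ≤ d) ∧
    (univ.filter fun j : Fin m => kind j = 2).card ≤ t ∧
    ((Fintype.card (Cl n) : ℝ) + (m : ℝ) ≤ (2 : ℝ) ^ (δ * ((n / (t + 1) ^ d : ℕ) : ℝ))) ∧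
    ∀ x : Cl n → Bool, Right kind predIn predG o x := by
  obtain ⟨δ, hδ, R⟩ := R
  refine ⟨δ, hδ, fun d t n => ?_⟩
  rintro ⟨m, kind, predIn, predG, o, h1, h2, ⟨lvl, l1, l2, l3⟩, h3, h4, h5⟩
  refine R n (n / (t + 1) ^ d) ⟨m, kind, predIn, predG, o, h1, h2,
    ⟨lvl, idx_lvl kind predG _ l2, ?_⟩, h4, fun x _ => h5 x⟩
  exact (Nat.mul_le_mul_right _ (prod_le_depth kind lvl l1 l3 h3)).trans (Nat.mul_div_le n _)

theorem pow_le_rpow {δ : ℝ} (hδ : 0 < δ) (c : ℕ) : ∃ N₀ : ℕ, ∀ n : ℕ, N₀ ≤ n →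
    (n : ℝ) ^ c ≤ (2 : ℝ) ^ (δ * ((Nat.log 2 n ^ 2 : ℕ) : ℝ)) := by
  obtain ⟨L₀, hL⟩ := exists_nat_ge (2 * c / δ)
  refine ⟨2 ^ (L₀ + 1), fun n hn => ?_⟩
  have hL1 : L₀ + 1 ≤ Nat.log 2 n := Nat.le_log_of_pow_le (by norm_num) hn
  have h1 : n < 2 ^ (Nat.log 2 n + 1) := Nat.lt_pow_succ_log_self (by norm_num) n
  set L := Nat.log 2 n
  have h2 : (n : ℝ) ≤ 2 ^ (L + 1) := by exact_mod_cast h1.le
  have h3 : (n : ℝ) ^ c ≤ (2 : ℝ) ^ (((L + 1) * c : ℕ) : ℝ) := by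
    rw [Real.rpow_natCast, pow_mul]
    exact pow_le_pow_left₀ (Nat.cast_nonneg n) h2 c
  refine h3.trans (Real.rpow_le_rpow_of_exponent_le (by norm_num) ?_)
  have h4 : (L₀ : ℝ) + 1 ≤ L := by exact_mod_cast hL1
  rw [div_le_iff₀ hδ] at hL
  have h5 : (0 : ℝ) ≤ L₀ := Nat.cast_nonneg _
  have h6 : (0 : ℝ) ≤ c := Nat.cast_nonneg _
  have h7 : 2 * (c : ℝ) ≤ δ * L := by nlinarith
  push_cast
  nlinarith

theorem logarithmic (R : ∃ δ : ℝ, 0 < δ ∧ Main δ) (c : ℕ) :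
    ∃ N₀ : ℕ, ∀ n t : ℕ, N₀ ≤ n → 2 ^ t * Nat.log 2 n ^ 2 ≤ n →
    ¬ ∃ (m : ℕ) (kind : Fin m → Fin 3) (predIn : Fin m → Finset (Cl n))
      (predG : Fin m → Finset (Fin m)) (o : Fin m),
    (∀ j : Fin m, ∀ i ∈ predG j, i < j) ∧
    (∀ j : Fin m, kind j = 2 → (predIn j).card + (predG j).card = 1) ∧
    (univ.filter fun j : Fin m => kind j = 2).card ≤ t ∧
    ((Fintype.card (Cl n) : ℝ) + (m : ℝ) ≤ (n : ℝ) ^ c) ∧
    ∀ x : Cl n → Bool,
      (∀ c, x c = true → ∀ l ∈ c.1, ∀ l' ∈ c.1,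
        l.1.val / Nat.log 2 n ^ 2 = l'.1.val / Nat.log 2 n ^ 2) →
      Right kind predIn predG o x := by
  obtain ⟨δ, hδ, R⟩ := R
  obtain ⟨N₀, hN⟩ := pow_le_rpow hδ c
  refine ⟨N₀, fun n t hn ht => ?_⟩
  rintro ⟨m, kind, predIn, predG, o, h1, h2, h3, h4, h5⟩
  exact any_depth R ht ⟨m, kind, predIn, predG, o, h1, h2, h3, h4.trans (hN n hn), h5⟩

/-- the number of clauses inside one block -/
theorem card_local (n k : ℕ) (hk : 0 < k) :
    (univ.filter fun c : Cl n => ∀ l ∈ c.1, ∀ l' ∈ c.1, l.1.val / k = l'.1.val / k).card ≤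
      8 * n * k ^ 2 + 1 := by
  classical
  let B : Fin n × Bool → Finset (Fin n × Bool) := fun u => univ.filter fun l => l.1.val / k = u.1.val / k
  have hB : ∀ u, (B u).card ≤ 2 * k := by
    intro u
    have : (B u).card ≤ ((range k) ×ˢ (univ : Finset Bool)).card := by
      refine card_le_card_of_injOn (fun l => (l.1.val % k, l.2)) (fun l _ => ?_) ?_
      · simp [Nat.mod_lt _ hk]
      · intro l hl l' hl' h
        simp only [B, coe_filter, mem_univ, true_and, Set.mem_ofPred_eq] at hl hl'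
        simp only [Prod.mk.injEq] at h
        refine Prod.ext (Fin.ext ?_) h.2
        rw [← Nat.div_add_mod l.1.val k, ← Nat.div_add_mod l'.1.val k, hl, hl', h.1]
    simpa [mul_comm] using this
  let T : Finset (Finset (Fin n × Bool)) :=
    insert ∅ (univ.biUnion fun u => ((B u) ×ˢ (B u)).image fun p => {u, p.1, p.2})
  have hT : T.card ≤ 8 * n * k ^ 2 + 1 := by
    refine (card_insert_le _ _).trans (Nat.succ_le_succ ?_)
    refine (card_biUnion_le_card_mul _ _ (2 * k * (2 * k)) fun u _ => ?_).trans ?_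
    · refine card_image_le.trans ?_
      rw [card_product]
      exact Nat.mul_le_mul (hB u) (hB u)
    · simp only [card_univ, Fintype.card_prod, Fintype.card_fin, Fintype.card_bool]
      apply le_of_eq
      ring
  refine le_trans (card_le_card_of_injOn (fun c : Cl n => c.1) (fun c hc => ?_)
    fun c _ c' _ h => Subtype.ext h) hT
  simp only [coe_filter, mem_univ, true_and, Set.mem_ofPred_eq] at hc
  have key : ∀ u v w, c.1 = {u, v, w} → c.1 ∈ (T : Set (Finset (Fin n × Bool))) := by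
    intro u v w h
    refine mem_coe.2 (mem_insert_of_mem (mem_biUnion.2 ⟨u, mem_univ _, mem_image.2
      ⟨(v, w), mem_product.2 ⟨?_, ?_⟩, h.symm⟩⟩))
    · exact mem_filter.2 ⟨mem_univ _, hc v (by simp [h]) u (by simp [h])⟩
    · exact mem_filter.2 ⟨mem_univ _, hc w (by simp [h]) u (by simp [h])⟩
  have h3 := c.2
  rcases (by omega : c.1.card = 0 ∨ c.1.card = 1 ∨ c.1.card = 2 ∨ c.1.card = 3) with h | h | h | h
  · exact mem_coe.2 (mem_insert.2 (Or.inl (card_eq_zero.1 h)))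
  · obtain ⟨u, hu⟩ := card_eq_one.1 h
    exact key u u u (by simp [hu])
  · obtain ⟨u, v, -, hu⟩ := card_eq_two.1 h
    exact key u v v (by simp [hu])
  · obtain ⟨u, v, w, -, -, -, hu⟩ := card_eq_three.1 h
    exact key u v w hu

theorem le_card_local (n k : ℕ) :
    n ≤ (univ.filter fun c : Cl n => ∀ l ∈ c.1, ∀ l' ∈ c.1, l.1.val / k = l'.1.val / k).card := by
  have := card_le_card_of_injOn (s := (univ : Finset (Fin n)))
    (t := univ.filter fun c : Cl n => ∀ l ∈ c.1, ∀ l' ∈ c.1, l.1.val / k = l'.1.val / k)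
    (fun v => (⟨{(v, true)}, by simp⟩ : Cl n)) (fun v _ => by simp) (fun v _ w _ h => by
      simpa using h)
  simpa using this

theorem card_cl {n : ℕ} (hn : 9 ≤ n) : Fintype.card (Cl n) ≤ n ^ 4 := by
  have h := card_local n n (by omega)
  rw [filter_true_of_mem fun c _ l _ l' _ => by
    rw [Nat.div_eq_of_lt l.1.2, Nat.div_eq_of_lt l'.1.2], card_univ] at h
  have h1 : 1 ≤ n * n ^ 2 := Nat.succ_le_of_lt (by positivity)
  have h2 : 9 * (n * n ^ 2) ≤ n * (n * n ^ 2) := Nat.mul_le_mul_right _ hn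
  calc _ ≤ 8 * n * n ^ 2 + 1 := h
    _ ≤ n * (n * n ^ 2) := by nlinarith
    _ = n ^ 4 := by ring

theorem log_inputs (R : ∃ δ : ℝ, 0 < δ ∧ Main δ) (c : ℕ) :
    ∃ N₀ : ℕ, ∀ n k N t : ℕ, N₀ ≤ n → k = Nat.log 2 n ^ 2 →
    N = (univ.filter fun c : Cl n => ∀ l ∈ c.1, ∀ l' ∈ c.1, l.1.val / k = l'.1.val / k).card →
    2 ^ t * Nat.log 2 N ^ 7 ≤ N →
    ¬ ∃ (m : ℕ) (kind : Fin m → Fin 3) (predIn : Fin m → Finset (Cl n))
      (predG : Fin m → Finset (Fin m)) (o : Fin m),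
    (∀ j : Fin m, ∀ i ∈ predG j, i < j) ∧
    (∀ j : Fin m, kind j = 2 → (predIn j).card + (predG j).card = 1) ∧
    (univ.filter fun j : Fin m => kind j = 2).card ≤ t ∧ m ≤ N ^ c ∧
    ∀ x : Cl n → Bool,
      (∀ c, x c = true → ∀ l ∈ c.1, ∀ l' ∈ c.1, l.1.val / k = l'.1.val / k) →
      Right kind predIn predG o x := by
  obtain ⟨N₀, hN⟩ := logarithmic R (6 * c + 5)
  refine ⟨max N₀ (2 ^ 9), fun n k N t hn hk hNN ht => ?_⟩
  have hn9 : 2 ^ 9 ≤ n := le_of_max_le_right hn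
  have hL : 9 ≤ Nat.log 2 n := Nat.le_log_of_pow_le (by norm_num) hn9
  have hLn : Nat.log 2 n ≤ n := Nat.log_le_self 2 n
  have h1 : n ≤ N := hNN ▸ le_card_local n k
  have h2 : N ≤ 8 * n * k ^ 2 + 1 := hNN ▸ card_local n k (by rw [hk]; positivity)
  have h3 : Nat.log 2 n ≤ Nat.log 2 N := Nat.log_mono_right h1
  subst hk
  set L := Nat.log 2 n with hLdef
  have hpos : 1 ≤ n * L ^ 4 := Nat.succ_le_of_lt (by positivity)
  have h4 : N ≤ 9 * (n * L ^ 4) := by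
    calc N ≤ 8 * n * (L ^ 2) ^ 2 + 1 := h2
      _ = 8 * (n * L ^ 4) + 1 := by ring
      _ ≤ _ := by omega
  have h5 : 2 ^ t * L ^ 2 ≤ n := by
    have a1 : 2 ^ t * L ^ 7 ≤ 9 * (n * L ^ 4) :=
      ((Nat.mul_le_mul_left _ (Nat.pow_le_pow_left h3 7)).trans ht).trans h4
    have a2 : (2 ^ t * L ^ 2) * (9 * L ^ 4) ≤ 2 ^ t * L ^ 7 := by
      calc (2 ^ t * L ^ 2) * (9 * L ^ 4) ≤ (2 ^ t * L ^ 2) * (L * L ^ 4) :=
            Nat.mul_le_mul_left _ (Nat.mul_le_mul_right _ hL)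
        _ = _ := by ring
    have a3 : (2 ^ t * L ^ 2) * (9 * L ^ 4) ≤ n * (9 * L ^ 4) := by
      calc _ ≤ 9 * (n * L ^ 4) := a2.trans a1
        _ = _ := by ring
    exact Nat.le_of_mul_le_mul_right a3 (by positivity)
  rintro ⟨m, kind, predIn, predG, o, g1, g2, g3, g4, g5⟩
  refine hN n t (le_of_max_le_left hn) h5 ⟨m, kind, predIn, predG, o, g1, g2, g3, ?_, g5⟩
  have b1 : N ≤ n ^ 6 := by
    calc N ≤ 9 * (n * L ^ 4) := h4
      _ ≤ n * (n * n ^ 4) :=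
        Nat.mul_le_mul (by omega) (Nat.mul_le_mul_left _ (Nat.pow_le_pow_left hLn 4))
      _ = _ := by ring
  have b2 : m ≤ n ^ (6 * c + 4) := by
    calc m ≤ (n ^ 6) ^ c := g4.trans (Nat.pow_le_pow_left b1 c)
      _ = n ^ (6 * c) := (pow_mul _ _ _).symm
      _ ≤ _ := Nat.pow_le_pow_right (by omega) (by omega)
  have b3 : Fintype.card (Cl n) ≤ n ^ (6 * c + 4) :=
    (card_cl (by omega)).trans (Nat.pow_le_pow_right (by omega) (by omega))
  have b4 : Fintype.card (Cl n) + m ≤ n ^ (6 * c + 5) := by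
    calc _ ≤ 2 * n ^ (6 * c + 4) := by omega
      _ ≤ n * n ^ (6 * c + 4) := Nat.mul_le_mul_right _ (by omega)
      _ = _ := by ring
  exact_mod_cast b4

theorem log_inputs' (R : ∃ δ : ℝ, 0 < δ ∧ Main δ) (c : ℕ) :
    ∃ N₀ : ℕ, ∀ n L k N M t : ℕ, N₀ ≤ n → 2 ^ L ≤ n → n < 2 ^ (L + 1) → k = L ^ 2 →
    N = (univ.filter fun c : Cl n => ∀ l ∈ c.1, ∀ l' ∈ c.1, l.1.val / k = l'.1.val / k).card →
    2 ^ M ≤ N → N < 2 ^ (M + 1) → 2 ^ t * M ^ 7 ≤ N →
    ¬ ∃ (m : ℕ) (kind : Fin m → Fin 3) (predIn : Fin m → Finset (Cl n))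
      (predG : Fin m → Finset (Fin m)) (o : Fin m),
    (∀ j : Fin m, ∀ i ∈ predG j, i < j) ∧
    (∀ j : Fin m, kind j = 2 → (predIn j).card + (predG j).card = 1) ∧
    (univ.filter fun j : Fin m => kind j = 2).card ≤ t ∧ m ≤ N ^ c ∧
    ∀ x : Cl n → Bool,
      (∀ c, x c = true → ∀ l ∈ c.1, ∀ l' ∈ c.1, l.1.val / k = l'.1.val / k) →
      Right kind predIn predG o x := by
  obtain ⟨N₀, h⟩ := log_inputs R c
  refine ⟨N₀, fun n L k N M t hn l1 l2 hk hN m1 m2 ht => h n k N t hn ?_ hN ?_⟩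
  · rw [Nat.log_eq_of_pow_le_of_lt_pow l1 l2, hk]
  · rwa [Nat.log_eq_of_pow_le_of_lt_pow m1 m2]

end Pool.Agent.P.MP_b53add_lc.Tn
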